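import Pool.Agent.helper12.GP.CorZ
import Pool.Agent.helper63.NF.Reg0

/-!
# Agreement of the constants with a table, checks
-/

namespace Pool.Agent.helper12.GP

open Complex
open Pool.Agent.helper31.IA (Z)
open Pool.Agent.helper12.RS Pool.Agent.helper63.NF

/-- equality of constants -/
def eqZ (x y : Z) : Bool := x.a == y.a && (x.b == y.b && (x.c == y.c && x.d == y.d))

theorem eqZ_of {x y : Z} (h : eqZ x y = true) : x = y := by
  obtain ⟨a, b, c, d⟩ := x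
  obtain ⟨a', b', c', d'⟩ := y
  unfold eqZ at h
  simp only [Bool.and_eq_true, beq_iff_eq] at h
  obtain ⟨h1, h2, h3, h4⟩ := h
  rw [h1, h2, h3, h4]

/-- equality of lists from a check -/
def eqL {α : Type} (f : α → α → Bool) : List α → List α → Bool
  | [], [] => true
  | a :: s, b :: t => f a b && eqL f s t
  | _, _ => false

theorem eqL_of {α : Type} {f : α → α → Bool} (hf : ∀ a b, f a b = true → a = b) :
    ∀ s t : List α, eqL f s t = true → s = t := by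
  intro s
  induction s with
  | nil =>
    intro t h
    cases t with
    | nil => rfl
    | cons b t => exact absurd h (by simp [eqL])
  | cons a s ih =>
    intro t h
    cases t with
    | nil => exact absurd h (by simp [eqL])
    | cons b t =>
      simp only [eqL, Bool.and_eq_true] at h
      rw [hf a b h.1, ih t h.2]

/-- equality of tables of constants -/
def eq2 : List (List Z) → List (List Z) → Bool := eqL (eqL eqZ)
def eq3 : List (List (List Z)) → List (List (List Z)) → Bool := eqL (eqL (eqL eqZ))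

theorem eq2_of {s t : List (List Z)} (h : eq2 s t = true) : s = t :=
  eqL_of (eqL_of fun _ _ => eqZ_of) s t h

theorem eq3_of {s t : List (List (List Z))} (h : eq3 s t = true) : s = t :=
  eqL_of (eqL_of (eqL_of fun _ _ => eqZ_of)) s t h

/-- check of `AgZ` -/
def agZ (t : TD) (m : ℕ) (p : Pm) : Bool :=
  eqZ p.ec (zi t.ec) && (eqZ p.bc (zi t.bc) && (eq3 (zH p) (z3 t.H) &&
  (eq3 (zM p) (z3 (nth [] t.M (m + 1))) && (eq2 (zA p) (z2 (nth [] t.a (m + 1))) &&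
  (decide (nth 0 t.j (m + 1) = 0) && (eqZ p.ca (zi (nth 0 t.c (m + 1))) &&
  (eq2 (zT p) (z2 (nth [] t.t (m + 1))) && (eq2 (zS p) (z2 (sumT t (m + 1))) &&
  (eqZ p.nn (zn (m + 1)) && (eqZ p.tj (zn (2 * (m + 2))) &&
  decide (2 ^ 38 ≤ nth 0 t.y (m + 1))))))))))))

theorem agZ_of {t : TD} {m : ℕ} {p : Pm} (h : agZ t m p = true) : AgZ t m p := by
  unfold agZ at h
  simp only [Bool.and_eq_true, decide_eq_true_eq] at h
  obtain ⟨h1, h2, h3, h4, h5, h6, h7, h8, h9, h10, h11, h12⟩ := h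
  exact ⟨eqZ_of h1, eqZ_of h2, eq3_of h3, eq3_of h4, eq2_of h5, h6, eqZ_of h7, eq2_of h8, eq2_of h9,
    eqZ_of h10, eqZ_of h11, h12⟩

/-- check of `AgZ1` -/
def agZ1 (t : TD) (m : ℕ) (p : Pm) : Bool :=
  agZ t m p && (eq2 (zB p) (z2 (nth [] t.a (m + 2))) && (decide (nth 0 t.j (m + 2) = 0) &&
  eqZ p.cb (zi (nth 0 t.c (m + 2)))))

theorem agZ1_of {t : TD} {m : ℕ} {p : Pm} (h : agZ1 t m p = true) : AgZ1 t m p := by
  unfold agZ1 at h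
  simp only [Bool.and_eq_true, decide_eq_true_eq] at h
  obtain ⟨h1, h2, h3, h4⟩ := h
  exact ⟨agZ_of h1, eq2_of h2, h3, eqZ_of h4⟩

/-- check of `AgL` -/
def agL (t : TD) (p : Pm) : Bool :=
  eqZ p.C2 (zi t.C2) && (decide (p.B1 = t.B1) && (eqZ p.xa (zi (t.x2 / 2 - 1099511627776)) &&
  (decide (2199023255552 ≤ t.x2) &&
  ((decide (t.far = 0) && (eqZ p.ax (zi t.f2) && eqZ p.ay (zi t.f1))) ||
  ((decide (t.far = 2) && (eqZ p.ax (zi 0) && eqZ p.ay (zi t.f1))) ||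
  (decide (t.far = 4) && (eqZ p.ax (zi 0) && eqZ p.ay (zi 274877906944))))))))

theorem agL_of {t : TD} {p : Pm} (h : agL t p = true) : AgL t p := by
  unfold agL at h
  simp only [Bool.and_eq_true, Bool.or_eq_true, decide_eq_true_eq] at h
  obtain ⟨h1, h2, h3, h4, h5⟩ := h
  refine ⟨eqZ_of h1, h2, eqZ_of h3, h4, ?_⟩
  rcases h5 with ⟨a, b, c⟩ | ⟨a, b, c⟩ | ⟨a, b, c⟩
  · exact Or.inl ⟨a, eqZ_of b, eqZ_of c⟩
  · exact Or.inr (Or.inl ⟨a, eqZ_of b, eqZ_of c⟩)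
  · exact Or.inr (Or.inr ⟨a, eqZ_of b, eqZ_of c⟩)

/-- check of `AgF` -/
def agF (t : TD) (p : Pm) : Bool :=
  eqZ p.ec (zi t.ec) && (eqZ p.bc (zi t.bc) && (eq3 (zH p) (z3 t.H) &&
  (eq2 (zA p) (z2 (nth [] t.a 1)) && (decide (nth 0 t.j 1 = 0) && (eqZ p.ca (zi (nth 0 t.c 1)) &&
  (eq3 (zL p) (z3 t.l0) && (eq2 (zQ p) (z2 t.q0) && (eq3 (zN p) (z3 (nth [] t.M 0)) &&
  (eq2 (zE p) (z2 (nth [] t.a 0)) && (decide (nth 0 t.j 0 = 0) && (eqZ p.cc (zi (nth 0 t.c 0)) &&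
  (eq2 (zT p) (z2 (nth [] t.t 0)) && (eqZ p.tj (zn 2) && decide (2 ^ 38 ≤ nth 0 t.y 0))))))))))))))

theorem agF_of {t : TD} {p : Pm} (h : agF t p = true) : AgF t p := by
  unfold agF at h
  simp only [Bool.and_eq_true, decide_eq_true_eq] at h
  obtain ⟨h1, h2, h3, h4, h5, h6, h7, h8, h9, h10, h11, h12, h13, h14, h15⟩ := h
  exact ⟨eqZ_of h1, eqZ_of h2, eq3_of h3, eq2_of h4, h5, eqZ_of h6, eq3_of h7, eq2_of h8, eq3_of h9,
    eq2_of h10, h11, eqZ_of h12, eq2_of h13, eqZ_of h14, h15⟩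

/-- check of `AgP` -/
def agP (t : TD) (p : Pm) : Bool :=
  match t.pol with
  | none => false
  | some q => eqZ p.wr (zi q.wr) && (eqZ p.wi (zi q.wi) && (eqZ p.w1 (zi q.w1) &&
    (eq2 (zG p) (z2 q.rho) && eq2 (zF p) (z2 q.sig))))

theorem agP_of {t : TD} {p : Pm} (h : agP t p = true) : ∃ q, AgP t p q := by
  unfold agP at h
  cases hp : t.pol with
  | none =>
    rw [hp] at h
    cases h
  | some q =>
    rw [hp] at h
    simp only [Bool.and_eq_true] at h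
    obtain ⟨h1, h2, h3, h4, h5⟩ := h
    exact ⟨q, hp, eqZ_of h1, eqZ_of h2, eqZ_of h3, eq2_of h4, eq2_of h5⟩

/-- the box of `1/e` -/
theorem epc {e e0 e1 : ℝ} {c h : ℕ} (h00 : 0 < e0) (h0 : e0 ≤ e) (h1 : e ≤ e1)
    (hc : ((c : ℝ) - h) / 2 ^ 40 ≤ 1 / e1) (hh : 1 / e0 ≤ ((c : ℝ) + h) / 2 ^ 40) :
    |1 / e - (c : ℝ) / 2 ^ 40| ≤ (h : ℝ) / 2 ^ 40 := by
  have he : 0 < e := by linarith
  have h2 : 1 / e1 ≤ 1 / e := one_div_le_one_div_of_le he h1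
  have h3 : 1 / e ≤ 1 / e0 := one_div_le_one_div_of_le h00 h0
  rw [abs_le]
  rw [sub_div] at hc
  rw [add_div] at hh
  constructor <;> linarith

/-- the corner from the nodes -/
theorem corner_of {t : TD} {N0 : ℕ} {e κ : ℝ}
    (hm : ∀ m, m + 2 < N0 →
      (∀ T : ℂ, T + (Real.sinh κ : ℂ) ≠ 0 → ‖T‖ = 1 / 8 / e → ‖omT κ T‖ ≤ t.RR (m + 1) e κ →
        MidQ t.tb e κ θ0 (t.δ (m + 1) e κ) (t.Y (m + 1) e) m T) →
      ∀ T : ℂ, T + (Real.sinh κ : ℂ) ≠ 0 → ‖T‖ ≤ 1 / 8 / e → ‖omT κ T‖ ≤ t.RR (m + 1) e κ →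
        MidQ t.tb e κ θ0 (t.δ (m + 1) e κ) (t.Y (m + 1) e) m T)
    (hl : ∀ m, m + 2 = N0 →
      (∀ T : ℂ, T + (Real.sinh κ : ℂ) ≠ 0 → ‖T‖ = 1 / 8 / e → ‖omT κ T‖ ≤ t.RR (m + 1) e κ →
        LastP t.tb e κ θ0 (t.δ (m + 1) e κ) (t.Y (m + 1) e) (t.A e κ) t.x0 ((t.B1 : ℝ) / 2 ^ 40)
          m T) →
      ∀ T : ℂ, T + (Real.sinh κ : ℂ) ≠ 0 → ‖T‖ ≤ 1 / 8 / e → ‖omT κ T‖ ≤ t.RR (m + 1) e κ →
        LastP t.tb e κ θ0 (t.δ (m + 1) e κ) (t.Y (m + 1) e) (t.A e κ) t.x0 ((t.B1 : ℝ) / 2 ^ 40)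
          m T)
    (hz : ∀ η : ℝ, 0 ≤ η → |κ * η| < Real.pi / 2 → Tab.vv e κ (Tb.gR e) η ≤ 1 / 20 →
      ZeroP t.tb e κ θ0 (t.δ 0 e κ) (t.Y 0 e) ((η : ℂ) * I) (t.L0 e κ ((η : ℂ) * I))
        (t.R0 e κ ((η : ℂ) * I)) (t.M0 e κ ((η : ℂ) * I))) :
    Corner t N0 e κ (1 / 8) (1 / 20) := by
  refine ⟨?_, ?_, hz⟩
  · intro n h1 h2
    obtain ⟨m, rfl⟩ : ∃ m, n = m + 1 := ⟨n - 1, by omega⟩
    rw [Nat.add_sub_cancel]
    exact hm m (by omega)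
  · intro n h1 h2
    obtain ⟨m, rfl⟩ : ∃ m, n = m + 1 := ⟨n - 1, by omega⟩
    rw [Nat.add_sub_cancel]
    exact hl m (by omega)

end Pool.Agent.helper12.GP
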