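import Pool.Agent.helper12.GP.Pm
import Pool.Agent.helper14.QF.InstE

/-!
Generated: parametric straight line program and compiled form.
-/

namespace Pool.Agent.helper12.GP.MA

open Pool.Agent.helper31.IA (Z)
open Pool.Agent.helper31.IX (Op XOps runX Cov CovD cov_split covD_split)
open Pool.Agent.helper31.IC (Ops TD)

abbrev opsE : XOps := Pool.Agent.helper14.QF.xE

def prog0 (p : Pm) : List Op := [
  .scale ⟨549755813888, 0, 0, 0⟩ 2,
  .const ⟨1099511627776, 0, 0, 0⟩,
  .mul 3 1,
  .mul 0 3,
  .mul 5 4,
  .lt 1 91625968981,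
  .const ⟨45812984491, 0, 0, 0⟩,
  .mul 0 2,
  .const ⟨183251937963, 0, 0, 0⟩,
  .add 1 0,
  .mul 0 5,
  .const ⟨549755813888, 0, 0, 0⟩,
  .add 1 0,
  .mul 0 8,
  .const ⟨1099511627776, 0, 0, 0⟩,
  .add 1 0,
  .ball 0 530244,
  .neg 12,
  .lt 0 91625968981,
  .mul 11 0,
  .add 0 10,
  .mul 0 2,
  .add 0 9,
  .mul 0 4,
  .add 0 8,
  .ball 0 530244,
  .add 8 0,
  .scale ⟨549755813888, 0, 0, 0⟩ 0,
  .sub 10 2,
  .mul 23 0,
  .scale ⟨549755813888, 0, 0, 0⟩ 0,
  .add 0 15,
  .mul 4 0,
  .mul 5 30,
  .mul 0 0,
  .scale ⟨4398046511104, 0, 0, 0⟩ 0,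
  .mul 33 3,
  .scale ⟨2199023255552, 0, 0, 0⟩ 0,
  .mul 2 31,
  .scale ⟨549755813888, 0, 0, 0⟩ 0,
  .scale ⟨2199023255552, 0, 0, 0⟩ 35,
  .neg 0,
  .lt 0 1099511627776,
  .const ⟨218157069, 0, 0, 0⟩,
  .mul 0 1,
  .const ⟨1527099483, 0, 0, 0⟩,
  .add 1 0,
  .mul 0 4,
  .const ⟨9162596898, 0, 0, 0⟩,
  .add 1 0,
  .mul 0 7,
  .add 0 42,
  .mul 0 9,
  .add 0 42,
  .mul 0 11,
  .add 0 41,
  .mul 0 13,
  .add 0 40,
  .ball 0 30678339,
  .mul 55 0,
  .neg 0,
  .mul 59 0,
  .lt 0 274877906944,
  .const ⟨157073089682, 0, 0, 0⟩,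
  .mul 0 1,
  .const ⟨0, 183251937963, 0, 0⟩,
  .add 1 0,
  .mul 0 4,
  .const ⟨219902325555, 0, 0, 0⟩,
  .add 1 0,
  .mul 0 7,
  .const ⟨0, 274877906944, 0, 0⟩,
  .add 1 0,
  .mul 0 10,
  .const ⟨366503875925, 0, 0, 0⟩,
  .add 1 0,
  .mul 0 13,
  .const ⟨0, 549755813888, 0, 0⟩,
  .add 1 0,
  .mul 0 16,
  .add 0 62,
  .ball 0 11184812,
  .mul 20 0,
  .const p.ec,
  .const p.bc,
  .sub 81 1,
  .sub 79 1,
  .scale ⟨2199023255552, 0, 0, 0⟩ 79,
  .const p.nn,
  .const p.s11,
  .mul 0 3,
  .const p.s10,
  .add 1 0,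
  .mul 0 7,
  .const p.s03,
  .mul 0 8,
  .const p.s02,
  .add 1 0,
  .mul 0 11,
  .const p.s01,
  .add 1 0,
  .mul 0 14,
  .const p.s00,
  .add 1 0,
  .add 10 0,
  .mul 16 17,
  .neg 0,
  .lt 0 1099511627776,
  .mul 62 0,
  .add 0 61,
  .mul 0 2,
  .add 0 60,
  .mul 0 4,
  .add 0 102,
  .mul 0 6,
  .add 0 102,
  .mul 0 8,
  .add 0 101,
  .mul 0 10,
  .add 0 100,
  .ball 0 30678339,
  .mul 14 0,
  .sub 103 0,
  .const ⟨2199023255552, 0, 0, 0⟩,
  .sub 0 2,
  .mul 4 0,
  .mul 36 0,
  .mul 91 21,
  .mul 5 5,
  .mul 1 0,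
  .sub 3 0,
  .mul 42 0,
  .sub 8 0,
  .mul 127 127,
  .mul 98 3,
  .mul 1 0,
  .mul 126 0,
  .scale ⟨4398046511104, 0, 0, 0⟩ 0,
  .mul 131 5,
  .scale ⟨0, 0, 1099511627776, 0⟩ 0,
  .add 2 0,
  .mul 8 105,
  .mul 132 135,
  .mul 0 12,
  .scale ⟨0, 0, 1099511627776, 0⟩ 0,
  .add 3 0,
  .mul 110 5,
  .inv 1,
  .mul 1 0,
  .add 106 0,
  .mul 140 0,
  .add 0 132,
  .inv 0,
  .mul 3 0,
  .add 1 135,
  .mul 1 0,
  .mul 152 0,
  .neg 68,
  .exp 0,
  .const p.h400,
  .mul 0 3,
  .const p.h300,
  .add 1 0,
  .mul 0 6,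
  .const p.h210,
  .mul 0 78,
  .const p.h201,
  .mul 0 79,
  .const p.h200,
  .add 1 0,
  .add 4 0,
  .add 7 0,
  .mul 0 15,
  .const p.h120,
  .mul 0 87,
  .const p.h111,
  .mul 0 88,
  .const p.h110,
  .add 1 0,
  .add 4 0,
  .mul 0 93,
  .const p.h102,
  .mul 0 94,
  .const p.h101,
  .add 1 0,
  .mul 0 97,
  .const p.h100,
  .add 1 0,
  .add 7 0,
  .add 16 0,
  .mul 0 33,
  .const p.h030,
  .mul 0 105,
  .const p.h021,
  .mul 0 106,
  .const p.h020,
  .add 1 0,
  .add 4 0,
  .mul 0 111,
  .const p.h012,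
  .mul 0 112,
  .const p.h011,
  .add 1 0,
  .mul 0 115,
  .const p.h010,
  .add 1 0,
  .add 7 0,
  .mul 0 120,
  .const p.h003,
  .mul 0 121,
  .const p.h002,
  .add 1 0,
  .mul 0 124,
  .const p.h001,
  .add 1 0,
  .mul 0 127,
  .const p.h000,
  .add 1 0,
  .add 10 0,
  .add 28 0,
  .scale ⟨2199023255552, 0, 0, 0⟩ 214,
  .sub 72 180,
  .add 63 69,
  .mul 64 0,
  .mul 71 0,
  .mul 3 0,
  .add 6 210,
  .mul 1 0,
  .add 7 0,
  .const p.a11,
  .mul 0 142,
  .const p.a10,
  .add 1 0,
  .mul 0 146,
  .const p.a03,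
  .mul 0 147,
  .const p.a02,
  .add 1 0,
  .mul 0 150,
  .const p.a01,
  .add 1 0,
  .mul 0 153,
  .const p.a00,
  .add 1 0,
  .add 10 0,
  .scale ⟨2199023255552, 0, 0, 0⟩ 0,
  .const p.ca,
  .add 98 206,
  .mul 2 0,
  .mul 245 100,
  .mul 3 0,
  .add 0 232,
  .inv 0,
  .mul 4 0,
  .mul 250 25,
  .neg 0,
  .lt 0 1099511627776,
  .mul 210 0,
  .add 0 209,
  .mul 0 2,
  .add 0 208,
  .mul 0 4,
  .add 0 250,
  .mul 0 6,
  .add 0 250,
  .mul 0 8,
  .add 0 249,
  .mul 0 10,
  .add 0 248,
  .ball 0 30678339,
  .mul 40 0,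
  .scale ⟨0, 549755813888, 0, 0⟩ 0,
  .mul 267 0,
  .scale ⟨2199023255552, 0, 0, 0⟩ 0,
  .add 0 254,
  .lt 2 412316860416,
  .const ⟨122167958642, 0, 0, 0⟩,
  .mul 0 3,
  .const ⟨0, 137438953472, 0, 0⟩,
  .add 1 0,
  .mul 0 6,
  .add 0 214,
  .mul 0 8,
  .add 0 214,
  .mul 0 10,
  .add 0 213,
  .mul 0 12,
  .add 0 212,
  .mul 0 14,
  .add 0 211,
  .mul 0 16,
  .add 0 210,
  .mul 0 18,
  .add 0 272,
  .ball 0 25798904,
  .mul 22 0,
  .mul 40 292,
  .mul 21 0,
  .mul 292 0,
  .lt 0 412316860416,
  .mul 22 0,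
  .add 0 21,
  .mul 0 2,
  .add 0 235,
  .mul 0 4,
  .add 0 235,
  .mul 0 6,
  .add 0 234,
  .mul 0 8,
  .add 0 233,
  .mul 0 10,
  .add 0 232,
  .mul 0 12,
  .add 0 231,
  .mul 0 14,
  .add 0 293,
  .ball 0 25798904,
  .mul 18 0,
  .mul 311 20,
  .neg 0,
  .lt 0 412316860416,
  .mul 42 0,
  .add 0 41,
  .mul 0 2,
  .add 0 255,
  .mul 0 4,
  .add 0 255,
  .mul 0 6,
  .add 0 254,
  .mul 0 8,
  .add 0 253,
  .mul 0 10,
  .add 0 252,
  .mul 0 12,
  .add 0 251,
  .mul 0 14,
  .add 0 313,
  .ball 0 25798904,
  .mul 39 0,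
  .neg 0,
  .sub 21 0,
  .add 0 108,
  .add 332 254,
  .add 0 3,
  .sub 0 111,
  .sub 0 47,
  .mul 332 4,
  .lt 0 274877906944,
  .mul 332 0,
  .add 0 331,
  .mul 0 2,
  .add 0 330,
  .mul 0 4,
  .add 0 329,
  .ball 0 42949674,
  .mul 12 0,
  .mul 341 0,
  .add 0 333,
  .scale ⟨2199023255552, 0, 0, 0⟩ 11,
  .add 0 16,
  .mul 345 0,
  .neg 0,
  .lt 0 274877906944,
  .mul 346 0,
  .add 0 345,
  .mul 0 2,
  .add 0 344,
  .mul 0 4,
  .add 0 343,
  .ball 0 42949674,
  .mul 7 0,
  .add 0 346,
  .add 13 347,
  .mul 328 1,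
  .mul 0 1,
  .mul 359 0,
  .mul 214 17,
  .add 1 0,
  .mul 362 0,
  .lt 0 412316860416,
  .mul 98 0,
  .add 0 97,
  .mul 0 2,
  .add 0 311,
  .mul 0 4,
  .add 0 311,
  .mul 0 6,
  .add 0 310,
  .mul 0 8,
  .add 0 309,
  .mul 0 10,
  .add 0 308,
  .mul 0 12,
  .add 0 307,
  .mul 0 14,
  .add 0 369,
  .ball 0 25798904,
  .mul 18 0,
  .mul 381 0,
  .scale ⟨549755813888, 0, 0, 0⟩ 0,
  .lt 0 274877906944,
  .mul 382 0,
  .add 0 381,
  .mul 0 2,
  .add 0 380,
  .mul 0 4,
  .add 0 379,
  .ball 0 42949674,
  .mul 7 0,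
  .add 358 247,
  .mul 51 247,
  .scale ⟨2199023255552, 0, 0, 0⟩ 1,
  .sub 1 0,
  .mul 395 251,
  .mul 55 0,
  .mul 52 43,
  .mul 0 41,
  .scale ⟨2199023255552, 0, 0, 0⟩ 0,
  .sub 3 0,
  .scale ⟨2199023255552, 0, 0, 0⟩ 368,
  .sub 1 0,
  .mul 11 8,
  .mul 371 1,
  .add 1 0,
  .add 373 14,
  .mul 407 0,
  .add 0 294,
  .add 18 0,
  .inv 0,
  .mul 5 0,
  .mul 412 0,
  .add 21 0,
  .const p.t11,
  .mul 0 337,
  .const p.t10,
  .add 1 0,
  .mul 0 341,
  .const p.t03,
  .mul 0 342,
  .const p.t02,
  .add 1 0,
  .mul 0 345,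
  .const p.t01,
  .add 1 0,
  .mul 0 348,
  .const p.t00,
  .add 1 0,
  .add 10 0,
  .lt 0 2199023255552,
  .const p.tj,
  .mul 0 352,
  .neg 0,
  .exp 0,
  .mul 4 0,
  .mul 441 21,
  .const p.m300,
  .mul 0 290,
  .const p.m200,
  .add 1 0,
  .mul 0 293,
  .const p.m110,
  .mul 0 365,
  .const p.m101,
  .mul 0 366,
  .const p.m100,
  .add 1 0,
  .add 4 0,
  .add 7 0,
  .mul 0 302,
  .const p.m010,
  .mul 0 374,
  .const p.m002,
  .mul 0 375,
  .const p.m001,
  .add 1 0,
  .mul 0 378,
  .const p.m000,
  .add 1 0,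
  .add 7 0,
  .add 10 0,
  .pos 0,
  .add 428 47,
  .mul 462 0,
  .add 0 454,
  .inv 0,
  .mul 3 0,
  .add 1 457,
  .mul 1 0,
  .mul 474 0,
  .mul 319 0,
  .add 0 318,
  .mul 0 2,
  .add 0 311,
  .mul 0 4,
  .add 0 295,
  .mul 0 6,
  .add 0 267,
  .sub 63 446,
  .add 329 13,
  .mul 330 0,
  .mul 15 0,
  .mul 3 0,
  .add 5 476,
  .mul 1 0,
  .add 273 0,
  .const p.b11,
  .mul 0 408,
  .const p.b10,
  .add 1 0,
  .mul 0 412,
  .const p.b03,
  .mul 0 413,
  .const p.b02,
  .add 1 0,
  .mul 0 416,
  .const p.b01,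
  .add 1 0,
  .mul 0 419,
  .const p.b00,
  .add 1 0,
  .add 10 0,
  .scale ⟨2199023255552, 0, 0, 0⟩ 0,
  .const p.cb,
  .add 89 472,
  .mul 2 0,
  .mul 2 69,
  .add 0 497,
  .inv 0,
  .mul 3 0,
  .mul 515 24,
  .neg 0,
  .lt 0 1099511627776,
  .mul 475 0,
  .add 0 474,
  .mul 0 2,
  .add 0 473,
  .mul 0 4,
  .add 0 515,
  .mul 0 6,
  .add 0 515,
  .mul 0 8,
  .add 0 514,
  .mul 0 10,
  .add 0 513,
  .ball 0 30678339,
  .mul 39 0,
  .scale ⟨0, 549755813888, 0, 0⟩ 0,
  .mul 532 0,
  .scale ⟨2199023255552, 0, 0, 0⟩ 0,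
  .add 0 519,
  .lt 2 412316860416,
  .mul 264 2,
  .add 0 263,
  .mul 0 4,
  .add 0 477,
  .mul 0 6,
  .add 0 477,
  .mul 0 8,
  .add 0 476,
  .mul 0 10,
  .add 0 475,
  .mul 0 12,
  .add 0 474,
  .mul 0 14,
  .add 0 473,
  .mul 0 16,
  .add 0 535,
  .ball 0 25798904,
  .mul 20 0,
  .mul 18 38,
  .mul 554 0,
  .lt 0 549755813888,
  .scale ⟨549755813888, 0, 0, 0⟩ 168,
  .sub 0 331,
  .sub 0 267,
  .add 0 5,
  .mul 559 0,
  .neg 0,
  .lt 0 274877906944,
  .mul 554 0,
  .add 0 553,
  .mul 0 2,
  .add 0 552,
  .mul 0 4,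
  .add 0 551,
  .ball 0 42949674,
  .mul 7 0,
  .add 0 554,
  .inv 320,
  .mul 12 3,
  .mul 0 1,
  .sub 575 0,
  .mul 107 0,
  .sub 577 0,
  .mul 22 5,
  .mul 7 0,
  .mul 111 0,
  .lt 137 549755813888,
  .add 542 159,
  .add 543 182,
  .mul 1 0,
  .mul 0 141,
  .mul 551 165,
  .scale ⟨2199023255552, 0, 0, 0⟩ 0,
  .inv 2,
  .mul 1 0,
  .lt 0 1099511627776,
  .rball 11 8,
  .lt 0 1099243192320]

set_option maxRecDepth 1000000 in
set_option linter.unusedVariables false in
noncomputable def chk0 {α : Type} (cst : Z → α) (add sub mul : α → α → α) (scale : Z → α → α)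
    (neg inv exp log : α → α) (ok : α → Bool) (isPos : Nat → α → Bool) (isLt : α → Nat → Bool)
    (ball : Nat → α → α) (rball : α → α → α) (p : Pm) : List α → Bool
  | [x0, x1, x2, x3] =>
  let v0 := scale ⟨549755813888, 0, 0, 0⟩ x2; ok v0 && (
  let v1 := cst ⟨1099511627776, 0, 0, 0⟩; ok v1 && (
  let v2 := mul x1 v0; ok v2 && (
  let v3 := mul v2 x0; ok v3 && (
  let v4 := mul x1 x0; ok v4 && (
  isLt v3 91625968981 && (
  let v5 := cst ⟨45812984491, 0, 0, 0⟩; ok v5 && (
  let v6 := mul v5 v3; ok v6 && (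
  let v7 := cst ⟨183251937963, 0, 0, 0⟩; ok v7 && (
  let v8 := add v6 v7; ok v8 && (
  let v9 := mul v8 v3; ok v9 && (
  let v10 := cst ⟨549755813888, 0, 0, 0⟩; ok v10 && (
  let v11 := add v9 v10; ok v11 && (
  let v12 := mul v11 v3; ok v12 && (
  let v13 := cst ⟨1099511627776, 0, 0, 0⟩; ok v13 && (
  let v14 := add v12 v13; ok v14 && (
  let v15 := ball 530244 v14; ok v15 && (
  let v16 := neg v3; ok v16 && (
  isLt v16 91625968981 && (
  let v17 := mul v5 v16; ok v17 && (
  let v18 := add v17 v7; ok v18 && (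
  let v19 := mul v18 v16; ok v19 && (
  let v20 := add v19 v10; ok v20 && (
  let v21 := mul v20 v16; ok v21 && (
  let v22 := add v21 v13; ok v22 && (
  let v23 := ball 530244 v22; ok v23 && (
  let v24 := add v15 v23; ok v24 && (
  let v25 := scale ⟨549755813888, 0, 0, 0⟩ v24; ok v25 && (
  let v26 := sub v15 v23; ok v26 && (
  let v27 := mul v3 v26; ok v27 && (
  let v28 := scale ⟨549755813888, 0, 0, 0⟩ v27; ok v28 && (
  let v29 := add v28 v13; ok v29 && (
  let v30 := mul v25 v29; ok v30 && (
  let v31 := mul v25 v0; ok v31 && (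
  let v32 := mul v31 v31; ok v32 && (
  let v33 := scale ⟨4398046511104, 0, 0, 0⟩ v32; ok v33 && (
  let v34 := mul v0 v30; ok v34 && (
  let v35 := scale ⟨2199023255552, 0, 0, 0⟩ v34; ok v35 && (
  let v36 := mul v33 v4; ok v36 && (
  let v37 := scale ⟨549755813888, 0, 0, 0⟩ v36; ok v37 && (
  let v38 := scale ⟨2199023255552, 0, 0, 0⟩ v2; ok v38 && (
  let v39 := neg v38; ok v39 && (
  isLt v39 1099511627776 && (
  let v40 := cst ⟨218157069, 0, 0, 0⟩; ok v40 && (
  let v41 := mul v40 v39; ok v41 && (
  let v42 := cst ⟨1527099483, 0, 0, 0⟩; ok v42 && (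
  let v43 := add v41 v42; ok v43 && (
  let v44 := mul v43 v39; ok v44 && (
  let v45 := cst ⟨9162596898, 0, 0, 0⟩; ok v45 && (
  let v46 := add v44 v45; ok v46 && (
  let v47 := mul v46 v39; ok v47 && (
  let v48 := add v47 v5; ok v48 && (
  let v49 := mul v48 v39; ok v49 && (
  let v50 := add v49 v7; ok v50 && (
  let v51 := mul v50 v39; ok v51 && (
  let v52 := add v51 v10; ok v52 && (
  let v53 := mul v52 v39; ok v53 && (
  let v54 := add v53 v13; ok v54 && (
  let v55 := ball 30678339 v54; ok v55 && (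
  let v56 := mul v0 v55; ok v56 && (
  let v57 := neg v56; ok v57 && (
  let v58 := mul x1 v57; ok v58 && (
  isLt v58 274877906944 && (
  let v59 := cst ⟨157073089682, 0, 0, 0⟩; ok v59 && (
  let v60 := mul v59 v58; ok v60 && (
  let v61 := cst ⟨0, 183251937963, 0, 0⟩; ok v61 && (
  let v62 := add v60 v61; ok v62 && (
  let v63 := mul v62 v58; ok v63 && (
  let v64 := cst ⟨219902325555, 0, 0, 0⟩; ok v64 && (
  let v65 := add v63 v64; ok v65 && (
  let v66 := mul v65 v58; ok v66 && (
  let v67 := cst ⟨0, 274877906944, 0, 0⟩; ok v67 && (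
  let v68 := add v66 v67; ok v68 && (
  let v69 := mul v68 v58; ok v69 && (
  let v70 := cst ⟨366503875925, 0, 0, 0⟩; ok v70 && (
  let v71 := add v69 v70; ok v71 && (
  let v72 := mul v71 v58; ok v72 && (
  let v73 := cst ⟨0, 549755813888, 0, 0⟩; ok v73 && (
  let v74 := add v72 v73; ok v74 && (
  let v75 := mul v74 v58; ok v75 && (
  let v76 := add v75 v13; ok v76 && (
  let v77 := ball 11184812 v76; ok v77 && (
  let v78 := mul v57 v77; ok v78 && (
  let v79 := cst (p.ec); ok v79 && (
  let v80 := cst (p.bc); ok v80 && (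
  let v81 := sub x0 v79; ok v81 && (
  let v82 := sub v2 v80; ok v82 && (
  let v83 := scale ⟨2199023255552, 0, 0, 0⟩ v3; ok v83 && (
  let v84 := cst (p.nn); ok v84 && (
  let v85 := cst (p.s11); ok v85 && (
  let v86 := mul v85 v82; ok v86 && (
  let v87 := cst (p.s10); ok v87 && (
  let v88 := add v86 v87; ok v88 && (
  let v89 := mul v88 v81; ok v89 && (
  let v90 := cst (p.s03); ok v90 && (
  let v91 := mul v90 v82; ok v91 && (
  let v92 := cst (p.s02); ok v92 && (
  let v93 := add v91 v92; ok v93 && (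
  let v94 := mul v93 v82; ok v94 && (
  let v95 := cst (p.s01); ok v95 && (
  let v96 := add v94 v95; ok v96 && (
  let v97 := mul v96 v82; ok v97 && (
  let v98 := cst (p.s00); ok v98 && (
  let v99 := add v97 v98; ok v99 && (
  let v100 := add v89 v99; ok v100 && (
  let v101 := mul v84 v83; ok v101 && (
  let v102 := neg v101; ok v102 && (
  isLt v102 1099511627776 && (
  let v103 := mul v40 v102; ok v103 && (
  let v104 := add v103 v42; ok v104 && (
  let v105 := mul v104 v102; ok v105 && (
  let v106 := add v105 v45; ok v106 && (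
  let v107 := mul v106 v102; ok v107 && (
  let v108 := add v107 v5; ok v108 && (
  let v109 := mul v108 v102; ok v109 && (
  let v110 := add v109 v7; ok v110 && (
  let v111 := mul v110 v102; ok v111 && (
  let v112 := add v111 v10; ok v112 && (
  let v113 := mul v112 v102; ok v113 && (
  let v114 := add v113 v13; ok v114 && (
  let v115 := ball 30678339 v114; ok v115 && (
  let v116 := mul v101 v115; ok v116 && (
  let v117 := sub v13 v116; ok v117 && (
  let v118 := cst ⟨2199023255552, 0, 0, 0⟩; ok v118 && (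
  let v119 := sub v118 v116; ok v119 && (
  let v120 := mul v115 v119; ok v120 && (
  let v121 := mul v84 v120; ok v121 && (
  let v122 := mul v30 v100; ok v122 && (
  let v123 := mul v117 v117; ok v123 && (
  let v124 := mul v122 v123; ok v124 && (
  let v125 := sub v121 v124; ok v125 && (
  let v126 := mul v83 v125; ok v126 && (
  let v127 := sub v118 v126; ok v127 && (
  let v128 := mul v0 v0; ok v128 && (
  let v129 := mul v30 v125; ok v129 && (
  let v130 := mul v128 v129; ok v130 && (
  let v131 := mul v4 v130; ok v131 && (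
  let v132 := scale ⟨4398046511104, 0, 0, 0⟩ v131; ok v132 && (
  let v133 := mul v1 v127; ok v133 && (
  let v134 := scale ⟨0, 0, 1099511627776, 0⟩ v133; ok v134 && (
  let v135 := add v132 v134; ok v135 && (
  let v136 := mul v127 v30; ok v136 && (
  let v137 := mul v4 v1; ok v137 && (
  let v138 := mul v137 v125; ok v138 && (
  let v139 := scale ⟨0, 0, 1099511627776, 0⟩ v138; ok v139 && (
  let v140 := add v136 v139; ok v140 && (
  let v141 := mul v30 v135; ok v141 && (
  let v142 := inv v140; ok v142 && (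
  let v143 := mul v141 v142; ok v143 && (
  let v144 := add v37 v143; ok v144 && (
  let v145 := mul v4 v144; ok v145 && (
  let v146 := add v145 v13; ok v146 && (
  let v147 := inv v146; ok v147 && (
  let v148 := mul v144 v147; ok v148 && (
  let v149 := add v147 v13; ok v149 && (
  let v150 := mul v148 v149; ok v150 && (
  let v151 := mul x1 v150; ok v151 && (
  let v152 := neg v83; ok v152 && (
  let v153 := exp v152; ok v153 && (
  let v154 := cst (p.h400); ok v154 && (
  let v155 := mul v154 v151; ok v155 && (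
  let v156 := cst (p.h300); ok v156 && (
  let v157 := add v155 v156; ok v157 && (
  let v158 := mul v157 v151; ok v158 && (
  let v159 := cst (p.h210); ok v159 && (
  let v160 := mul v159 v81; ok v160 && (
  let v161 := cst (p.h201); ok v161 && (
  let v162 := mul v161 v82; ok v162 && (
  let v163 := cst (p.h200); ok v163 && (
  let v164 := add v162 v163; ok v164 && (
  let v165 := add v160 v164; ok v165 && (
  let v166 := add v158 v165; ok v166 && (
  let v167 := mul v166 v151; ok v167 && (
  let v168 := cst (p.h120); ok v168 && (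
  let v169 := mul v168 v81; ok v169 && (
  let v170 := cst (p.h111); ok v170 && (
  let v171 := mul v170 v82; ok v171 && (
  let v172 := cst (p.h110); ok v172 && (
  let v173 := add v171 v172; ok v173 && (
  let v174 := add v169 v173; ok v174 && (
  let v175 := mul v174 v81; ok v175 && (
  let v176 := cst (p.h102); ok v176 && (
  let v177 := mul v176 v82; ok v177 && (
  let v178 := cst (p.h101); ok v178 && (
  let v179 := add v177 v178; ok v179 && (
  let v180 := mul v179 v82; ok v180 && (
  let v181 := cst (p.h100); ok v181 && (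
  let v182 := add v180 v181; ok v182 && (
  let v183 := add v175 v182; ok v183 && (
  let v184 := add v167 v183; ok v184 && (
  let v185 := mul v184 v151; ok v185 && (
  let v186 := cst (p.h030); ok v186 && (
  let v187 := mul v186 v81; ok v187 && (
  let v188 := cst (p.h021); ok v188 && (
  let v189 := mul v188 v82; ok v189 && (
  let v190 := cst (p.h020); ok v190 && (
  let v191 := add v189 v190; ok v191 && (
  let v192 := add v187 v191; ok v192 && (
  let v193 := mul v192 v81; ok v193 && (
  let v194 := cst (p.h012); ok v194 && (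
  let v195 := mul v194 v82; ok v195 && (
  let v196 := cst (p.h011); ok v196 && (
  let v197 := add v195 v196; ok v197 && (
  let v198 := mul v197 v82; ok v198 && (
  let v199 := cst (p.h010); ok v199 && (
  let v200 := add v198 v199; ok v200 && (
  let v201 := add v193 v200; ok v201 && (
  let v202 := mul v201 v81; ok v202 && (
  let v203 := cst (p.h003); ok v203 && (
  let v204 := mul v203 v82; ok v204 && (
  let v205 := cst (p.h002); ok v205 && (
  let v206 := add v204 v205; ok v206 && (
  let v207 := mul v206 v82; ok v207 && (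
  let v208 := cst (p.h001); ok v208 && (
  let v209 := add v207 v208; ok v209 && (
  let v210 := mul v209 v82; ok v210 && (
  let v211 := cst (p.h000); ok v211 && (
  let v212 := add v210 v211; ok v212 && (
  let v213 := add v202 v212; ok v213 && (
  let v214 := add v185 v213; ok v214 && (
  let v215 := scale ⟨2199023255552, 0, 0, 0⟩ v0; ok v215 && (
  let v216 := sub v143 v35; ok v216 && (
  let v217 := add v153 v147; ok v217 && (
  let v218 := mul v153 v217; ok v218 && (
  let v219 := mul v147 v218; ok v219 && (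
  let v220 := mul v216 v219; ok v220 && (
  let v221 := add v214 v10; ok v221 && (
  let v222 := mul v220 v221; ok v222 && (
  let v223 := add v215 v222; ok v223 && (
  let v224 := cst (p.a11); ok v224 && (
  let v225 := mul v224 v82; ok v225 && (
  let v226 := cst (p.a10); ok v226 && (
  let v227 := add v225 v226; ok v227 && (
  let v228 := mul v227 v81; ok v228 && (
  let v229 := cst (p.a03); ok v229 && (
  let v230 := mul v229 v82; ok v230 && (
  let v231 := cst (p.a02); ok v231 && (
  let v232 := add v230 v231; ok v232 && (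
  let v233 := mul v232 v82; ok v233 && (
  let v234 := cst (p.a01); ok v234 && (
  let v235 := add v233 v234; ok v235 && (
  let v236 := mul v235 v82; ok v236 && (
  let v237 := cst (p.a00); ok v237 && (
  let v238 := add v236 v237; ok v238 && (
  let v239 := add v228 v238; ok v239 && (
  let v240 := scale ⟨2199023255552, 0, 0, 0⟩ v239; ok v240 && (
  let v241 := cst (p.ca); ok v241 && (
  let v242 := add v143 v35; ok v242 && (
  let v243 := mul v240 v242; ok v243 && (
  let v244 := mul x1 v143; ok v244 && (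
  let v245 := mul v241 v244; ok v245 && (
  let v246 := add v245 v13; ok v246 && (
  let v247 := inv v246; ok v247 && (
  let v248 := mul v243 v247; ok v248 && (
  let v249 := mul x1 v223; ok v249 && (
  let v250 := neg v249; ok v250 && (
  isLt v250 1099511627776 && (
  let v251 := mul v40 v250; ok v251 && (
  let v252 := add v251 v42; ok v252 && (
  let v253 := mul v252 v250; ok v253 && (
  let v254 := add v253 v45; ok v254 && (
  let v255 := mul v254 v250; ok v255 && (
  let v256 := add v255 v5; ok v256 && (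
  let v257 := mul v256 v250; ok v257 && (
  let v258 := add v257 v7; ok v258 && (
  let v259 := mul v258 v250; ok v259 && (
  let v260 := add v259 v10; ok v260 && (
  let v261 := mul v260 v250; ok v261 && (
  let v262 := add v261 v13; ok v262 && (
  let v263 := ball 30678339 v262; ok v263 && (
  let v264 := mul v223 v263; ok v264 && (
  let v265 := scale ⟨0, 549755813888, 0, 0⟩ v264; ok v265 && (
  let v266 := mul x1 v265; ok v266 && (
  let v267 := scale ⟨2199023255552, 0, 0, 0⟩ v266; ok v267 && (
  let v268 := add v267 v13; ok v268 && (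
  isLt v266 412316860416 && (
  let v269 := cst ⟨122167958642, 0, 0, 0⟩; ok v269 && (
  let v270 := mul v269 v266; ok v270 && (
  let v271 := cst ⟨0, 137438953472, 0, 0⟩; ok v271 && (
  let v272 := add v270 v271; ok v272 && (
  let v273 := mul v272 v266; ok v273 && (
  let v274 := add v273 v59; ok v274 && (
  let v275 := mul v274 v266; ok v275 && (
  let v276 := add v275 v61; ok v276 && (
  let v277 := mul v276 v266; ok v277 && (
  let v278 := add v277 v64; ok v278 && (
  let v279 := mul v278 v266; ok v279 && (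
  let v280 := add v279 v67; ok v280 && (
  let v281 := mul v280 v266; ok v281 && (
  let v282 := add v281 v70; ok v282 && (
  let v283 := mul v282 v266; ok v283 && (
  let v284 := add v283 v73; ok v284 && (
  let v285 := mul v284 v266; ok v285 && (
  let v286 := add v285 v13; ok v286 && (
  let v287 := ball 25798904 v286; ok v287 && (
  let v288 := mul v265 v287; ok v288 && (
  let v289 := mul v248 x3; ok v289 && (
  let v290 := mul v268 v289; ok v290 && (
  let v291 := mul x1 v290; ok v291 && (
  isLt v291 412316860416 && (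
  let v292 := mul v269 v291; ok v292 && (
  let v293 := add v292 v271; ok v293 && (
  let v294 := mul v293 v291; ok v294 && (
  let v295 := add v294 v59; ok v295 && (
  let v296 := mul v295 v291; ok v296 && (
  let v297 := add v296 v61; ok v297 && (
  let v298 := mul v297 v291; ok v298 && (
  let v299 := add v298 v64; ok v299 && (
  let v300 := mul v299 v291; ok v300 && (
  let v301 := add v300 v67; ok v301 && (
  let v302 := mul v301 v291; ok v302 && (
  let v303 := add v302 v70; ok v303 && (
  let v304 := mul v303 v291; ok v304 && (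
  let v305 := add v304 v73; ok v305 && (
  let v306 := mul v305 v291; ok v306 && (
  let v307 := add v306 v13; ok v307 && (
  let v308 := ball 25798904 v307; ok v308 && (
  let v309 := mul v290 v308; ok v309 && (
  let v310 := mul x1 v289; ok v310 && (
  let v311 := neg v310; ok v311 && (
  isLt v311 412316860416 && (
  let v312 := mul v269 v311; ok v312 && (
  let v313 := add v312 v271; ok v313 && (
  let v314 := mul v313 v311; ok v314 && (
  let v315 := add v314 v59; ok v315 && (
  let v316 := mul v315 v311; ok v316 && (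
  let v317 := add v316 v61; ok v317 && (
  let v318 := mul v317 v311; ok v318 && (
  let v319 := add v318 v64; ok v319 && (
  let v320 := mul v319 v311; ok v320 && (
  let v321 := add v320 v67; ok v321 && (
  let v322 := mul v321 v311; ok v322 && (
  let v323 := add v322 v70; ok v323 && (
  let v324 := mul v323 v311; ok v324 && (
  let v325 := add v324 v73; ok v325 && (
  let v326 := mul v325 v311; ok v326 && (
  let v327 := add v326 v13; ok v327 && (
  let v328 := ball 25798904 v327; ok v328 && (
  let v329 := mul v289 v328; ok v329 && (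
  let v330 := neg v329; ok v330 && (
  let v331 := sub v309 v330; ok v331 && (
  let v332 := add v331 v223; ok v332 && (
  let v333 := add v0 v78; ok v333 && (
  let v334 := add v333 v330; ok v334 && (
  let v335 := sub v334 v223; ok v335 && (
  let v336 := sub v335 v288; ok v336 && (
  let v337 := mul v4 v332; ok v337 && (
  isLt v337 274877906944 && (
  let v338 := mul v5 v337; ok v338 && (
  let v339 := add v338 v7; ok v339 && (
  let v340 := mul v339 v337; ok v340 && (
  let v341 := add v340 v10; ok v341 && (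
  let v342 := mul v341 v337; ok v342 && (
  let v343 := add v342 v13; ok v343 && (
  let v344 := ball 42949674 v343; ok v344 && (
  let v345 := mul v332 v344; ok v345 && (
  let v346 := mul v4 v345; ok v346 && (
  let v347 := add v346 v13; ok v347 && (
  let v348 := scale ⟨2199023255552, 0, 0, 0⟩ v336; ok v348 && (
  let v349 := add v348 v332; ok v349 && (
  let v350 := mul v4 v349; ok v350 && (
  let v351 := neg v350; ok v351 && (
  isLt v351 274877906944 && (
  let v352 := mul v5 v351; ok v352 && (
  let v353 := add v352 v7; ok v353 && (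
  let v354 := mul v353 v351; ok v354 && (
  let v355 := add v354 v10; ok v355 && (
  let v356 := mul v355 v351; ok v356 && (
  let v357 := add v356 v13; ok v357 && (
  let v358 := ball 42949674 v357; ok v358 && (
  let v359 := mul v351 v358; ok v359 && (
  let v360 := add v359 v13; ok v360 && (
  let v361 := add v347 v13; ok v361 && (
  let v362 := mul v33 v360; ok v362 && (
  let v363 := mul v362 v361; ok v363 && (
  let v364 := mul v4 v363; ok v364 && (
  let v365 := mul v150 v347; ok v365 && (
  let v366 := add v364 v365; ok v366 && (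
  let v367 := mul v4 v366; ok v367 && (
  isLt v367 412316860416 && (
  let v368 := mul v269 v367; ok v368 && (
  let v369 := add v368 v271; ok v369 && (
  let v370 := mul v369 v367; ok v370 && (
  let v371 := add v370 v59; ok v371 && (
  let v372 := mul v371 v367; ok v372 && (
  let v373 := add v372 v61; ok v373 && (
  let v374 := mul v373 v367; ok v374 && (
  let v375 := add v374 v64; ok v375 && (
  let v376 := mul v375 v367; ok v376 && (
  let v377 := add v376 v67; ok v377 && (
  let v378 := mul v377 v367; ok v378 && (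
  let v379 := add v378 v70; ok v379 && (
  let v380 := mul v379 v367; ok v380 && (
  let v381 := add v380 v73; ok v381 && (
  let v382 := mul v381 v367; ok v382 && (
  let v383 := add v382 v13; ok v383 && (
  let v384 := ball 25798904 v383; ok v384 && (
  let v385 := mul v366 v384; ok v385 && (
  let v386 := mul v4 v385; ok v386 && (
  let v387 := scale ⟨549755813888, 0, 0, 0⟩ v386; ok v387 && (
  isLt v387 274877906944 && (
  let v388 := mul v5 v387; ok v388 && (
  let v389 := add v388 v7; ok v389 && (
  let v390 := mul v389 v387; ok v390 && (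
  let v391 := add v390 v10; ok v391 && (
  let v392 := mul v391 v387; ok v392 && (
  let v393 := add v392 v13; ok v393 && (
  let v394 := ball 42949674 v393; ok v394 && (
  let v395 := mul v387 v394; ok v395 && (
  let v396 := add v37 v148; ok v396 && (
  let v397 := mul v345 v149; ok v397 && (
  let v398 := scale ⟨2199023255552, 0, 0, 0⟩ v396; ok v398 && (
  let v399 := sub v397 v398; ok v399 && (
  let v400 := mul v4 v148; ok v400 && (
  let v401 := mul v345 v400; ok v401 && (
  let v402 := mul v349 v358; ok v402 && (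
  let v403 := mul v402 v361; ok v403 && (
  let v404 := scale ⟨2199023255552, 0, 0, 0⟩ v403; ok v404 && (
  let v405 := sub v401 v404; ok v405 && (
  let v406 := scale ⟨2199023255552, 0, 0, 0⟩ v37; ok v406 && (
  let v407 := sub v405 v406; ok v407 && (
  let v408 := mul v396 v399; ok v408 && (
  let v409 := mul v37 v407; ok v409 && (
  let v410 := add v408 v409; ok v410 && (
  let v411 := add v37 v396; ok v411 && (
  let v412 := mul v4 v411; ok v412 && (
  let v413 := add v412 v118; ok v413 && (
  let v414 := add v395 v413; ok v414 && (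
  let v415 := inv v414; ok v415 && (
  let v416 := mul v410 v415; ok v416 && (
  let v417 := mul v4 v416; ok v417 && (
  let v418 := add v396 v417; ok v418 && (
  let v419 := cst (p.t11); ok v419 && (
  let v420 := mul v419 v82; ok v420 && (
  let v421 := cst (p.t10); ok v421 && (
  let v422 := add v420 v421; ok v422 && (
  let v423 := mul v422 v81; ok v423 && (
  let v424 := cst (p.t03); ok v424 && (
  let v425 := mul v424 v82; ok v425 && (
  let v426 := cst (p.t02); ok v426 && (
  let v427 := add v425 v426; ok v427 && (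
  let v428 := mul v427 v82; ok v428 && (
  let v429 := cst (p.t01); ok v429 && (
  let v430 := add v428 v429; ok v430 && (
  let v431 := mul v430 v82; ok v431 && (
  let v432 := cst (p.t00); ok v432 && (
  let v433 := add v431 v432; ok v433 && (
  let v434 := add v423 v433; ok v434 && (
  isLt v434 2199023255552 && (
  let v435 := cst (p.tj); ok v435 && (
  let v436 := mul v435 v83; ok v436 && (
  let v437 := neg v436; ok v437 && (
  let v438 := exp v437; ok v438 && (
  let v439 := mul v434 v438; ok v439 && (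
  let v440 := mul x1 v418; ok v440 && (
  let v441 := cst (p.m300); ok v441 && (
  let v442 := mul v441 v151; ok v442 && (
  let v443 := cst (p.m200); ok v443 && (
  let v444 := add v442 v443; ok v444 && (
  let v445 := mul v444 v151; ok v445 && (
  let v446 := cst (p.m110); ok v446 && (
  let v447 := mul v446 v81; ok v447 && (
  let v448 := cst (p.m101); ok v448 && (
  let v449 := mul v448 v82; ok v449 && (
  let v450 := cst (p.m100); ok v450 && (
  let v451 := add v449 v450; ok v451 && (
  let v452 := add v447 v451; ok v452 && (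
  let v453 := add v445 v452; ok v453 && (
  let v454 := mul v453 v151; ok v454 && (
  let v455 := cst (p.m010); ok v455 && (
  let v456 := mul v455 v81; ok v456 && (
  let v457 := cst (p.m002); ok v457 && (
  let v458 := mul v457 v82; ok v458 && (
  let v459 := cst (p.m001); ok v459 && (
  let v460 := add v458 v459; ok v460 && (
  let v461 := mul v460 v82; ok v461 && (
  let v462 := cst (p.m000); ok v462 && (
  let v463 := add v461 v462; ok v463 && (
  let v464 := add v456 v463; ok v464 && (
  let v465 := add v454 v464; ok v465 && (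
  isPos 3 v465 && (
  let v466 := add v37 v418; ok v466 && (
  let v467 := mul v4 v466; ok v467 && (
  let v468 := add v467 v13; ok v468 && (
  let v469 := inv v468; ok v469 && (
  let v470 := mul v466 v469; ok v470 && (
  let v471 := add v469 v13; ok v471 && (
  let v472 := mul v470 v471; ok v472 && (
  let v473 := mul x1 v472; ok v473 && (
  let v474 := mul v154 v473; ok v474 && (
  let v475 := add v474 v156; ok v475 && (
  let v476 := mul v475 v473; ok v476 && (
  let v477 := add v476 v165; ok v477 && (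
  let v478 := mul v477 v473; ok v478 && (
  let v479 := add v478 v183; ok v479 && (
  let v480 := mul v479 v473; ok v480 && (
  let v481 := add v480 v213; ok v481 && (
  let v482 := sub v418 v35; ok v482 && (
  let v483 := add v153 v469; ok v483 && (
  let v484 := mul v153 v483; ok v484 && (
  let v485 := mul v469 v484; ok v485 && (
  let v486 := mul v482 v485; ok v486 && (
  let v487 := add v481 v10; ok v487 && (
  let v488 := mul v486 v487; ok v488 && (
  let v489 := add v215 v488; ok v489 && (
  let v490 := cst (p.b11); ok v490 && (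
  let v491 := mul v490 v82; ok v491 && (
  let v492 := cst (p.b10); ok v492 && (
  let v493 := add v491 v492; ok v493 && (
  let v494 := mul v493 v81; ok v494 && (
  let v495 := cst (p.b03); ok v495 && (
  let v496 := mul v495 v82; ok v496 && (
  let v497 := cst (p.b02); ok v497 && (
  let v498 := add v496 v497; ok v498 && (
  let v499 := mul v498 v82; ok v499 && (
  let v500 := cst (p.b01); ok v500 && (
  let v501 := add v499 v500; ok v501 && (
  let v502 := mul v501 v82; ok v502 && (
  let v503 := cst (p.b00); ok v503 && (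
  let v504 := add v502 v503; ok v504 && (
  let v505 := add v494 v504; ok v505 && (
  let v506 := scale ⟨2199023255552, 0, 0, 0⟩ v505; ok v506 && (
  let v507 := cst (p.cb); ok v507 && (
  let v508 := add v418 v35; ok v508 && (
  let v509 := mul v506 v508; ok v509 && (
  let v510 := mul v507 v440; ok v510 && (
  let v511 := add v510 v13; ok v511 && (
  let v512 := inv v511; ok v512 && (
  let v513 := mul v509 v512; ok v513 && (
  let v514 := mul x1 v489; ok v514 && (
  let v515 := neg v514; ok v515 && (
  isLt v515 1099511627776 && (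
  let v516 := mul v40 v515; ok v516 && (
  let v517 := add v516 v42; ok v517 && (
  let v518 := mul v517 v515; ok v518 && (
  let v519 := add v518 v45; ok v519 && (
  let v520 := mul v519 v515; ok v520 && (
  let v521 := add v520 v5; ok v521 && (
  let v522 := mul v521 v515; ok v522 && (
  let v523 := add v522 v7; ok v523 && (
  let v524 := mul v523 v515; ok v524 && (
  let v525 := add v524 v10; ok v525 && (
  let v526 := mul v525 v515; ok v526 && (
  let v527 := add v526 v13; ok v527 && (
  let v528 := ball 30678339 v527; ok v528 && (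
  let v529 := mul v489 v528; ok v529 && (
  let v530 := scale ⟨0, 549755813888, 0, 0⟩ v529; ok v530 && (
  let v531 := mul x1 v530; ok v531 && (
  let v532 := scale ⟨2199023255552, 0, 0, 0⟩ v531; ok v532 && (
  let v533 := add v532 v13; ok v533 && (
  isLt v531 412316860416 && (
  let v534 := mul v269 v531; ok v534 && (
  let v535 := add v534 v271; ok v535 && (
  let v536 := mul v535 v531; ok v536 && (
  let v537 := add v536 v59; ok v537 && (
  let v538 := mul v537 v531; ok v538 && (
  let v539 := add v538 v61; ok v539 && (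
  let v540 := mul v539 v531; ok v540 && (
  let v541 := add v540 v64; ok v541 && (
  let v542 := mul v541 v531; ok v542 && (
  let v543 := add v542 v67; ok v543 && (
  let v544 := mul v543 v531; ok v544 && (
  let v545 := add v544 v70; ok v545 && (
  let v546 := mul v545 v531; ok v546 && (
  let v547 := add v546 v73; ok v547 && (
  let v548 := mul v547 v531; ok v548 && (
  let v549 := add v548 v13; ok v549 && (
  let v550 := ball 25798904 v549; ok v550 && (
  let v551 := mul v530 v550; ok v551 && (
  let v552 := mul v533 v513; ok v552 && (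
  let v553 := mul x1 v552; ok v553 && (
  isLt v553 549755813888 && (
  let v554 := scale ⟨549755813888, 0, 0, 0⟩ v385; ok v554 && (
  let v555 := sub v554 v223; ok v555 && (
  let v556 := sub v555 v288; ok v556 && (
  let v557 := add v556 v551; ok v557 && (
  let v558 := mul x1 v557; ok v558 && (
  let v559 := neg v558; ok v559 && (
  isLt v559 274877906944 && (
  let v560 := mul v5 v559; ok v560 && (
  let v561 := add v560 v7; ok v561 && (
  let v562 := mul v561 v559; ok v562 && (
  let v563 := add v562 v10; ok v563 && (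
  let v564 := mul v563 v559; ok v564 && (
  let v565 := add v564 v13; ok v565 && (
  let v566 := ball 42949674 v565; ok v566 && (
  let v567 := mul v559 v566; ok v567 && (
  let v568 := add v567 v13; ok v568 && (
  let v569 := inv v248; ok v569 && (
  let v570 := mul v557 v566; ok v570 && (
  let v571 := mul v570 v569; ok v571 && (
  let v572 := sub x3 v571; ok v572 && (
  let v573 := mul v465 v572; ok v573 && (
  let v574 := sub x3 v573; ok v574 && (
  let v575 := mul v552 v569; ok v575 && (
  let v576 := mul v568 v575; ok v576 && (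
  let v577 := mul v465 v576; ok v577 && (
  isLt v440 549755813888 && (
  let v578 := add v35 v418; ok v578 && (
  let v579 := add v35 v396; ok v579 && (
  let v580 := mul v578 v579; ok v580 && (
  let v581 := mul v580 v439; ok v581 && (
  let v582 := mul v30 v416; ok v582 && (
  let v583 := scale ⟨2199023255552, 0, 0, 0⟩ v582; ok v583 && (
  let v584 := inv v581; ok v584 && (
  let v585 := mul v583 v584; ok v585 && (
  isLt v585 1099511627776 && (
  let v586 := rball v574 v577; ok v586 && (
  isLt v586 1099243192320 && (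
  true)))))))))))))))))))))))))))))))))))))))))))))))))))))))))))))))))))))))))))))))))))))))))))))))))))))))))))))))))))))))))))))))))))))))))))))))))))))))))))))))))))))))))))))))))))))))))))))))))))))))))))))))))))))))))))))))))))))))))))))))))))))))))))))))))))))))))))))))))))))))))))))))))))))))))))))))))))))))))))))))))))))))))))))))))))))))))))))))))))))))))))))))))))))))))))))))))))))))))))))))))))))))))))))))))))))))))))))))))))))))))))))))))))))))))))))))))))))))))))))))))))))))))))))))))))))))))))))))))))))))))))))))))))))))))))))))))))))))))))))))))))))))))))))))))))))))))))))))))))))))))))))))))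
  | _ => false

set_option maxRecDepth 1000000 in
theorem chk0_eq (X : XOps) (p : Pm) (m : List X.O.α)
    (h : chk0 X.O.cst X.O.add X.O.sub X.O.mul X.O.scale X.O.neg X.O.inv X.O.exp X.O.log X.O.ok
      X.O.isPos X.O.isLt X.ball X.rball p m = true) :
    runX X 3 (prog0 p) m = true := by
  match m, h with
  | [x0, x1, x2, x3], h => exact h

noncomputable def chkB0 (p : Pm) : List opsE.O.α → Bool :=
  chk0 opsE.O.cst opsE.O.add opsE.O.sub opsE.O.mul opsE.O.scale opsE.O.neg opsE.O.inv opsE.O.exp opsE.O.log opsE.O.ok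
      opsE.O.isPos opsE.O.isLt opsE.ball opsE.rball p

theorem chkB0_eq (p : Pm) (m : List opsE.O.α) (h : chkB0 p m = true) : runX opsE 3 (prog0 p) m = true :=
  chk0_eq opsE p m h

end Pool.Agent.helper12.GP.MA
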