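import Pool.Agent.helper12.GP.Pm
import Pool.Agent.helper14.QF.InstE

/-!
Generated: parametric straight line program and compiled form.
-/

namespace Pool.Agent.helper12.GP.MBQ

open Pool.Agent.helper31.IA (Z)
open Pool.Agent.helper31.IX (Op XOps runX Cov CovD cov_split covD_split)
open Pool.Agent.helper31.IC (Ops TD)

abbrev opsE : XOps := Pool.Agent.helper14.QF.xE

def prog0 (p : Pm) : List Op := [
  .const ⟨1099511627776, 0, 0, 0⟩,
  .scale ⟨2199023255552, 0, 0, 0⟩ 3,
  .mul 3 1,
  .mul 0 3,
  .mul 5 4,
  .lt 1 91625968981,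
  .const ⟨45812984491, 0, 0, 0⟩,
  .mul 0 2,
  .const ⟨183251937963, 0, 0, 0⟩,
  .add 1 0,
  .mul 0 5,
  .const ⟨549755813888, 0, 0, 0⟩,
  .add 1 0,
  .mul 0 8,
  .const ⟨1099511627776, 0, 0, 0⟩,
  .add 1 0,
  .ball 0 530244,
  .neg 12,
  .lt 0 91625968981,
  .mul 11 0,
  .add 0 10,
  .mul 0 2,
  .add 0 9,
  .mul 0 4,
  .add 0 8,
  .ball 0 530244,
  .add 8 0,
  .scale ⟨549755813888, 0, 0, 0⟩ 0,
  .sub 10 2,
  .mul 23 0,
  .scale ⟨549755813888, 0, 0, 0⟩ 0,
  .add 0 15,
  .mul 4 0,
  .mul 5 30,
  .mul 0 0,
  .scale ⟨4398046511104, 0, 0, 0⟩ 0,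
  .mul 33 3,
  .scale ⟨2199023255552, 0, 0, 0⟩ 0,
  .mul 2 31,
  .scale ⟨549755813888, 0, 0, 0⟩ 0,
  .scale ⟨2199023255552, 0, 0, 0⟩ 35,
  .neg 0,
  .lt 0 1099511627776,
  .const ⟨218157069, 0, 0, 0⟩,
  .mul 0 1,
  .const ⟨1527099483, 0, 0, 0⟩,
  .add 1 0,
  .mul 0 4,
  .const ⟨9162596898, 0, 0, 0⟩,
  .add 1 0,
  .mul 0 7,
  .add 0 42,
  .mul 0 9,
  .add 0 42,
  .mul 0 11,
  .add 0 41,
  .mul 0 13,
  .add 0 40,
  .ball 0 30678339,
  .mul 55 0,
  .neg 0,
  .mul 59 0,
  .lt 0 274877906944,
  .const ⟨157073089682, 0, 0, 0⟩,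
  .mul 0 1,
  .const ⟨0, 183251937963, 0, 0⟩,
  .add 1 0,
  .mul 0 4,
  .const ⟨219902325555, 0, 0, 0⟩,
  .add 1 0,
  .mul 0 7,
  .const ⟨0, 274877906944, 0, 0⟩,
  .add 1 0,
  .mul 0 10,
  .const ⟨366503875925, 0, 0, 0⟩,
  .add 1 0,
  .mul 0 13,
  .const ⟨0, 549755813888, 0, 0⟩,
  .add 1 0,
  .mul 0 16,
  .add 0 62,
  .ball 0 11184812,
  .mul 20 0,
  .const p.ec,
  .const p.bc,
  .sub 81 1,
  .sub 79 1,
  .scale ⟨2199023255552, 0, 0, 0⟩ 79,
  .const p.nn,
  .const p.s11,
  .mul 0 3,
  .const p.s10,
  .add 1 0,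
  .mul 0 7,
  .const p.s03,
  .mul 0 8,
  .const p.s02,
  .add 1 0,
  .mul 0 11,
  .const p.s01,
  .add 1 0,
  .mul 0 14,
  .const p.s00,
  .add 1 0,
  .add 10 0,
  .mul 16 17,
  .neg 0,
  .lt 0 1099511627776,
  .mul 62 0,
  .add 0 61,
  .mul 0 2,
  .add 0 60,
  .mul 0 4,
  .add 0 102,
  .mul 0 6,
  .add 0 102,
  .mul 0 8,
  .add 0 101,
  .mul 0 10,
  .add 0 100,
  .ball 0 30678339,
  .mul 14 0,
  .sub 103 0,
  .const ⟨2199023255552, 0, 0, 0⟩,
  .sub 0 2,
  .mul 4 0,
  .mul 36 0,
  .mul 91 21,
  .mul 5 5,
  .mul 1 0,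
  .sub 3 0,
  .mul 42 0,
  .sub 8 0,
  .mul 127 127,
  .mul 98 3,
  .mul 1 0,
  .mul 126 0,
  .scale ⟨4398046511104, 0, 0, 0⟩ 0,
  .mul 131 5,
  .scale ⟨0, 0, 1099511627776, 0⟩ 0,
  .add 2 0,
  .mul 8 105,
  .mul 132 135,
  .mul 0 12,
  .scale ⟨0, 0, 1099511627776, 0⟩ 0,
  .add 3 0,
  .mul 110 5,
  .inv 1,
  .mul 1 0,
  .add 106 0,
  .mul 140 0,
  .add 0 132,
  .inv 0,
  .mul 3 0,
  .add 1 135,
  .mul 1 0,
  .mul 152 0,
  .neg 68,
  .exp 0,
  .const p.h400,
  .mul 0 3,
  .const p.h300,
  .add 1 0,
  .mul 0 6,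
  .const p.h210,
  .mul 0 78,
  .const p.h201,
  .mul 0 79,
  .const p.h200,
  .add 1 0,
  .add 4 0,
  .add 7 0,
  .mul 0 15,
  .const p.h120,
  .mul 0 87,
  .const p.h111,
  .mul 0 88,
  .const p.h110,
  .add 1 0,
  .add 4 0,
  .mul 0 93,
  .const p.h102,
  .mul 0 94,
  .const p.h101,
  .add 1 0,
  .mul 0 97,
  .const p.h100,
  .add 1 0,
  .add 7 0,
  .add 16 0,
  .mul 0 33,
  .const p.h030,
  .mul 0 105,
  .const p.h021,
  .mul 0 106,
  .const p.h020,
  .add 1 0,
  .add 4 0,
  .mul 0 111,
  .const p.h012,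
  .mul 0 112,
  .const p.h011,
  .add 1 0,
  .mul 0 115,
  .const p.h010,
  .add 1 0,
  .add 7 0,
  .mul 0 120,
  .const p.h003,
  .mul 0 121,
  .const p.h002,
  .add 1 0,
  .mul 0 124,
  .const p.h001,
  .add 1 0,
  .mul 0 127,
  .const p.h000,
  .add 1 0,
  .add 10 0,
  .add 28 0,
  .const p.w1,
  .const p.wr,
  .const p.wi,
  .mul 2 136,
  .add 0 2,
  .mul 2 2,
  .const p.g11,
  .mul 0 139,
  .const p.g10,
  .add 1 0,
  .mul 0 143,
  .const p.g01,
  .mul 0 144,
  .const p.g00,
  .add 1 0,
  .add 4 0,
  .const p.f11,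
  .mul 0 149,
  .const p.f10,
  .add 1 0,
  .mul 0 153,
  .const p.f01,
  .mul 0 154,
  .const p.f00,
  .add 1 0,
  .add 4 0,
  .sub 89 21,
  .mul 11 0,
  .add 0 2,
  .mul 2 2,
  .add 0 24,
  .inv 0,
  .mul 3 0,
  .add 33 0,
  .scale ⟨2199023255552, 0, 0, 0⟩ 248,
  .sub 106 214,
  .add 97 103,
  .mul 98 0,
  .mul 105 0,
  .mul 3 0,
  .add 6 244,
  .mul 1 0,
  .add 7 0,
  .const p.a11,
  .mul 0 176,
  .const p.a10,
  .add 1 0,
  .mul 0 180,
  .const p.a03,
  .mul 0 181,
  .const p.a02,
  .add 1 0,
  .mul 0 184,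
  .const p.a01,
  .add 1 0,
  .mul 0 187,
  .const p.a00,
  .add 1 0,
  .add 10 0,
  .scale ⟨2199023255552, 0, 0, 0⟩ 0,
  .const p.ca,
  .add 132 240,
  .mul 2 0,
  .mul 279 134,
  .mul 3 0,
  .add 0 266,
  .inv 0,
  .mul 4 0,
  .mul 284 25,
  .neg 0,
  .lt 0 1099511627776,
  .mul 244 0,
  .add 0 243,
  .mul 0 2,
  .add 0 242,
  .mul 0 4,
  .add 0 284,
  .mul 0 6,
  .add 0 284,
  .mul 0 8,
  .add 0 283,
  .mul 0 10,
  .add 0 282,
  .ball 0 30678339,
  .mul 40 0,
  .scale ⟨0, 549755813888, 0, 0⟩ 0,
  .mul 301 0,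
  .scale ⟨2199023255552, 0, 0, 0⟩ 0,
  .add 0 288,
  .lt 2 412316860416,
  .const ⟨122167958642, 0, 0, 0⟩,
  .mul 0 3,
  .const ⟨0, 137438953472, 0, 0⟩,
  .add 1 0,
  .mul 0 6,
  .add 0 248,
  .mul 0 8,
  .add 0 248,
  .mul 0 10,
  .add 0 247,
  .mul 0 12,
  .add 0 246,
  .mul 0 14,
  .add 0 245,
  .mul 0 16,
  .add 0 244,
  .mul 0 18,
  .add 0 306,
  .ball 0 25798904,
  .mul 22 0,
  .mul 40 326,
  .mul 21 0,
  .mul 326 0,
  .lt 0 412316860416,
  .mul 22 0,
  .add 0 21,
  .mul 0 2,
  .add 0 269,
  .mul 0 4,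
  .add 0 269,
  .mul 0 6,
  .add 0 268,
  .mul 0 8,
  .add 0 267,
  .mul 0 10,
  .add 0 266,
  .mul 0 12,
  .add 0 265,
  .mul 0 14,
  .add 0 327,
  .ball 0 25798904,
  .mul 18 0,
  .mul 345 20,
  .neg 0,
  .lt 0 412316860416,
  .mul 42 0,
  .add 0 41,
  .mul 0 2,
  .add 0 289,
  .mul 0 4,
  .add 0 289,
  .mul 0 6,
  .add 0 288,
  .mul 0 8,
  .add 0 287,
  .mul 0 10,
  .add 0 286,
  .mul 0 12,
  .add 0 285,
  .mul 0 14,
  .add 0 347,
  .ball 0 25798904,
  .mul 39 0,
  .neg 0,
  .sub 21 0,
  .add 0 108,
  .add 366 288,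
  .add 0 3,
  .sub 0 111,
  .sub 0 47,
  .mul 366 4,
  .lt 0 274877906944,
  .mul 366 0,
  .add 0 365,
  .mul 0 2,
  .add 0 364,
  .mul 0 4,
  .add 0 363,
  .ball 0 42949674,
  .mul 12 0,
  .mul 375 0,
  .add 0 367,
  .scale ⟨2199023255552, 0, 0, 0⟩ 11,
  .add 0 16,
  .mul 379 0,
  .neg 0,
  .lt 0 274877906944,
  .mul 380 0,
  .add 0 379,
  .mul 0 2,
  .add 0 378,
  .mul 0 4,
  .add 0 377,
  .ball 0 42949674,
  .mul 7 0,
  .add 0 380,
  .add 13 381,
  .mul 362 1,
  .mul 0 1,
  .mul 393 0,
  .mul 248 17,
  .add 1 0,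
  .mul 396 0,
  .lt 0 412316860416,
  .mul 98 0,
  .add 0 97,
  .mul 0 2,
  .add 0 345,
  .mul 0 4,
  .add 0 345,
  .mul 0 6,
  .add 0 344,
  .mul 0 8,
  .add 0 343,
  .mul 0 10,
  .add 0 342,
  .mul 0 12,
  .add 0 341,
  .mul 0 14,
  .add 0 403,
  .ball 0 25798904,
  .mul 18 0,
  .mul 415 0,
  .scale ⟨549755813888, 0, 0, 0⟩ 0,
  .lt 0 274877906944,
  .mul 416 0,
  .add 0 415,
  .mul 0 2,
  .add 0 414,
  .mul 0 4,
  .add 0 413,
  .ball 0 42949674,
  .mul 7 0,
  .add 392 281,
  .mul 51 281,
  .scale ⟨2199023255552, 0, 0, 0⟩ 1,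
  .sub 1 0,
  .mul 429 285,
  .mul 55 0,
  .mul 52 43,
  .mul 0 41,
  .scale ⟨2199023255552, 0, 0, 0⟩ 0,
  .sub 3 0,
  .scale ⟨2199023255552, 0, 0, 0⟩ 402,
  .sub 1 0,
  .mul 11 8,
  .mul 405 1,
  .add 1 0,
  .add 407 14,
  .mul 441 0,
  .add 0 328,
  .add 18 0,
  .inv 0,
  .mul 5 0,
  .mul 446 0,
  .add 21 0,
  .const p.t11,
  .mul 0 371,
  .const p.t10,
  .add 1 0,
  .mul 0 375,
  .const p.t03,
  .mul 0 376,
  .const p.t02,
  .add 1 0,
  .mul 0 379,
  .const p.t01,
  .add 1 0,
  .mul 0 382,
  .const p.t00,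
  .add 1 0,
  .add 10 0,
  .lt 0 2199023255552,
  .const p.tj,
  .mul 0 386,
  .neg 0,
  .exp 0,
  .mul 4 0,
  .mul 475 21,
  .const p.m300,
  .mul 0 324,
  .const p.m200,
  .add 1 0,
  .mul 0 327,
  .const p.m110,
  .mul 0 399,
  .const p.m101,
  .mul 0 400,
  .const p.m100,
  .add 1 0,
  .add 4 0,
  .add 7 0,
  .mul 0 336,
  .const p.m010,
  .mul 0 408,
  .const p.m002,
  .mul 0 409,
  .const p.m001,
  .add 1 0,
  .mul 0 412,
  .const p.m000,
  .add 1 0,
  .add 7 0,
  .add 10 0,
  .pos 0,
  .add 462 47,
  .mul 496 0,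
  .add 0 488,
  .inv 0,
  .mul 3 0,
  .add 1 491,
  .mul 1 0,
  .mul 508 0,
  .mul 353 0,
  .add 0 352,
  .mul 0 2,
  .add 0 345,
  .mul 0 4,
  .add 0 329,
  .mul 0 6,
  .add 0 301,
  .sub 8 296,
  .mul 286 0,
  .add 0 277,
  .mul 2 2,
  .add 0 299,
  .inv 0,
  .mul 3 0,
  .add 7 0,
  .sub 71 488,
  .add 371 21,
  .mul 372 0,
  .mul 23 0,
  .mul 3 0,
  .add 5 518,
  .mul 1 0,
  .add 281 0,
  .const p.b11,
  .mul 0 450,
  .const p.b10,
  .add 1 0,
  .mul 0 454,
  .const p.b03,
  .mul 0 455,
  .const p.b02,
  .add 1 0,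
  .mul 0 458,
  .const p.b01,
  .add 1 0,
  .mul 0 461,
  .const p.b00,
  .add 1 0,
  .add 10 0,
  .scale ⟨2199023255552, 0, 0, 0⟩ 0,
  .const p.cb,
  .add 97 514,
  .mul 2 0,
  .mul 2 77,
  .add 0 539,
  .inv 0,
  .mul 3 0,
  .mul 557 24,
  .neg 0,
  .lt 0 1099511627776,
  .mul 517 0,
  .add 0 516,
  .mul 0 2,
  .add 0 515,
  .mul 0 4,
  .add 0 557,
  .mul 0 6,
  .add 0 557,
  .mul 0 8,
  .add 0 556,
  .mul 0 10,
  .add 0 555,
  .ball 0 30678339,
  .mul 39 0,
  .scale ⟨0, 549755813888, 0, 0⟩ 0,
  .mul 574 0,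
  .scale ⟨2199023255552, 0, 0, 0⟩ 0,
  .add 0 561,
  .lt 2 412316860416,
  .mul 272 2,
  .add 0 271,
  .mul 0 4,
  .add 0 519,
  .mul 0 6,
  .add 0 519,
  .mul 0 8,
  .add 0 518,
  .mul 0 10,
  .add 0 517,
  .mul 0 12,
  .add 0 516,
  .mul 0 14,
  .add 0 515,
  .mul 0 16,
  .add 0 577,
  .ball 0 25798904,
  .mul 20 0,
  .mul 18 38,
  .mul 596 0,
  .lt 0 549755813888,
  .scale ⟨549755813888, 0, 0, 0⟩ 176,
  .sub 0 339,
  .sub 0 275,
  .add 0 5,
  .mul 601 0,
  .neg 0,
  .lt 0 274877906944,
  .mul 596 0,
  .add 0 595,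
  .mul 0 2,
  .add 0 594,
  .mul 0 4,
  .add 0 593,
  .ball 0 42949674,
  .mul 7 0,
  .add 0 596,
  .inv 328,
  .mul 12 3,
  .mul 0 1,
  .sub 617 0,
  .mul 115 0,
  .sub 619 0,
  .mul 22 5,
  .mul 7 0,
  .mul 119 0,
  .lt 145 549755813888,
  .add 584 167,
  .add 585 190,
  .mul 1 0,
  .mul 0 149,
  .mul 593 173,
  .scale ⟨2199023255552, 0, 0, 0⟩ 0,
  .inv 2,
  .mul 1 0,
  .lt 0 1099511627776,
  .rball 11 8,
  .lt 0 1099243192320]

set_option maxRecDepth 1000000 in
set_option linter.unusedVariables false in
noncomputable def chk0 {α : Type} (cst : Z → α) (add sub mul : α → α → α) (scale : Z → α → α)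
    (neg inv exp log : α → α) (ok : α → Bool) (isPos : Nat → α → Bool) (isLt : α → Nat → Bool)
    (ball : Nat → α → α) (rball : α → α → α) (p : Pm) : List α → Bool
  | [x0, x1, x2, x3] =>
  let v0 := cst ⟨1099511627776, 0, 0, 0⟩; ok v0 && (
  let v1 := scale ⟨2199023255552, 0, 0, 0⟩ x2; ok v1 && (
  let v2 := mul x1 v0; ok v2 && (
  let v3 := mul v2 x0; ok v3 && (
  let v4 := mul x1 x0; ok v4 && (
  isLt v3 91625968981 && (
  let v5 := cst ⟨45812984491, 0, 0, 0⟩; ok v5 && (
  let v6 := mul v5 v3; ok v6 && (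
  let v7 := cst ⟨183251937963, 0, 0, 0⟩; ok v7 && (
  let v8 := add v6 v7; ok v8 && (
  let v9 := mul v8 v3; ok v9 && (
  let v10 := cst ⟨549755813888, 0, 0, 0⟩; ok v10 && (
  let v11 := add v9 v10; ok v11 && (
  let v12 := mul v11 v3; ok v12 && (
  let v13 := cst ⟨1099511627776, 0, 0, 0⟩; ok v13 && (
  let v14 := add v12 v13; ok v14 && (
  let v15 := ball 530244 v14; ok v15 && (
  let v16 := neg v3; ok v16 && (
  isLt v16 91625968981 && (
  let v17 := mul v5 v16; ok v17 && (
  let v18 := add v17 v7; ok v18 && (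
  let v19 := mul v18 v16; ok v19 && (
  let v20 := add v19 v10; ok v20 && (
  let v21 := mul v20 v16; ok v21 && (
  let v22 := add v21 v13; ok v22 && (
  let v23 := ball 530244 v22; ok v23 && (
  let v24 := add v15 v23; ok v24 && (
  let v25 := scale ⟨549755813888, 0, 0, 0⟩ v24; ok v25 && (
  let v26 := sub v15 v23; ok v26 && (
  let v27 := mul v3 v26; ok v27 && (
  let v28 := scale ⟨549755813888, 0, 0, 0⟩ v27; ok v28 && (
  let v29 := add v28 v13; ok v29 && (
  let v30 := mul v25 v29; ok v30 && (
  let v31 := mul v25 v0; ok v31 && (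
  let v32 := mul v31 v31; ok v32 && (
  let v33 := scale ⟨4398046511104, 0, 0, 0⟩ v32; ok v33 && (
  let v34 := mul v0 v30; ok v34 && (
  let v35 := scale ⟨2199023255552, 0, 0, 0⟩ v34; ok v35 && (
  let v36 := mul v33 v4; ok v36 && (
  let v37 := scale ⟨549755813888, 0, 0, 0⟩ v36; ok v37 && (
  let v38 := scale ⟨2199023255552, 0, 0, 0⟩ v2; ok v38 && (
  let v39 := neg v38; ok v39 && (
  isLt v39 1099511627776 && (
  let v40 := cst ⟨218157069, 0, 0, 0⟩; ok v40 && (
  let v41 := mul v40 v39; ok v41 && (
  let v42 := cst ⟨1527099483, 0, 0, 0⟩; ok v42 && (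
  let v43 := add v41 v42; ok v43 && (
  let v44 := mul v43 v39; ok v44 && (
  let v45 := cst ⟨9162596898, 0, 0, 0⟩; ok v45 && (
  let v46 := add v44 v45; ok v46 && (
  let v47 := mul v46 v39; ok v47 && (
  let v48 := add v47 v5; ok v48 && (
  let v49 := mul v48 v39; ok v49 && (
  let v50 := add v49 v7; ok v50 && (
  let v51 := mul v50 v39; ok v51 && (
  let v52 := add v51 v10; ok v52 && (
  let v53 := mul v52 v39; ok v53 && (
  let v54 := add v53 v13; ok v54 && (
  let v55 := ball 30678339 v54; ok v55 && (
  let v56 := mul v0 v55; ok v56 && (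
  let v57 := neg v56; ok v57 && (
  let v58 := mul x1 v57; ok v58 && (
  isLt v58 274877906944 && (
  let v59 := cst ⟨157073089682, 0, 0, 0⟩; ok v59 && (
  let v60 := mul v59 v58; ok v60 && (
  let v61 := cst ⟨0, 183251937963, 0, 0⟩; ok v61 && (
  let v62 := add v60 v61; ok v62 && (
  let v63 := mul v62 v58; ok v63 && (
  let v64 := cst ⟨219902325555, 0, 0, 0⟩; ok v64 && (
  let v65 := add v63 v64; ok v65 && (
  let v66 := mul v65 v58; ok v66 && (
  let v67 := cst ⟨0, 274877906944, 0, 0⟩; ok v67 && (
  let v68 := add v66 v67; ok v68 && (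
  let v69 := mul v68 v58; ok v69 && (
  let v70 := cst ⟨366503875925, 0, 0, 0⟩; ok v70 && (
  let v71 := add v69 v70; ok v71 && (
  let v72 := mul v71 v58; ok v72 && (
  let v73 := cst ⟨0, 549755813888, 0, 0⟩; ok v73 && (
  let v74 := add v72 v73; ok v74 && (
  let v75 := mul v74 v58; ok v75 && (
  let v76 := add v75 v13; ok v76 && (
  let v77 := ball 11184812 v76; ok v77 && (
  let v78 := mul v57 v77; ok v78 && (
  let v79 := cst (p.ec); ok v79 && (
  let v80 := cst (p.bc); ok v80 && (
  let v81 := sub x0 v79; ok v81 && (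
  let v82 := sub v2 v80; ok v82 && (
  let v83 := scale ⟨2199023255552, 0, 0, 0⟩ v3; ok v83 && (
  let v84 := cst (p.nn); ok v84 && (
  let v85 := cst (p.s11); ok v85 && (
  let v86 := mul v85 v82; ok v86 && (
  let v87 := cst (p.s10); ok v87 && (
  let v88 := add v86 v87; ok v88 && (
  let v89 := mul v88 v81; ok v89 && (
  let v90 := cst (p.s03); ok v90 && (
  let v91 := mul v90 v82; ok v91 && (
  let v92 := cst (p.s02); ok v92 && (
  let v93 := add v91 v92; ok v93 && (
  let v94 := mul v93 v82; ok v94 && (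
  let v95 := cst (p.s01); ok v95 && (
  let v96 := add v94 v95; ok v96 && (
  let v97 := mul v96 v82; ok v97 && (
  let v98 := cst (p.s00); ok v98 && (
  let v99 := add v97 v98; ok v99 && (
  let v100 := add v89 v99; ok v100 && (
  let v101 := mul v84 v83; ok v101 && (
  let v102 := neg v101; ok v102 && (
  isLt v102 1099511627776 && (
  let v103 := mul v40 v102; ok v103 && (
  let v104 := add v103 v42; ok v104 && (
  let v105 := mul v104 v102; ok v105 && (
  let v106 := add v105 v45; ok v106 && (
  let v107 := mul v106 v102; ok v107 && (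
  let v108 := add v107 v5; ok v108 && (
  let v109 := mul v108 v102; ok v109 && (
  let v110 := add v109 v7; ok v110 && (
  let v111 := mul v110 v102; ok v111 && (
  let v112 := add v111 v10; ok v112 && (
  let v113 := mul v112 v102; ok v113 && (
  let v114 := add v113 v13; ok v114 && (
  let v115 := ball 30678339 v114; ok v115 && (
  let v116 := mul v101 v115; ok v116 && (
  let v117 := sub v13 v116; ok v117 && (
  let v118 := cst ⟨2199023255552, 0, 0, 0⟩; ok v118 && (
  let v119 := sub v118 v116; ok v119 && (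
  let v120 := mul v115 v119; ok v120 && (
  let v121 := mul v84 v120; ok v121 && (
  let v122 := mul v30 v100; ok v122 && (
  let v123 := mul v117 v117; ok v123 && (
  let v124 := mul v122 v123; ok v124 && (
  let v125 := sub v121 v124; ok v125 && (
  let v126 := mul v83 v125; ok v126 && (
  let v127 := sub v118 v126; ok v127 && (
  let v128 := mul v0 v0; ok v128 && (
  let v129 := mul v30 v125; ok v129 && (
  let v130 := mul v128 v129; ok v130 && (
  let v131 := mul v4 v130; ok v131 && (
  let v132 := scale ⟨4398046511104, 0, 0, 0⟩ v131; ok v132 && (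
  let v133 := mul v1 v127; ok v133 && (
  let v134 := scale ⟨0, 0, 1099511627776, 0⟩ v133; ok v134 && (
  let v135 := add v132 v134; ok v135 && (
  let v136 := mul v127 v30; ok v136 && (
  let v137 := mul v4 v1; ok v137 && (
  let v138 := mul v137 v125; ok v138 && (
  let v139 := scale ⟨0, 0, 1099511627776, 0⟩ v138; ok v139 && (
  let v140 := add v136 v139; ok v140 && (
  let v141 := mul v30 v135; ok v141 && (
  let v142 := inv v140; ok v142 && (
  let v143 := mul v141 v142; ok v143 && (
  let v144 := add v37 v143; ok v144 && (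
  let v145 := mul v4 v144; ok v145 && (
  let v146 := add v145 v13; ok v146 && (
  let v147 := inv v146; ok v147 && (
  let v148 := mul v144 v147; ok v148 && (
  let v149 := add v147 v13; ok v149 && (
  let v150 := mul v148 v149; ok v150 && (
  let v151 := mul x1 v150; ok v151 && (
  let v152 := neg v83; ok v152 && (
  let v153 := exp v152; ok v153 && (
  let v154 := cst (p.h400); ok v154 && (
  let v155 := mul v154 v151; ok v155 && (
  let v156 := cst (p.h300); ok v156 && (
  let v157 := add v155 v156; ok v157 && (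
  let v158 := mul v157 v151; ok v158 && (
  let v159 := cst (p.h210); ok v159 && (
  let v160 := mul v159 v81; ok v160 && (
  let v161 := cst (p.h201); ok v161 && (
  let v162 := mul v161 v82; ok v162 && (
  let v163 := cst (p.h200); ok v163 && (
  let v164 := add v162 v163; ok v164 && (
  let v165 := add v160 v164; ok v165 && (
  let v166 := add v158 v165; ok v166 && (
  let v167 := mul v166 v151; ok v167 && (
  let v168 := cst (p.h120); ok v168 && (
  let v169 := mul v168 v81; ok v169 && (
  let v170 := cst (p.h111); ok v170 && (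
  let v171 := mul v170 v82; ok v171 && (
  let v172 := cst (p.h110); ok v172 && (
  let v173 := add v171 v172; ok v173 && (
  let v174 := add v169 v173; ok v174 && (
  let v175 := mul v174 v81; ok v175 && (
  let v176 := cst (p.h102); ok v176 && (
  let v177 := mul v176 v82; ok v177 && (
  let v178 := cst (p.h101); ok v178 && (
  let v179 := add v177 v178; ok v179 && (
  let v180 := mul v179 v82; ok v180 && (
  let v181 := cst (p.h100); ok v181 && (
  let v182 := add v180 v181; ok v182 && (
  let v183 := add v175 v182; ok v183 && (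
  let v184 := add v167 v183; ok v184 && (
  let v185 := mul v184 v151; ok v185 && (
  let v186 := cst (p.h030); ok v186 && (
  let v187 := mul v186 v81; ok v187 && (
  let v188 := cst (p.h021); ok v188 && (
  let v189 := mul v188 v82; ok v189 && (
  let v190 := cst (p.h020); ok v190 && (
  let v191 := add v189 v190; ok v191 && (
  let v192 := add v187 v191; ok v192 && (
  let v193 := mul v192 v81; ok v193 && (
  let v194 := cst (p.h012); ok v194 && (
  let v195 := mul v194 v82; ok v195 && (
  let v196 := cst (p.h011); ok v196 && (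
  let v197 := add v195 v196; ok v197 && (
  let v198 := mul v197 v82; ok v198 && (
  let v199 := cst (p.h010); ok v199 && (
  let v200 := add v198 v199; ok v200 && (
  let v201 := add v193 v200; ok v201 && (
  let v202 := mul v201 v81; ok v202 && (
  let v203 := cst (p.h003); ok v203 && (
  let v204 := mul v203 v82; ok v204 && (
  let v205 := cst (p.h002); ok v205 && (
  let v206 := add v204 v205; ok v206 && (
  let v207 := mul v206 v82; ok v207 && (
  let v208 := cst (p.h001); ok v208 && (
  let v209 := add v207 v208; ok v209 && (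
  let v210 := mul v209 v82; ok v210 && (
  let v211 := cst (p.h000); ok v211 && (
  let v212 := add v210 v211; ok v212 && (
  let v213 := add v202 v212; ok v213 && (
  let v214 := add v185 v213; ok v214 && (
  let v215 := cst (p.w1); ok v215 && (
  let v216 := cst (p.wr); ok v216 && (
  let v217 := cst (p.wi); ok v217 && (
  let v218 := mul v215 v81; ok v218 && (
  let v219 := add v218 v216; ok v219 && (
  let v220 := mul v217 v217; ok v220 && (
  let v221 := cst (p.g11); ok v221 && (
  let v222 := mul v221 v82; ok v222 && (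
  let v223 := cst (p.g10); ok v223 && (
  let v224 := add v222 v223; ok v224 && (
  let v225 := mul v224 v81; ok v225 && (
  let v226 := cst (p.g01); ok v226 && (
  let v227 := mul v226 v82; ok v227 && (
  let v228 := cst (p.g00); ok v228 && (
  let v229 := add v227 v228; ok v229 && (
  let v230 := add v225 v229; ok v230 && (
  let v231 := cst (p.f11); ok v231 && (
  let v232 := mul v231 v82; ok v232 && (
  let v233 := cst (p.f10); ok v233 && (
  let v234 := add v232 v233; ok v234 && (
  let v235 := mul v234 v81; ok v235 && (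
  let v236 := cst (p.f01); ok v236 && (
  let v237 := mul v236 v82; ok v237 && (
  let v238 := cst (p.f00); ok v238 && (
  let v239 := add v237 v238; ok v239 && (
  let v240 := add v235 v239; ok v240 && (
  let v241 := sub v151 v219; ok v241 && (
  let v242 := mul v230 v241; ok v242 && (
  let v243 := add v242 v240; ok v243 && (
  let v244 := mul v241 v241; ok v244 && (
  let v245 := add v244 v220; ok v245 && (
  let v246 := inv v245; ok v246 && (
  let v247 := mul v243 v246; ok v247 && (
  let v248 := add v214 v247; ok v248 && (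
  let v249 := scale ⟨2199023255552, 0, 0, 0⟩ v0; ok v249 && (
  let v250 := sub v143 v35; ok v250 && (
  let v251 := add v153 v147; ok v251 && (
  let v252 := mul v153 v251; ok v252 && (
  let v253 := mul v147 v252; ok v253 && (
  let v254 := mul v250 v253; ok v254 && (
  let v255 := add v248 v10; ok v255 && (
  let v256 := mul v254 v255; ok v256 && (
  let v257 := add v249 v256; ok v257 && (
  let v258 := cst (p.a11); ok v258 && (
  let v259 := mul v258 v82; ok v259 && (
  let v260 := cst (p.a10); ok v260 && (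
  let v261 := add v259 v260; ok v261 && (
  let v262 := mul v261 v81; ok v262 && (
  let v263 := cst (p.a03); ok v263 && (
  let v264 := mul v263 v82; ok v264 && (
  let v265 := cst (p.a02); ok v265 && (
  let v266 := add v264 v265; ok v266 && (
  let v267 := mul v266 v82; ok v267 && (
  let v268 := cst (p.a01); ok v268 && (
  let v269 := add v267 v268; ok v269 && (
  let v270 := mul v269 v82; ok v270 && (
  let v271 := cst (p.a00); ok v271 && (
  let v272 := add v270 v271; ok v272 && (
  let v273 := add v262 v272; ok v273 && (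
  let v274 := scale ⟨2199023255552, 0, 0, 0⟩ v273; ok v274 && (
  let v275 := cst (p.ca); ok v275 && (
  let v276 := add v143 v35; ok v276 && (
  let v277 := mul v274 v276; ok v277 && (
  let v278 := mul x1 v143; ok v278 && (
  let v279 := mul v275 v278; ok v279 && (
  let v280 := add v279 v13; ok v280 && (
  let v281 := inv v280; ok v281 && (
  let v282 := mul v277 v281; ok v282 && (
  let v283 := mul x1 v257; ok v283 && (
  let v284 := neg v283; ok v284 && (
  isLt v284 1099511627776 && (
  let v285 := mul v40 v284; ok v285 && (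
  let v286 := add v285 v42; ok v286 && (
  let v287 := mul v286 v284; ok v287 && (
  let v288 := add v287 v45; ok v288 && (
  let v289 := mul v288 v284; ok v289 && (
  let v290 := add v289 v5; ok v290 && (
  let v291 := mul v290 v284; ok v291 && (
  let v292 := add v291 v7; ok v292 && (
  let v293 := mul v292 v284; ok v293 && (
  let v294 := add v293 v10; ok v294 && (
  let v295 := mul v294 v284; ok v295 && (
  let v296 := add v295 v13; ok v296 && (
  let v297 := ball 30678339 v296; ok v297 && (
  let v298 := mul v257 v297; ok v298 && (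
  let v299 := scale ⟨0, 549755813888, 0, 0⟩ v298; ok v299 && (
  let v300 := mul x1 v299; ok v300 && (
  let v301 := scale ⟨2199023255552, 0, 0, 0⟩ v300; ok v301 && (
  let v302 := add v301 v13; ok v302 && (
  isLt v300 412316860416 && (
  let v303 := cst ⟨122167958642, 0, 0, 0⟩; ok v303 && (
  let v304 := mul v303 v300; ok v304 && (
  let v305 := cst ⟨0, 137438953472, 0, 0⟩; ok v305 && (
  let v306 := add v304 v305; ok v306 && (
  let v307 := mul v306 v300; ok v307 && (
  let v308 := add v307 v59; ok v308 && (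
  let v309 := mul v308 v300; ok v309 && (
  let v310 := add v309 v61; ok v310 && (
  let v311 := mul v310 v300; ok v311 && (
  let v312 := add v311 v64; ok v312 && (
  let v313 := mul v312 v300; ok v313 && (
  let v314 := add v313 v67; ok v314 && (
  let v315 := mul v314 v300; ok v315 && (
  let v316 := add v315 v70; ok v316 && (
  let v317 := mul v316 v300; ok v317 && (
  let v318 := add v317 v73; ok v318 && (
  let v319 := mul v318 v300; ok v319 && (
  let v320 := add v319 v13; ok v320 && (
  let v321 := ball 25798904 v320; ok v321 && (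
  let v322 := mul v299 v321; ok v322 && (
  let v323 := mul v282 x3; ok v323 && (
  let v324 := mul v302 v323; ok v324 && (
  let v325 := mul x1 v324; ok v325 && (
  isLt v325 412316860416 && (
  let v326 := mul v303 v325; ok v326 && (
  let v327 := add v326 v305; ok v327 && (
  let v328 := mul v327 v325; ok v328 && (
  let v329 := add v328 v59; ok v329 && (
  let v330 := mul v329 v325; ok v330 && (
  let v331 := add v330 v61; ok v331 && (
  let v332 := mul v331 v325; ok v332 && (
  let v333 := add v332 v64; ok v333 && (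
  let v334 := mul v333 v325; ok v334 && (
  let v335 := add v334 v67; ok v335 && (
  let v336 := mul v335 v325; ok v336 && (
  let v337 := add v336 v70; ok v337 && (
  let v338 := mul v337 v325; ok v338 && (
  let v339 := add v338 v73; ok v339 && (
  let v340 := mul v339 v325; ok v340 && (
  let v341 := add v340 v13; ok v341 && (
  let v342 := ball 25798904 v341; ok v342 && (
  let v343 := mul v324 v342; ok v343 && (
  let v344 := mul x1 v323; ok v344 && (
  let v345 := neg v344; ok v345 && (
  isLt v345 412316860416 && (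
  let v346 := mul v303 v345; ok v346 && (
  let v347 := add v346 v305; ok v347 && (
  let v348 := mul v347 v345; ok v348 && (
  let v349 := add v348 v59; ok v349 && (
  let v350 := mul v349 v345; ok v350 && (
  let v351 := add v350 v61; ok v351 && (
  let v352 := mul v351 v345; ok v352 && (
  let v353 := add v352 v64; ok v353 && (
  let v354 := mul v353 v345; ok v354 && (
  let v355 := add v354 v67; ok v355 && (
  let v356 := mul v355 v345; ok v356 && (
  let v357 := add v356 v70; ok v357 && (
  let v358 := mul v357 v345; ok v358 && (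
  let v359 := add v358 v73; ok v359 && (
  let v360 := mul v359 v345; ok v360 && (
  let v361 := add v360 v13; ok v361 && (
  let v362 := ball 25798904 v361; ok v362 && (
  let v363 := mul v323 v362; ok v363 && (
  let v364 := neg v363; ok v364 && (
  let v365 := sub v343 v364; ok v365 && (
  let v366 := add v365 v257; ok v366 && (
  let v367 := add v0 v78; ok v367 && (
  let v368 := add v367 v364; ok v368 && (
  let v369 := sub v368 v257; ok v369 && (
  let v370 := sub v369 v322; ok v370 && (
  let v371 := mul v4 v366; ok v371 && (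
  isLt v371 274877906944 && (
  let v372 := mul v5 v371; ok v372 && (
  let v373 := add v372 v7; ok v373 && (
  let v374 := mul v373 v371; ok v374 && (
  let v375 := add v374 v10; ok v375 && (
  let v376 := mul v375 v371; ok v376 && (
  let v377 := add v376 v13; ok v377 && (
  let v378 := ball 42949674 v377; ok v378 && (
  let v379 := mul v366 v378; ok v379 && (
  let v380 := mul v4 v379; ok v380 && (
  let v381 := add v380 v13; ok v381 && (
  let v382 := scale ⟨2199023255552, 0, 0, 0⟩ v370; ok v382 && (
  let v383 := add v382 v366; ok v383 && (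
  let v384 := mul v4 v383; ok v384 && (
  let v385 := neg v384; ok v385 && (
  isLt v385 274877906944 && (
  let v386 := mul v5 v385; ok v386 && (
  let v387 := add v386 v7; ok v387 && (
  let v388 := mul v387 v385; ok v388 && (
  let v389 := add v388 v10; ok v389 && (
  let v390 := mul v389 v385; ok v390 && (
  let v391 := add v390 v13; ok v391 && (
  let v392 := ball 42949674 v391; ok v392 && (
  let v393 := mul v385 v392; ok v393 && (
  let v394 := add v393 v13; ok v394 && (
  let v395 := add v381 v13; ok v395 && (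
  let v396 := mul v33 v394; ok v396 && (
  let v397 := mul v396 v395; ok v397 && (
  let v398 := mul v4 v397; ok v398 && (
  let v399 := mul v150 v381; ok v399 && (
  let v400 := add v398 v399; ok v400 && (
  let v401 := mul v4 v400; ok v401 && (
  isLt v401 412316860416 && (
  let v402 := mul v303 v401; ok v402 && (
  let v403 := add v402 v305; ok v403 && (
  let v404 := mul v403 v401; ok v404 && (
  let v405 := add v404 v59; ok v405 && (
  let v406 := mul v405 v401; ok v406 && (
  let v407 := add v406 v61; ok v407 && (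
  let v408 := mul v407 v401; ok v408 && (
  let v409 := add v408 v64; ok v409 && (
  let v410 := mul v409 v401; ok v410 && (
  let v411 := add v410 v67; ok v411 && (
  let v412 := mul v411 v401; ok v412 && (
  let v413 := add v412 v70; ok v413 && (
  let v414 := mul v413 v401; ok v414 && (
  let v415 := add v414 v73; ok v415 && (
  let v416 := mul v415 v401; ok v416 && (
  let v417 := add v416 v13; ok v417 && (
  let v418 := ball 25798904 v417; ok v418 && (
  let v419 := mul v400 v418; ok v419 && (
  let v420 := mul v4 v419; ok v420 && (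
  let v421 := scale ⟨549755813888, 0, 0, 0⟩ v420; ok v421 && (
  isLt v421 274877906944 && (
  let v422 := mul v5 v421; ok v422 && (
  let v423 := add v422 v7; ok v423 && (
  let v424 := mul v423 v421; ok v424 && (
  let v425 := add v424 v10; ok v425 && (
  let v426 := mul v425 v421; ok v426 && (
  let v427 := add v426 v13; ok v427 && (
  let v428 := ball 42949674 v427; ok v428 && (
  let v429 := mul v421 v428; ok v429 && (
  let v430 := add v37 v148; ok v430 && (
  let v431 := mul v379 v149; ok v431 && (
  let v432 := scale ⟨2199023255552, 0, 0, 0⟩ v430; ok v432 && (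
  let v433 := sub v431 v432; ok v433 && (
  let v434 := mul v4 v148; ok v434 && (
  let v435 := mul v379 v434; ok v435 && (
  let v436 := mul v383 v392; ok v436 && (
  let v437 := mul v436 v395; ok v437 && (
  let v438 := scale ⟨2199023255552, 0, 0, 0⟩ v437; ok v438 && (
  let v439 := sub v435 v438; ok v439 && (
  let v440 := scale ⟨2199023255552, 0, 0, 0⟩ v37; ok v440 && (
  let v441 := sub v439 v440; ok v441 && (
  let v442 := mul v430 v433; ok v442 && (
  let v443 := mul v37 v441; ok v443 && (
  let v444 := add v442 v443; ok v444 && (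
  let v445 := add v37 v430; ok v445 && (
  let v446 := mul v4 v445; ok v446 && (
  let v447 := add v446 v118; ok v447 && (
  let v448 := add v429 v447; ok v448 && (
  let v449 := inv v448; ok v449 && (
  let v450 := mul v444 v449; ok v450 && (
  let v451 := mul v4 v450; ok v451 && (
  let v452 := add v430 v451; ok v452 && (
  let v453 := cst (p.t11); ok v453 && (
  let v454 := mul v453 v82; ok v454 && (
  let v455 := cst (p.t10); ok v455 && (
  let v456 := add v454 v455; ok v456 && (
  let v457 := mul v456 v81; ok v457 && (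
  let v458 := cst (p.t03); ok v458 && (
  let v459 := mul v458 v82; ok v459 && (
  let v460 := cst (p.t02); ok v460 && (
  let v461 := add v459 v460; ok v461 && (
  let v462 := mul v461 v82; ok v462 && (
  let v463 := cst (p.t01); ok v463 && (
  let v464 := add v462 v463; ok v464 && (
  let v465 := mul v464 v82; ok v465 && (
  let v466 := cst (p.t00); ok v466 && (
  let v467 := add v465 v466; ok v467 && (
  let v468 := add v457 v467; ok v468 && (
  isLt v468 2199023255552 && (
  let v469 := cst (p.tj); ok v469 && (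
  let v470 := mul v469 v83; ok v470 && (
  let v471 := neg v470; ok v471 && (
  let v472 := exp v471; ok v472 && (
  let v473 := mul v468 v472; ok v473 && (
  let v474 := mul x1 v452; ok v474 && (
  let v475 := cst (p.m300); ok v475 && (
  let v476 := mul v475 v151; ok v476 && (
  let v477 := cst (p.m200); ok v477 && (
  let v478 := add v476 v477; ok v478 && (
  let v479 := mul v478 v151; ok v479 && (
  let v480 := cst (p.m110); ok v480 && (
  let v481 := mul v480 v81; ok v481 && (
  let v482 := cst (p.m101); ok v482 && (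
  let v483 := mul v482 v82; ok v483 && (
  let v484 := cst (p.m100); ok v484 && (
  let v485 := add v483 v484; ok v485 && (
  let v486 := add v481 v485; ok v486 && (
  let v487 := add v479 v486; ok v487 && (
  let v488 := mul v487 v151; ok v488 && (
  let v489 := cst (p.m010); ok v489 && (
  let v490 := mul v489 v81; ok v490 && (
  let v491 := cst (p.m002); ok v491 && (
  let v492 := mul v491 v82; ok v492 && (
  let v493 := cst (p.m001); ok v493 && (
  let v494 := add v492 v493; ok v494 && (
  let v495 := mul v494 v82; ok v495 && (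
  let v496 := cst (p.m000); ok v496 && (
  let v497 := add v495 v496; ok v497 && (
  let v498 := add v490 v497; ok v498 && (
  let v499 := add v488 v498; ok v499 && (
  isPos 3 v499 && (
  let v500 := add v37 v452; ok v500 && (
  let v501 := mul v4 v500; ok v501 && (
  let v502 := add v501 v13; ok v502 && (
  let v503 := inv v502; ok v503 && (
  let v504 := mul v500 v503; ok v504 && (
  let v505 := add v503 v13; ok v505 && (
  let v506 := mul v504 v505; ok v506 && (
  let v507 := mul x1 v506; ok v507 && (
  let v508 := mul v154 v507; ok v508 && (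
  let v509 := add v508 v156; ok v509 && (
  let v510 := mul v509 v507; ok v510 && (
  let v511 := add v510 v165; ok v511 && (
  let v512 := mul v511 v507; ok v512 && (
  let v513 := add v512 v183; ok v513 && (
  let v514 := mul v513 v507; ok v514 && (
  let v515 := add v514 v213; ok v515 && (
  let v516 := sub v507 v219; ok v516 && (
  let v517 := mul v230 v516; ok v517 && (
  let v518 := add v517 v240; ok v518 && (
  let v519 := mul v516 v516; ok v519 && (
  let v520 := add v519 v220; ok v520 && (
  let v521 := inv v520; ok v521 && (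
  let v522 := mul v518 v521; ok v522 && (
  let v523 := add v515 v522; ok v523 && (
  let v524 := sub v452 v35; ok v524 && (
  let v525 := add v153 v503; ok v525 && (
  let v526 := mul v153 v525; ok v526 && (
  let v527 := mul v503 v526; ok v527 && (
  let v528 := mul v524 v527; ok v528 && (
  let v529 := add v523 v10; ok v529 && (
  let v530 := mul v528 v529; ok v530 && (
  let v531 := add v249 v530; ok v531 && (
  let v532 := cst (p.b11); ok v532 && (
  let v533 := mul v532 v82; ok v533 && (
  let v534 := cst (p.b10); ok v534 && (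
  let v535 := add v533 v534; ok v535 && (
  let v536 := mul v535 v81; ok v536 && (
  let v537 := cst (p.b03); ok v537 && (
  let v538 := mul v537 v82; ok v538 && (
  let v539 := cst (p.b02); ok v539 && (
  let v540 := add v538 v539; ok v540 && (
  let v541 := mul v540 v82; ok v541 && (
  let v542 := cst (p.b01); ok v542 && (
  let v543 := add v541 v542; ok v543 && (
  let v544 := mul v543 v82; ok v544 && (
  let v545 := cst (p.b00); ok v545 && (
  let v546 := add v544 v545; ok v546 && (
  let v547 := add v536 v546; ok v547 && (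
  let v548 := scale ⟨2199023255552, 0, 0, 0⟩ v547; ok v548 && (
  let v549 := cst (p.cb); ok v549 && (
  let v550 := add v452 v35; ok v550 && (
  let v551 := mul v548 v550; ok v551 && (
  let v552 := mul v549 v474; ok v552 && (
  let v553 := add v552 v13; ok v553 && (
  let v554 := inv v553; ok v554 && (
  let v555 := mul v551 v554; ok v555 && (
  let v556 := mul x1 v531; ok v556 && (
  let v557 := neg v556; ok v557 && (
  isLt v557 1099511627776 && (
  let v558 := mul v40 v557; ok v558 && (
  let v559 := add v558 v42; ok v559 && (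
  let v560 := mul v559 v557; ok v560 && (
  let v561 := add v560 v45; ok v561 && (
  let v562 := mul v561 v557; ok v562 && (
  let v563 := add v562 v5; ok v563 && (
  let v564 := mul v563 v557; ok v564 && (
  let v565 := add v564 v7; ok v565 && (
  let v566 := mul v565 v557; ok v566 && (
  let v567 := add v566 v10; ok v567 && (
  let v568 := mul v567 v557; ok v568 && (
  let v569 := add v568 v13; ok v569 && (
  let v570 := ball 30678339 v569; ok v570 && (
  let v571 := mul v531 v570; ok v571 && (
  let v572 := scale ⟨0, 549755813888, 0, 0⟩ v571; ok v572 && (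
  let v573 := mul x1 v572; ok v573 && (
  let v574 := scale ⟨2199023255552, 0, 0, 0⟩ v573; ok v574 && (
  let v575 := add v574 v13; ok v575 && (
  isLt v573 412316860416 && (
  let v576 := mul v303 v573; ok v576 && (
  let v577 := add v576 v305; ok v577 && (
  let v578 := mul v577 v573; ok v578 && (
  let v579 := add v578 v59; ok v579 && (
  let v580 := mul v579 v573; ok v580 && (
  let v581 := add v580 v61; ok v581 && (
  let v582 := mul v581 v573; ok v582 && (
  let v583 := add v582 v64; ok v583 && (
  let v584 := mul v583 v573; ok v584 && (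
  let v585 := add v584 v67; ok v585 && (
  let v586 := mul v585 v573; ok v586 && (
  let v587 := add v586 v70; ok v587 && (
  let v588 := mul v587 v573; ok v588 && (
  let v589 := add v588 v73; ok v589 && (
  let v590 := mul v589 v573; ok v590 && (
  let v591 := add v590 v13; ok v591 && (
  let v592 := ball 25798904 v591; ok v592 && (
  let v593 := mul v572 v592; ok v593 && (
  let v594 := mul v575 v555; ok v594 && (
  let v595 := mul x1 v594; ok v595 && (
  isLt v595 549755813888 && (
  let v596 := scale ⟨549755813888, 0, 0, 0⟩ v419; ok v596 && (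
  let v597 := sub v596 v257; ok v597 && (
  let v598 := sub v597 v322; ok v598 && (
  let v599 := add v598 v593; ok v599 && (
  let v600 := mul x1 v599; ok v600 && (
  let v601 := neg v600; ok v601 && (
  isLt v601 274877906944 && (
  let v602 := mul v5 v601; ok v602 && (
  let v603 := add v602 v7; ok v603 && (
  let v604 := mul v603 v601; ok v604 && (
  let v605 := add v604 v10; ok v605 && (
  let v606 := mul v605 v601; ok v606 && (
  let v607 := add v606 v13; ok v607 && (
  let v608 := ball 42949674 v607; ok v608 && (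
  let v609 := mul v601 v608; ok v609 && (
  let v610 := add v609 v13; ok v610 && (
  let v611 := inv v282; ok v611 && (
  let v612 := mul v599 v608; ok v612 && (
  let v613 := mul v612 v611; ok v613 && (
  let v614 := sub x3 v613; ok v614 && (
  let v615 := mul v499 v614; ok v615 && (
  let v616 := sub x3 v615; ok v616 && (
  let v617 := mul v594 v611; ok v617 && (
  let v618 := mul v610 v617; ok v618 && (
  let v619 := mul v499 v618; ok v619 && (
  isLt v474 549755813888 && (
  let v620 := add v35 v452; ok v620 && (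
  let v621 := add v35 v430; ok v621 && (
  let v622 := mul v620 v621; ok v622 && (
  let v623 := mul v622 v473; ok v623 && (
  let v624 := mul v30 v450; ok v624 && (
  let v625 := scale ⟨2199023255552, 0, 0, 0⟩ v624; ok v625 && (
  let v626 := inv v623; ok v626 && (
  let v627 := mul v625 v626; ok v627 && (
  isLt v627 1099511627776 && (
  let v628 := rball v616 v619; ok v628 && (
  isLt v628 1099243192320 && (
  true)))))))))))))))))))))))))))))))))))))))))))))))))))))))))))))))))))))))))))))))))))))))))))))))))))))))))))))))))))))))))))))))))))))))))))))))))))))))))))))))))))))))))))))))))))))))))))))))))))))))))))))))))))))))))))))))))))))))))))))))))))))))))))))))))))))))))))))))))))))))))))))))))))))))))))))))))))))))))))))))))))))))))))))))))))))))))))))))))))))))))))))))))))))))))))))))))))))))))))))))))))))))))))))))))))))))))))))))))))))))))))))))))))))))))))))))))))))))))))))))))))))))))))))))))))))))))))))))))))))))))))))))))))))))))))))))))))))))))))))))))))))))))))))))))))))))))))))))))))))))))))))))))))))))))))))))))))))))))))))))))))))))))))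
  | _ => false

set_option maxRecDepth 1000000 in
theorem chk0_eq (X : XOps) (p : Pm) (m : List X.O.α)
    (h : chk0 X.O.cst X.O.add X.O.sub X.O.mul X.O.scale X.O.neg X.O.inv X.O.exp X.O.log X.O.ok
      X.O.isPos X.O.isLt X.ball X.rball p m = true) :
    runX X 3 (prog0 p) m = true := by
  match m, h with
  | [x0, x1, x2, x3], h => exact h

noncomputable def chkB0 (p : Pm) : List opsE.O.α → Bool :=
  chk0 opsE.O.cst opsE.O.add opsE.O.sub opsE.O.mul opsE.O.scale opsE.O.neg opsE.O.inv opsE.O.exp opsE.O.log opsE.O.ok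
      opsE.O.isPos opsE.O.isLt opsE.ball opsE.rball p

theorem chkB0_eq (p : Pm) (m : List opsE.O.α) (h : chkB0 p m = true) : runX opsE 3 (prog0 p) m = true :=
  chk0_eq opsE p m h

end Pool.Agent.helper12.GP.MBQ
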