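import Pool.Agent.helper12.GP.Gt
import Pool.Agent.helper12.RS.CorN

/-!
# Agreement of the constants of a corner program with a table
-/

namespace Pool.Agent.helper12.GP

open Complex ComplexConjugate
open Pool.Agent.helper31.IA (Z)
open Pool.Agent.helper12.RS Pool.Agent.helper63.NF Pool.Agent.helper20.EQR

/-- integers as constants -/
def z2 (l : List (List ℤ)) : List (List Z) := l.map (List.map zi)
def z3 (l : List (List (List ℤ))) : List (List (List Z)) := l.map (List.map (List.map zi))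

/-- values -/
noncomputable def v2 (l : List (List Z)) : List (List ℂ) := l.map (List.map Z.val)
noncomputable def v3 (l : List (List (List Z))) : List (List (List ℂ)) :=
  l.map (List.map (List.map Z.val))

theorem v2_z2 (l : List (List ℤ)) : v2 (z2 l) = c2 l := by
  unfold v2 z2 c2
  rw [List.map_map]
  apply List.map_congr_left
  intro r _
  show List.map Z.val (List.map zi r) = List.map cv r
  rw [List.map_map]
  apply List.map_congr_left
  intro n _
  exact zi_val n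

theorem v3_z3 (l : List (List (List ℤ))) : v3 (z3 l) = c3 l := by
  unfold v3 z3 c3
  rw [List.map_map]
  apply List.map_congr_left
  intro r _
  exact v2_z2 r

/-- two records agree at the node `m` -/
structure AgR (G t : Tb) (m : ℕ) : Prop where
  ec : G.ec = t.ec
  bc : G.bc = t.bc
  H : G.H = t.H
  pol : G.pol = t.pol
  M : G.M 0 = t.M m
  a : G.a 0 = t.a m
  j : G.j 0 = t.j m
  c : G.c 0 = t.c m

/-- and at the next one -/
structure AgR1 (G t : Tb) (m : ℕ) : Prop extends AgR G t m where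
  a1 : G.a 1 = t.a (m + 1)
  j1 : G.j 1 = t.j (m + 1)
  c1 : G.c 1 = t.c (m + 1)

namespace AgR

variable {G t : Tb} {m : ℕ} (h : AgR G t m)
include h

theorem deb (b : PtB) : G.deb b = t.deb b := by
  unfold Tb.deb
  rw [h.ec]

theorem dbb (b : PtB) : G.dbb b = t.dbb b := by
  unfold Tb.dbb
  rw [h.bc]

theorem Lf (i k : ℕ) (b : PtB) (U : ℂ) : G.nf.Lf i b U = t.nf.Lf k b U := by
  show G.Lf i b U = t.Lf k b U
  unfold Tb.Lf
  rw [h.deb, h.dbb, h.pol, h.H]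

theorem Rf (b : PtB) (U : ℂ) : G.nf.Rf 0 b U = t.nf.Rf m b U := by
  show G.Rf 0 b U = t.Rf m b U
  unfold Tb.Rf Tb.anb
  rw [h.deb, h.dbb, h.a, h.j, h.c]

theorem Mf (b : PtB) (U : ℂ) : G.nf.Mf 0 b U = t.nf.Mf m b U := by
  show G.Mf 0 b U = t.Mf m b U
  unfold Tb.Mf
  rw [h.deb, h.dbb, h.M]

theorem ptM (b : PtB) (U x : ℂ) : RS.ptM G.nf 0 b U x = RS.ptM t.nf m b U x := by
  unfold RS.ptM
  rw [h.Lf 0 m, h.Rf]

theorem ptL (b : PtB) (U x Ae xa C2 F2 : ℂ) :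
    RS.ptL G.nf 0 b U x Ae xa C2 F2 = RS.ptL t.nf m b U x Ae xa C2 F2 := by
  unfold RS.ptL
  rw [h.ptM, h.Mf]

theorem tkb (l : List (List ℂ)) (j : ℂ) (b : PtB) : G.tkb l j b = t.tkb l j b := by
  unfold Tb.tkb
  rw [h.deb, h.dbb]

theorem FL {tl sl : List (List ℂ)} {jc nc Ae xa C2 : ℂ} {B1 : ℝ} {b : PtB} {et : ℂ}
    (hF : RS.FL G 0 tl sl jc nc Ae xa C2 B1 b et) : RS.FL t m tl sl jc nc Ae xa C2 B1 b et := by
  intro x hx
  have := hF x hx
  simp only [h.ptM, h.ptL, h.tkb, h.deb, h.dbb] at this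
  exact this

end AgR

theorem AgR1.ptK {G t : Tb} {m : ℕ} (h : AgR1 G t m) (b : PtB) (U x : ℂ) :
    RS.ptK G.nf 0 b U x = RS.ptK t.nf m b U x := by
  have e1 : ∀ U' : ℂ, G.nf.Rf (0 + 1) b U' = t.nf.Rf (m + 1) b U' := by
    intro U'
    show G.Rf 1 b U' = t.Rf (m + 1) b U'
    unfold Tb.Rf Tb.anb
    rw [h.toAgR.deb, h.toAgR.dbb, h.a1, h.j1, h.c1]
  unfold RS.ptK
  rw [h.toAgR.ptM, h.toAgR.Lf 0 m, h.toAgR.Rf, h.toAgR.Mf, e1, h.toAgR.Lf (0 + 1) (m + 1)]

theorem AgR1.FM {G t : Tb} {m : ℕ} (h : AgR1 G t m) {tl sl : List (List ℂ)} {jc nc : ℂ} {b : PtB}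
    {et : ℂ} (hF : RS.FM G 0 tl sl jc nc b et) : RS.FM t m tl sl jc nc b et := by
  intro x hx
  have := hF x hx
  simp only [h.toAgR.ptM, h.ptK, h.toAgR.tkb, h.toAgR.deb, h.toAgR.dbb] at this
  exact this

/-- the constants agree with the table at the node `m` -/
structure AgZ (t : TD) (m : ℕ) (p : Pm) : Prop where
  ec : p.ec = zi t.ec
  bc : p.bc = zi t.bc
  H : zH p = z3 t.H
  M : zM p = z3 (nth [] t.M (m + 1))
  a : zA p = z2 (nth [] t.a (m + 1))
  j : nth 0 t.j (m + 1) = 0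
  c : p.ca = zi (nth 0 t.c (m + 1))
  tt : zT p = z2 (nth [] t.t (m + 1))
  s : zS p = z2 (sumT t (m + 1))
  nn : p.nn = zn (m + 1)
  tj : p.tj = zn (2 * (m + 2))
  y : 2 ^ 38 ≤ nth 0 t.y (m + 1)

structure AgZ1 (t : TD) (m : ℕ) (p : Pm) : Prop extends AgZ t m p where
  a1 : zB p = z2 (nth [] t.a (m + 2))
  j1 : nth 0 t.j (m + 2) = 0
  c1 : p.cb = zi (nth 0 t.c (m + 2))

/-- the pair of poles -/
structure AgP (t : TD) (p : Pm) (q : PD) : Prop where
  pol : t.pol = some q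
  wr : p.wr = zi q.wr
  wi : p.wi = zi q.wi
  w1 : p.w1 = zi q.w1
  rho : zG p = z2 q.rho
  sig : zF p = z2 q.sig

/-- records with the constants -/
structure GOk (G : Tb) (p : Pm) : Prop where
  ec : G.ec = p.ec.val
  bc : G.bc = p.bc.val
  H : G.H = v3 (zH p)
  M : G.M 0 = v3 (zM p)
  a : G.a 0 = v2 (zA p)
  a1 : G.a 1 = v2 (zB p)
  j : G.j 0 = 0
  j1 : G.j 1 = 0
  c : G.c 0 = p.ca.val
  c1 : G.c 1 = p.cb.val

theorem GT_ok (p : Pm) : GOk (GT p) p := ⟨rfl, rfl, rfl, rfl, rfl, rfl, rfl, rfl, rfl, rfl⟩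

theorem GQ_ok (p : Pm) : GOk (GQ p) p := ⟨rfl, rfl, rfl, rfl, rfl, rfl, rfl, rfl, rfl, rfl⟩

theorem tl_v (p : Pm) : tl p = v2 (zT p) := rfl
theorem sl_v (p : Pm) : sl p = v2 (zS p) := rfl

theorem pol_none {t : TD} (h : t.pol = none) (p : Pm) : (GT p).pol = t.tb.pol := by
  show none = t.pol.map PD.po
  rw [h]
  rfl

theorem pol_some {t : TD} {p : Pm} {q : PD} (h : AgP t p q) : (GQ p).pol = t.tb.pol := by
  show some (PQ p) = t.pol.map PD.po
  rw [h.pol]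
  show some (PQ p) = some q.po
  congr 1
  have hr : (PQ p).rho = q.po.rho := by
    show (v2 (zG p)).map (List.map fun z => (1 / 2) * z) = q.rho.map (List.map fun n => (1 / 2) * cv n)
    rw [h.rho, v2_z2]
    unfold c2
    rw [List.map_map]
    apply List.map_congr_left
    intro r _
    show List.map _ (List.map cv r) = _
    rw [List.map_map]
    rfl
  have hwi : (p.wi).val = cv q.wi := by rw [h.wi, zi_val]
  have hs : (PQ p).sig = q.po.sig := by
    show (v2 (zF p)).map (List.map fun z => (-(1 / (2 * (p.wi).val))) * z) =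
      q.sig.map (List.map fun n => (-(1 / (2 * cv q.wi))) * cv n)
    rw [h.sig, v2_z2, hwi]
    unfold c2
    rw [List.map_map]
    apply List.map_congr_left
    intro r _
    show List.map _ (List.map cv r) = _
    rw [List.map_map]
    rfl
  have h1 : (PQ p).wr = q.po.wr := by
    show (p.wr).val = cv q.wr
    rw [h.wr, zi_val]
  have h2 : (PQ p).w1 = q.po.w1 := by
    show (p.w1).val = cv q.w1
    rw [h.w1, zi_val]
  have h3 : (PQ p).wi = q.po.wi := hwi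
  generalize PQ p = P at hr hs h1 h2 h3 ⊢
  generalize q.po = P' at hr hs h1 h2 h3 ⊢
  cases P
  cases P'
  simp only at hr hs h1 h2 h3
  subst hr hs h1 h2 h3
  rfl

theorem AgZ.toR {t : TD} {m : ℕ} {p : Pm} (h : AgZ t m p) {G : Tb} (hG : GOk G p)
    (hp : G.pol = t.tb.pol) : AgR G t.tb m := by
  refine ⟨?_, ?_, ?_, hp, ?_, ?_, ?_, ?_⟩
  · rw [hG.ec, h.ec, zi_val]
    rfl
  · rw [hG.bc, h.bc, zi_val]
    rfl
  · rw [hG.H, h.H, v3_z3]
    rfl
  · rw [hG.M, h.M, v3_z3]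
    rfl
  · rw [hG.a, h.a, v2_z2]
    rfl
  · rw [hG.j]
    show 0 = cv (nth 0 t.j (m + 1))
    rw [h.j, cv_zero]
  · rw [hG.c, h.c, zi_val]
    rfl

theorem AgZ1.toR1 {t : TD} {m : ℕ} {p : Pm} (h : AgZ1 t m p) {G : Tb} (hG : GOk G p)
    (hp : G.pol = t.tb.pol) : AgR1 G t.tb m := by
  refine ⟨h.toAgZ.toR hG hp, ?_, ?_, ?_⟩
  · rw [hG.a1, h.a1, v2_z2]
    rfl
  · rw [hG.j1]
    show 0 = cv (nth 0 t.j (m + 1 + 1))
    rw [h.j1, cv_zero]
  · rw [hG.c1, h.c1, zi_val]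
    rfl

end Pool.Agent.helper12.GP
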