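import Pool.Agent.helper12.GP.Ag
import Pool.Agent.helper63.NF.SpecGeo

/-!
# The near nodes of the corner of a strip table
-/

namespace Pool.Agent.helper12.GP

open Complex ComplexConjugate
open Pool.Agent.helper31.IA (Z)
open Pool.Agent.helper12.RS Pool.Agent.helper12.FF Pool.Agent.helper63.RG
open Pool.Agent.helper63.NF Pool.Agent.helper20.EQR

/-- checks of a table for the corner -/
def corOk (t : TD) : Bool :=
  t.strip && (t.c.all fun c => decide (0 ≤ c) && decide (c ≤ 1099511627776)) &&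
  (match t.pol with
    | none => true
    | some p => decide (2199023255552 < p.wi))

theorem nth_all {l : List ℤ} {P : ℤ → Prop} (h0 : P 0) (h : ∀ x ∈ l, P x) : ∀ n, P (nth 0 l n) := by
  induction l with
  | nil => intro n; cases n <;> exact h0
  | cons a t ih =>
    intro n
    cases n with
    | zero => exact h a (by simp)
    | succ n => exact ih (fun x hx => h x (by simp [hx])) n

theorem corOk_strip {t : TD} (h : corOk t = true) : t.strip = true := by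
  unfold corOk at h
  simp only [Bool.and_eq_true] at h
  exact h.1.1

theorem corOk_c {t : TD} (h : corOk t = true) (n : ℕ) :
    ∃ c : ℝ, 0 ≤ c ∧ c ≤ 1 ∧ t.tb.c n = (c : ℂ) := by
  unfold corOk at h
  simp only [Bool.and_eq_true, List.all_eq_true, decide_eq_true_eq] at h
  obtain ⟨h1, h2⟩ := nth_all (P := fun x => 0 ≤ x ∧ x ≤ 1099511627776) (by norm_num) h.1.2 (n + 1)
  have h1' : (0 : ℝ) ≤ (nth 0 t.c (n + 1) : ℤ) := by exact_mod_cast h1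
  have h2' : ((nth 0 t.c (n + 1) : ℤ) : ℝ) ≤ 1099511627776 := by exact_mod_cast h2
  refine ⟨((nth 0 t.c (n + 1) : ℤ) : ℝ) / 2 ^ 40, by positivity, ?_, rfl⟩
  rw [div_le_one (by positivity)]
  calc _ ≤ _ := h2'
    _ = _ := by norm_num

theorem corOk_pol {t : TD} (h : corOk t = true) {e : ℝ} {y : ℂ} (hy : ‖y‖ ≤ 2) :
    podom t.tb.pol (t.tb.de e) y := by
  intro p hp
  have h3 : t.tb.pol = t.pol.map PD.po := rfl
  rw [h3] at hp
  cases hq : t.pol with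
  | none =>
    rw [hq] at hp
    cases hp
  | some q =>
    rw [hq] at hp
    have hp' : some q.po = some p := hp
    rw [Option.some.injEq] at hp'
    subst hp'
    unfold corOk at h
    rw [hq] at h
    simp only [Bool.and_eq_true, decide_eq_true_eq] at h
    have h4 : (2199023255552 : ℝ) < (q.wi : ℤ) := by exact_mod_cast h.2
    have hw : 2 < (q.wi : ℝ) / 2 ^ 40 := by
      rw [lt_div_iff₀ (by positivity)]
      norm_num
      exact h4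
    unfold Pol.dom
    have hz : (q.po.z (t.tb.de e) y).im = y.im := by
      have e1 : conj (q.po.w1 * t.tb.de e + q.po.wr) = q.po.w1 * t.tb.de e + q.po.wr := by
        rw [map_add, map_mul, q.isReal.w1, q.isReal.wr, Tb.conj_de t.isReal]
      unfold Pol.z
      rw [sub_im]
      have := Complex.conj_eq_iff_im.1 e1
      rw [this, sub_zero]
    have hwi : q.po.wi = (((q.wi : ℝ) / 2 ^ 40 : ℝ) : ℂ) := rfl
    obtain ⟨w, hw'⟩ : ∃ w, w = (q.wi : ℝ) / 2 ^ 40 := ⟨_, rfl⟩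
    obtain ⟨z, hz'⟩ : ∃ z, z = q.po.z (t.tb.de e) y := ⟨_, rfl⟩
    rw [← hw'] at hw hwi
    rw [← hz'] at hz ⊢
    rw [hwi]
    intro h0
    have h5 : (z - (w : ℂ) * I) * (z + (w : ℂ) * I) = 0 := by
      linear_combination h0 - (w : ℂ) ^ 2 * I_sq
    have him := Complex.abs_im_le_norm y
    have him2 := abs_le.1 (him.trans hy)
    rcases mul_eq_zero.1 h5 with h6 | h6
    · have := congrArg Complex.im h6
      rw [sub_im, Complex.im_ofReal_mul, I_im, zero_im, hz] at this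
      linarith
    · have := congrArg Complex.im h6
      rw [add_im, Complex.im_ofReal_mul, I_im, zero_im, hz] at this
      linarith

variable {t : TD} {N0 m : ℕ} {e κ x0 : ℝ}

theorem dK_strip (h : t.strip = true) (κ : ℝ) : t.dK κ = Real.sinh κ := by
  unfold TD.dK
  rw [h]
  rfl

theorem kk_pow_exp (κ : ℝ) (n : ℕ) : kk κ ^ n = Real.exp (-(2 * κ * n)) := by
  unfold kk
  rw [← Real.exp_nat_mul]
  congr 1
  ring

/-- the two forms of the radius -/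
theorem RR_eq (h : t.strip = true) (n : ℕ) :
    t.RR n e κ = t.tb.RR (c2 (sumT t n)) n e κ := by
  unfold TD.RR Tb.RR
  rw [dK_strip h, kk_pow_exp, sumT_ev, ofReal_re]

theorem kk_le_one (hκ : 0 < κ) : kk κ ≤ 1 := by
  unfold kk
  rw [Real.exp_le_one_iff]
  linarith

/-- the numbers of a node -/
theorem ch_of (hc : corOk t = true) (he : 4 ≤ e) (hκ : 0 < κ) (hb : e * κ ≤ 1 / 2)
    (hS : SF t N0 e κ x0) (hm : m + 1 < N0) (htt : t.tR (m + 1) e κ ≤ 2) :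
    CH t.tb e κ (t.δ (m + 1) e κ) (1 / 8) (t.RR (m + 1) e κ) := by
  have hK := Real.sinh_pos_iff.2 hκ
  have htp := hS.tp (m + 1) hm
  have hk1 : kk κ ^ (m + 1 + 1) ≤ 1 := pow_le_one₀ (kk_pos κ).le (kk_le_one hκ)
  have hk0 : 0 < kk κ ^ (m + 1 + 1) := pow_pos (kk_pos κ) _
  refine ⟨he, hκ, hb, by norm_num, le_rfl, hS.RR_pos hκ (by omega), (hS.R1 m (by omega)).le, ?_, ?_,
    ?_, fun y hy => corOk_pol hc hy, corOk_c hc⟩
  · unfold TD.δ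
    rw [dK_strip (corOk_strip hc)]
    positivity
  · unfold TD.δ
    rw [dK_strip (corOk_strip hc)]
    have : t.tR (m + 1) e κ * kk κ ^ (m + 1 + 1) ≤ 2 * 1 := mul_le_mul htt hk1 hk0.le (by norm_num)
    nlinarith
  · rw [← TD.RR_succ]
    exact hS.R1 (m + 1) hm

/-- the geometric condition of the circle -/
theorem rho_ok (h : t.strip = true) (hκ : 0 < κ) (hS : SF t N0 e κ x0) (hm : m + 1 ≤ N0)
    (he : 4 ≤ e) (hN : ((m + 1 : ℕ) : ℝ) ≤ 9 / 5 * e) :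
    1 / 8 / e * ((1 - t.RR (m + 1) e κ) / Real.sinh κ) ≤ 9 / 20 * (1 + t.RR (m + 1) e κ) := by
  have hK := Real.sinh_pos_iff.2 hκ
  have hR := hS.RR_pos hκ hm
  have h1 : 0 ≤ t.sR (m + 1) e κ := Finset.sum_nonneg fun j hj =>
    (hS.tp j ((Finset.mem_range.1 hj).trans_le hm)).le
  have h2 : 1 - 2 * κ * ((m + 1 : ℕ) : ℝ) ≤ t.RR (m + 1) e κ := by
    unfold TD.RR
    rw [dK_strip h, kk_pow_exp]
    have h3 := Real.add_one_le_exp (-(2 * κ * ((m + 1 : ℕ) : ℝ)))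
    have h4 := Real.exp_pos (-(2 * κ * ((m + 1 : ℕ) : ℝ)))
    have h5 : 0 ≤ Real.exp (-(2 * κ * ((m + 1 : ℕ) : ℝ))) * (Real.sinh κ * t.sR (m + 1) e κ) := by
      positivity
    nlinarith
  obtain ⟨N, hNN⟩ : ∃ N : ℝ, N = ((m + 1 : ℕ) : ℝ) := ⟨_, rfl⟩
  rw [← hNN] at h2 hN
  have hN0 : 0 ≤ N := by rw [hNN]; positivity
  obtain ⟨R, hRR⟩ : ∃ R, R = t.RR (m + 1) e κ := ⟨_, rfl⟩
  rw [← hRR] at h2 hR ⊢
  have h6 : (1 - R) / Real.sinh κ ≤ 2 * N := by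
    rw [div_le_iff₀ hK]
    have := le_sinh' hκ
    nlinarith
  have he0 : 0 < e := by linarith
  calc 1 / 8 / e * ((1 - R) / Real.sinh κ) ≤ 1 / 8 / e * (2 * N) :=
        mul_le_mul_of_nonneg_left h6 (by positivity)
    _ ≤ 1 / 8 / e * (2 * (9 / 5 * e)) := by gcongr
    _ = 9 / 20 := by
      field_simp
      norm_num
    _ ≤ 9 / 20 * (1 + R) := by linarith

theorem tkR_eq (n : ℕ) : t.tb.tkR (c2 (nth [] t.t n)) (((2 * (n + 1) : ℕ) : ℝ)) e κ =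
    t.tR n e κ * kk κ ^ (n + 1) := by
  unfold Tb.tkR TD.tR TD.tt
  rw [kk_pow_exp]
  congr 2
  push_cast
  ring

theorem Y_ok {n : ℕ} (he : 0 < e) (h : 2 ^ 38 ≤ nth 0 t.y n) : 1 / (4 * e ^ 2) ≤ t.Y n e := by
  unfold TD.Y
  have h1 : (2 : ℝ) ^ 38 ≤ ((nth 0 t.y n : ℤ) : ℝ) := by exact_mod_cast h
  rw [div_le_div_iff₀ (by positivity) (by positivity)]
  have h2 : 1 / 4 ≤ ((nth 0 t.y n : ℤ) : ℝ) / 2 ^ 40 := by
    rw [le_div_iff₀ (by positivity)]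
    calc (1 : ℝ) / 4 * 2 ^ 40 = 2 ^ 38 := by norm_num
      _ ≤ _ := h1
  nlinarith [sq_nonneg e]

/-- `‖P2 t‖ < 2` at one point -/
theorem tR_le_two {b : PtB} (he : 0 < e) {s B : ℝ} (hb : BR e κ s B b) {tl : List (List ℂ)} {n : ℕ}
    (htl : tl = t.tt n) (h : ‖P2 tl (t.tb.deb b) (t.tb.dbb b)‖ < 2) : t.tR n e κ ≤ 2 := by
  rw [htl, ← Tb.de_eq hb, ← Tb.db_eq he hb] at h
  unfold TD.tR
  exact (Complex.re_le_norm _).trans h.le

theorem θ_le : (4095 / 4096 : ℝ) ≤ θ0 := by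
  unfold θ0 TH
  norm_num

/-- **A middle node of the corner.** -/
theorem td_mid {p : Pm} (hc : corOk t = true) (he : 4 ≤ e) (hκ : 0 < κ) (hb : e * κ ≤ 1 / 2)
    (hS : SF t N0 e κ x0) (hm : m + 2 < N0) (hN : ((m + 1 : ℕ) : ℝ) ≤ 9 / 5 * e)
    (ag : AgZ1 t m p) {G : Tb} (hG : GOk G p) (hp : G.pol = t.tb.pol)
    (hT : ‖P2 (tl p) (G.deb (bB ((1 / e : ℝ) : ℂ) ((e * κ / 2 : ℝ) : ℂ)))
      (G.dbb (bB ((1 / e : ℝ) : ℂ) ((e * κ / 2 : ℝ) : ℂ)))‖ < 2)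
    (hA : ∀ s u : ℝ, 0 < s → s ≤ 9 / 64 → 0 < u → u ≤ 1 → e * κ = s * u →
      FM G 0 (tl p) (sl p) p.tj.val p.nn.val (bA ((1 / e : ℝ) : ℂ) s u) 1)
    (hB : ∀ s u : ℝ, 0 < s → s = e * κ / 2 → 0 ≤ u → u ≤ 1 → 2 * s * u ≤ 9 / 64 →
      FM G 0 (tl p) (sl p) p.tj.val p.nn.val (bB ((1 / e : ℝ) : ℂ) s) (2 * u))
    (arc : ∀ T : ℂ, T + (Real.sinh κ : ℂ) ≠ 0 → ‖T‖ = 1 / 8 / e → ‖omT κ T‖ ≤ t.RR (m + 1) e κ →
      MidQ t.tb e κ θ0 (t.δ (m + 1) e κ) (t.Y (m + 1) e) m T) :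
    ∀ T : ℂ, T + (Real.sinh κ : ℂ) ≠ 0 → ‖T‖ ≤ 1 / 8 / e → ‖omT κ T‖ ≤ t.RR (m + 1) e κ →
      MidQ t.tb e κ θ0 (t.δ (m + 1) e κ) (t.Y (m + 1) e) m T := by
  have he0 : 0 < e := by linarith
  have hst := corOk_strip hc
  have htl : tl p = t.tt (m + 1) := by rw [tl_v, ag.tt, v2_z2]; rfl
  have hsl : sl p = c2 (sumT t (m + 1)) := by rw [sl_v, ag.s, v2_z2]
  have hR := ag.toR1 hG hp
  have hTt : t.tR (m + 1) e κ ≤ 2 := by
    rw [hR.toAgR.deb, hR.toAgR.dbb] at hT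
    exact tR_le_two he0 (brB he0 (s := e * κ / 2) (by positivity) rfl) htl hT
  have H := ch_of hc he hκ hb hS (by omega : m + 1 < N0) hTt
  have hτ : t.tb.tkR (tl p) (((2 * (m + 2) : ℕ) : ℝ)) e κ = t.tR (m + 1) e κ * kk κ ^ (m + 2) := by
    rw [htl]
    exact tkR_eq (m + 1)
  have htp := hS.tp (m + 1) (by omega)
  have hk0 : 0 < kk κ ^ (m + 2) := pow_pos (kk_pos κ) _
  refine corner_mid H θ0_lt.le arc ?_
  refine mid_circ H t.isReal (tl := tl p) (sl := sl p) (by rw [htl]; exact R2_c _)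
    (by rw [hsl]; exact R2_c _) (jc := p.tj.val) (nc := p.nn.val)
    (jr := ((2 * (m + 2) : ℕ) : ℝ)) (nr := ((m + 1 : ℕ) : ℝ)) ?_ ?_ ?_ ?_ (Y_ok he0 ag.y) θ_le ?_
    (hS.R1 m (by omega)) (rho_ok hst hκ hS (by omega) he hN)
    (fun s u h1 h2 h3 h4 h5 => hR.FM (hA s u h1 h2 h3 h4 h5))
    (fun s u h1 h2 h3 h4 h5 => hR.FM (hB s u h1 h2 h3 h4 h5))
  · rw [ag.tj, zn_val]
    push_cast
    rfl
  · rw [ag.nn, zn_val]
    push_cast
    rfl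
  · rw [hτ]
    positivity
  · rw [hτ]
    unfold TD.δ
    rw [dK_strip hst]
    exact mul_le_mul_of_nonneg_right (le_sinh' hκ) (by positivity)
  · rw [RR_eq hst, hsl]

/-- constants of the last node -/
structure AgL (t : TD) (p : Pm) : Prop where
  C2 : p.C2 = zi t.C2
  B1 : p.B1 = t.B1
  xa : p.xa = zi (t.x2 / 2 - 1099511627776)
  x2 : 2199023255552 ≤ t.x2
  A : (t.far = 0 ∧ p.ax = zi t.f2 ∧ p.ay = zi t.f1) ∨ (t.far = 2 ∧ p.ax = zi 0 ∧ p.ay = zi t.f1) ∨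
    (t.far = 4 ∧ p.ax = zi 0 ∧ p.ay = zi 274877906944)

theorem agA {p : Pm} (h : AgL t p) (hl : t.Okl) (he : 4 ≤ e) (hκ : 0 < κ) :
    ∃ a b : ℝ, p.ax.val = (a : ℂ) ∧ p.ay.val = (b : ℂ) ∧ 0 ≤ a + b * e ∧
      t.A e κ ≤ a + b * e := by
  have he0 : 0 < e := by linarith
  rcases h.A with ⟨hf, h1, h2⟩ | ⟨hf, h1, h2⟩ | ⟨hf, h1, h2⟩
  · refine ⟨rv t.f2, rv t.f1, ?_, ?_, ?_, ?_⟩
    · rw [h1, zi_val, cv_rv]
    · rw [h2, zi_val, cv_rv]
    · have := hl.f1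
      have := hl.f2
      positivity
    · unfold TD.A
      rw [hf]
      show rv t.f1 * e + rv t.f2 ≤ _
      linarith
  · refine ⟨0, rv t.f1, ?_, ?_, ?_, ?_⟩
    · rw [h1, zi_val, cv_zero, ofReal_zero]
    · rw [h2, zi_val, cv_rv]
    · have := hl.f1
      positivity
    · unfold TD.A
      rw [hf]
      show rv t.f1 * e ≤ _
      linarith
  · have h3 : rv 274877906944 = 1 / 4 := by
      unfold rv
      norm_num
    refine ⟨0, 1 / 4, ?_, ?_, by positivity, ?_⟩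
    · rw [h1, zi_val, cv_zero, ofReal_zero]
    · rw [h2, zi_val, cv_rv, h3]
    · unfold TD.A
      rw [hf]
      show e * (Real.sinh κ * e + 4)⁻¹ ≤ _
      have hK := Real.sinh_pos_iff.2 hκ
      have h4 : (Real.sinh κ * e + 4)⁻¹ ≤ 1 / 4 := by
        rw [inv_le_comm₀ (by positivity) (by norm_num)]
        norm_num
        positivity
      have := mul_le_mul_of_nonneg_left h4 he0.le
      linarith

theorem A_nonneg (hl : t.Okl) (he : 0 < e) (hκ : 0 < κ) : 0 ≤ t.A e κ := by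
  have hK := Real.sinh_pos_iff.2 hκ
  have h1 := hl.f1
  have h2 := hl.f2
  unfold TD.A
  split <;> positivity

/-- **The last node of the corner.** -/
theorem td_last {p : Pm} (hc : corOk t = true) (hl : t.Okl) (he : 4 ≤ e) (hκ : 0 < κ)
    (hb : e * κ ≤ 1 / 2)
    (hS : SF t N0 e κ x0) (hm : m + 2 = N0) (hN : ((m + 1 : ℕ) : ℝ) ≤ 9 / 5 * e)
    (ag : AgZ t m p) (al : AgL t p) {G : Tb} (hG : GOk G p) (hp : G.pol = t.tb.pol)
    (hT : ‖P2 (tl p) (G.deb (bB ((1 / e : ℝ) : ℂ) ((e * κ / 2 : ℝ) : ℂ)))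
      (G.dbb (bB ((1 / e : ℝ) : ℂ) ((e * κ / 2 : ℝ) : ℂ)))‖ < 2)
    (hA : ∀ s u : ℝ, 0 < s → s ≤ 9 / 64 → 0 < u → u ≤ 1 → e * κ = s * u →
      FL G 0 (tl p) (sl p) p.tj.val p.nn.val (p.ax.val * ((1 / e : ℝ) : ℂ) + p.ay.val) p.xa.val
        p.C2.val (((p.B1 : ℕ) : ℝ) / 2 ^ 40) (bA ((1 / e : ℝ) : ℂ) s u) 1)
    (hB : ∀ s u : ℝ, 0 < s → s = e * κ / 2 → 0 ≤ u → u ≤ 1 → 2 * s * u ≤ 9 / 64 →
      FL G 0 (tl p) (sl p) p.tj.val p.nn.val (p.ax.val * ((1 / e : ℝ) : ℂ) + p.ay.val) p.xa.val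
        p.C2.val (((p.B1 : ℕ) : ℝ) / 2 ^ 40) (bB ((1 / e : ℝ) : ℂ) s) (2 * u))
    (arc : ∀ T : ℂ, T + (Real.sinh κ : ℂ) ≠ 0 → ‖T‖ = 1 / 8 / e → ‖omT κ T‖ ≤ t.RR (m + 1) e κ →
      LastP t.tb e κ θ0 (t.δ (m + 1) e κ) (t.Y (m + 1) e) (t.A e κ) t.x0 ((t.B1 : ℝ) / 2 ^ 40) m T) :
    ∀ T : ℂ, T + (Real.sinh κ : ℂ) ≠ 0 → ‖T‖ ≤ 1 / 8 / e → ‖omT κ T‖ ≤ t.RR (m + 1) e κ →
      LastP t.tb e κ θ0 (t.δ (m + 1) e κ) (t.Y (m + 1) e) (t.A e κ) t.x0 ((t.B1 : ℝ) / 2 ^ 40)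
        m T := by
  have he0 : 0 < e := by linarith
  have hst := corOk_strip hc
  have htl : tl p = t.tt (m + 1) := by rw [tl_v, ag.tt, v2_z2]; rfl
  have hsl : sl p = c2 (sumT t (m + 1)) := by rw [sl_v, ag.s, v2_z2]
  have hR := ag.toR hG hp
  have hTt : t.tR (m + 1) e κ ≤ 2 := by
    rw [hR.deb, hR.dbb] at hT
    exact tR_le_two he0 (brB he0 (s := e * κ / 2) (by positivity) rfl) htl hT
  have H := ch_of hc he hκ hb hS (by omega : m + 1 < N0) hTt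
  have hτ : t.tb.tkR (tl p) (((2 * (m + 2) : ℕ) : ℝ)) e κ = t.tR (m + 1) e κ * kk κ ^ (m + 2) := by
    rw [htl]
    exact tkR_eq (m + 1)
  have htp := hS.tp (m + 1) (by omega)
  have hk0 : 0 < kk κ ^ (m + 2) := pow_pos (kk_pos κ) _
  obtain ⟨a, b, ha, hb', hab, hAA⟩ := agA al hl he hκ
  have hx0 : 0 ≤ t.x0 := by
    unfold TD.x0 rv
    have : (2199023255552 : ℝ) ≤ t.x2 := by exact_mod_cast al.x2
    have h2 : 2 ≤ (t.x2 : ℝ) / 2 ^ 40 := by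
      rw [le_div_iff₀ (by positivity)]
      norm_num
      exact this
    linarith
  have hxa : rv (t.x2 / 2 - 1099511627776) ≤ t.x0 := by
    unfold TD.x0 rv
    have h1 : (((t.x2 / 2 : ℤ)) : ℝ) ≤ (t.x2 : ℝ) / 2 := by
      have h0 : 2 * (t.x2 / 2) ≤ t.x2 := by omega
      have h3 : (2 : ℝ) * ((t.x2 / 2 : ℤ) : ℝ) ≤ (t.x2 : ℝ) := by exact_mod_cast h0
      linarith
    push_cast
    have h4 : (1099511627776 : ℝ) / 2 ^ 40 = 1 := by norm_num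
    have h5 : ((((t.x2 / 2 : ℤ)) : ℝ) - 1099511627776) / 2 ^ 40 = ((t.x2 / 2 : ℤ) : ℝ) / 2 ^ 40 - 1 := by
      rw [sub_div, h4]
    rw [h5]
    have h6 : ((t.x2 / 2 : ℤ) : ℝ) / 2 ^ 40 ≤ (t.x2 : ℝ) / 2 / 2 ^ 40 :=
      div_le_div_of_nonneg_right h1 (by positivity)
    have h7 : (t.x2 : ℝ) / 2 / 2 ^ 40 = (t.x2 : ℝ) / 2 ^ 40 / 2 := by ring
    linarith
  have hxa0 : 0 ≤ rv (t.x2 / 2 - 1099511627776) := by
    unfold rv
    have h1 : (0 : ℤ) ≤ t.x2 / 2 - 1099511627776 := by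
      have := al.x2
      omega
    have : (0 : ℝ) ≤ ((t.x2 / 2 - 1099511627776 : ℤ) : ℝ) := by exact_mod_cast h1
    positivity
  have hB1 : (((p.B1 : ℕ) : ℝ) / 2 ^ 40) = (t.B1 : ℝ) / 2 ^ 40 := by rw [al.B1]
  rw [hB1] at hA hB
  refine corner_last H θ0_lt.le (A_nonneg hl he0 hκ) hx0 (by positivity) hl.b1 arc ?_
  refine last_circ H t.isReal (tl := tl p) (sl := sl p) (by rw [htl]; exact R2_c _)
    (by rw [hsl]; exact R2_c _) (jc := p.tj.val) (nc := p.nn.val)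
    (jr := ((2 * (m + 2) : ℕ) : ℝ)) (nr := ((m + 1 : ℕ) : ℝ)) ?_ ?_ ?_ ?_ (Y_ok he0 ag.y) θ_le ?_
    (hS.R1 m (by omega)) (rho_ok hst hκ hS (by omega) he hN)
    ha hb' hab hAA (xa := p.xa.val) (a0 := rv (t.x2 / 2 - 1099511627776)) ?_ hxa0 hxa
    (C2 := p.C2.val) (c2 := rv t.C2) ?_ hl.b1 hl.c2
    (fun s u h1 h2 h3 h4 h5 => hR.FL (hA s u h1 h2 h3 h4 h5))
    (fun s u h1 h2 h3 h4 h5 => hR.FL (hB s u h1 h2 h3 h4 h5))
  · rw [ag.tj, zn_val]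
    push_cast
    rfl
  · rw [ag.nn, zn_val]
    push_cast
    rfl
  · rw [hτ]
    positivity
  · rw [hτ]
    unfold TD.δ
    rw [dK_strip hst]
    exact mul_le_mul_of_nonneg_right (le_sinh' hκ) (by positivity)
  · rw [RR_eq hst, hsl]
  · rw [al.xa, zi_val, cv_rv]
  · rw [al.C2, zi_val, cv_rv]

end Pool.Agent.helper12.GP
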