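import Pool.Agent.helper12.GP.Pm
import Pool.Agent.helper14.QF.InstE

/-!
Generated: parametric straight line program and compiled form.
-/

namespace Pool.Agent.helper12.GP.FAQ

open Pool.Agent.helper31.IA (Z)
open Pool.Agent.helper31.IX (Op XOps runX Cov CovD cov_split covD_split)
open Pool.Agent.helper31.IC (Ops TD)

abbrev opsE : XOps := Pool.Agent.helper14.QF.xE

def prog0 (p : Pm) : List Op := [
  .const ⟨1099511627776, 0, 0, 0⟩,
  .scale ⟨2199023255552, 0, 0, 0⟩ 3,
  .mul 3 0,
  .mul 0 3,
  .mul 5 4,
  .lt 1 91625968981,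
  .const ⟨45812984491, 0, 0, 0⟩,
  .mul 0 2,
  .const ⟨183251937963, 0, 0, 0⟩,
  .add 1 0,
  .mul 0 5,
  .const ⟨549755813888, 0, 0, 0⟩,
  .add 1 0,
  .mul 0 8,
  .const ⟨1099511627776, 0, 0, 0⟩,
  .add 1 0,
  .ball 0 530244,
  .neg 12,
  .lt 0 91625968981,
  .mul 11 0,
  .add 0 10,
  .mul 0 2,
  .add 0 9,
  .mul 0 4,
  .add 0 8,
  .ball 0 530244,
  .add 8 0,
  .scale ⟨549755813888, 0, 0, 0⟩ 0,
  .sub 10 2,
  .mul 23 0,
  .scale ⟨549755813888, 0, 0, 0⟩ 0,
  .add 0 15,
  .mul 4 0,
  .mul 5 29,
  .mul 0 0,
  .scale ⟨4398046511104, 0, 0, 0⟩ 0,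
  .mul 32 3,
  .scale ⟨2199023255552, 0, 0, 0⟩ 0,
  .mul 2 31,
  .scale ⟨549755813888, 0, 0, 0⟩ 0,
  .scale ⟨2199023255552, 0, 0, 0⟩ 35,
  .neg 0,
  .lt 0 1099511627776,
  .const ⟨218157069, 0, 0, 0⟩,
  .mul 0 1,
  .const ⟨1527099483, 0, 0, 0⟩,
  .add 1 0,
  .mul 0 4,
  .const ⟨9162596898, 0, 0, 0⟩,
  .add 1 0,
  .mul 0 7,
  .add 0 42,
  .mul 0 9,
  .add 0 42,
  .mul 0 11,
  .add 0 41,
  .mul 0 13,
  .add 0 40,
  .ball 0 30678339,
  .mul 54 0,
  .neg 0,
  .mul 59 0,
  .lt 0 274877906944,
  .const ⟨157073089682, 0, 0, 0⟩,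
  .mul 0 1,
  .const ⟨0, 183251937963, 0, 0⟩,
  .add 1 0,
  .mul 0 4,
  .const ⟨219902325555, 0, 0, 0⟩,
  .add 1 0,
  .mul 0 7,
  .const ⟨0, 274877906944, 0, 0⟩,
  .add 1 0,
  .mul 0 10,
  .const ⟨366503875925, 0, 0, 0⟩,
  .add 1 0,
  .mul 0 13,
  .const ⟨0, 549755813888, 0, 0⟩,
  .add 1 0,
  .mul 0 16,
  .add 0 62,
  .ball 0 11184812,
  .mul 20 0,
  .const p.ec,
  .const p.bc,
  .sub 81 1,
  .sub 79 1,
  .scale ⟨2199023255552, 0, 0, 0⟩ 79,
  .const ⟨0, 0, 1099511627776, 0⟩,
  .mul 0 84,
  .mul 86 86,
  .scale ⟨5703716569088, 0, 0, 0⟩ 0,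
  .const ⟨1726576852992, 0, 0, 0⟩,
  .add 1 0,
  .mul 4 0,
  .scale ⟨2199023255552, 0, 0, 0⟩ 0,
  .mul 87 87,
  .mul 0 59,
  .scale ⟨412316860416, 0, 0, 0⟩ 0,
  .add 0 81,
  .mul 4 0,
  .mul 98 11,
  .scale ⟨549755813888, 0, 0, 0⟩ 0,
  .add 0 85,
  .inv 0,
  .mul 15 0,
  .mul 103 0,
  .const p.l700,
  .mul 0 1,
  .const p.l600,
  .add 1 0,
  .mul 0 4,
  .const p.l500,
  .add 1 0,
  .mul 0 7,
  .const p.l410,
  .mul 0 30,
  .const p.l401,
  .mul 0 31,
  .const p.l400,
  .add 1 0,
  .add 4 0,
  .add 7 0,
  .mul 0 16,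
  .const p.l310,
  .mul 0 39,
  .const p.l301,
  .mul 0 40,
  .const p.l300,
  .add 1 0,
  .add 4 0,
  .add 7 0,
  .mul 0 25,
  .const p.l210,
  .mul 0 48,
  .const p.l201,
  .mul 0 49,
  .const p.l200,
  .add 1 0,
  .add 4 0,
  .add 7 0,
  .mul 0 34,
  .const p.l120,
  .mul 0 57,
  .const p.l111,
  .mul 0 58,
  .const p.l110,
  .add 1 0,
  .add 4 0,
  .mul 0 63,
  .const p.l102,
  .mul 0 64,
  .const p.l101,
  .add 1 0,
  .mul 0 67,
  .const p.l100,
  .add 1 0,
  .add 7 0,
  .add 16 0,
  .mul 0 52,
  .const p.l020,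
  .mul 0 75,
  .const p.l011,
  .mul 0 76,
  .const p.l010,
  .add 1 0,
  .add 4 0,
  .mul 0 81,
  .const p.l002,
  .mul 0 82,
  .const p.l001,
  .add 1 0,
  .mul 0 85,
  .const p.l000,
  .add 1 0,
  .add 7 0,
  .add 16 0,
  .mul 71 0,
  .const p.q30,
  .mul 0 93,
  .const p.q21,
  .mul 0 94,
  .const p.q20,
  .add 1 0,
  .add 4 0,
  .mul 0 99,
  .const p.q12,
  .mul 0 100,
  .const p.q11,
  .add 1 0,
  .mul 0 103,
  .const p.q10,
  .add 1 0,
  .add 7 0,
  .mul 0 108,
  .const p.q03,
  .mul 0 109,
  .const p.q02,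
  .add 1 0,
  .mul 0 112,
  .const p.q01,
  .add 1 0,
  .mul 0 115,
  .const p.q00,
  .add 1 0,
  .add 10 0,
  .mul 200 0,
  .add 29 0,
  .mul 102 114,
  .add 203 0,
  .scale ⟨4398046511104, 0, 0, 0⟩ 0,
  .const p.e11,
  .mul 0 125,
  .const p.e10,
  .add 1 0,
  .mul 0 129,
  .const p.e03,
  .mul 0 130,
  .const p.e02,
  .add 1 0,
  .mul 0 133,
  .const p.e01,
  .add 1 0,
  .mul 0 136,
  .const p.e00,
  .add 1 0,
  .add 10 0,
  .const p.cc,
  .mul 1 17,
  .mul 226 18,
  .mul 2 0,
  .add 0 213,
  .inv 0,
  .mul 4 0,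
  .const p.n500,
  .mul 0 128,
  .const p.n400,
  .add 1 0,
  .mul 0 131,
  .const p.n300,
  .add 1 0,
  .mul 0 134,
  .const p.n210,
  .mul 0 157,
  .const p.n201,
  .mul 0 158,
  .const p.n200,
  .add 1 0,
  .add 4 0,
  .add 7 0,
  .mul 0 143,
  .const p.n110,
  .mul 0 166,
  .const p.n101,
  .mul 0 167,
  .const p.n100,
  .add 1 0,
  .add 4 0,
  .add 7 0,
  .mul 0 152,
  .const p.n020,
  .mul 0 175,
  .const p.n011,
  .mul 0 176,
  .const p.n010,
  .add 1 0,
  .add 4 0,
  .mul 0 181,
  .const p.n002,
  .mul 0 182,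
  .const p.n001,
  .add 1 0,
  .mul 0 185,
  .const p.n000,
  .add 1 0,
  .add 7 0,
  .add 16 0,
  .mul 274 69,
  .neg 0,
  .lt 0 1099511627776,
  .mul 234 0,
  .add 0 233,
  .mul 0 2,
  .add 0 232,
  .mul 0 4,
  .add 0 274,
  .mul 0 6,
  .add 0 274,
  .mul 0 8,
  .add 0 273,
  .mul 0 10,
  .add 0 272,
  .ball 0 30678339,
  .mul 84 0,
  .scale ⟨0, 549755813888, 0, 0⟩ 0,
  .mul 291 0,
  .scale ⟨2199023255552, 0, 0, 0⟩ 0,
  .add 0 278,
  .lt 2 412316860416,
  .const ⟨122167958642, 0, 0, 0⟩,
  .mul 0 3,
  .const ⟨0, 137438953472, 0, 0⟩,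
  .add 1 0,
  .mul 0 6,
  .add 0 238,
  .mul 0 8,
  .add 0 238,
  .mul 0 10,
  .add 0 237,
  .mul 0 12,
  .add 0 236,
  .mul 0 14,
  .add 0 235,
  .mul 0 16,
  .add 0 234,
  .mul 0 18,
  .add 0 296,
  .ball 0 25798904,
  .mul 22 0,
  .mul 83 316,
  .mul 21 0,
  .mul 316 0,
  .lt 0 412316860416,
  .mul 22 0,
  .add 0 21,
  .mul 0 2,
  .add 0 259,
  .mul 0 4,
  .add 0 259,
  .mul 0 6,
  .add 0 258,
  .mul 0 8,
  .add 0 257,
  .mul 0 10,
  .add 0 256,
  .mul 0 12,
  .add 0 255,
  .mul 0 14,
  .add 0 317,
  .ball 0 25798904,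
  .mul 18 0,
  .mul 335 20,
  .neg 0,
  .lt 0 412316860416,
  .mul 42 0,
  .add 0 41,
  .mul 0 2,
  .add 0 279,
  .mul 0 4,
  .add 0 279,
  .mul 0 6,
  .add 0 278,
  .mul 0 8,
  .add 0 277,
  .mul 0 10,
  .add 0 276,
  .mul 0 12,
  .add 0 275,
  .mul 0 14,
  .add 0 337,
  .ball 0 25798904,
  .mul 39 0,
  .neg 0,
  .sub 21 0,
  .add 0 152,
  .add 355 278,
  .add 0 3,
  .sub 0 155,
  .sub 0 47,
  .mul 356 4,
  .mul 357 1,
  .neg 0,
  .lt 0 274877906944,
  .mul 358 0,
  .add 0 357,
  .mul 0 2,
  .add 0 356,
  .mul 0 4,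
  .add 0 355,
  .ball 0 42949674,
  .mul 10 0,
  .neg 0,
  .mul 368 0,
  .add 0 360,
  .neg 13,
  .lt 0 274877906944,
  .mul 370 0,
  .add 0 369,
  .mul 0 2,
  .add 0 368,
  .mul 0 4,
  .add 0 367,
  .ball 0 42949674,
  .mul 26 0,
  .neg 0,
  .mul 380 0,
  .add 0 372,
  .mul 12 0,
  .mul 15 1,
  .add 0 4,
  .mul 15 2,
  .mul 18 3,
  .add 0 2,
  .mul 5 5,
  .mul 297 297,
  .sub 361 0,
  .mul 0 2,
  .mul 392 0,
  .mul 393 0,
  .neg 0,
  .lt 0 137438953472,
  .mul 335 0,
  .add 0 333,
  .mul 0 2,
  .add 0 332,
  .mul 0 4,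
  .add 0 331,
  .mul 0 6,
  .add 0 393,
  .ball 0 6391321,
  .mul 11 0,
  .scale ⟨0, 549755813888, 0, 0⟩ 0,
  .mul 406 0,
  .lt 0 91625968981,
  .mul 406 0,
  .add 0 405,
  .mul 0 2,
  .add 0 404,
  .mul 0 4,
  .add 0 403,
  .ball 0 530244,
  .mul 8 0,
  .mul 415 0,
  .add 0 407,
  .mul 47 47,
  .mul 389 0,
  .mul 33 28,
  .scale ⟨2199023255552, 0, 0, 0⟩ 0,
  .add 2 0,
  .mul 422 0,
  .mul 53 6,
  .mul 332 0,
  .scale ⟨2199023255552, 0, 0, 0⟩ 0,
  .add 3 0,
  .mul 427 0,
  .lt 0 412316860416,
  .mul 139 0,
  .add 0 138,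
  .mul 0 2,
  .add 0 376,
  .mul 0 4,
  .add 0 376,
  .mul 0 6,
  .add 0 375,
  .mul 0 8,
  .add 0 374,
  .mul 0 10,
  .add 0 373,
  .mul 0 12,
  .add 0 372,
  .mul 0 14,
  .add 0 434,
  .ball 0 25798904,
  .mul 18 0,
  .mul 446 0,
  .scale ⟨549755813888, 0, 0, 0⟩ 0,
  .lt 0 274877906944,
  .mul 447 0,
  .add 0 446,
  .mul 0 2,
  .add 0 445,
  .mul 0 4,
  .add 0 444,
  .ball 0 42949674,
  .mul 7 0,
  .scale ⟨2199023255552, 0, 0, 0⟩ 65,
  .sub 0 428,
  .mul 69 0,
  .mul 371 0,
  .sub 451 0,
  .mul 78 44,
  .mul 370 0,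
  .mul 463 0,
  .scale ⟨2199023255552, 0, 0, 0⟩ 0,
  .sub 4 0,
  .pos 0,
  .mul 441 374,
  .add 434 0,
  .mul 468 0,
  .add 0 460,
  .inv 0,
  .mul 3 0,
  .scale ⟨2199023255552, 0, 0, 0⟩ 439,
  .add 0 1,
  .mul 477 452,
  .scale ⟨549755813888, 0, 0, 0⟩ 0,
  .mul 451 5,
  .mul 109 60,
  .add 0 63,
  .sub 0 3,
  .mul 455 8,
  .add 1 0,
  .scale ⟨2199023255552, 0, 0, 0⟩ 0,
  .mul 97 391,
  .scale ⟨2199023255552, 0, 0, 0⟩ 0,
  .mul 11 8,
  .add 1 0,
  .sub 4 0,
  .add 118 479,
  .mul 121 0,
  .scale ⟨2199023255552, 0, 0, 0⟩ 102,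
  .add 1 0,
  .add 0 20,
  .scale ⟨2199023255552, 0, 0, 0⟩ 0,
  .const ⟨2199023255552, 0, 0, 0⟩,
  .add 24 0,
  .mul 22 0,
  .sub 3 0,
  .mul 406 10,
  .mul 466 1,
  .add 1 0,
  .add 468 29,
  .mul 502 28,
  .add 0 8,
  .add 48 0,
  .inv 0,
  .mul 5 0,
  .mul 507 0,
  .add 6 0,
  .const p.t11,
  .mul 0 432,
  .const p.t10,
  .add 1 0,
  .mul 0 436,
  .const p.t03,
  .mul 0 437,
  .const p.t02,
  .add 1 0,
  .mul 0 440,
  .const p.t01,
  .add 1 0,
  .mul 0 443,
  .const p.t00,
  .add 1 0,
  .add 10 0,
  .const p.tj,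
  .mul 0 447,
  .neg 0,
  .exp 0,
  .mul 4 0,
  .mul 536 21,
  .pos 263,
  .add 498 22,
  .mul 532 0,
  .add 0 524,
  .inv 0,
  .mul 3 0,
  .add 1 527,
  .mul 1 0,
  .mul 544 0,
  .neg 460,
  .exp 0,
  .const p.h400,
  .mul 0 3,
  .const p.h300,
  .add 1 0,
  .mul 0 6,
  .const p.h210,
  .mul 0 470,
  .const p.h201,
  .mul 0 471,
  .const p.h200,
  .add 1 0,
  .add 4 0,
  .add 7 0,
  .mul 0 15,
  .const p.h120,
  .mul 0 479,
  .const p.h111,
  .mul 0 480,
  .const p.h110,
  .add 1 0,
  .add 4 0,
  .mul 0 485,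
  .const p.h102,
  .mul 0 486,
  .const p.h101,
  .add 1 0,
  .mul 0 489,
  .const p.h100,
  .add 1 0,
  .add 7 0,
  .add 16 0,
  .mul 0 33,
  .const p.h030,
  .mul 0 497,
  .const p.h021,
  .mul 0 498,
  .const p.h020,
  .add 1 0,
  .add 4 0,
  .mul 0 503,
  .const p.h012,
  .mul 0 504,
  .const p.h011,
  .add 1 0,
  .mul 0 507,
  .const p.h010,
  .add 1 0,
  .add 7 0,
  .mul 0 512,
  .const p.h003,
  .mul 0 513,
  .const p.h002,
  .add 1 0,
  .mul 0 516,
  .const p.h001,
  .add 1 0,
  .mul 0 519,
  .const p.h000,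
  .add 1 0,
  .add 10 0,
  .add 28 0,
  .const p.w1,
  .const p.wr,
  .const p.wi,
  .mul 2 528,
  .add 0 2,
  .mul 2 2,
  .const p.g11,
  .mul 0 531,
  .const p.g10,
  .add 1 0,
  .mul 0 535,
  .const p.g01,
  .mul 0 536,
  .const p.g00,
  .add 1 0,
  .add 4 0,
  .const p.f11,
  .mul 0 541,
  .const p.f10,
  .add 1 0,
  .mul 0 545,
  .const p.f01,
  .mul 0 546,
  .const p.f00,
  .add 1 0,
  .add 4 0,
  .sub 89 21,
  .mul 11 0,
  .add 0 2,
  .mul 2 2,
  .add 0 24,
  .inv 0,
  .mul 3 0,
  .add 33 0,
  .scale ⟨2199023255552, 0, 0, 0⟩ 639,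
  .sub 128 606,
  .add 97 103,
  .mul 98 0,
  .mul 105 0,
  .mul 3 0,
  .add 6 636,
  .mul 1 0,
  .add 7 0,
  .const p.a11,
  .mul 0 568,
  .const p.a10,
  .add 1 0,
  .mul 0 572,
  .const p.a03,
  .mul 0 573,
  .const p.a02,
  .add 1 0,
  .mul 0 576,
  .const p.a01,
  .add 1 0,
  .mul 0 579,
  .const p.a00,
  .add 1 0,
  .add 10 0,
  .scale ⟨2199023255552, 0, 0, 0⟩ 0,
  .const p.ca,
  .add 154 632,
  .mul 2 0,
  .mul 2 134,
  .add 0 657,
  .inv 0,
  .mul 3 0,
  .mul 675 24,
  .neg 0,
  .lt 0 1099511627776,
  .mul 635 0,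
  .add 0 634,
  .mul 0 2,
  .add 0 633,
  .mul 0 4,
  .add 0 675,
  .mul 0 6,
  .add 0 675,
  .mul 0 8,
  .add 0 674,
  .mul 0 10,
  .add 0 673,
  .ball 0 30678339,
  .mul 39 0,
  .scale ⟨0, 549755813888, 0, 0⟩ 0,
  .mul 692 0,
  .scale ⟨2199023255552, 0, 0, 0⟩ 0,
  .add 0 679,
  .lt 2 412316860416,
  .mul 400 2,
  .add 0 399,
  .mul 0 4,
  .add 0 637,
  .mul 0 6,
  .add 0 637,
  .mul 0 8,
  .add 0 636,
  .mul 0 10,
  .add 0 635,
  .mul 0 12,
  .add 0 634,
  .mul 0 14,
  .add 0 633,
  .mul 0 16,
  .add 0 695,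
  .ball 0 25798904,
  .mul 20 0,
  .mul 18 38,
  .mul 714 0,
  .lt 0 549755813888,
  .scale ⟨549755813888, 0, 0, 0⟩ 263,
  .sub 0 511,
  .sub 0 403,
  .add 0 5,
  .mul 719 0,
  .neg 0,
  .lt 0 274877906944,
  .mul 714 0,
  .add 0 713,
  .mul 0 2,
  .add 0 712,
  .mul 0 4,
  .add 0 711,
  .ball 0 42949674,
  .mul 7 0,
  .add 0 714,
  .inv 499,
  .mul 12 3,
  .mul 0 1,
  .sub 735 0,
  .mul 460 0,
  .sub 737 0,
  .mul 22 5,
  .mul 7 0,
  .mul 464 0,
  .lt 202 549755813888,
  .add 702 224,
  .add 703 232,
  .mul 1 0,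
  .mul 0 206,
  .mul 711 230,
  .scale ⟨2199023255552, 0, 0, 0⟩ 0,
  .inv 2,
  .mul 1 0,
  .lt 0 1099511627776,
  .rball 11 8,
  .lt 0 1099243192320]

set_option maxRecDepth 1000000 in
set_option linter.unusedVariables false in
noncomputable def chk0 {α : Type} (cst : Z → α) (add sub mul : α → α → α) (scale : Z → α → α)
    (neg inv exp log : α → α) (ok : α → Bool) (isPos : Nat → α → Bool) (isLt : α → Nat → Bool)
    (ball : Nat → α → α) (rball : α → α → α) (p : Pm) : List α → Bool
  | [x0, x1, x2, x3] =>
  let v0 := cst ⟨1099511627776, 0, 0, 0⟩; ok v0 && (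
  let v1 := scale ⟨2199023255552, 0, 0, 0⟩ x2; ok v1 && (
  let v2 := mul x1 v1; ok v2 && (
  let v3 := mul v2 x0; ok v3 && (
  let v4 := mul x1 x0; ok v4 && (
  isLt v3 91625968981 && (
  let v5 := cst ⟨45812984491, 0, 0, 0⟩; ok v5 && (
  let v6 := mul v5 v3; ok v6 && (
  let v7 := cst ⟨183251937963, 0, 0, 0⟩; ok v7 && (
  let v8 := add v6 v7; ok v8 && (
  let v9 := mul v8 v3; ok v9 && (
  let v10 := cst ⟨549755813888, 0, 0, 0⟩; ok v10 && (
  let v11 := add v9 v10; ok v11 && (
  let v12 := mul v11 v3; ok v12 && (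
  let v13 := cst ⟨1099511627776, 0, 0, 0⟩; ok v13 && (
  let v14 := add v12 v13; ok v14 && (
  let v15 := ball 530244 v14; ok v15 && (
  let v16 := neg v3; ok v16 && (
  isLt v16 91625968981 && (
  let v17 := mul v5 v16; ok v17 && (
  let v18 := add v17 v7; ok v18 && (
  let v19 := mul v18 v16; ok v19 && (
  let v20 := add v19 v10; ok v20 && (
  let v21 := mul v20 v16; ok v21 && (
  let v22 := add v21 v13; ok v22 && (
  let v23 := ball 530244 v22; ok v23 && (
  let v24 := add v15 v23; ok v24 && (
  let v25 := scale ⟨549755813888, 0, 0, 0⟩ v24; ok v25 && (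
  let v26 := sub v15 v23; ok v26 && (
  let v27 := mul v3 v26; ok v27 && (
  let v28 := scale ⟨549755813888, 0, 0, 0⟩ v27; ok v28 && (
  let v29 := add v28 v13; ok v29 && (
  let v30 := mul v25 v29; ok v30 && (
  let v31 := mul v25 v1; ok v31 && (
  let v32 := mul v31 v31; ok v32 && (
  let v33 := scale ⟨4398046511104, 0, 0, 0⟩ v32; ok v33 && (
  let v34 := mul v1 v30; ok v34 && (
  let v35 := scale ⟨2199023255552, 0, 0, 0⟩ v34; ok v35 && (
  let v36 := mul v33 v4; ok v36 && (
  let v37 := scale ⟨549755813888, 0, 0, 0⟩ v36; ok v37 && (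
  let v38 := scale ⟨2199023255552, 0, 0, 0⟩ v2; ok v38 && (
  let v39 := neg v38; ok v39 && (
  isLt v39 1099511627776 && (
  let v40 := cst ⟨218157069, 0, 0, 0⟩; ok v40 && (
  let v41 := mul v40 v39; ok v41 && (
  let v42 := cst ⟨1527099483, 0, 0, 0⟩; ok v42 && (
  let v43 := add v41 v42; ok v43 && (
  let v44 := mul v43 v39; ok v44 && (
  let v45 := cst ⟨9162596898, 0, 0, 0⟩; ok v45 && (
  let v46 := add v44 v45; ok v46 && (
  let v47 := mul v46 v39; ok v47 && (
  let v48 := add v47 v5; ok v48 && (
  let v49 := mul v48 v39; ok v49 && (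
  let v50 := add v49 v7; ok v50 && (
  let v51 := mul v50 v39; ok v51 && (
  let v52 := add v51 v10; ok v52 && (
  let v53 := mul v52 v39; ok v53 && (
  let v54 := add v53 v13; ok v54 && (
  let v55 := ball 30678339 v54; ok v55 && (
  let v56 := mul v1 v55; ok v56 && (
  let v57 := neg v56; ok v57 && (
  let v58 := mul x1 v57; ok v58 && (
  isLt v58 274877906944 && (
  let v59 := cst ⟨157073089682, 0, 0, 0⟩; ok v59 && (
  let v60 := mul v59 v58; ok v60 && (
  let v61 := cst ⟨0, 183251937963, 0, 0⟩; ok v61 && (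
  let v62 := add v60 v61; ok v62 && (
  let v63 := mul v62 v58; ok v63 && (
  let v64 := cst ⟨219902325555, 0, 0, 0⟩; ok v64 && (
  let v65 := add v63 v64; ok v65 && (
  let v66 := mul v65 v58; ok v66 && (
  let v67 := cst ⟨0, 274877906944, 0, 0⟩; ok v67 && (
  let v68 := add v66 v67; ok v68 && (
  let v69 := mul v68 v58; ok v69 && (
  let v70 := cst ⟨366503875925, 0, 0, 0⟩; ok v70 && (
  let v71 := add v69 v70; ok v71 && (
  let v72 := mul v71 v58; ok v72 && (
  let v73 := cst ⟨0, 549755813888, 0, 0⟩; ok v73 && (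
  let v74 := add v72 v73; ok v74 && (
  let v75 := mul v74 v58; ok v75 && (
  let v76 := add v75 v13; ok v76 && (
  let v77 := ball 11184812 v76; ok v77 && (
  let v78 := mul v57 v77; ok v78 && (
  let v79 := cst (p.ec); ok v79 && (
  let v80 := cst (p.bc); ok v80 && (
  let v81 := sub x0 v79; ok v81 && (
  let v82 := sub v2 v80; ok v82 && (
  let v83 := scale ⟨2199023255552, 0, 0, 0⟩ v3; ok v83 && (
  let v84 := cst ⟨0, 0, 1099511627776, 0⟩; ok v84 && (
  let v85 := mul v84 v0; ok v85 && (
  let v86 := mul x0 x0; ok v86 && (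
  let v87 := scale ⟨5703716569088, 0, 0, 0⟩ v86; ok v87 && (
  let v88 := cst ⟨1726576852992, 0, 0, 0⟩; ok v88 && (
  let v89 := add v87 v88; ok v89 && (
  let v90 := mul v85 v89; ok v90 && (
  let v91 := scale ⟨2199023255552, 0, 0, 0⟩ v90; ok v91 && (
  let v92 := mul v4 v4; ok v92 && (
  let v93 := mul v92 v33; ok v93 && (
  let v94 := scale ⟨412316860416, 0, 0, 0⟩ v93; ok v94 && (
  let v95 := add v94 v13; ok v95 && (
  let v96 := mul v91 v95; ok v96 && (
  let v97 := mul x1 v85; ok v97 && (
  let v98 := scale ⟨549755813888, 0, 0, 0⟩ v97; ok v98 && (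
  let v99 := add v98 v13; ok v99 && (
  let v100 := inv v99; ok v100 && (
  let v101 := mul v85 v100; ok v101 && (
  let v102 := mul x1 v101; ok v102 && (
  let v103 := cst (p.l700); ok v103 && (
  let v104 := mul v103 v102; ok v104 && (
  let v105 := cst (p.l600); ok v105 && (
  let v106 := add v104 v105; ok v106 && (
  let v107 := mul v106 v102; ok v107 && (
  let v108 := cst (p.l500); ok v108 && (
  let v109 := add v107 v108; ok v109 && (
  let v110 := mul v109 v102; ok v110 && (
  let v111 := cst (p.l410); ok v111 && (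
  let v112 := mul v111 v81; ok v112 && (
  let v113 := cst (p.l401); ok v113 && (
  let v114 := mul v113 v82; ok v114 && (
  let v115 := cst (p.l400); ok v115 && (
  let v116 := add v114 v115; ok v116 && (
  let v117 := add v112 v116; ok v117 && (
  let v118 := add v110 v117; ok v118 && (
  let v119 := mul v118 v102; ok v119 && (
  let v120 := cst (p.l310); ok v120 && (
  let v121 := mul v120 v81; ok v121 && (
  let v122 := cst (p.l301); ok v122 && (
  let v123 := mul v122 v82; ok v123 && (
  let v124 := cst (p.l300); ok v124 && (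
  let v125 := add v123 v124; ok v125 && (
  let v126 := add v121 v125; ok v126 && (
  let v127 := add v119 v126; ok v127 && (
  let v128 := mul v127 v102; ok v128 && (
  let v129 := cst (p.l210); ok v129 && (
  let v130 := mul v129 v81; ok v130 && (
  let v131 := cst (p.l201); ok v131 && (
  let v132 := mul v131 v82; ok v132 && (
  let v133 := cst (p.l200); ok v133 && (
  let v134 := add v132 v133; ok v134 && (
  let v135 := add v130 v134; ok v135 && (
  let v136 := add v128 v135; ok v136 && (
  let v137 := mul v136 v102; ok v137 && (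
  let v138 := cst (p.l120); ok v138 && (
  let v139 := mul v138 v81; ok v139 && (
  let v140 := cst (p.l111); ok v140 && (
  let v141 := mul v140 v82; ok v141 && (
  let v142 := cst (p.l110); ok v142 && (
  let v143 := add v141 v142; ok v143 && (
  let v144 := add v139 v143; ok v144 && (
  let v145 := mul v144 v81; ok v145 && (
  let v146 := cst (p.l102); ok v146 && (
  let v147 := mul v146 v82; ok v147 && (
  let v148 := cst (p.l101); ok v148 && (
  let v149 := add v147 v148; ok v149 && (
  let v150 := mul v149 v82; ok v150 && (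
  let v151 := cst (p.l100); ok v151 && (
  let v152 := add v150 v151; ok v152 && (
  let v153 := add v145 v152; ok v153 && (
  let v154 := add v137 v153; ok v154 && (
  let v155 := mul v154 v102; ok v155 && (
  let v156 := cst (p.l020); ok v156 && (
  let v157 := mul v156 v81; ok v157 && (
  let v158 := cst (p.l011); ok v158 && (
  let v159 := mul v158 v82; ok v159 && (
  let v160 := cst (p.l010); ok v160 && (
  let v161 := add v159 v160; ok v161 && (
  let v162 := add v157 v161; ok v162 && (
  let v163 := mul v162 v81; ok v163 && (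
  let v164 := cst (p.l002); ok v164 && (
  let v165 := mul v164 v82; ok v165 && (
  let v166 := cst (p.l001); ok v166 && (
  let v167 := add v165 v166; ok v167 && (
  let v168 := mul v167 v82; ok v168 && (
  let v169 := cst (p.l000); ok v169 && (
  let v170 := add v168 v169; ok v170 && (
  let v171 := add v163 v170; ok v171 && (
  let v172 := add v155 v171; ok v172 && (
  let v173 := mul v101 v172; ok v173 && (
  let v174 := cst (p.q30); ok v174 && (
  let v175 := mul v174 v81; ok v175 && (
  let v176 := cst (p.q21); ok v176 && (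
  let v177 := mul v176 v82; ok v177 && (
  let v178 := cst (p.q20); ok v178 && (
  let v179 := add v177 v178; ok v179 && (
  let v180 := add v175 v179; ok v180 && (
  let v181 := mul v180 v81; ok v181 && (
  let v182 := cst (p.q12); ok v182 && (
  let v183 := mul v182 v82; ok v183 && (
  let v184 := cst (p.q11); ok v184 && (
  let v185 := add v183 v184; ok v185 && (
  let v186 := mul v185 v82; ok v186 && (
  let v187 := cst (p.q10); ok v187 && (
  let v188 := add v186 v187; ok v188 && (
  let v189 := add v181 v188; ok v189 && (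
  let v190 := mul v189 v81; ok v190 && (
  let v191 := cst (p.q03); ok v191 && (
  let v192 := mul v191 v82; ok v192 && (
  let v193 := cst (p.q02); ok v193 && (
  let v194 := add v192 v193; ok v194 && (
  let v195 := mul v194 v82; ok v195 && (
  let v196 := cst (p.q01); ok v196 && (
  let v197 := add v195 v196; ok v197 && (
  let v198 := mul v197 v82; ok v198 && (
  let v199 := cst (p.q00); ok v199 && (
  let v200 := add v198 v199; ok v200 && (
  let v201 := add v190 v200; ok v201 && (
  let v202 := mul v1 v201; ok v202 && (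
  let v203 := add v173 v202; ok v203 && (
  let v204 := mul v101 v89; ok v204 && (
  let v205 := add v1 v204; ok v205 && (
  let v206 := scale ⟨4398046511104, 0, 0, 0⟩ v205; ok v206 && (
  let v207 := cst (p.e11); ok v207 && (
  let v208 := mul v207 v82; ok v208 && (
  let v209 := cst (p.e10); ok v209 && (
  let v210 := add v208 v209; ok v210 && (
  let v211 := mul v210 v81; ok v211 && (
  let v212 := cst (p.e03); ok v212 && (
  let v213 := mul v212 v82; ok v213 && (
  let v214 := cst (p.e02); ok v214 && (
  let v215 := add v213 v214; ok v215 && (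
  let v216 := mul v215 v82; ok v216 && (
  let v217 := cst (p.e01); ok v217 && (
  let v218 := add v216 v217; ok v218 && (
  let v219 := mul v218 v82; ok v219 && (
  let v220 := cst (p.e00); ok v220 && (
  let v221 := add v219 v220; ok v221 && (
  let v222 := add v211 v221; ok v222 && (
  let v223 := cst (p.cc); ok v223 && (
  let v224 := mul v222 v206; ok v224 && (
  let v225 := mul x1 v206; ok v225 && (
  let v226 := mul v223 v225; ok v226 && (
  let v227 := add v226 v13; ok v227 && (
  let v228 := inv v227; ok v228 && (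
  let v229 := mul v224 v228; ok v229 && (
  let v230 := cst (p.n500); ok v230 && (
  let v231 := mul v230 v102; ok v231 && (
  let v232 := cst (p.n400); ok v232 && (
  let v233 := add v231 v232; ok v233 && (
  let v234 := mul v233 v102; ok v234 && (
  let v235 := cst (p.n300); ok v235 && (
  let v236 := add v234 v235; ok v236 && (
  let v237 := mul v236 v102; ok v237 && (
  let v238 := cst (p.n210); ok v238 && (
  let v239 := mul v238 v81; ok v239 && (
  let v240 := cst (p.n201); ok v240 && (
  let v241 := mul v240 v82; ok v241 && (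
  let v242 := cst (p.n200); ok v242 && (
  let v243 := add v241 v242; ok v243 && (
  let v244 := add v239 v243; ok v244 && (
  let v245 := add v237 v244; ok v245 && (
  let v246 := mul v245 v102; ok v246 && (
  let v247 := cst (p.n110); ok v247 && (
  let v248 := mul v247 v81; ok v248 && (
  let v249 := cst (p.n101); ok v249 && (
  let v250 := mul v249 v82; ok v250 && (
  let v251 := cst (p.n100); ok v251 && (
  let v252 := add v250 v251; ok v252 && (
  let v253 := add v248 v252; ok v253 && (
  let v254 := add v246 v253; ok v254 && (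
  let v255 := mul v254 v102; ok v255 && (
  let v256 := cst (p.n020); ok v256 && (
  let v257 := mul v256 v81; ok v257 && (
  let v258 := cst (p.n011); ok v258 && (
  let v259 := mul v258 v82; ok v259 && (
  let v260 := cst (p.n010); ok v260 && (
  let v261 := add v259 v260; ok v261 && (
  let v262 := add v257 v261; ok v262 && (
  let v263 := mul v262 v81; ok v263 && (
  let v264 := cst (p.n002); ok v264 && (
  let v265 := mul v264 v82; ok v265 && (
  let v266 := cst (p.n001); ok v266 && (
  let v267 := add v265 v266; ok v267 && (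
  let v268 := mul v267 v82; ok v268 && (
  let v269 := cst (p.n000); ok v269 && (
  let v270 := add v268 v269; ok v270 && (
  let v271 := add v263 v270; ok v271 && (
  let v272 := add v255 v271; ok v272 && (
  let v273 := mul x1 v203; ok v273 && (
  let v274 := neg v273; ok v274 && (
  isLt v274 1099511627776 && (
  let v275 := mul v40 v274; ok v275 && (
  let v276 := add v275 v42; ok v276 && (
  let v277 := mul v276 v274; ok v277 && (
  let v278 := add v277 v45; ok v278 && (
  let v279 := mul v278 v274; ok v279 && (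
  let v280 := add v279 v5; ok v280 && (
  let v281 := mul v280 v274; ok v281 && (
  let v282 := add v281 v7; ok v282 && (
  let v283 := mul v282 v274; ok v283 && (
  let v284 := add v283 v10; ok v284 && (
  let v285 := mul v284 v274; ok v285 && (
  let v286 := add v285 v13; ok v286 && (
  let v287 := ball 30678339 v286; ok v287 && (
  let v288 := mul v203 v287; ok v288 && (
  let v289 := scale ⟨0, 549755813888, 0, 0⟩ v288; ok v289 && (
  let v290 := mul x1 v289; ok v290 && (
  let v291 := scale ⟨2199023255552, 0, 0, 0⟩ v290; ok v291 && (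
  let v292 := add v291 v13; ok v292 && (
  isLt v290 412316860416 && (
  let v293 := cst ⟨122167958642, 0, 0, 0⟩; ok v293 && (
  let v294 := mul v293 v290; ok v294 && (
  let v295 := cst ⟨0, 137438953472, 0, 0⟩; ok v295 && (
  let v296 := add v294 v295; ok v296 && (
  let v297 := mul v296 v290; ok v297 && (
  let v298 := add v297 v59; ok v298 && (
  let v299 := mul v298 v290; ok v299 && (
  let v300 := add v299 v61; ok v300 && (
  let v301 := mul v300 v290; ok v301 && (
  let v302 := add v301 v64; ok v302 && (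
  let v303 := mul v302 v290; ok v303 && (
  let v304 := add v303 v67; ok v304 && (
  let v305 := mul v304 v290; ok v305 && (
  let v306 := add v305 v70; ok v306 && (
  let v307 := mul v306 v290; ok v307 && (
  let v308 := add v307 v73; ok v308 && (
  let v309 := mul v308 v290; ok v309 && (
  let v310 := add v309 v13; ok v310 && (
  let v311 := ball 25798904 v310; ok v311 && (
  let v312 := mul v289 v311; ok v312 && (
  let v313 := mul v229 x3; ok v313 && (
  let v314 := mul v292 v313; ok v314 && (
  let v315 := mul x1 v314; ok v315 && (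
  isLt v315 412316860416 && (
  let v316 := mul v293 v315; ok v316 && (
  let v317 := add v316 v295; ok v317 && (
  let v318 := mul v317 v315; ok v318 && (
  let v319 := add v318 v59; ok v319 && (
  let v320 := mul v319 v315; ok v320 && (
  let v321 := add v320 v61; ok v321 && (
  let v322 := mul v321 v315; ok v322 && (
  let v323 := add v322 v64; ok v323 && (
  let v324 := mul v323 v315; ok v324 && (
  let v325 := add v324 v67; ok v325 && (
  let v326 := mul v325 v315; ok v326 && (
  let v327 := add v326 v70; ok v327 && (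
  let v328 := mul v327 v315; ok v328 && (
  let v329 := add v328 v73; ok v329 && (
  let v330 := mul v329 v315; ok v330 && (
  let v331 := add v330 v13; ok v331 && (
  let v332 := ball 25798904 v331; ok v332 && (
  let v333 := mul v314 v332; ok v333 && (
  let v334 := mul x1 v313; ok v334 && (
  let v335 := neg v334; ok v335 && (
  isLt v335 412316860416 && (
  let v336 := mul v293 v335; ok v336 && (
  let v337 := add v336 v295; ok v337 && (
  let v338 := mul v337 v335; ok v338 && (
  let v339 := add v338 v59; ok v339 && (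
  let v340 := mul v339 v335; ok v340 && (
  let v341 := add v340 v61; ok v341 && (
  let v342 := mul v341 v335; ok v342 && (
  let v343 := add v342 v64; ok v343 && (
  let v344 := mul v343 v335; ok v344 && (
  let v345 := add v344 v67; ok v345 && (
  let v346 := mul v345 v335; ok v346 && (
  let v347 := add v346 v70; ok v347 && (
  let v348 := mul v347 v335; ok v348 && (
  let v349 := add v348 v73; ok v349 && (
  let v350 := mul v349 v335; ok v350 && (
  let v351 := add v350 v13; ok v351 && (
  let v352 := ball 25798904 v351; ok v352 && (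
  let v353 := mul v313 v352; ok v353 && (
  let v354 := neg v353; ok v354 && (
  let v355 := sub v333 v354; ok v355 && (
  let v356 := add v355 v203; ok v356 && (
  let v357 := add v1 v78; ok v357 && (
  let v358 := add v357 v354; ok v358 && (
  let v359 := sub v358 v203; ok v359 && (
  let v360 := sub v359 v312; ok v360 && (
  let v361 := mul v4 v356; ok v361 && (
  let v362 := mul v4 v360; ok v362 && (
  let v363 := neg v362; ok v363 && (
  isLt v363 274877906944 && (
  let v364 := mul v5 v363; ok v364 && (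
  let v365 := add v364 v7; ok v365 && (
  let v366 := mul v365 v363; ok v366 && (
  let v367 := add v366 v10; ok v367 && (
  let v368 := mul v367 v363; ok v368 && (
  let v369 := add v368 v13; ok v369 && (
  let v370 := ball 42949674 v369; ok v370 && (
  let v371 := mul v360 v370; ok v371 && (
  let v372 := neg v371; ok v372 && (
  let v373 := mul v4 v372; ok v373 && (
  let v374 := add v373 v13; ok v374 && (
  let v375 := neg v361; ok v375 && (
  isLt v375 274877906944 && (
  let v376 := mul v5 v375; ok v376 && (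
  let v377 := add v376 v7; ok v377 && (
  let v378 := mul v377 v375; ok v378 && (
  let v379 := add v378 v10; ok v379 && (
  let v380 := mul v379 v375; ok v380 && (
  let v381 := add v380 v13; ok v381 && (
  let v382 := ball 42949674 v381; ok v382 && (
  let v383 := mul v356 v382; ok v383 && (
  let v384 := neg v383; ok v384 && (
  let v385 := mul v4 v384; ok v385 && (
  let v386 := add v385 v13; ok v386 && (
  let v387 := mul v374 v386; ok v387 && (
  let v388 := mul v372 v386; ok v388 && (
  let v389 := add v388 v384; ok v389 && (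
  let v390 := mul v374 v387; ok v390 && (
  let v391 := mul v372 v387; ok v391 && (
  let v392 := add v391 v389; ok v392 && (
  let v393 := mul v387 v387; ok v393 && (
  let v394 := mul v96 v96; ok v394 && (
  let v395 := sub v33 v394; ok v395 && (
  let v396 := mul v395 v393; ok v396 && (
  let v397 := mul v4 v396; ok v397 && (
  let v398 := mul v4 v397; ok v398 && (
  let v399 := neg v398; ok v399 && (
  isLt v399 137438953472 && (
  let v400 := mul v64 v399; ok v400 && (
  let v401 := add v400 v67; ok v401 && (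
  let v402 := mul v401 v399; ok v402 && (
  let v403 := add v402 v70; ok v403 && (
  let v404 := mul v403 v399; ok v404 && (
  let v405 := add v404 v73; ok v405 && (
  let v406 := mul v405 v399; ok v406 && (
  let v407 := add v406 v13; ok v407 && (
  let v408 := ball 6391321 v407; ok v408 && (
  let v409 := mul v397 v408; ok v409 && (
  let v410 := scale ⟨0, 549755813888, 0, 0⟩ v409; ok v410 && (
  let v411 := mul v4 v410; ok v411 && (
  isLt v411 91625968981 && (
  let v412 := mul v5 v411; ok v412 && (
  let v413 := add v412 v7; ok v413 && (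
  let v414 := mul v413 v411; ok v414 && (
  let v415 := add v414 v10; ok v415 && (
  let v416 := mul v415 v411; ok v416 && (
  let v417 := add v416 v13; ok v417 && (
  let v418 := ball 530244 v417; ok v418 && (
  let v419 := mul v410 v418; ok v419 && (
  let v420 := mul v4 v419; ok v420 && (
  let v421 := add v420 v13; ok v421 && (
  let v422 := mul v374 v374; ok v422 && (
  let v423 := mul v33 v422; ok v423 && (
  let v424 := mul v390 v395; ok v424 && (
  let v425 := scale ⟨2199023255552, 0, 0, 0⟩ v424; ok v425 && (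
  let v426 := add v423 v425; ok v426 && (
  let v427 := mul v4 v426; ok v427 && (
  let v428 := mul v374 v421; ok v428 && (
  let v429 := mul v96 v428; ok v429 && (
  let v430 := scale ⟨2199023255552, 0, 0, 0⟩ v429; ok v430 && (
  let v431 := add v427 v430; ok v431 && (
  let v432 := mul v4 v431; ok v432 && (
  isLt v432 412316860416 && (
  let v433 := mul v293 v432; ok v433 && (
  let v434 := add v433 v295; ok v434 && (
  let v435 := mul v434 v432; ok v435 && (
  let v436 := add v435 v59; ok v436 && (
  let v437 := mul v436 v432; ok v437 && (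
  let v438 := add v437 v61; ok v438 && (
  let v439 := mul v438 v432; ok v439 && (
  let v440 := add v439 v64; ok v440 && (
  let v441 := mul v440 v432; ok v441 && (
  let v442 := add v441 v67; ok v442 && (
  let v443 := mul v442 v432; ok v443 && (
  let v444 := add v443 v70; ok v444 && (
  let v445 := mul v444 v432; ok v445 && (
  let v446 := add v445 v73; ok v446 && (
  let v447 := mul v446 v432; ok v447 && (
  let v448 := add v447 v13; ok v448 && (
  let v449 := ball 25798904 v448; ok v449 && (
  let v450 := mul v431 v449; ok v450 && (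
  let v451 := mul v4 v450; ok v451 && (
  let v452 := scale ⟨549755813888, 0, 0, 0⟩ v451; ok v452 && (
  isLt v452 274877906944 && (
  let v453 := mul v5 v452; ok v453 && (
  let v454 := add v453 v7; ok v454 && (
  let v455 := mul v454 v452; ok v455 && (
  let v456 := add v455 v10; ok v456 && (
  let v457 := mul v456 v452; ok v457 && (
  let v458 := add v457 v13; ok v458 && (
  let v459 := ball 42949674 v458; ok v459 && (
  let v460 := mul v452 v459; ok v460 && (
  let v461 := scale ⟨2199023255552, 0, 0, 0⟩ v395; ok v461 && (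
  let v462 := sub v461 v33; ok v462 && (
  let v463 := mul v393 v462; ok v463 && (
  let v464 := mul v92 v463; ok v464 && (
  let v465 := sub v13 v464; ok v465 && (
  let v466 := mul v387 v421; ok v466 && (
  let v467 := mul v96 v466; ok v467 && (
  let v468 := mul v4 v467; ok v468 && (
  let v469 := scale ⟨2199023255552, 0, 0, 0⟩ v468; ok v469 && (
  let v470 := sub v465 v469; ok v470 && (
  isPos 3 v470 && (
  let v471 := mul v29 v96; ok v471 && (
  let v472 := add v37 v471; ok v472 && (
  let v473 := mul v4 v472; ok v473 && (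
  let v474 := add v473 v13; ok v474 && (
  let v475 := inv v474; ok v475 && (
  let v476 := mul v472 v475; ok v476 && (
  let v477 := scale ⟨2199023255552, 0, 0, 0⟩ v37; ok v477 && (
  let v478 := add v477 v476; ok v478 && (
  let v479 := mul v1 v26; ok v479 && (
  let v480 := scale ⟨549755813888, 0, 0, 0⟩ v479; ok v480 && (
  let v481 := mul v29 v475; ok v481 && (
  let v482 := mul v372 v421; ok v482 && (
  let v483 := add v482 v419; ok v483 && (
  let v484 := sub v483 v480; ok v484 && (
  let v485 := mul v29 v476; ok v485 && (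
  let v486 := add v484 v485; ok v486 && (
  let v487 := scale ⟨2199023255552, 0, 0, 0⟩ v486; ok v487 && (
  let v488 := mul v390 v96; ok v488 && (
  let v489 := scale ⟨2199023255552, 0, 0, 0⟩ v488; ok v489 && (
  let v490 := mul v478 v481; ok v490 && (
  let v491 := add v489 v490; ok v491 && (
  let v492 := sub v487 v491; ok v492 && (
  let v493 := add v374 v13; ok v493 && (
  let v494 := mul v372 v493; ok v494 && (
  let v495 := scale ⟨2199023255552, 0, 0, 0⟩ v392; ok v495 && (
  let v496 := add v494 v495; ok v496 && (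
  let v497 := add v496 v476; ok v497 && (
  let v498 := scale ⟨2199023255552, 0, 0, 0⟩ v497; ok v498 && (
  let v499 := cst ⟨2199023255552, 0, 0, 0⟩; ok v499 && (
  let v500 := add v475 v499; ok v500 && (
  let v501 := mul v478 v500; ok v501 && (
  let v502 := sub v498 v501; ok v502 && (
  let v503 := mul v96 v492; ok v503 && (
  let v504 := mul v37 v502; ok v504 && (
  let v505 := add v503 v504; ok v505 && (
  let v506 := add v37 v476; ok v506 && (
  let v507 := mul v4 v478; ok v507 && (
  let v508 := add v507 v499; ok v508 && (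
  let v509 := add v460 v508; ok v509 && (
  let v510 := inv v509; ok v510 && (
  let v511 := mul v505 v510; ok v511 && (
  let v512 := mul v4 v511; ok v512 && (
  let v513 := add v506 v512; ok v513 && (
  let v514 := cst (p.t11); ok v514 && (
  let v515 := mul v514 v82; ok v515 && (
  let v516 := cst (p.t10); ok v516 && (
  let v517 := add v515 v516; ok v517 && (
  let v518 := mul v517 v81; ok v518 && (
  let v519 := cst (p.t03); ok v519 && (
  let v520 := mul v519 v82; ok v520 && (
  let v521 := cst (p.t02); ok v521 && (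
  let v522 := add v520 v521; ok v522 && (
  let v523 := mul v522 v82; ok v523 && (
  let v524 := cst (p.t01); ok v524 && (
  let v525 := add v523 v524; ok v525 && (
  let v526 := mul v525 v82; ok v526 && (
  let v527 := cst (p.t00); ok v527 && (
  let v528 := add v526 v527; ok v528 && (
  let v529 := add v518 v528; ok v529 && (
  let v530 := cst (p.tj); ok v530 && (
  let v531 := mul v530 v83; ok v531 && (
  let v532 := neg v531; ok v532 && (
  let v533 := exp v532; ok v533 && (
  let v534 := mul v529 v533; ok v534 && (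
  let v535 := mul x1 v513; ok v535 && (
  isPos 3 v272 && (
  let v536 := add v37 v513; ok v536 && (
  let v537 := mul v4 v536; ok v537 && (
  let v538 := add v537 v13; ok v538 && (
  let v539 := inv v538; ok v539 && (
  let v540 := mul v536 v539; ok v540 && (
  let v541 := add v539 v13; ok v541 && (
  let v542 := mul v540 v541; ok v542 && (
  let v543 := mul x1 v542; ok v543 && (
  let v544 := neg v83; ok v544 && (
  let v545 := exp v544; ok v545 && (
  let v546 := cst (p.h400); ok v546 && (
  let v547 := mul v546 v543; ok v547 && (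
  let v548 := cst (p.h300); ok v548 && (
  let v549 := add v547 v548; ok v549 && (
  let v550 := mul v549 v543; ok v550 && (
  let v551 := cst (p.h210); ok v551 && (
  let v552 := mul v551 v81; ok v552 && (
  let v553 := cst (p.h201); ok v553 && (
  let v554 := mul v553 v82; ok v554 && (
  let v555 := cst (p.h200); ok v555 && (
  let v556 := add v554 v555; ok v556 && (
  let v557 := add v552 v556; ok v557 && (
  let v558 := add v550 v557; ok v558 && (
  let v559 := mul v558 v543; ok v559 && (
  let v560 := cst (p.h120); ok v560 && (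
  let v561 := mul v560 v81; ok v561 && (
  let v562 := cst (p.h111); ok v562 && (
  let v563 := mul v562 v82; ok v563 && (
  let v564 := cst (p.h110); ok v564 && (
  let v565 := add v563 v564; ok v565 && (
  let v566 := add v561 v565; ok v566 && (
  let v567 := mul v566 v81; ok v567 && (
  let v568 := cst (p.h102); ok v568 && (
  let v569 := mul v568 v82; ok v569 && (
  let v570 := cst (p.h101); ok v570 && (
  let v571 := add v569 v570; ok v571 && (
  let v572 := mul v571 v82; ok v572 && (
  let v573 := cst (p.h100); ok v573 && (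
  let v574 := add v572 v573; ok v574 && (
  let v575 := add v567 v574; ok v575 && (
  let v576 := add v559 v575; ok v576 && (
  let v577 := mul v576 v543; ok v577 && (
  let v578 := cst (p.h030); ok v578 && (
  let v579 := mul v578 v81; ok v579 && (
  let v580 := cst (p.h021); ok v580 && (
  let v581 := mul v580 v82; ok v581 && (
  let v582 := cst (p.h020); ok v582 && (
  let v583 := add v581 v582; ok v583 && (
  let v584 := add v579 v583; ok v584 && (
  let v585 := mul v584 v81; ok v585 && (
  let v586 := cst (p.h012); ok v586 && (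
  let v587 := mul v586 v82; ok v587 && (
  let v588 := cst (p.h011); ok v588 && (
  let v589 := add v587 v588; ok v589 && (
  let v590 := mul v589 v82; ok v590 && (
  let v591 := cst (p.h010); ok v591 && (
  let v592 := add v590 v591; ok v592 && (
  let v593 := add v585 v592; ok v593 && (
  let v594 := mul v593 v81; ok v594 && (
  let v595 := cst (p.h003); ok v595 && (
  let v596 := mul v595 v82; ok v596 && (
  let v597 := cst (p.h002); ok v597 && (
  let v598 := add v596 v597; ok v598 && (
  let v599 := mul v598 v82; ok v599 && (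
  let v600 := cst (p.h001); ok v600 && (
  let v601 := add v599 v600; ok v601 && (
  let v602 := mul v601 v82; ok v602 && (
  let v603 := cst (p.h000); ok v603 && (
  let v604 := add v602 v603; ok v604 && (
  let v605 := add v594 v604; ok v605 && (
  let v606 := add v577 v605; ok v606 && (
  let v607 := cst (p.w1); ok v607 && (
  let v608 := cst (p.wr); ok v608 && (
  let v609 := cst (p.wi); ok v609 && (
  let v610 := mul v607 v81; ok v610 && (
  let v611 := add v610 v608; ok v611 && (
  let v612 := mul v609 v609; ok v612 && (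
  let v613 := cst (p.g11); ok v613 && (
  let v614 := mul v613 v82; ok v614 && (
  let v615 := cst (p.g10); ok v615 && (
  let v616 := add v614 v615; ok v616 && (
  let v617 := mul v616 v81; ok v617 && (
  let v618 := cst (p.g01); ok v618 && (
  let v619 := mul v618 v82; ok v619 && (
  let v620 := cst (p.g00); ok v620 && (
  let v621 := add v619 v620; ok v621 && (
  let v622 := add v617 v621; ok v622 && (
  let v623 := cst (p.f11); ok v623 && (
  let v624 := mul v623 v82; ok v624 && (
  let v625 := cst (p.f10); ok v625 && (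
  let v626 := add v624 v625; ok v626 && (
  let v627 := mul v626 v81; ok v627 && (
  let v628 := cst (p.f01); ok v628 && (
  let v629 := mul v628 v82; ok v629 && (
  let v630 := cst (p.f00); ok v630 && (
  let v631 := add v629 v630; ok v631 && (
  let v632 := add v627 v631; ok v632 && (
  let v633 := sub v543 v611; ok v633 && (
  let v634 := mul v622 v633; ok v634 && (
  let v635 := add v634 v632; ok v635 && (
  let v636 := mul v633 v633; ok v636 && (
  let v637 := add v636 v612; ok v637 && (
  let v638 := inv v637; ok v638 && (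
  let v639 := mul v635 v638; ok v639 && (
  let v640 := add v606 v639; ok v640 && (
  let v641 := scale ⟨2199023255552, 0, 0, 0⟩ v1; ok v641 && (
  let v642 := sub v513 v35; ok v642 && (
  let v643 := add v545 v539; ok v643 && (
  let v644 := mul v545 v643; ok v644 && (
  let v645 := mul v539 v644; ok v645 && (
  let v646 := mul v642 v645; ok v646 && (
  let v647 := add v640 v10; ok v647 && (
  let v648 := mul v646 v647; ok v648 && (
  let v649 := add v641 v648; ok v649 && (
  let v650 := cst (p.a11); ok v650 && (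
  let v651 := mul v650 v82; ok v651 && (
  let v652 := cst (p.a10); ok v652 && (
  let v653 := add v651 v652; ok v653 && (
  let v654 := mul v653 v81; ok v654 && (
  let v655 := cst (p.a03); ok v655 && (
  let v656 := mul v655 v82; ok v656 && (
  let v657 := cst (p.a02); ok v657 && (
  let v658 := add v656 v657; ok v658 && (
  let v659 := mul v658 v82; ok v659 && (
  let v660 := cst (p.a01); ok v660 && (
  let v661 := add v659 v660; ok v661 && (
  let v662 := mul v661 v82; ok v662 && (
  let v663 := cst (p.a00); ok v663 && (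
  let v664 := add v662 v663; ok v664 && (
  let v665 := add v654 v664; ok v665 && (
  let v666 := scale ⟨2199023255552, 0, 0, 0⟩ v665; ok v666 && (
  let v667 := cst (p.ca); ok v667 && (
  let v668 := add v513 v35; ok v668 && (
  let v669 := mul v666 v668; ok v669 && (
  let v670 := mul v667 v535; ok v670 && (
  let v671 := add v670 v13; ok v671 && (
  let v672 := inv v671; ok v672 && (
  let v673 := mul v669 v672; ok v673 && (
  let v674 := mul x1 v649; ok v674 && (
  let v675 := neg v674; ok v675 && (
  isLt v675 1099511627776 && (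
  let v676 := mul v40 v675; ok v676 && (
  let v677 := add v676 v42; ok v677 && (
  let v678 := mul v677 v675; ok v678 && (
  let v679 := add v678 v45; ok v679 && (
  let v680 := mul v679 v675; ok v680 && (
  let v681 := add v680 v5; ok v681 && (
  let v682 := mul v681 v675; ok v682 && (
  let v683 := add v682 v7; ok v683 && (
  let v684 := mul v683 v675; ok v684 && (
  let v685 := add v684 v10; ok v685 && (
  let v686 := mul v685 v675; ok v686 && (
  let v687 := add v686 v13; ok v687 && (
  let v688 := ball 30678339 v687; ok v688 && (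
  let v689 := mul v649 v688; ok v689 && (
  let v690 := scale ⟨0, 549755813888, 0, 0⟩ v689; ok v690 && (
  let v691 := mul x1 v690; ok v691 && (
  let v692 := scale ⟨2199023255552, 0, 0, 0⟩ v691; ok v692 && (
  let v693 := add v692 v13; ok v693 && (
  isLt v691 412316860416 && (
  let v694 := mul v293 v691; ok v694 && (
  let v695 := add v694 v295; ok v695 && (
  let v696 := mul v695 v691; ok v696 && (
  let v697 := add v696 v59; ok v697 && (
  let v698 := mul v697 v691; ok v698 && (
  let v699 := add v698 v61; ok v699 && (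
  let v700 := mul v699 v691; ok v700 && (
  let v701 := add v700 v64; ok v701 && (
  let v702 := mul v701 v691; ok v702 && (
  let v703 := add v702 v67; ok v703 && (
  let v704 := mul v703 v691; ok v704 && (
  let v705 := add v704 v70; ok v705 && (
  let v706 := mul v705 v691; ok v706 && (
  let v707 := add v706 v73; ok v707 && (
  let v708 := mul v707 v691; ok v708 && (
  let v709 := add v708 v13; ok v709 && (
  let v710 := ball 25798904 v709; ok v710 && (
  let v711 := mul v690 v710; ok v711 && (
  let v712 := mul v693 v673; ok v712 && (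
  let v713 := mul x1 v712; ok v713 && (
  isLt v713 549755813888 && (
  let v714 := scale ⟨549755813888, 0, 0, 0⟩ v450; ok v714 && (
  let v715 := sub v714 v203; ok v715 && (
  let v716 := sub v715 v312; ok v716 && (
  let v717 := add v716 v711; ok v717 && (
  let v718 := mul x1 v717; ok v718 && (
  let v719 := neg v718; ok v719 && (
  isLt v719 274877906944 && (
  let v720 := mul v5 v719; ok v720 && (
  let v721 := add v720 v7; ok v721 && (
  let v722 := mul v721 v719; ok v722 && (
  let v723 := add v722 v10; ok v723 && (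
  let v724 := mul v723 v719; ok v724 && (
  let v725 := add v724 v13; ok v725 && (
  let v726 := ball 42949674 v725; ok v726 && (
  let v727 := mul v719 v726; ok v727 && (
  let v728 := add v727 v13; ok v728 && (
  let v729 := inv v229; ok v729 && (
  let v730 := mul v717 v726; ok v730 && (
  let v731 := mul v730 v729; ok v731 && (
  let v732 := sub x3 v731; ok v732 && (
  let v733 := mul v272 v732; ok v733 && (
  let v734 := sub x3 v733; ok v734 && (
  let v735 := mul v712 v729; ok v735 && (
  let v736 := mul v728 v735; ok v736 && (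
  let v737 := mul v272 v736; ok v737 && (
  isLt v535 549755813888 && (
  let v738 := add v35 v513; ok v738 && (
  let v739 := add v35 v506; ok v739 && (
  let v740 := mul v738 v739; ok v740 && (
  let v741 := mul v740 v534; ok v741 && (
  let v742 := mul v30 v511; ok v742 && (
  let v743 := scale ⟨2199023255552, 0, 0, 0⟩ v742; ok v743 && (
  let v744 := inv v741; ok v744 && (
  let v745 := mul v743 v744; ok v745 && (
  isLt v745 1099511627776 && (
  let v746 := rball v734 v737; ok v746 && (
  isLt v746 1099243192320 && (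
  true))))))))))))))))))))))))))))))))))))))))))))))))))))))))))))))))))))))))))))))))))))))))))))))))))))))))))))))))))))))))))))))))))))))))))))))))))))))))))))))))))))))))))))))))))))))))))))))))))))))))))))))))))))))))))))))))))))))))))))))))))))))))))))))))))))))))))))))))))))))))))))))))))))))))))))))))))))))))))))))))))))))))))))))))))))))))))))))))))))))))))))))))))))))))))))))))))))))))))))))))))))))))))))))))))))))))))))))))))))))))))))))))))))))))))))))))))))))))))))))))))))))))))))))))))))))))))))))))))))))))))))))))))))))))))))))))))))))))))))))))))))))))))))))))))))))))))))))))))))))))))))))))))))))))))))))))))))))))))))))))))))))))))))))))))))))))))))))))))))))))))))))))))))))))))))))))))))))))))))))))))))))))))))))))))))))))))))))))))))))))))))))))))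
  | _ => false

set_option maxRecDepth 1000000 in
theorem chk0_eq (X : XOps) (p : Pm) (m : List X.O.α)
    (h : chk0 X.O.cst X.O.add X.O.sub X.O.mul X.O.scale X.O.neg X.O.inv X.O.exp X.O.log X.O.ok
      X.O.isPos X.O.isLt X.ball X.rball p m = true) :
    runX X 3 (prog0 p) m = true := by
  match m, h with
  | [x0, x1, x2, x3], h => exact h

noncomputable def chkB0 (p : Pm) : List opsE.O.α → Bool :=
  chk0 opsE.O.cst opsE.O.add opsE.O.sub opsE.O.mul opsE.O.scale opsE.O.neg opsE.O.inv opsE.O.exp opsE.O.log opsE.O.ok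
      opsE.O.isPos opsE.O.isLt opsE.ball opsE.rball p

theorem chkB0_eq (p : Pm) (m : List opsE.O.α) (h : chkB0 p m = true) : runX opsE 3 (prog0 p) m = true :=
  chk0_eq opsE p m h

end Pool.Agent.helper12.GP.FAQ
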