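import Pool.Agent.helper12.GP.LAP
import Pool.Agent.helper12.GP.Gt
import Pool.Agent.helper12.RS.NodeW
import Pool.Agent.helper12.RS.Tb
import Pool.Agent.helper12.RS.SerV
import Pool.Agent.helper12.RS.CirU
import Pool.Agent.helper12.RS.TbG

/-!
Generated: meaning of the parametric program.
-/

namespace Pool.Agent.helper12.GP.LA

open Complex Pool.Agent.helper12.RS Pool.Agent.helper20.EQR
open Pool.Agent.helper31.IA (Z)

set_option maxRecDepth 10000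

theorem spec_const (a b c d : Nat) {z : ℂ}
    (h : ((((a : ℝ) - b) / 2 ^ 40 : ℝ) : ℂ) + ((((c : ℝ) - d) / 2 ^ 40 : ℝ) : ℂ) * Complex.I = z) :
    z = (Z.mk a b c d).val := h.symm

theorem prog0_spec {p : Pm} {x0 x1 x2 x3 : ℂ}
    (h : Pool.Agent.helper31.IX.Asserts (prog0 p) [x0, x1, x2, x3])
    {v0 v1 v2 v3 v4 v5 v6 v7 v8 v9 v10 v11 v12 v13 v14 v15 v16 v17 v18 v19 v20 v21 v22 v23 v24 v25 v26 v27 v28 v29 v30 v31 v32 v33 v34 v35 v36 v37 v38 v39 v40 v41 v42 v43 v44 v45 v46 v47 v48 v49 v50 v51 v52 v53 v54 v55 v56 v57 v58 v59 v60 v61 v62 v63 v64 v65 v66 v67 v68 v69 v70 v71 v72 v73 v74 v75 v76 v77 v78 v79 v80 v81 v82 v83 v84 v85 v86 v87 v88 v89 v90 v91 v92 v93 v94 v95 v96 v97 v98 v99 v100 v101 v102 v103 v104 v105 v106 v107 v108 v109 v110 v111 v112 v113 v114 v115 v116 v117 v118 v119 v120 v121 v122 v123 v124 v125 v126 v127 v128 v129 v130 v131 v132 v133 v134 v135 v136 v137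 v138 v139 v140 v141 v142 v143 v144 v145 v146 v147 v148 v149 v150 v151 v152 v153 v154 v155 v156 v157 v158 v159 v160 v161 v162 v163 v164 v165 v166 v167 v168 v169 v170 v171 v172 v173 v174 v175 v176 v177 v178 v179 v180 v181 v182 v183 v184 v185 v186 v187 v188 v189 v190 v191 v192 v193 v194 v195 v196 v197 v198 v199 v200 v201 v202 v203 v204 v205 v206 v207 v208 v209 v210 v211 v212 v213 v214 v215 v216 v217 v218 v219 v220 v221 v222 v223 v224 v225 v226 v227 v228 v229 v230 v231 v232 v233 v234 v235 v236 v237 v238 v239 v240 v241 v242 v243 v244 v245 v246 v247 v248 v249 v250 v251 v252 v253 v254 v255 v256 v257 v258 v259 v260 v261 v262 v263 v264 v265 v266 v267 v268 v269 v270 v271 v272 v273 v274 v275 v276 v277 v278 v279 v280 v281 v282 v283 v284 v285 v286 v287 v288 v289 v290 v291 v292 v293 v294 v295 v296 v297 v298 v299 v300 v301 v302 v303 v304 v305 v306 v307 v308 v309 v310 v311 v312 v313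 v314 v315 v316 v317 v318 v319 v320 v321 v322 v323 v324 v325 v326 v327 v328 v329 v330 v331 v332 v333 v334 v335 v336 v337 v338 v339 v340 v341 v342 v343 v344 v345 v346 v347 v348 v349 v350 v351 v352 v353 v354 v355 v356 v357 v358 v359 v360 v361 v362 v363 v364 v365 v366 v367 v368 v369 v370 v371 v372 v373 v374 v375 v376 v377 v378 v379 v380 v381 v382 v383 v384 v385 v386 v387 v388 v389 v390 v391 v392 v393 v394 v395 v396 v397 v398 v399 v400 v401 v402 v403 v404 v405 v406 v407 v408 v409 v410 v411 v412 v413 v414 v415 v416 v417 v418 v419 v420 v421 v422 v423 v424 v425 v426 v427 v428 v429 v430 v431 v432 v433 v434 v435 v436 v437 v438 v439 v440 v441 v442 v443 v444 v445 v446 v447 v448 v449 v450 v451 v452 v453 v454 v455 v456 v457 v458 v459 v460 v461 v462 v463 v464 v465 v466 v467 v468 v469 v470 v471 v472 v473 v474 v475 v476 v477 v478 v479 v480 v481 v482 v483 v484 v485 v486 v487 v488 v489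 v490 v491 v492 v493 v494 v495 v496 v497 v498 v499 v500 v501 v502 v503 v504 v505 v506 v507 v508 v509 v510 v511 v512 v513 v514 v515 v516 v517 v518 v519 v520 v521 v522 v523 v524 v525 v526 v527 v528 v529 v530 v531 v532 v533 v534 v535 v536 v537 v538 v539 v540 v541 v542 v543 v544 v545 v546 v547 v548 v549 v550 v551 v552 v553 v554 v555 v556 v557 v558 v559 v560 v561 v562 v563 v564 v565 v566 v567 v568 v569 v570 v571 v572 v573 v574 v575 v576 v577 v578 v579 v580 v581 v582 v583 v584 v585 v586 v587 v588 v589 v590 v591 v592 v593 v594 v595 v596 v597 v598 v599 v600 v601 v602 v603 v604 v605 v606 v607 v608 v609 v610 v611 v612 v613 v614 v615 v616 v617 v618 v619 v620 v621 v622 v623 v624 v625 v626 v627 v628 v629 v630 v631 v632 v633 v634 v635 v636 v637 v638 v639 v640 v641 v642 v643 v644 v645 : ℂ}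
    (e0 : v0 = ((1 / 2) : ℂ) * x2)
    (e1 : v1 = (1 : ℂ))
    (e2 : v2 = x1 * v0)
    (e3 : v3 = v2 * x0)
    (e4 : v4 = x1 * x0)
    (e6 : v5 = ((45812984491 / 1099511627776) : ℂ))
    (e7 : v6 = v5 * v3)
    (e8 : v7 = ((183251937963 / 1099511627776) : ℂ))
    (e9 : v8 = v6 + v7)
    (e10 : v9 = v8 * v3)
    (e11 : v10 = ((1 / 2) : ℂ))
    (e12 : v11 = v9 + v10)
    (e13 : v12 = v11 * v3)
    (e14 : v13 = (1 : ℂ))
    (e15 : v14 = v12 + v13)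
    (e16 : ‖v3‖ < (91625968981 / 1099511627776) → ‖v15 - v14‖ ≤ (132561 / 274877906944))
    (e17 : v16 = -v3)
    (e19 : v17 = v5 * v16)
    (e20 : v18 = v17 + v7)
    (e21 : v19 = v18 * v16)
    (e22 : v20 = v19 + v10)
    (e23 : v21 = v20 * v16)
    (e24 : v22 = v21 + v13)
    (e25 : ‖v3‖ < (91625968981 / 1099511627776) → ‖v16‖ < (91625968981 / 1099511627776) → ‖v23 - v22‖ ≤ (132561 / 274877906944))
    (e26 : v24 = v15 + v23)
    (e27 : v25 = ((1 / 2) : ℂ) * v24)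
    (e28 : v26 = v15 - v23)
    (e29 : v27 = v3 * v26)
    (e30 : v28 = ((1 / 2) : ℂ) * v27)
    (e31 : v29 = v28 + v13)
    (e32 : v30 = v25 * v29)
    (e33 : v31 = v25 * v0)
    (e34 : v32 = v31 * v31)
    (e35 : v33 = (4 : ℂ) * v32)
    (e36 : v34 = v0 * v30)
    (e37 : v35 = (2 : ℂ) * v34)
    (e38 : v36 = v33 * v4)
    (e39 : v37 = ((1 / 2) : ℂ) * v36)
    (e40 : v38 = (2 : ℂ) * v2)
    (e41 : v39 = -v38)
    (e43 : v40 = ((218157069 / 1099511627776) : ℂ))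
    (e44 : v41 = v40 * v39)
    (e45 : v42 = ((1527099483 / 1099511627776) : ℂ))
    (e46 : v43 = v41 + v42)
    (e47 : v44 = v43 * v39)
    (e48 : v45 = ((4581298449 / 549755813888) : ℂ))
    (e49 : v46 = v44 + v45)
    (e50 : v47 = v46 * v39)
    (e51 : v48 = v47 + v5)
    (e52 : v49 = v48 * v39)
    (e53 : v50 = v49 + v7)
    (e54 : v51 = v50 * v39)
    (e55 : v52 = v51 + v10)
    (e56 : v53 = v52 * v39)
    (e57 : v54 = v53 + v13)
    (e58 : ‖v3‖ < (91625968981 / 1099511627776) → ‖v16‖ < (91625968981 / 1099511627776) → ‖v39‖ < 1 → ‖v55 - v54‖ ≤ (30678339 / 1099511627776))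
    (e59 : v56 = v0 * v55)
    (e60 : v57 = -v56)
    (e61 : v58 = x1 * v57)
    (e63 : v59 = ((78536544841 / 549755813888) : ℂ))
    (e64 : v60 = v59 * v58)
    (e65 : v61 = ((-183251937963 / 1099511627776) : ℂ))
    (e66 : v62 = v60 + v61)
    (e67 : v63 = v62 * v58)
    (e68 : v64 = ((219902325555 / 1099511627776) : ℂ))
    (e69 : v65 = v63 + v64)
    (e70 : v66 = v65 * v58)
    (e71 : v67 = ((-1 / 4) : ℂ))
    (e72 : v68 = v66 + v67)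
    (e73 : v69 = v68 * v58)
    (e74 : v70 = ((366503875925 / 1099511627776) : ℂ))
    (e75 : v71 = v69 + v70)
    (e76 : v72 = v71 * v58)
    (e77 : v73 = ((-1 / 2) : ℂ))
    (e78 : v74 = v72 + v73)
    (e79 : v75 = v74 * v58)
    (e80 : v76 = v75 + v13)
    (e81 : ‖v3‖ < (91625968981 / 1099511627776) → ‖v16‖ < (91625968981 / 1099511627776) → ‖v39‖ < 1 → ‖v58‖ < (1 / 4) → ‖v77 - v76‖ ≤ (2796203 / 274877906944))
    (e82 : v78 = v57 * v77)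
    (e83 : v79 = (p.ec).val)
    (e84 : v80 = (p.bc).val)
    (e85 : v81 = x0 - v79)
    (e86 : v82 = v2 - v80)
    (e87 : v83 = (2 : ℂ) * v3)
    (e88 : v84 = (p.nn).val)
    (e89 : v85 = (p.s11).val)
    (e90 : v86 = v85 * v82)
    (e91 : v87 = (p.s10).val)
    (e92 : v88 = v86 + v87)
    (e93 : v89 = v88 * v81)
    (e94 : v90 = (p.s03).val)
    (e95 : v91 = v90 * v82)
    (e96 : v92 = (p.s02).val)
    (e97 : v93 = v91 + v92)
    (e98 : v94 = v93 * v82)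
    (e99 : v95 = (p.s01).val)
    (e100 : v96 = v94 + v95)
    (e101 : v97 = v96 * v82)
    (e102 : v98 = (p.s00).val)
    (e103 : v99 = v97 + v98)
    (e104 : v100 = v89 + v99)
    (e105 : v101 = v84 * v83)
    (e106 : v102 = -v101)
    (e108 : v103 = v40 * v102)
    (e109 : v104 = v103 + v42)
    (e110 : v105 = v104 * v102)
    (e111 : v106 = v105 + v45)
    (e112 : v107 = v106 * v102)
    (e113 : v108 = v107 + v5)
    (e114 : v109 = v108 * v102)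
    (e115 : v110 = v109 + v7)
    (e116 : v111 = v110 * v102)
    (e117 : v112 = v111 + v10)
    (e118 : v113 = v112 * v102)
    (e119 : v114 = v113 + v13)
    (e120 : ‖v3‖ < (91625968981 / 1099511627776) → ‖v16‖ < (91625968981 / 1099511627776) → ‖v39‖ < 1 → ‖v58‖ < (1 / 4) → ‖v102‖ < 1 → ‖v115 - v114‖ ≤ (30678339 / 1099511627776))
    (e121 : v116 = v101 * v115)
    (e122 : v117 = v13 - v116)
    (e123 : v118 = (2 : ℂ))
    (e124 : v119 = v118 - v116)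
    (e125 : v120 = v115 * v119)
    (e126 : v121 = v84 * v120)
    (e127 : v122 = v30 * v100)
    (e128 : v123 = v117 * v117)
    (e129 : v124 = v122 * v123)
    (e130 : v125 = v121 - v124)
    (e131 : v126 = v83 * v125)
    (e132 : v127 = v118 - v126)
    (e133 : v128 = v0 * v0)
    (e134 : v129 = v30 * v125)
    (e135 : v130 = v128 * v129)
    (e136 : v131 = v4 * v130)
    (e137 : v132 = (4 : ℂ) * v131)
    (e138 : v133 = v1 * v127)
    (e139 : v134 = (1 * Complex.I : ℂ) * v133)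
    (e140 : v135 = v132 + v134)
    (e141 : v136 = v127 * v30)
    (e142 : v137 = v4 * v1)
    (e143 : v138 = v137 * v125)
    (e144 : v139 = (1 * Complex.I : ℂ) * v138)
    (e145 : v140 = v136 + v139)
    (e146 : v141 = v30 * v135)
    (e147 : v142 = (v140)⁻¹)
    (e148 : v143 = v141 * v142)
    (e149 : v144 = v37 + v143)
    (e150 : v145 = v4 * v144)
    (e151 : v146 = v145 + v13)
    (e152 : v147 = (v146)⁻¹)
    (e153 : v148 = v144 * v147)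
    (e154 : v149 = v147 + v13)
    (e155 : v150 = v148 * v149)
    (e156 : v151 = x1 * v150)
    (e157 : v152 = -v83)
    (e158 : v153 = Complex.exp v152)
    (e159 : v154 = (p.h400).val)
    (e160 : v155 = v154 * v151)
    (e161 : v156 = (p.h300).val)
    (e162 : v157 = v155 + v156)
    (e163 : v158 = v157 * v151)
    (e164 : v159 = (p.h210).val)
    (e165 : v160 = v159 * v81)
    (e166 : v161 = (p.h201).val)
    (e167 : v162 = v161 * v82)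
    (e168 : v163 = (p.h200).val)
    (e169 : v164 = v162 + v163)
    (e170 : v165 = v160 + v164)
    (e171 : v166 = v158 + v165)
    (e172 : v167 = v166 * v151)
    (e173 : v168 = (p.h120).val)
    (e174 : v169 = v168 * v81)
    (e175 : v170 = (p.h111).val)
    (e176 : v171 = v170 * v82)
    (e177 : v172 = (p.h110).val)
    (e178 : v173 = v171 + v172)
    (e179 : v174 = v169 + v173)
    (e180 : v175 = v174 * v81)
    (e181 : v176 = (p.h102).val)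
    (e182 : v177 = v176 * v82)
    (e183 : v178 = (p.h101).val)
    (e184 : v179 = v177 + v178)
    (e185 : v180 = v179 * v82)
    (e186 : v181 = (p.h100).val)
    (e187 : v182 = v180 + v181)
    (e188 : v183 = v175 + v182)
    (e189 : v184 = v167 + v183)
    (e190 : v185 = v184 * v151)
    (e191 : v186 = (p.h030).val)
    (e192 : v187 = v186 * v81)
    (e193 : v188 = (p.h021).val)
    (e194 : v189 = v188 * v82)
    (e195 : v190 = (p.h020).val)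
    (e196 : v191 = v189 + v190)
    (e197 : v192 = v187 + v191)
    (e198 : v193 = v192 * v81)
    (e199 : v194 = (p.h012).val)
    (e200 : v195 = v194 * v82)
    (e201 : v196 = (p.h011).val)
    (e202 : v197 = v195 + v196)
    (e203 : v198 = v197 * v82)
    (e204 : v199 = (p.h010).val)
    (e205 : v200 = v198 + v199)
    (e206 : v201 = v193 + v200)
    (e207 : v202 = v201 * v81)
    (e208 : v203 = (p.h003).val)
    (e209 : v204 = v203 * v82)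
    (e210 : v205 = (p.h002).val)
    (e211 : v206 = v204 + v205)
    (e212 : v207 = v206 * v82)
    (e213 : v208 = (p.h001).val)
    (e214 : v209 = v207 + v208)
    (e215 : v210 = v209 * v82)
    (e216 : v211 = (p.h000).val)
    (e217 : v212 = v210 + v211)
    (e218 : v213 = v202 + v212)
    (e219 : v214 = v185 + v213)
    (e220 : v215 = (2 : ℂ) * v0)
    (e221 : v216 = v143 - v35)
    (e222 : v217 = v153 + v147)
    (e223 : v218 = v153 * v217)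
    (e224 : v219 = v147 * v218)
    (e225 : v220 = v216 * v219)
    (e226 : v221 = v214 + v10)
    (e227 : v222 = v220 * v221)
    (e228 : v223 = v215 + v222)
    (e229 : v224 = (p.a11).val)
    (e230 : v225 = v224 * v82)
    (e231 : v226 = (p.a10).val)
    (e232 : v227 = v225 + v226)
    (e233 : v228 = v227 * v81)
    (e234 : v229 = (p.a03).val)
    (e235 : v230 = v229 * v82)
    (e236 : v231 = (p.a02).val)
    (e237 : v232 = v230 + v231)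
    (e238 : v233 = v232 * v82)
    (e239 : v234 = (p.a01).val)
    (e240 : v235 = v233 + v234)
    (e241 : v236 = v235 * v82)
    (e242 : v237 = (p.a00).val)
    (e243 : v238 = v236 + v237)
    (e244 : v239 = v228 + v238)
    (e245 : v240 = (2 : ℂ) * v239)
    (e246 : v241 = (p.ca).val)
    (e247 : v242 = v143 + v35)
    (e248 : v243 = v240 * v242)
    (e249 : v244 = x1 * v143)
    (e250 : v245 = v241 * v244)
    (e251 : v246 = v245 + v13)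
    (e252 : v247 = (v246)⁻¹)
    (e253 : v248 = v243 * v247)
    (e254 : v249 = x1 * v223)
    (e255 : v250 = -v249)
    (e257 : v251 = v40 * v250)
    (e258 : v252 = v251 + v42)
    (e259 : v253 = v252 * v250)
    (e260 : v254 = v253 + v45)
    (e261 : v255 = v254 * v250)
    (e262 : v256 = v255 + v5)
    (e263 : v257 = v256 * v250)
    (e264 : v258 = v257 + v7)
    (e265 : v259 = v258 * v250)
    (e266 : v260 = v259 + v10)
    (e267 : v261 = v260 * v250)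
    (e268 : v262 = v261 + v13)
    (e269 : ‖v3‖ < (91625968981 / 1099511627776) → ‖v16‖ < (91625968981 / 1099511627776) → ‖v39‖ < 1 → ‖v58‖ < (1 / 4) → ‖v102‖ < 1 → v140 ≠ 0 → v146 ≠ 0 → v246 ≠ 0 → ‖v250‖ < 1 → ‖v263 - v262‖ ≤ (30678339 / 1099511627776))
    (e270 : v264 = v223 * v263)
    (e271 : v265 = ((-1 / 2) : ℂ) * v264)
    (e272 : v266 = x1 * v265)
    (e273 : v267 = (2 : ℂ) * v266)
    (e274 : v268 = v267 + v13)
    (e276 : v269 = ((61083979321 / 549755813888) : ℂ))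
    (e277 : v270 = v269 * v266)
    (e278 : v271 = ((-1 / 8) : ℂ))
    (e279 : v272 = v270 + v271)
    (e280 : v273 = v272 * v266)
    (e281 : v274 = v273 + v59)
    (e282 : v275 = v274 * v266)
    (e283 : v276 = v275 + v61)
    (e284 : v277 = v276 * v266)
    (e285 : v278 = v277 + v64)
    (e286 : v279 = v278 * v266)
    (e287 : v280 = v279 + v67)
    (e288 : v281 = v280 * v266)
    (e289 : v282 = v281 + v70)
    (e290 : v283 = v282 * v266)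
    (e291 : v284 = v283 + v73)
    (e292 : v285 = v284 * v266)
    (e293 : v286 = v285 + v13)
    (e294 : ‖v3‖ < (91625968981 / 1099511627776) → ‖v16‖ < (91625968981 / 1099511627776) → ‖v39‖ < 1 → ‖v58‖ < (1 / 4) → ‖v102‖ < 1 → v140 ≠ 0 → v146 ≠ 0 → v246 ≠ 0 → ‖v250‖ < 1 → ‖v266‖ < (3 / 8) → ‖v287 - v286‖ ≤ (3224863 / 137438953472))
    (e295 : v288 = v265 * v287)
    (e296 : v289 = v248 * x3)
    (e297 : v290 = v268 * v289)
    (e298 : v291 = x1 * v290)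
    (e300 : v292 = v269 * v291)
    (e301 : v293 = v292 + v271)
    (e302 : v294 = v293 * v291)
    (e303 : v295 = v294 + v59)
    (e304 : v296 = v295 * v291)
    (e305 : v297 = v296 + v61)
    (e306 : v298 = v297 * v291)
    (e307 : v299 = v298 + v64)
    (e308 : v300 = v299 * v291)
    (e309 : v301 = v300 + v67)
    (e310 : v302 = v301 * v291)
    (e311 : v303 = v302 + v70)
    (e312 : v304 = v303 * v291)
    (e313 : v305 = v304 + v73)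
    (e314 : v306 = v305 * v291)
    (e315 : v307 = v306 + v13)
    (e316 : ‖v3‖ < (91625968981 / 1099511627776) → ‖v16‖ < (91625968981 / 1099511627776) → ‖v39‖ < 1 → ‖v58‖ < (1 / 4) → ‖v102‖ < 1 → v140 ≠ 0 → v146 ≠ 0 → v246 ≠ 0 → ‖v250‖ < 1 → ‖v266‖ < (3 / 8) → ‖v291‖ < (3 / 8) → ‖v308 - v307‖ ≤ (3224863 / 137438953472))
    (e317 : v309 = v290 * v308)
    (e318 : v310 = x1 * v289)
    (e319 : v311 = -v310)
    (e321 : v312 = v269 * v311)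
    (e322 : v313 = v312 + v271)
    (e323 : v314 = v313 * v311)
    (e324 : v315 = v314 + v59)
    (e325 : v316 = v315 * v311)
    (e326 : v317 = v316 + v61)
    (e327 : v318 = v317 * v311)
    (e328 : v319 = v318 + v64)
    (e329 : v320 = v319 * v311)
    (e330 : v321 = v320 + v67)
    (e331 : v322 = v321 * v311)
    (e332 : v323 = v322 + v70)
    (e333 : v324 = v323 * v311)
    (e334 : v325 = v324 + v73)
    (e335 : v326 = v325 * v311)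
    (e336 : v327 = v326 + v13)
    (e337 : ‖v3‖ < (91625968981 / 1099511627776) → ‖v16‖ < (91625968981 / 1099511627776) → ‖v39‖ < 1 → ‖v58‖ < (1 / 4) → ‖v102‖ < 1 → v140 ≠ 0 → v146 ≠ 0 → v246 ≠ 0 → ‖v250‖ < 1 → ‖v266‖ < (3 / 8) → ‖v291‖ < (3 / 8) → ‖v311‖ < (3 / 8) → ‖v328 - v327‖ ≤ (3224863 / 137438953472))
    (e338 : v329 = v289 * v328)
    (e339 : v330 = -v329)
    (e340 : v331 = v309 - v330)
    (e341 : v332 = v331 + v223)
    (e342 : v333 = v0 + v78)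
    (e343 : v334 = v333 + v330)
    (e344 : v335 = v334 - v223)
    (e345 : v336 = v335 - v288)
    (e346 : v337 = v4 * v332)
    (e348 : v338 = v5 * v337)
    (e349 : v339 = v338 + v7)
    (e350 : v340 = v339 * v337)
    (e351 : v341 = v340 + v10)
    (e352 : v342 = v341 * v337)
    (e353 : v343 = v342 + v13)
    (e354 : ‖v3‖ < (91625968981 / 1099511627776) → ‖v16‖ < (91625968981 / 1099511627776) → ‖v39‖ < 1 → ‖v58‖ < (1 / 4) → ‖v102‖ < 1 → v140 ≠ 0 → v146 ≠ 0 → v246 ≠ 0 → ‖v250‖ < 1 → ‖v266‖ < (3 / 8) → ‖v291‖ < (3 / 8) → ‖v311‖ < (3 / 8) → ‖v337‖ < (1 / 4) → ‖v344 - v343‖ ≤ (21474837 / 549755813888))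
    (e355 : v345 = v332 * v344)
    (e356 : v346 = v4 * v345)
    (e357 : v347 = v346 + v13)
    (e358 : v348 = (2 : ℂ) * v336)
    (e359 : v349 = v348 + v332)
    (e360 : v350 = v4 * v349)
    (e361 : v351 = -v350)
    (e363 : v352 = v5 * v351)
    (e364 : v353 = v352 + v7)
    (e365 : v354 = v353 * v351)
    (e366 : v355 = v354 + v10)
    (e367 : v356 = v355 * v351)
    (e368 : v357 = v356 + v13)
    (e369 : ‖v3‖ < (91625968981 / 1099511627776) → ‖v16‖ < (91625968981 / 1099511627776) → ‖v39‖ < 1 → ‖v58‖ < (1 / 4) → ‖v102‖ < 1 → v140 ≠ 0 → v146 ≠ 0 → v246 ≠ 0 → ‖v250‖ < 1 → ‖v266‖ < (3 / 8) → ‖v291‖ < (3 / 8) → ‖v311‖ < (3 / 8) → ‖v337‖ < (1 / 4) → ‖v351‖ < (1 / 4) → ‖v358 - v357‖ ≤ (21474837 / 549755813888))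
    (e370 : v359 = v351 * v358)
    (e371 : v360 = v359 + v13)
    (e372 : v361 = v347 + v13)
    (e373 : v362 = v33 * v360)
    (e374 : v363 = v362 * v361)
    (e375 : v364 = v4 * v363)
    (e376 : v365 = v150 * v347)
    (e377 : v366 = v364 + v365)
    (e378 : v367 = v4 * v366)
    (e380 : v368 = v269 * v367)
    (e381 : v369 = v368 + v271)
    (e382 : v370 = v369 * v367)
    (e383 : v371 = v370 + v59)
    (e384 : v372 = v371 * v367)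
    (e385 : v373 = v372 + v61)
    (e386 : v374 = v373 * v367)
    (e387 : v375 = v374 + v64)
    (e388 : v376 = v375 * v367)
    (e389 : v377 = v376 + v67)
    (e390 : v378 = v377 * v367)
    (e391 : v379 = v378 + v70)
    (e392 : v380 = v379 * v367)
    (e393 : v381 = v380 + v73)
    (e394 : v382 = v381 * v367)
    (e395 : v383 = v382 + v13)
    (e396 : ‖v3‖ < (91625968981 / 1099511627776) → ‖v16‖ < (91625968981 / 1099511627776) → ‖v39‖ < 1 → ‖v58‖ < (1 / 4) → ‖v102‖ < 1 → v140 ≠ 0 → v146 ≠ 0 → v246 ≠ 0 → ‖v250‖ < 1 → ‖v266‖ < (3 / 8) → ‖v291‖ < (3 / 8) → ‖v311‖ < (3 / 8) → ‖v337‖ < (1 / 4) → ‖v351‖ < (1 / 4) → ‖v367‖ < (3 / 8) → ‖v384 - v383‖ ≤ (3224863 / 137438953472))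
    (e397 : v385 = v366 * v384)
    (e398 : v386 = v4 * v385)
    (e399 : v387 = ((1 / 2) : ℂ) * v386)
    (e401 : v388 = v5 * v387)
    (e402 : v389 = v388 + v7)
    (e403 : v390 = v389 * v387)
    (e404 : v391 = v390 + v10)
    (e405 : v392 = v391 * v387)
    (e406 : v393 = v392 + v13)
    (e407 : ‖v3‖ < (91625968981 / 1099511627776) → ‖v16‖ < (91625968981 / 1099511627776) → ‖v39‖ < 1 → ‖v58‖ < (1 / 4) → ‖v102‖ < 1 → v140 ≠ 0 → v146 ≠ 0 → v246 ≠ 0 → ‖v250‖ < 1 → ‖v266‖ < (3 / 8) → ‖v291‖ < (3 / 8) → ‖v311‖ < (3 / 8) → ‖v337‖ < (1 / 4) → ‖v351‖ < (1 / 4) → ‖v367‖ < (3 / 8) → ‖v387‖ < (1 / 4) → ‖v394 - v393‖ ≤ (21474837 / 549755813888))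
    (e408 : v395 = v387 * v394)
    (e409 : v396 = v37 + v148)
    (e410 : v397 = v345 * v149)
    (e411 : v398 = (2 : ℂ) * v396)
    (e412 : v399 = v397 - v398)
    (e413 : v400 = v4 * v148)
    (e414 : v401 = v345 * v400)
    (e415 : v402 = v349 * v358)
    (e416 : v403 = v402 * v361)
    (e417 : v404 = (2 : ℂ) * v403)
    (e418 : v405 = v401 - v404)
    (e419 : v406 = (2 : ℂ) * v37)
    (e420 : v407 = v405 - v406)
    (e421 : v408 = v396 * v399)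
    (e422 : v409 = v37 * v407)
    (e423 : v410 = v408 + v409)
    (e424 : v411 = v37 + v396)
    (e425 : v412 = v4 * v411)
    (e426 : v413 = v412 + v118)
    (e427 : v414 = v395 + v413)
    (e428 : v415 = (v414)⁻¹)
    (e429 : v416 = v410 * v415)
    (e430 : v417 = v4 * v416)
    (e431 : v418 = v396 + v417)
    (e432 : v419 = (p.t11).val)
    (e433 : v420 = v419 * v82)
    (e434 : v421 = (p.t10).val)
    (e435 : v422 = v420 + v421)
    (e436 : v423 = v422 * v81)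
    (e437 : v424 = (p.t03).val)
    (e438 : v425 = v424 * v82)
    (e439 : v426 = (p.t02).val)
    (e440 : v427 = v425 + v426)
    (e441 : v428 = v427 * v82)
    (e442 : v429 = (p.t01).val)
    (e443 : v430 = v428 + v429)
    (e444 : v431 = v430 * v82)
    (e445 : v432 = (p.t00).val)
    (e446 : v433 = v431 + v432)
    (e447 : v434 = v423 + v433)
    (e449 : v435 = (p.tj).val)
    (e450 : v436 = v435 * v83)
    (e451 : v437 = -v436)
    (e452 : v438 = Complex.exp v437)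
    (e453 : v439 = v434 * v438)
    (e454 : v440 = x1 * v418)
    (e455 : v441 = (p.m300).val)
    (e456 : v442 = v441 * v151)
    (e457 : v443 = (p.m200).val)
    (e458 : v444 = v442 + v443)
    (e459 : v445 = v444 * v151)
    (e460 : v446 = (p.m110).val)
    (e461 : v447 = v446 * v81)
    (e462 : v448 = (p.m101).val)
    (e463 : v449 = v448 * v82)
    (e464 : v450 = (p.m100).val)
    (e465 : v451 = v449 + v450)
    (e466 : v452 = v447 + v451)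
    (e467 : v453 = v445 + v452)
    (e468 : v454 = v453 * v151)
    (e469 : v455 = (p.m010).val)
    (e470 : v456 = v455 * v81)
    (e471 : v457 = (p.m002).val)
    (e472 : v458 = v457 * v82)
    (e473 : v459 = (p.m001).val)
    (e474 : v460 = v458 + v459)
    (e475 : v461 = v460 * v82)
    (e476 : v462 = (p.m000).val)
    (e477 : v463 = v461 + v462)
    (e478 : v464 = v456 + v463)
    (e479 : v465 = v454 + v464)
    (e481 : v466 = (p.ax).val)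
    (e482 : v467 = v466 * x0)
    (e483 : v468 = (p.ay).val)
    (e484 : v469 = v467 + v468)
    (e485 : v470 = (p.xa).val)
    (e486 : v471 = (p.C2).val)
    (e487 : v472 = v395 + v13)
    (e488 : v473 = (v472)⁻¹)
    (e489 : v474 = v37 + v418)
    (e490 : v475 = v474 * v473)
    (e491 : v476 = v406 + v475)
    (e492 : v477 = v4 * v476)
    (e494 : v478 = v59 * v477)
    (e495 : v479 = v478 + v61)
    (e496 : v480 = v479 * v477)
    (e497 : v481 = v480 + v64)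
    (e498 : v482 = v481 * v477)
    (e499 : v483 = v482 + v67)
    (e500 : v484 = v483 * v477)
    (e501 : v485 = v484 + v70)
    (e502 : v486 = v485 * v477)
    (e503 : v487 = v486 + v73)
    (e504 : v488 = v487 * v477)
    (e505 : v489 = v488 + v13)
    (e506 : ‖v3‖ < (91625968981 / 1099511627776) → ‖v16‖ < (91625968981 / 1099511627776) → ‖v39‖ < 1 → ‖v58‖ < (1 / 4) → ‖v102‖ < 1 → v140 ≠ 0 → v146 ≠ 0 → v246 ≠ 0 → ‖v250‖ < 1 → ‖v266‖ < (3 / 8) → ‖v291‖ < (3 / 8) → ‖v311‖ < (3 / 8) → ‖v337‖ < (1 / 4) → ‖v351‖ < (1 / 4) → ‖v367‖ < (3 / 8) → ‖v387‖ < (1 / 4) → v414 ≠ 0 → ‖v434‖ < 2 → 0 < (v465).re → v472 ≠ 0 → ‖v477‖ < (1 / 4) → ‖v490 - v489‖ ≤ (2796203 / 274877906944))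
    (e507 : v491 = v476 * v490)
    (e508 : v492 = v477 + v13)
    (e509 : v493 = (v492)⁻¹)
    (e510 : v494 = v476 * v493)
    (e511 : v495 = v406 + v494)
    (e512 : v496 = v4 * v495)
    (e514 : v497 = v59 * v496)
    (e515 : v498 = v497 + v61)
    (e516 : v499 = v498 * v496)
    (e517 : v500 = v499 + v64)
    (e518 : v501 = v500 * v496)
    (e519 : v502 = v501 + v67)
    (e520 : v503 = v502 * v496)
    (e521 : v504 = v503 + v70)
    (e522 : v505 = v504 * v496)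
    (e523 : v506 = v505 + v73)
    (e524 : v507 = v506 * v496)
    (e525 : v508 = v507 + v13)
    (e526 : ‖v3‖ < (91625968981 / 1099511627776) → ‖v16‖ < (91625968981 / 1099511627776) → ‖v39‖ < 1 → ‖v58‖ < (1 / 4) → ‖v102‖ < 1 → v140 ≠ 0 → v146 ≠ 0 → v246 ≠ 0 → ‖v250‖ < 1 → ‖v266‖ < (3 / 8) → ‖v291‖ < (3 / 8) → ‖v311‖ < (3 / 8) → ‖v337‖ < (1 / 4) → ‖v351‖ < (1 / 4) → ‖v367‖ < (3 / 8) → ‖v387‖ < (1 / 4) → v414 ≠ 0 → ‖v434‖ < 2 → 0 < (v465).re → v472 ≠ 0 → ‖v477‖ < (1 / 4) → v492 ≠ 0 → ‖v496‖ < (1 / 4) → ‖v509 - v508‖ ≤ (2796203 / 274877906944))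
    (e527 : v510 = v495 * v509)
    (e528 : v511 = x1 * v491)
    (e529 : v512 = -v511)
    (e530 : v513 = x1 * v510)
    (e531 : v514 = -v513)
    (e533 : v515 = v40 * v512)
    (e534 : v516 = v515 + v42)
    (e535 : v517 = v516 * v512)
    (e536 : v518 = v517 + v45)
    (e537 : v519 = v518 * v512)
    (e538 : v520 = v519 + v5)
    (e539 : v521 = v520 * v512)
    (e540 : v522 = v521 + v7)
    (e541 : v523 = v522 * v512)
    (e542 : v524 = v523 + v10)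
    (e543 : v525 = v524 * v512)
    (e544 : v526 = v525 + v13)
    (e545 : ‖v3‖ < (91625968981 / 1099511627776) → ‖v16‖ < (91625968981 / 1099511627776) → ‖v39‖ < 1 → ‖v58‖ < (1 / 4) → ‖v102‖ < 1 → v140 ≠ 0 → v146 ≠ 0 → v246 ≠ 0 → ‖v250‖ < 1 → ‖v266‖ < (3 / 8) → ‖v291‖ < (3 / 8) → ‖v311‖ < (3 / 8) → ‖v337‖ < (1 / 4) → ‖v351‖ < (1 / 4) → ‖v367‖ < (3 / 8) → ‖v387‖ < (1 / 4) → v414 ≠ 0 → ‖v434‖ < 2 → 0 < (v465).re → v472 ≠ 0 → ‖v477‖ < (1 / 4) → v492 ≠ 0 → ‖v496‖ < (1 / 4) → ‖v512‖ < 1 → ‖v527 - v526‖ ≤ (30678339 / 1099511627776))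
    (e546 : v528 = v491 * v527)
    (e548 : v529 = v40 * v514)
    (e549 : v530 = v529 + v42)
    (e550 : v531 = v530 * v514)
    (e551 : v532 = v531 + v45)
    (e552 : v533 = v532 * v514)
    (e553 : v534 = v533 + v5)
    (e554 : v535 = v534 * v514)
    (e555 : v536 = v535 + v7)
    (e556 : v537 = v536 * v514)
    (e557 : v538 = v537 + v10)
    (e558 : v539 = v538 * v514)
    (e559 : v540 = v539 + v13)
    (e560 : ‖v3‖ < (91625968981 / 1099511627776) → ‖v16‖ < (91625968981 / 1099511627776) → ‖v39‖ < 1 → ‖v58‖ < (1 / 4) → ‖v102‖ < 1 → v140 ≠ 0 → v146 ≠ 0 → v246 ≠ 0 → ‖v250‖ < 1 → ‖v266‖ < (3 / 8) → ‖v291‖ < (3 / 8) → ‖v311‖ < (3 / 8) → ‖v337‖ < (1 / 4) → ‖v351‖ < (1 / 4) → ‖v367‖ < (3 / 8) → ‖v387‖ < (1 / 4) → v414 ≠ 0 → ‖v434‖ < 2 → 0 < (v465).re → v472 ≠ 0 → ‖v477‖ < (1 / 4) → v492 ≠ 0 → ‖v496‖ < (1 / 4) → ‖v512‖ < 1 → ‖v514‖ < 1 → ‖v541 - v540‖ ≤ (30678339 / 1099511627776))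
    (e561 : v542 = v510 * v541)
    (e562 : v543 = x1 * v542)
    (e563 : v544 = v13 - v543)
    (e564 : v545 = v544 + v13)
    (e565 : v546 = (v545)⁻¹)
    (e566 : v547 = v544 * v546)
    (e568 : v548 = v542 * v546)
    (e569 : v549 = ((1 / 2) : ℂ) * v548)
    (e570 : v550 = v495 - v37)
    (e571 : v551 = v550 * v550)
    (e572 : v552 = v35 * v35)
    (e573 : v553 = v551 - v552)
    (e574 : v554 = v4 * v553)
    (e575 : v555 = v546 * v546)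
    (e576 : v556 = v546 * v555)
    (e577 : v557 = v544 * v556)
    (e578 : v558 = v554 * v557)
    (e579 : v559 = v558 * v471)
    (e580 : ‖v3‖ < (91625968981 / 1099511627776) → ‖v16‖ < (91625968981 / 1099511627776) → ‖v39‖ < 1 → ‖v58‖ < (1 / 4) → ‖v102‖ < 1 → v140 ≠ 0 → v146 ≠ 0 → v246 ≠ 0 → ‖v250‖ < 1 → ‖v266‖ < (3 / 8) → ‖v291‖ < (3 / 8) → ‖v311‖ < (3 / 8) → ‖v337‖ < (1 / 4) → ‖v351‖ < (1 / 4) → ‖v367‖ < (3 / 8) → ‖v387‖ < (1 / 4) → v414 ≠ 0 → ‖v434‖ < 2 → 0 < (v465).re → v472 ≠ 0 → ‖v477‖ < (1 / 4) → v492 ≠ 0 → ‖v496‖ < (1 / 4) → ‖v512‖ < 1 → ‖v514‖ < 1 → v545 ≠ 0 → ‖v547‖ < ((p.B1 : ℕ) : ℝ) / 2 ^ 40 → ‖v560 - v549‖ ≤ ‖v559‖)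
    (e581 : v561 = (2 : ℂ) * v560)
    (e582 : v562 = v528 - v561)
    (e583 : v563 = v528 * v560)
    (e584 : v564 = x1 * v563)
    (e585 : v565 = (2 : ℂ) * v564)
    (e586 : v566 = v562 + v565)
    (e587 : v567 = v470 + v13)
    (e588 : v568 = v83 * v567)
    (e590 : v569 = v40 * v568)
    (e591 : v570 = v569 + v42)
    (e592 : v571 = v570 * v568)
    (e593 : v572 = v571 + v45)
    (e594 : v573 = v572 * v568)
    (e595 : v574 = v573 + v5)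
    (e596 : v575 = v574 * v568)
    (e597 : v576 = v575 + v7)
    (e598 : v577 = v576 * v568)
    (e599 : v578 = v577 + v10)
    (e600 : v579 = v578 * v568)
    (e601 : v580 = v579 + v13)
    (e602 : ‖v3‖ < (91625968981 / 1099511627776) → ‖v16‖ < (91625968981 / 1099511627776) → ‖v39‖ < 1 → ‖v58‖ < (1 / 4) → ‖v102‖ < 1 → v140 ≠ 0 → v146 ≠ 0 → v246 ≠ 0 → ‖v250‖ < 1 → ‖v266‖ < (3 / 8) → ‖v291‖ < (3 / 8) → ‖v311‖ < (3 / 8) → ‖v337‖ < (1 / 4) → ‖v351‖ < (1 / 4) → ‖v367‖ < (3 / 8) → ‖v387‖ < (1 / 4) → v414 ≠ 0 → ‖v434‖ < 2 → 0 < (v465).re → v472 ≠ 0 → ‖v477‖ < (1 / 4) → v492 ≠ 0 → ‖v496‖ < (1 / 4) → ‖v512‖ < 1 → ‖v514‖ < 1 → v545 ≠ 0 → ‖v547‖ < ((p.B1 : ℕ) : ℝ) / 2 ^ 40 → ‖v568‖ < 1 → ‖v581 - v580‖ ≤ (30678339 / 1099511627776))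
    (e603 : v582 = -v568)
    (e605 : v583 = v40 * v582)
    (e606 : v584 = v583 + v42)
    (e607 : v585 = v584 * v582)
    (e608 : v586 = v585 + v45)
    (e609 : v587 = v586 * v582)
    (e610 : v588 = v587 + v5)
    (e611 : v589 = v588 * v582)
    (e612 : v590 = v589 + v7)
    (e613 : v591 = v590 * v582)
    (e614 : v592 = v591 + v10)
    (e615 : v593 = v592 * v582)
    (e616 : v594 = v593 + v13)
    (e617 : ‖v3‖ < (91625968981 / 1099511627776) → ‖v16‖ < (91625968981 / 1099511627776) → ‖v39‖ < 1 → ‖v58‖ < (1 / 4) → ‖v102‖ < 1 → v140 ≠ 0 → v146 ≠ 0 → v246 ≠ 0 → ‖v250‖ < 1 → ‖v266‖ < (3 / 8) → ‖v291‖ < (3 / 8) → ‖v311‖ < (3 / 8) → ‖v337‖ < (1 / 4) → ‖v351‖ < (1 / 4) → ‖v367‖ < (3 / 8) → ‖v387‖ < (1 / 4) → v414 ≠ 0 → ‖v434‖ < 2 → 0 < (v465).re → v472 ≠ 0 → ‖v477‖ < (1 / 4) → v492 ≠ 0 → ‖v496‖ < (1 / 4) → ‖v512‖ < 1 → ‖v514‖ < 1 → v545 ≠ 0 → ‖v547‖ < ((p.B1 : ℕ) : ℝ) /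 2 ^ 40 → ‖v568‖ < 1 → ‖v582‖ < 1 → ‖v595 - v594‖ ≤ (30678339 / 1099511627776))
    (e618 : v596 = v581 + v595)
    (e619 : v597 = ((1 / 2) : ℂ) * v596)
    (e620 : v598 = v83 * v470)
    (e621 : v599 = -v598)
    (e622 : v600 = Complex.exp v599)
    (e623 : v601 = v469 * v30)
    (e624 : v602 = v597 * v567)
    (e625 : v603 = (v602)⁻¹)
    (e626 : v604 = v600 * v603)
    (e627 : v605 = v601 * v604)
    (e628 : v606 = v418 + v35)
    (e629 : v607 = v606 * v473)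
    (e630 : v608 = v605 * v607)
    (e631 : v609 = ((1 / 2) : ℂ) * v385)
    (e632 : v610 = v609 - v223)
    (e633 : v611 = v610 - v288)
    (e634 : v612 = x1 * v611)
    (e635 : v613 = -v612)
    (e637 : v614 = v5 * v613)
    (e638 : v615 = v614 + v7)
    (e639 : v616 = v615 * v613)
    (e640 : v617 = v616 + v10)
    (e641 : v618 = v617 * v613)
    (e642 : v619 = v618 + v13)
    (e643 : ‖v3‖ < (91625968981 / 1099511627776) → ‖v16‖ < (91625968981 / 1099511627776) → ‖v39‖ < 1 → ‖v58‖ < (1 / 4) → ‖v102‖ < 1 → v140 ≠ 0 → v146 ≠ 0 → v246 ≠ 0 → ‖v250‖ < 1 → ‖v266‖ < (3 / 8) → ‖v291‖ < (3 / 8) → ‖v311‖ < (3 / 8) → ‖v337‖ < (1 / 4) → ‖v351‖ < (1 / 4) → ‖v367‖ < (3 / 8) → ‖v387‖ < (1 / 4) → v414 ≠ 0 → ‖v434‖ < 2 → 0 < (v465).re → v472 ≠ 0 → ‖v477‖ < (1 / 4) → v492 ≠ 0 → ‖v496‖ < (1 / 4) → ‖v512‖ < 1 → ‖v514‖ < 1 → v545 ≠ 0 → ‖v547‖ < ((p.B1 : ℕ) : ℝ) / 2 ^ 40 → ‖v568‖ < 1 →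 ‖v582‖ < 1 → v602 ≠ 0 → ‖v613‖ < (1 / 4) → ‖v620 - v619‖ ≤ (21474837 / 549755813888))
    (e644 : v621 = v613 * v620)
    (e645 : v622 = v621 + v13)
    (e646 : v623 = (v248)⁻¹)
    (e647 : v624 = v611 * v620)
    (e648 : v625 = v622 * v566)
    (e649 : v626 = v624 - v625)
    (e650 : v627 = v626 * v623)
    (e651 : v628 = x3 - v627)
    (e652 : v629 = v465 * v628)
    (e653 : v630 = x3 - v629)
    (e654 : v631 = x1 * v566)
    (e655 : v632 = v13 - v631)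
    (e656 : v633 = v608 * v623)
    (e657 : v634 = v632 * v633)
    (e658 : v635 = v622 * v634)
    (e659 : v636 = v465 * v635)
    (e661 : v637 = v35 + v418)
    (e662 : v638 = v35 + v396)
    (e663 : v639 = v637 * v638)
    (e664 : v640 = v639 * v439)
    (e665 : v641 = v30 * v416)
    (e666 : v642 = (2 : ℂ) * v641)
    (e667 : v643 = (v640)⁻¹)
    (e668 : v644 = v642 * v643)
    (e670 : ‖v3‖ < (91625968981 / 1099511627776) → ‖v16‖ < (91625968981 / 1099511627776) → ‖v39‖ < 1 → ‖v58‖ < (1 / 4) → ‖v102‖ < 1 → v140 ≠ 0 → v146 ≠ 0 → v246 ≠ 0 → ‖v250‖ < 1 → ‖v266‖ < (3 / 8) → ‖v291‖ < (3 / 8) → ‖v311‖ < (3 / 8) → ‖v337‖ < (1 / 4) → ‖v351‖ < (1 / 4) → ‖v367‖ < (3 / 8) → ‖v387‖ < (1 / 4) → v414 ≠ 0 → ‖v434‖ < 2 → 0 < (v465).re → v472 ≠ 0 → ‖v477‖ < (1 / 4) → v492 ≠ 0 → ‖v496‖ < (1 / 4) → ‖v512‖ < 1 → ‖v514‖ < 1 → v545 ≠ 0 → ‖v547‖ < ((p.B1 : ℕ) : ℝ) / 2 ^ 40 → ‖v568‖ < 1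 → ‖v582‖ < 1 → v602 ≠ 0 → ‖v613‖ < (1 / 4) → v248 ≠ 0 → ‖v440‖ < (1 / 2) → v640 ≠ 0 → ‖v644‖ < 1 → ‖v645 - v630‖ ≤ ‖v636‖) :
    ‖v3‖ < (91625968981 / 1099511627776) ∧
    ‖v16‖ < (91625968981 / 1099511627776) ∧
    ‖v39‖ < 1 ∧
    ‖v58‖ < (1 / 4) ∧
    ‖v102‖ < 1 ∧
    v140 ≠ 0 ∧
    v146 ≠ 0 ∧
    v246 ≠ 0 ∧
    ‖v250‖ < 1 ∧
    ‖v266‖ < (3 / 8) ∧
    ‖v291‖ < (3 / 8) ∧
    ‖v311‖ < (3 / 8) ∧
    ‖v337‖ < (1 / 4) ∧
    ‖v351‖ < (1 / 4) ∧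
    ‖v367‖ < (3 / 8) ∧
    ‖v387‖ < (1 / 4) ∧
    v414 ≠ 0 ∧
    ‖v434‖ < 2 ∧
    0 < (v465).re ∧
    v472 ≠ 0 ∧
    ‖v477‖ < (1 / 4) ∧
    v492 ≠ 0 ∧
    ‖v496‖ < (1 / 4) ∧
    ‖v512‖ < 1 ∧
    ‖v514‖ < 1 ∧
    v545 ≠ 0 ∧
    ‖v547‖ < ((p.B1 : ℕ) : ℝ) / 2 ^ 40 ∧
    ‖v568‖ < 1 ∧
    ‖v582‖ < 1 ∧
    v602 ≠ 0 ∧
    ‖v613‖ < (1 / 4) ∧
    v248 ≠ 0 ∧
    ‖v440‖ < (1 / 2) ∧
    v640 ≠ 0 ∧
    ‖v644‖ < 1 ∧
    ‖v645‖ < (4095 / 4096) := by
  have k0 : ((1 / 2) : ℂ) = (Z.mk 549755813888 0 0 0).val := spec_const 549755813888 0 0 0 (by simp <;> norm_num)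
  have k1 : (1 : ℂ) = (Z.mk 1099511627776 0 0 0).val := spec_const 1099511627776 0 0 0 (by simp <;> norm_num)
  have k2 : ((45812984491 / 1099511627776) : ℂ) = (Z.mk 45812984491 0 0 0).val := spec_const 45812984491 0 0 0 (by simp <;> norm_num)
  have k3 : ((183251937963 / 1099511627776) : ℂ) = (Z.mk 183251937963 0 0 0).val := spec_const 183251937963 0 0 0 (by simp <;> norm_num)
  have k4 : (4 : ℂ) = (Z.mk 4398046511104 0 0 0).val := spec_const 4398046511104 0 0 0 (by simp <;> norm_num)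
  have k5 : (2 : ℂ) = (Z.mk 2199023255552 0 0 0).val := spec_const 2199023255552 0 0 0 (by simp <;> norm_num)
  have k6 : ((218157069 / 1099511627776) : ℂ) = (Z.mk 218157069 0 0 0).val := spec_const 218157069 0 0 0 (by simp <;> norm_num)
  have k7 : ((1527099483 / 1099511627776) : ℂ) = (Z.mk 1527099483 0 0 0).val := spec_const 1527099483 0 0 0 (by simp <;> norm_num)
  have k8 : ((4581298449 / 549755813888) : ℂ) = (Z.mk 9162596898 0 0 0).val := spec_const 9162596898 0 0 0 (by simp <;> norm_num)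
  have k9 : ((78536544841 / 549755813888) : ℂ) = (Z.mk 157073089682 0 0 0).val := spec_const 157073089682 0 0 0 (by simp <;> norm_num)
  have k10 : ((-183251937963 / 1099511627776) : ℂ) = (Z.mk 0 183251937963 0 0).val := spec_const 0 183251937963 0 0 (by simp <;> norm_num)
  have k11 : ((219902325555 / 1099511627776) : ℂ) = (Z.mk 219902325555 0 0 0).val := spec_const 219902325555 0 0 0 (by simp <;> norm_num)
  have k12 : ((-1 / 4) : ℂ) = (Z.mk 0 274877906944 0 0).val := spec_const 0 274877906944 0 0 (by simp <;> norm_num)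
  have k13 : ((366503875925 / 1099511627776) : ℂ) = (Z.mk 366503875925 0 0 0).val := spec_const 366503875925 0 0 0 (by simp <;> norm_num)
  have k14 : ((-1 / 2) : ℂ) = (Z.mk 0 549755813888 0 0).val := spec_const 0 549755813888 0 0 (by simp <;> norm_num)
  have k15 : (1 * Complex.I : ℂ) = (Z.mk 0 0 1099511627776 0).val := spec_const 0 0 1099511627776 0 (by simp <;> norm_num)
  have k16 : ((61083979321 / 549755813888) : ℂ) = (Z.mk 122167958642 0 0 0).val := spec_const 122167958642 0 0 0 (by simp <;> norm_num)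
  have k17 : ((-1 / 8) : ℂ) = (Z.mk 0 137438953472 0 0).val := spec_const 0 137438953472 0 0 (by simp <;> norm_num)
  have s0 := h v0 (e0.trans (congrArg (· * x2) k0))
  have s1 := s0 v1 (e1.trans k1)
  have s2 := s1 v2 e2
  have s3 := s2 v3 e3
  have s4 := s3 v4 e4
  obtain ⟨q5, s5⟩ := s4
  have p5 : ‖v3‖ < (91625968981 / 1099511627776) := by
    refine q5.trans_eq ?_
    norm_num
  have s6 := s5 v5 (e6.trans k2)
  have s7 := s6 v6 e7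
  have s8 := s7 v7 (e8.trans k3)
  have s9 := s8 v8 e9
  have s10 := s9 v9 e10
  have s11 := s10 v10 (e11.trans k0)
  have s12 := s11 v11 e12
  have s13 := s12 v12 e13
  have s14 := s13 v13 (e14.trans k1)
  have s15 := s14 v14 e15
  have b16 : ‖v15 - v14‖ ≤ ((530244 : ℕ) : ℝ) / 2 ^ 40 := by
    refine (e16 p5).trans_eq ?_
    norm_num
  have s16 := s15 v15 b16
  have s17 := s16 v16 e17
  obtain ⟨q18, s18⟩ := s17
  have p18 : ‖v16‖ < (91625968981 / 1099511627776) := by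
    refine q18.trans_eq ?_
    norm_num
  have s19 := s18 v17 e19
  have s20 := s19 v18 e20
  have s21 := s20 v19 e21
  have s22 := s21 v20 e22
  have s23 := s22 v21 e23
  have s24 := s23 v22 e24
  have b25 : ‖v23 - v22‖ ≤ ((530244 : ℕ) : ℝ) / 2 ^ 40 := by
    refine (e25 p5 p18).trans_eq ?_
    norm_num
  have s25 := s24 v23 b25
  have s26 := s25 v24 e26
  have s27 := s26 v25 (e27.trans (congrArg (· * v24) k0))
  have s28 := s27 v26 e28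
  have s29 := s28 v27 e29
  have s30 := s29 v28 (e30.trans (congrArg (· * v27) k0))
  have s31 := s30 v29 e31
  have s32 := s31 v30 e32
  have s33 := s32 v31 e33
  have s34 := s33 v32 e34
  have s35 := s34 v33 (e35.trans (congrArg (· * v32) k4))
  have s36 := s35 v34 e36
  have s37 := s36 v35 (e37.trans (congrArg (· * v34) k5))
  have s38 := s37 v36 e38
  have s39 := s38 v37 (e39.trans (congrArg (· * v36) k0))
  have s40 := s39 v38 (e40.trans (congrArg (· * v2) k5))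
  have s41 := s40 v39 e41
  obtain ⟨q42, s42⟩ := s41
  have p42 : ‖v39‖ < 1 := by
    refine q42.trans_eq ?_
    norm_num
  have s43 := s42 v40 (e43.trans k6)
  have s44 := s43 v41 e44
  have s45 := s44 v42 (e45.trans k7)
  have s46 := s45 v43 e46
  have s47 := s46 v44 e47
  have s48 := s47 v45 (e48.trans k8)
  have s49 := s48 v46 e49
  have s50 := s49 v47 e50
  have s51 := s50 v48 e51
  have s52 := s51 v49 e52
  have s53 := s52 v50 e53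
  have s54 := s53 v51 e54
  have s55 := s54 v52 e55
  have s56 := s55 v53 e56
  have s57 := s56 v54 e57
  have b58 : ‖v55 - v54‖ ≤ ((30678339 : ℕ) : ℝ) / 2 ^ 40 := by
    refine (e58 p5 p18 p42).trans_eq ?_
    norm_num
  have s58 := s57 v55 b58
  have s59 := s58 v56 e59
  have s60 := s59 v57 e60
  have s61 := s60 v58 e61
  obtain ⟨q62, s62⟩ := s61
  have p62 : ‖v58‖ < (1 / 4) := by
    refine q62.trans_eq ?_
    norm_num
  have s63 := s62 v59 (e63.trans k9)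
  have s64 := s63 v60 e64
  have s65 := s64 v61 (e65.trans k10)
  have s66 := s65 v62 e66
  have s67 := s66 v63 e67
  have s68 := s67 v64 (e68.trans k11)
  have s69 := s68 v65 e69
  have s70 := s69 v66 e70
  have s71 := s70 v67 (e71.trans k12)
  have s72 := s71 v68 e72
  have s73 := s72 v69 e73
  have s74 := s73 v70 (e74.trans k13)
  have s75 := s74 v71 e75
  have s76 := s75 v72 e76
  have s77 := s76 v73 (e77.trans k14)
  have s78 := s77 v74 e78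
  have s79 := s78 v75 e79
  have s80 := s79 v76 e80
  have b81 : ‖v77 - v76‖ ≤ ((11184812 : ℕ) : ℝ) / 2 ^ 40 := by
    refine (e81 p5 p18 p42 p62).trans_eq ?_
    norm_num
  have s81 := s80 v77 b81
  have s82 := s81 v78 e82
  have s83 := s82 v79 e83
  have s84 := s83 v80 e84
  have s85 := s84 v81 e85
  have s86 := s85 v82 e86
  have s87 := s86 v83 (e87.trans (congrArg (· * v3) k5))
  have s88 := s87 v84 e88
  have s89 := s88 v85 e89
  have s90 := s89 v86 e90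
  have s91 := s90 v87 e91
  have s92 := s91 v88 e92
  have s93 := s92 v89 e93
  have s94 := s93 v90 e94
  have s95 := s94 v91 e95
  have s96 := s95 v92 e96
  have s97 := s96 v93 e97
  have s98 := s97 v94 e98
  have s99 := s98 v95 e99
  have s100 := s99 v96 e100
  have s101 := s100 v97 e101
  have s102 := s101 v98 e102
  have s103 := s102 v99 e103
  have s104 := s103 v100 e104
  have s105 := s104 v101 e105
  have s106 := s105 v102 e106
  obtain ⟨q107, s107⟩ := s106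
  have p107 : ‖v102‖ < 1 := by
    refine q107.trans_eq ?_
    norm_num
  have s108 := s107 v103 e108
  have s109 := s108 v104 e109
  have s110 := s109 v105 e110
  have s111 := s110 v106 e111
  have s112 := s111 v107 e112
  have s113 := s112 v108 e113
  have s114 := s113 v109 e114
  have s115 := s114 v110 e115
  have s116 := s115 v111 e116
  have s117 := s116 v112 e117
  have s118 := s117 v113 e118
  have s119 := s118 v114 e119
  have b120 : ‖v115 - v114‖ ≤ ((30678339 : ℕ) : ℝ) / 2 ^ 40 := by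
    refine (e120 p5 p18 p42 p62 p107).trans_eq ?_
    norm_num
  have s120 := s119 v115 b120
  have s121 := s120 v116 e121
  have s122 := s121 v117 e122
  have s123 := s122 v118 (e123.trans k5)
  have s124 := s123 v119 e124
  have s125 := s124 v120 e125
  have s126 := s125 v121 e126
  have s127 := s126 v122 e127
  have s128 := s127 v123 e128
  have s129 := s128 v124 e129
  have s130 := s129 v125 e130
  have s131 := s130 v126 e131
  have s132 := s131 v127 e132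
  have s133 := s132 v128 e133
  have s134 := s133 v129 e134
  have s135 := s134 v130 e135
  have s136 := s135 v131 e136
  have s137 := s136 v132 (e137.trans (congrArg (· * v131) k4))
  have s138 := s137 v133 e138
  have s139 := s138 v134 (e139.trans (congrArg (· * v133) k15))
  have s140 := s139 v135 e140
  have s141 := s140 v136 e141
  have s142 := s141 v137 e142
  have s143 := s142 v138 e143
  have s144 := s143 v139 (e144.trans (congrArg (· * v138) k15))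
  have s145 := s144 v140 e145
  have s146 := s145 v141 e146
  obtain ⟨n147, r147⟩ := s146
  have s147 := r147 v142 e147
  have s148 := s147 v143 e148
  have s149 := s148 v144 e149
  have s150 := s149 v145 e150
  have s151 := s150 v146 e151
  obtain ⟨n152, r152⟩ := s151
  have s152 := r152 v147 e152
  have s153 := s152 v148 e153
  have s154 := s153 v149 e154
  have s155 := s154 v150 e155
  have s156 := s155 v151 e156
  have s157 := s156 v152 e157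
  have s158 := s157 v153 e158
  have s159 := s158 v154 e159
  have s160 := s159 v155 e160
  have s161 := s160 v156 e161
  have s162 := s161 v157 e162
  have s163 := s162 v158 e163
  have s164 := s163 v159 e164
  have s165 := s164 v160 e165
  have s166 := s165 v161 e166
  have s167 := s166 v162 e167
  have s168 := s167 v163 e168
  have s169 := s168 v164 e169
  have s170 := s169 v165 e170
  have s171 := s170 v166 e171
  have s172 := s171 v167 e172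
  have s173 := s172 v168 e173
  have s174 := s173 v169 e174
  have s175 := s174 v170 e175
  have s176 := s175 v171 e176
  have s177 := s176 v172 e177
  have s178 := s177 v173 e178
  have s179 := s178 v174 e179
  have s180 := s179 v175 e180
  have s181 := s180 v176 e181
  have s182 := s181 v177 e182
  have s183 := s182 v178 e183
  have s184 := s183 v179 e184
  have s185 := s184 v180 e185
  have s186 := s185 v181 e186
  have s187 := s186 v182 e187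
  have s188 := s187 v183 e188
  have s189 := s188 v184 e189
  have s190 := s189 v185 e190
  have s191 := s190 v186 e191
  have s192 := s191 v187 e192
  have s193 := s192 v188 e193
  have s194 := s193 v189 e194
  have s195 := s194 v190 e195
  have s196 := s195 v191 e196
  have s197 := s196 v192 e197
  have s198 := s197 v193 e198
  have s199 := s198 v194 e199
  have s200 := s199 v195 e200
  have s201 := s200 v196 e201
  have s202 := s201 v197 e202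
  have s203 := s202 v198 e203
  have s204 := s203 v199 e204
  have s205 := s204 v200 e205
  have s206 := s205 v201 e206
  have s207 := s206 v202 e207
  have s208 := s207 v203 e208
  have s209 := s208 v204 e209
  have s210 := s209 v205 e210
  have s211 := s210 v206 e211
  have s212 := s211 v207 e212
  have s213 := s212 v208 e213
  have s214 := s213 v209 e214
  have s215 := s214 v210 e215
  have s216 := s215 v211 e216
  have s217 := s216 v212 e217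
  have s218 := s217 v213 e218
  have s219 := s218 v214 e219
  have s220 := s219 v215 (e220.trans (congrArg (· * v0) k5))
  have s221 := s220 v216 e221
  have s222 := s221 v217 e222
  have s223 := s222 v218 e223
  have s224 := s223 v219 e224
  have s225 := s224 v220 e225
  have s226 := s225 v221 e226
  have s227 := s226 v222 e227
  have s228 := s227 v223 e228
  have s229 := s228 v224 e229
  have s230 := s229 v225 e230
  have s231 := s230 v226 e231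
  have s232 := s231 v227 e232
  have s233 := s232 v228 e233
  have s234 := s233 v229 e234
  have s235 := s234 v230 e235
  have s236 := s235 v231 e236
  have s237 := s236 v232 e237
  have s238 := s237 v233 e238
  have s239 := s238 v234 e239
  have s240 := s239 v235 e240
  have s241 := s240 v236 e241
  have s242 := s241 v237 e242
  have s243 := s242 v238 e243
  have s244 := s243 v239 e244
  have s245 := s244 v240 (e245.trans (congrArg (· * v239) k5))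
  have s246 := s245 v241 e246
  have s247 := s246 v242 e247
  have s248 := s247 v243 e248
  have s249 := s248 v244 e249
  have s250 := s249 v245 e250
  have s251 := s250 v246 e251
  obtain ⟨n252, r252⟩ := s251
  have s252 := r252 v247 e252
  have s253 := s252 v248 e253
  have s254 := s253 v249 e254
  have s255 := s254 v250 e255
  obtain ⟨q256, s256⟩ := s255
  have p256 : ‖v250‖ < 1 := by
    refine q256.trans_eq ?_
    norm_num
  have s257 := s256 v251 e257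
  have s258 := s257 v252 e258
  have s259 := s258 v253 e259
  have s260 := s259 v254 e260
  have s261 := s260 v255 e261
  have s262 := s261 v256 e262
  have s263 := s262 v257 e263
  have s264 := s263 v258 e264
  have s265 := s264 v259 e265
  have s266 := s265 v260 e266
  have s267 := s266 v261 e267
  have s268 := s267 v262 e268
  have b269 : ‖v263 - v262‖ ≤ ((30678339 : ℕ) : ℝ) / 2 ^ 40 := by
    refine (e269 p5 p18 p42 p62 p107 n147 n152 n252 p256).trans_eq ?_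
    norm_num
  have s269 := s268 v263 b269
  have s270 := s269 v264 e270
  have s271 := s270 v265 (e271.trans (congrArg (· * v264) k14))
  have s272 := s271 v266 e272
  have s273 := s272 v267 (e273.trans (congrArg (· * v266) k5))
  have s274 := s273 v268 e274
  obtain ⟨q275, s275⟩ := s274
  have p275 : ‖v266‖ < (3 / 8) := by
    refine q275.trans_eq ?_
    norm_num
  have s276 := s275 v269 (e276.trans k16)
  have s277 := s276 v270 e277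
  have s278 := s277 v271 (e278.trans k17)
  have s279 := s278 v272 e279
  have s280 := s279 v273 e280
  have s281 := s280 v274 e281
  have s282 := s281 v275 e282
  have s283 := s282 v276 e283
  have s284 := s283 v277 e284
  have s285 := s284 v278 e285
  have s286 := s285 v279 e286
  have s287 := s286 v280 e287
  have s288 := s287 v281 e288
  have s289 := s288 v282 e289
  have s290 := s289 v283 e290
  have s291 := s290 v284 e291
  have s292 := s291 v285 e292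
  have s293 := s292 v286 e293
  have b294 : ‖v287 - v286‖ ≤ ((25798904 : ℕ) : ℝ) / 2 ^ 40 := by
    refine (e294 p5 p18 p42 p62 p107 n147 n152 n252 p256 p275).trans_eq ?_
    norm_num
  have s294 := s293 v287 b294
  have s295 := s294 v288 e295
  have s296 := s295 v289 e296
  have s297 := s296 v290 e297
  have s298 := s297 v291 e298
  obtain ⟨q299, s299⟩ := s298
  have p299 : ‖v291‖ < (3 / 8) := by
    refine q299.trans_eq ?_
    norm_num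
  have s300 := s299 v292 e300
  have s301 := s300 v293 e301
  have s302 := s301 v294 e302
  have s303 := s302 v295 e303
  have s304 := s303 v296 e304
  have s305 := s304 v297 e305
  have s306 := s305 v298 e306
  have s307 := s306 v299 e307
  have s308 := s307 v300 e308
  have s309 := s308 v301 e309
  have s310 := s309 v302 e310
  have s311 := s310 v303 e311
  have s312 := s311 v304 e312
  have s313 := s312 v305 e313
  have s314 := s313 v306 e314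
  have s315 := s314 v307 e315
  have b316 : ‖v308 - v307‖ ≤ ((25798904 : ℕ) : ℝ) / 2 ^ 40 := by
    refine (e316 p5 p18 p42 p62 p107 n147 n152 n252 p256 p275 p299).trans_eq ?_
    norm_num
  have s316 := s315 v308 b316
  have s317 := s316 v309 e317
  have s318 := s317 v310 e318
  have s319 := s318 v311 e319
  obtain ⟨q320, s320⟩ := s319
  have p320 : ‖v311‖ < (3 / 8) := by
    refine q320.trans_eq ?_
    norm_num
  have s321 := s320 v312 e321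
  have s322 := s321 v313 e322
  have s323 := s322 v314 e323
  have s324 := s323 v315 e324
  have s325 := s324 v316 e325
  have s326 := s325 v317 e326
  have s327 := s326 v318 e327
  have s328 := s327 v319 e328
  have s329 := s328 v320 e329
  have s330 := s329 v321 e330
  have s331 := s330 v322 e331
  have s332 := s331 v323 e332
  have s333 := s332 v324 e333
  have s334 := s333 v325 e334
  have s335 := s334 v326 e335
  have s336 := s335 v327 e336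
  have b337 : ‖v328 - v327‖ ≤ ((25798904 : ℕ) : ℝ) / 2 ^ 40 := by
    refine (e337 p5 p18 p42 p62 p107 n147 n152 n252 p256 p275 p299 p320).trans_eq ?_
    norm_num
  have s337 := s336 v328 b337
  have s338 := s337 v329 e338
  have s339 := s338 v330 e339
  have s340 := s339 v331 e340
  have s341 := s340 v332 e341
  have s342 := s341 v333 e342
  have s343 := s342 v334 e343
  have s344 := s343 v335 e344
  have s345 := s344 v336 e345
  have s346 := s345 v337 e346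
  obtain ⟨q347, s347⟩ := s346
  have p347 : ‖v337‖ < (1 / 4) := by
    refine q347.trans_eq ?_
    norm_num
  have s348 := s347 v338 e348
  have s349 := s348 v339 e349
  have s350 := s349 v340 e350
  have s351 := s350 v341 e351
  have s352 := s351 v342 e352
  have s353 := s352 v343 e353
  have b354 : ‖v344 - v343‖ ≤ ((42949674 : ℕ) : ℝ) / 2 ^ 40 := by
    refine (e354 p5 p18 p42 p62 p107 n147 n152 n252 p256 p275 p299 p320 p347).trans_eq ?_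
    norm_num
  have s354 := s353 v344 b354
  have s355 := s354 v345 e355
  have s356 := s355 v346 e356
  have s357 := s356 v347 e357
  have s358 := s357 v348 (e358.trans (congrArg (· * v336) k5))
  have s359 := s358 v349 e359
  have s360 := s359 v350 e360
  have s361 := s360 v351 e361
  obtain ⟨q362, s362⟩ := s361
  have p362 : ‖v351‖ < (1 / 4) := by
    refine q362.trans_eq ?_
    norm_num
  have s363 := s362 v352 e363
  have s364 := s363 v353 e364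
  have s365 := s364 v354 e365
  have s366 := s365 v355 e366
  have s367 := s366 v356 e367
  have s368 := s367 v357 e368
  have b369 : ‖v358 - v357‖ ≤ ((42949674 : ℕ) : ℝ) / 2 ^ 40 := by
    refine (e369 p5 p18 p42 p62 p107 n147 n152 n252 p256 p275 p299 p320 p347 p362).trans_eq ?_
    norm_num
  have s369 := s368 v358 b369
  have s370 := s369 v359 e370
  have s371 := s370 v360 e371
  have s372 := s371 v361 e372
  have s373 := s372 v362 e373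
  have s374 := s373 v363 e374
  have s375 := s374 v364 e375
  have s376 := s375 v365 e376
  have s377 := s376 v366 e377
  have s378 := s377 v367 e378
  obtain ⟨q379, s379⟩ := s378
  have p379 : ‖v367‖ < (3 / 8) := by
    refine q379.trans_eq ?_
    norm_num
  have s380 := s379 v368 e380
  have s381 := s380 v369 e381
  have s382 := s381 v370 e382
  have s383 := s382 v371 e383
  have s384 := s383 v372 e384
  have s385 := s384 v373 e385
  have s386 := s385 v374 e386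
  have s387 := s386 v375 e387
  have s388 := s387 v376 e388
  have s389 := s388 v377 e389
  have s390 := s389 v378 e390
  have s391 := s390 v379 e391
  have s392 := s391 v380 e392
  have s393 := s392 v381 e393
  have s394 := s393 v382 e394
  have s395 := s394 v383 e395
  have b396 : ‖v384 - v383‖ ≤ ((25798904 : ℕ) : ℝ) / 2 ^ 40 := by
    refine (e396 p5 p18 p42 p62 p107 n147 n152 n252 p256 p275 p299 p320 p347 p362 p379).trans_eq ?_
    norm_num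
  have s396 := s395 v384 b396
  have s397 := s396 v385 e397
  have s398 := s397 v386 e398
  have s399 := s398 v387 (e399.trans (congrArg (· * v386) k0))
  obtain ⟨q400, s400⟩ := s399
  have p400 : ‖v387‖ < (1 / 4) := by
    refine q400.trans_eq ?_
    norm_num
  have s401 := s400 v388 e401
  have s402 := s401 v389 e402
  have s403 := s402 v390 e403
  have s404 := s403 v391 e404
  have s405 := s404 v392 e405
  have s406 := s405 v393 e406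
  have b407 : ‖v394 - v393‖ ≤ ((42949674 : ℕ) : ℝ) / 2 ^ 40 := by
    refine (e407 p5 p18 p42 p62 p107 n147 n152 n252 p256 p275 p299 p320 p347 p362 p379 p400).trans_eq ?_
    norm_num
  have s407 := s406 v394 b407
  have s408 := s407 v395 e408
  have s409 := s408 v396 e409
  have s410 := s409 v397 e410
  have s411 := s410 v398 (e411.trans (congrArg (· * v396) k5))
  have s412 := s411 v399 e412
  have s413 := s412 v400 e413
  have s414 := s413 v401 e414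
  have s415 := s414 v402 e415
  have s416 := s415 v403 e416
  have s417 := s416 v404 (e417.trans (congrArg (· * v403) k5))
  have s418 := s417 v405 e418
  have s419 := s418 v406 (e419.trans (congrArg (· * v37) k5))
  have s420 := s419 v407 e420
  have s421 := s420 v408 e421
  have s422 := s421 v409 e422
  have s423 := s422 v410 e423
  have s424 := s423 v411 e424
  have s425 := s424 v412 e425
  have s426 := s425 v413 e426
  have s427 := s426 v414 e427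
  obtain ⟨n428, r428⟩ := s427
  have s428 := r428 v415 e428
  have s429 := s428 v416 e429
  have s430 := s429 v417 e430
  have s431 := s430 v418 e431
  have s432 := s431 v419 e432
  have s433 := s432 v420 e433
  have s434 := s433 v421 e434
  have s435 := s434 v422 e435
  have s436 := s435 v423 e436
  have s437 := s436 v424 e437
  have s438 := s437 v425 e438
  have s439 := s438 v426 e439
  have s440 := s439 v427 e440
  have s441 := s440 v428 e441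
  have s442 := s441 v429 e442
  have s443 := s442 v430 e443
  have s444 := s443 v431 e444
  have s445 := s444 v432 e445
  have s446 := s445 v433 e446
  have s447 := s446 v434 e447
  obtain ⟨q448, s448⟩ := s447
  have p448 : ‖v434‖ < 2 := by
    refine q448.trans_eq ?_
    norm_num
  have s449 := s448 v435 e449
  have s450 := s449 v436 e450
  have s451 := s450 v437 e451
  have s452 := s451 v438 e452
  have s453 := s452 v439 e453
  have s454 := s453 v440 e454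
  have s455 := s454 v441 e455
  have s456 := s455 v442 e456
  have s457 := s456 v443 e457
  have s458 := s457 v444 e458
  have s459 := s458 v445 e459
  have s460 := s459 v446 e460
  have s461 := s460 v447 e461
  have s462 := s461 v448 e462
  have s463 := s462 v449 e463
  have s464 := s463 v450 e464
  have s465 := s464 v451 e465
  have s466 := s465 v452 e466
  have s467 := s466 v453 e467
  have s468 := s467 v454 e468
  have s469 := s468 v455 e469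
  have s470 := s469 v456 e470
  have s471 := s470 v457 e471
  have s472 := s471 v458 e472
  have s473 := s472 v459 e473
  have s474 := s473 v460 e474
  have s475 := s474 v461 e475
  have s476 := s475 v462 e476
  have s477 := s476 v463 e477
  have s478 := s477 v464 e478
  have s479 := s478 v465 e479
  obtain ⟨p480, s480⟩ := s479
  have s481 := s480 v466 e481
  have s482 := s481 v467 e482
  have s483 := s482 v468 e483
  have s484 := s483 v469 e484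
  have s485 := s484 v470 e485
  have s486 := s485 v471 e486
  have s487 := s486 v472 e487
  obtain ⟨n488, r488⟩ := s487
  have s488 := r488 v473 e488
  have s489 := s488 v474 e489
  have s490 := s489 v475 e490
  have s491 := s490 v476 e491
  have s492 := s491 v477 e492
  obtain ⟨q493, s493⟩ := s492
  have p493 : ‖v477‖ < (1 / 4) := by
    refine q493.trans_eq ?_
    norm_num
  have s494 := s493 v478 e494
  have s495 := s494 v479 e495
  have s496 := s495 v480 e496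
  have s497 := s496 v481 e497
  have s498 := s497 v482 e498
  have s499 := s498 v483 e499
  have s500 := s499 v484 e500
  have s501 := s500 v485 e501
  have s502 := s501 v486 e502
  have s503 := s502 v487 e503
  have s504 := s503 v488 e504
  have s505 := s504 v489 e505
  have b506 : ‖v490 - v489‖ ≤ ((11184812 : ℕ) : ℝ) / 2 ^ 40 := by
    refine (e506 p5 p18 p42 p62 p107 n147 n152 n252 p256 p275 p299 p320 p347 p362 p379 p400 n428 p448 p480 n488 p493).trans_eq ?_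
    norm_num
  have s506 := s505 v490 b506
  have s507 := s506 v491 e507
  have s508 := s507 v492 e508
  obtain ⟨n509, r509⟩ := s508
  have s509 := r509 v493 e509
  have s510 := s509 v494 e510
  have s511 := s510 v495 e511
  have s512 := s511 v496 e512
  obtain ⟨q513, s513⟩ := s512
  have p513 : ‖v496‖ < (1 / 4) := by
    refine q513.trans_eq ?_
    norm_num
  have s514 := s513 v497 e514
  have s515 := s514 v498 e515
  have s516 := s515 v499 e516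
  have s517 := s516 v500 e517
  have s518 := s517 v501 e518
  have s519 := s518 v502 e519
  have s520 := s519 v503 e520
  have s521 := s520 v504 e521
  have s522 := s521 v505 e522
  have s523 := s522 v506 e523
  have s524 := s523 v507 e524
  have s525 := s524 v508 e525
  have b526 : ‖v509 - v508‖ ≤ ((11184812 : ℕ) : ℝ) / 2 ^ 40 := by
    refine (e526 p5 p18 p42 p62 p107 n147 n152 n252 p256 p275 p299 p320 p347 p362 p379 p400 n428 p448 p480 n488 p493 n509 p513).trans_eq ?_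
    norm_num
  have s526 := s525 v509 b526
  have s527 := s526 v510 e527
  have s528 := s527 v511 e528
  have s529 := s528 v512 e529
  have s530 := s529 v513 e530
  have s531 := s530 v514 e531
  obtain ⟨q532, s532⟩ := s531
  have p532 : ‖v512‖ < 1 := by
    refine q532.trans_eq ?_
    norm_num
  have s533 := s532 v515 e533
  have s534 := s533 v516 e534
  have s535 := s534 v517 e535
  have s536 := s535 v518 e536
  have s537 := s536 v519 e537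
  have s538 := s537 v520 e538
  have s539 := s538 v521 e539
  have s540 := s539 v522 e540
  have s541 := s540 v523 e541
  have s542 := s541 v524 e542
  have s543 := s542 v525 e543
  have s544 := s543 v526 e544
  have b545 : ‖v527 - v526‖ ≤ ((30678339 : ℕ) : ℝ) / 2 ^ 40 := by
    refine (e545 p5 p18 p42 p62 p107 n147 n152 n252 p256 p275 p299 p320 p347 p362 p379 p400 n428 p448 p480 n488 p493 n509 p513 p532).trans_eq ?_
    norm_num
  have s545 := s544 v527 b545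
  have s546 := s545 v528 e546
  obtain ⟨q547, s547⟩ := s546
  have p547 : ‖v514‖ < 1 := by
    refine q547.trans_eq ?_
    norm_num
  have s548 := s547 v529 e548
  have s549 := s548 v530 e549
  have s550 := s549 v531 e550
  have s551 := s550 v532 e551
  have s552 := s551 v533 e552
  have s553 := s552 v534 e553
  have s554 := s553 v535 e554
  have s555 := s554 v536 e555
  have s556 := s555 v537 e556
  have s557 := s556 v538 e557
  have s558 := s557 v539 e558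
  have s559 := s558 v540 e559
  have b560 : ‖v541 - v540‖ ≤ ((30678339 : ℕ) : ℝ) / 2 ^ 40 := by
    refine (e560 p5 p18 p42 p62 p107 n147 n152 n252 p256 p275 p299 p320 p347 p362 p379 p400 n428 p448 p480 n488 p493 n509 p513 p532 p547).trans_eq ?_
    norm_num
  have s560 := s559 v541 b560
  have s561 := s560 v542 e561
  have s562 := s561 v543 e562
  have s563 := s562 v544 e563
  have s564 := s563 v545 e564
  obtain ⟨n565, r565⟩ := s564
  have s565 := r565 v546 e565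
  have s566 := s565 v547 e566
  obtain ⟨p567, s567⟩ := s566
  have s568 := s567 v548 e568
  have s569 := s568 v549 (e569.trans (congrArg (· * v548) k0))
  have s570 := s569 v550 e570
  have s571 := s570 v551 e571
  have s572 := s571 v552 e572
  have s573 := s572 v553 e573
  have s574 := s573 v554 e574
  have s575 := s574 v555 e575
  have s576 := s575 v556 e576
  have s577 := s576 v557 e577
  have s578 := s577 v558 e578
  have s579 := s578 v559 e579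
  have s580 := s579 v560 (e580 p5 p18 p42 p62 p107 n147 n152 n252 p256 p275 p299 p320 p347 p362 p379 p400 n428 p448 p480 n488 p493 n509 p513 p532 p547 n565 p567)
  have s581 := s580 v561 (e581.trans (congrArg (· * v560) k5))
  have s582 := s581 v562 e582
  have s583 := s582 v563 e583
  have s584 := s583 v564 e584
  have s585 := s584 v565 (e585.trans (congrArg (· * v564) k5))
  have s586 := s585 v566 e586
  have s587 := s586 v567 e587
  have s588 := s587 v568 e588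
  obtain ⟨q589, s589⟩ := s588
  have p589 : ‖v568‖ < 1 := by
    refine q589.trans_eq ?_
    norm_num
  have s590 := s589 v569 e590
  have s591 := s590 v570 e591
  have s592 := s591 v571 e592
  have s593 := s592 v572 e593
  have s594 := s593 v573 e594
  have s595 := s594 v574 e595
  have s596 := s595 v575 e596
  have s597 := s596 v576 e597
  have s598 := s597 v577 e598
  have s599 := s598 v578 e599
  have s600 := s599 v579 e600
  have s601 := s600 v580 e601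
  have b602 : ‖v581 - v580‖ ≤ ((30678339 : ℕ) : ℝ) / 2 ^ 40 := by
    refine (e602 p5 p18 p42 p62 p107 n147 n152 n252 p256 p275 p299 p320 p347 p362 p379 p400 n428 p448 p480 n488 p493 n509 p513 p532 p547 n565 p567 p589).trans_eq ?_
    norm_num
  have s602 := s601 v581 b602
  have s603 := s602 v582 e603
  obtain ⟨q604, s604⟩ := s603
  have p604 : ‖v582‖ < 1 := by
    refine q604.trans_eq ?_
    norm_num
  have s605 := s604 v583 e605
  have s606 := s605 v584 e606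
  have s607 := s606 v585 e607
  have s608 := s607 v586 e608
  have s609 := s608 v587 e609
  have s610 := s609 v588 e610
  have s611 := s610 v589 e611
  have s612 := s611 v590 e612
  have s613 := s612 v591 e613
  have s614 := s613 v592 e614
  have s615 := s614 v593 e615
  have s616 := s615 v594 e616
  have b617 : ‖v595 - v594‖ ≤ ((30678339 : ℕ) : ℝ) / 2 ^ 40 := by
    refine (e617 p5 p18 p42 p62 p107 n147 n152 n252 p256 p275 p299 p320 p347 p362 p379 p400 n428 p448 p480 n488 p493 n509 p513 p532 p547 n565 p567 p589 p604).trans_eq ?_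
    norm_num
  have s617 := s616 v595 b617
  have s618 := s617 v596 e618
  have s619 := s618 v597 (e619.trans (congrArg (· * v596) k0))
  have s620 := s619 v598 e620
  have s621 := s620 v599 e621
  have s622 := s621 v600 e622
  have s623 := s622 v601 e623
  have s624 := s623 v602 e624
  obtain ⟨n625, r625⟩ := s624
  have s625 := r625 v603 e625
  have s626 := s625 v604 e626
  have s627 := s626 v605 e627
  have s628 := s627 v606 e628
  have s629 := s628 v607 e629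
  have s630 := s629 v608 e630
  have s631 := s630 v609 (e631.trans (congrArg (· * v385) k0))
  have s632 := s631 v610 e632
  have s633 := s632 v611 e633
  have s634 := s633 v612 e634
  have s635 := s634 v613 e635
  obtain ⟨q636, s636⟩ := s635
  have p636 : ‖v613‖ < (1 / 4) := by
    refine q636.trans_eq ?_
    norm_num
  have s637 := s636 v614 e637
  have s638 := s637 v615 e638
  have s639 := s638 v616 e639
  have s640 := s639 v617 e640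
  have s641 := s640 v618 e641
  have s642 := s641 v619 e642
  have b643 : ‖v620 - v619‖ ≤ ((42949674 : ℕ) : ℝ) / 2 ^ 40 := by
    refine (e643 p5 p18 p42 p62 p107 n147 n152 n252 p256 p275 p299 p320 p347 p362 p379 p400 n428 p448 p480 n488 p493 n509 p513 p532 p547 n565 p567 p589 p604 n625 p636).trans_eq ?_
    norm_num
  have s643 := s642 v620 b643
  have s644 := s643 v621 e644
  have s645 := s644 v622 e645
  obtain ⟨n646, r646⟩ := s645
  have s646 := r646 v623 e646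
  have s647 := s646 v624 e647
  have s648 := s647 v625 e648
  have s649 := s648 v626 e649
  have s650 := s649 v627 e650
  have s651 := s650 v628 e651
  have s652 := s651 v629 e652
  have s653 := s652 v630 e653
  have s654 := s653 v631 e654
  have s655 := s654 v632 e655
  have s656 := s655 v633 e656
  have s657 := s656 v634 e657
  have s658 := s657 v635 e658
  have s659 := s658 v636 e659
  obtain ⟨q660, s660⟩ := s659
  have p660 : ‖v440‖ < (1 / 2) := by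
    refine q660.trans_eq ?_
    norm_num
  have s661 := s660 v637 e661
  have s662 := s661 v638 e662
  have s663 := s662 v639 e663
  have s664 := s663 v640 e664
  have s665 := s664 v641 e665
  have s666 := s665 v642 (e666.trans (congrArg (· * v641) k5))
  obtain ⟨n667, r667⟩ := s666
  have s667 := r667 v643 e667
  have s668 := s667 v644 e668
  obtain ⟨q669, s669⟩ := s668
  have p669 : ‖v644‖ < 1 := by
    refine q669.trans_eq ?_
    norm_num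
  have s670 := s669 v645 (e670 p5 p18 p42 p62 p107 n147 n152 n252 p256 p275 p299 p320 p347 p362 p379 p400 n428 p448 p480 n488 p493 n509 p513 p532 p547 n565 p567 p589 p604 n625 p636 n646 p660 n667 p669)
  obtain ⟨q671, s671⟩ := s670
  have p671 : ‖v645‖ < (4095 / 4096) := by
    refine q671.trans_eq ?_
    norm_num
  exact ⟨p5, p18, p42, p62, p107, n147, n152, n252, p256, p275, p299, p320, p347, p362, p379, p400, n428, p448, p480, n488, p493, n509, p513, p532, p547, n565, p567, p589, p604, n625, p636, n646, p660, n667, p669, p671⟩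

theorem mac0 {p : Pm} {x0 x1 x2 x3 F2 w : ℂ} (h : Pool.Agent.helper31.IX.Asserts (prog0 p) [x0, x1, x2, x3])
    (hr560 : ‖F2 - (ptL (GT p).nf 0 (bA x0 x1 x2) (cU (bA x0 x1 x2) (1 : ℂ) (oX (bA x0 x1 x2) (p.nn).val (P2 (sl p) (Tb.deb (GT p) (bA x0 x1 x2)) (Tb.dbb (GT p) (bA x0 x1 x2))))) x3 (((p.ax).val * (bA x0 x1 x2).ep) + (p.ay).val) (p.xa).val (p.C2).val F2).F2c‖ ≤ ‖(ptL (GT p).nf 0 (bA x0 x1 x2) (cU (bA x0 x1 x2) (1 : ℂ) (oX (bA x0 x1 x2) (p.nn).val (P2 (sl p) (Tb.deb (GT p) (bA x0 x1 x2)) (Tb.dbb (GT p) (bA x0 x1 x2))))) x3 (((p.ax).val * (bA x0 x1 x2).ep) + (p.ay).val) (p.xa).val (p.C2).val F2).er‖)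
    (hr645 : ‖w - (ptL (GT p).nf 0 (bA x0 x1 x2) (cU (bA x0 x1 x2) (1 : ℂ) (oX (bA x0 x1 x2) (p.nn).val (P2 (sl p) (Tb.deb (GT p) (bA x0 x1 x2)) (Tb.dbb (GT p) (bA x0 x1 x2))))) x3 (((p.ax).val * (bA x0 x1 x2).ep) + (p.ay).val) (p.xa).val (p.C2).val F2).A‖ ≤ ‖(ptL (GT p).nf 0 (bA x0 x1 x2) (cU (bA x0 x1 x2) (1 : ℂ) (oX (bA x0 x1 x2) (p.nn).val (P2 (sl p) (Tb.deb (GT p) (bA x0 x1 x2)) (Tb.dbb (GT p) (bA x0 x1 x2))))) x3 (((p.ax).val * (bA x0 x1 x2).ep) + (p.ay).val) (p.xa).val (p.C2).val F2).G‖) :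
    ‖(bA x0 x1 x2).z‖ < (91625968981 / 1099511627776) ∧
    ‖(-(bA x0 x1 x2).z)‖ < (91625968981 / 1099511627776) ∧
    ‖(-((2 : ℂ) * (bA x0 x1 x2).b))‖ < 1 ∧
    ‖((bA x0 x1 x2).s * (bA x0 x1 x2).wb)‖ < (1 / 4) ∧
    ‖(-(oH (bA x0 x1 x2) (p.nn).val))‖ < 1 ∧
    (cDn (bA x0 x1 x2) (1 : ℂ) (oX (bA x0 x1 x2) (p.nn).val (P2 (sl p) (Tb.deb (GT p) (bA x0 x1 x2)) (Tb.dbb (GT p) (bA x0 x1 x2))))) ≠ 0 ∧
    (((bA x0 x1 x2).se * (ptM (GT p).nf 0 (bA x0 x1 x2) (cU (bA x0 x1 x2) (1 : ℂ) (oX (bA x0 x1 x2) (p.nn).val (P2 (sl p) (Tb.deb (GT p) (bA x0 x1 x2)) (Tb.dbb (GT p) (bA x0 x1 x2))))) x3).q1) + (1 : ℂ)) ≠ 0 ∧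
    ((((GT p).c 0) * ((bA x0 x1 x2).s * (ptM (GT p).nf 0 (bA x0 x1 x2) (cU (bA x0 x1 x2) (1 : ℂ) (oX (bA x0 x1 x2) (p.nn).val (P2 (sl p) (Tb.deb (GT p) (bA x0 x1 x2)) (Tb.dbb (GT p) (bA x0 x1 x2))))) x3).U)) + (1 : ℂ)) ≠ 0 ∧
    ‖(-((bA x0 x1 x2).s * (ptM (GT p).nf 0 (bA x0 x1 x2) (cU (bA x0 x1 x2) (1 : ℂ) (oX (bA x0 x1 x2) (p.nn).val (P2 (sl p) (Tb.deb (GT p) (bA x0 x1 x2)) (Tb.dbb (GT p) (bA x0 x1 x2))))) x3).c.L))‖ < 1 ∧
    ‖((bA x0 x1 x2).s * (ptM (GT p).nf 0 (bA x0 x1 x2) (cU (bA x0 x1 x2) (1 : ℂ) (oX (bA x0 x1 x2) (p.nn).val (P2 (sl p) (Tb.deb (GT p) (bA x0 x1 x2)) (Tb.dbb (GT p) (bA x0 x1 x2))))) x3).c.wl)‖ < (3 / 8) ∧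
    ‖((bA x0 x1 x2).s * (ptM (GT p).nf 0 (bA x0 x1 x2) (cU (bA x0 x1 x2) (1 : ℂ) (oX (bA x0 x1 x2) (p.nn).val (P2 (sl p) (Tb.deb (GT p) (bA x0 x1 x2)) (Tb.dbb (GT p) (bA x0 x1 x2))))) x3).c.ER)‖ < (3 / 8) ∧
    ‖(-((bA x0 x1 x2).s * (ptM (GT p).nf 0 (bA x0 x1 x2) (cU (bA x0 x1 x2) (1 : ℂ) (oX (bA x0 x1 x2) (p.nn).val (P2 (sl p) (Tb.deb (GT p) (bA x0 x1 x2)) (Tb.dbb (GT p) (bA x0 x1 x2))))) x3).c.Rx))‖ < (3 / 8) ∧
    ‖(ptM (GT p).nf 0 (bA x0 x1 x2) (cU (bA x0 x1 x2) (1 : ℂ) (oX (bA x0 x1 x2) (p.nn).val (P2 (sl p) (Tb.deb (GT p) (bA x0 x1 x2)) (Tb.dbb (GT p) (bA x0 x1 x2))))) x3).c.x3‖ < (1 / 4) ∧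
    ‖(ptM (GT p).nf 0 (bA x0 x1 x2) (cU (bA x0 x1 x2) (1 : ℂ) (oX (bA x0 x1 x2) (p.nn).val (P2 (sl p) (Tb.deb (GT p) (bA x0 x1 x2)) (Tb.dbb (GT p) (bA x0 x1 x2))))) x3).a2‖ < (1 / 4) ∧
    ‖(ptM (GT p).nf 0 (bA x0 x1 x2) (cU (bA x0 x1 x2) (1 : ℂ) (oX (bA x0 x1 x2) (p.nn).val (P2 (sl p) (Tb.deb (GT p) (bA x0 x1 x2)) (Tb.dbb (GT p) (bA x0 x1 x2))))) x3).Sm‖ < (3 / 8) ∧
    ‖(ptM (GT p).nf 0 (bA x0 x1 x2) (cU (bA x0 x1 x2) (1 : ℂ) (oX (bA x0 x1 x2) (p.nn).val (P2 (sl p) (Tb.deb (GT p) (bA x0 x1 x2)) (Tb.dbb (GT p) (bA x0 x1 x2))))) x3).hs‖ < (1 / 4) ∧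
    ((ptM (GT p).nf 0 (bA x0 x1 x2) (cU (bA x0 x1 x2) (1 : ℂ) (oX (bA x0 x1 x2) (p.nn).val (P2 (sl p) (Tb.deb (GT p) (bA x0 x1 x2)) (Tb.dbb (GT p) (bA x0 x1 x2))))) x3).Qp + (((bA x0 x1 x2).se * ((bA x0 x1 x2).gs + (ptM (GT p).nf 0 (bA x0 x1 x2) (cU (bA x0 x1 x2) (1 : ℂ) (oX (bA x0 x1 x2) (p.nn).val (P2 (sl p) (Tb.deb (GT p) (bA x0 x1 x2)) (Tb.dbb (GT p) (bA x0 x1 x2))))) x3).Ts)) + (2 : ℂ))) ≠ 0 ∧
    ‖(P2 (tl p) (Tb.deb (GT p) (bA x0 x1 x2)) (Tb.dbb (GT p) (bA x0 x1 x2)))‖ < 2 ∧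
    0 < ((ptL (GT p).nf 0 (bA x0 x1 x2) (cU (bA x0 x1 x2) (1 : ℂ) (oX (bA x0 x1 x2) (p.nn).val (P2 (sl p) (Tb.deb (GT p) (bA x0 x1 x2)) (Tb.dbb (GT p) (bA x0 x1 x2))))) x3 (((p.ax).val * (bA x0 x1 x2).ep) + (p.ay).val) (p.xa).val (p.C2).val F2).M).re ∧
    ((ptM (GT p).nf 0 (bA x0 x1 x2) (cU (bA x0 x1 x2) (1 : ℂ) (oX (bA x0 x1 x2) (p.nn).val (P2 (sl p) (Tb.deb (GT p) (bA x0 x1 x2)) (Tb.dbb (GT p) (bA x0 x1 x2))))) x3).Qp + (1 : ℂ)) ≠ 0 ∧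
    ‖((bA x0 x1 x2).se * (ptL (GT p).nf 0 (bA x0 x1 x2) (cU (bA x0 x1 x2) (1 : ℂ) (oX (bA x0 x1 x2) (p.nn).val (P2 (sl p) (Tb.deb (GT p) (bA x0 x1 x2)) (Tb.dbb (GT p) (bA x0 x1 x2))))) x3 (((p.ax).val * (bA x0 x1 x2).ep) + (p.ay).val) (p.xa).val (p.C2).val F2).r1)‖ < (1 / 4) ∧
    (((bA x0 x1 x2).se * (ptL (GT p).nf 0 (bA x0 x1 x2) (cU (bA x0 x1 x2) (1 : ℂ) (oX (bA x0 x1 x2) (p.nn).val (P2 (sl p) (Tb.deb (GT p) (bA x0 x1 x2)) (Tb.dbb (GT p) (bA x0 x1 x2))))) x3 (((p.ax).val * (bA x0 x1 x2).ep) + (p.ay).val) (p.xa).val (p.C2).val F2).r1) + (1 : ℂ)) ≠ 0 ∧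
    ‖((bA x0 x1 x2).se * (ptL (GT p).nf 0 (bA x0 x1 x2) (cU (bA x0 x1 x2) (1 : ℂ) (oX (bA x0 x1 x2) (p.nn).val (P2 (sl p) (Tb.deb (GT p) (bA x0 x1 x2)) (Tb.dbb (GT p) (bA x0 x1 x2))))) x3 (((p.ax).val * (bA x0 x1 x2).ep) + (p.ay).val) (p.xa).val (p.C2).val F2).r2)‖ < (1 / 4) ∧
    ‖(-((bA x0 x1 x2).s * (ptL (GT p).nf 0 (bA x0 x1 x2) (cU (bA x0 x1 x2) (1 : ℂ) (oX (bA x0 x1 x2) (p.nn).val (P2 (sl p) (Tb.deb (GT p) (bA x0 x1 x2)) (Tb.dbb (GT p) (bA x0 x1 x2))))) x3 (((p.ax).val * (bA x0 x1 x2).ep) + (p.ay).val) (p.xa).val (p.C2).val F2).p2))‖ < 1 ∧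
    ‖(-((bA x0 x1 x2).s * (ptL (GT p).nf 0 (bA x0 x1 x2) (cU (bA x0 x1 x2) (1 : ℂ) (oX (bA x0 x1 x2) (p.nn).val (P2 (sl p) (Tb.deb (GT p) (bA x0 x1 x2)) (Tb.dbb (GT p) (bA x0 x1 x2))))) x3 (((p.ax).val * (bA x0 x1 x2).ep) + (p.ay).val) (p.xa).val (p.C2).val F2).p3))‖ < 1 ∧
    ((ptL (GT p).nf 0 (bA x0 x1 x2) (cU (bA x0 x1 x2) (1 : ℂ) (oX (bA x0 x1 x2) (p.nn).val (P2 (sl p) (Tb.deb (GT p) (bA x0 x1 x2)) (Tb.dbb (GT p) (bA x0 x1 x2))))) x3 (((p.ax).val * (bA x0 x1 x2).ep) + (p.ay).val) (p.xa).val (p.C2).val F2).q3 + (1 : ℂ)) ≠ 0 ∧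
    ‖((ptL (GT p).nf 0 (bA x0 x1 x2) (cU (bA x0 x1 x2) (1 : ℂ) (oX (bA x0 x1 x2) (p.nn).val (P2 (sl p) (Tb.deb (GT p) (bA x0 x1 x2)) (Tb.dbb (GT p) (bA x0 x1 x2))))) x3 (((p.ax).val * (bA x0 x1 x2).ep) + (p.ay).val) (p.xa).val (p.C2).val F2).q3 * (ptL (GT p).nf 0 (bA x0 x1 x2) (cU (bA x0 x1 x2) (1 : ℂ) (oX (bA x0 x1 x2) (p.nn).val (P2 (sl p) (Tb.deb (GT p) (bA x0 x1 x2)) (Tb.dbb (GT p) (bA x0 x1 x2))))) x3 (((p.ax).val * (bA x0 x1 x2).ep) + (p.ay).val) (p.xa).val (p.C2).val F2).i3)‖ < ((p.B1 : ℕ) : ℝ) / 2 ^ 40 ∧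
    ‖(ptL (GT p).nf 0 (bA x0 x1 x2) (cU (bA x0 x1 x2) (1 : ℂ) (oX (bA x0 x1 x2) (p.nn).val (P2 (sl p) (Tb.deb (GT p) (bA x0 x1 x2)) (Tb.dbb (GT p) (bA x0 x1 x2))))) x3 (((p.ax).val * (bA x0 x1 x2).ep) + (p.ay).val) (p.xa).val (p.C2).val F2).y‖ < 1 ∧
    ‖(-(ptL (GT p).nf 0 (bA x0 x1 x2) (cU (bA x0 x1 x2) (1 : ℂ) (oX (bA x0 x1 x2) (p.nn).val (P2 (sl p) (Tb.deb (GT p) (bA x0 x1 x2)) (Tb.dbb (GT p) (bA x0 x1 x2))))) x3 (((p.ax).val * (bA x0 x1 x2).ep) + (p.ay).val) (p.xa).val (p.C2).val F2).y)‖ < 1 ∧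
    ((ptL (GT p).nf 0 (bA x0 x1 x2) (cU (bA x0 x1 x2) (1 : ℂ) (oX (bA x0 x1 x2) (p.nn).val (P2 (sl p) (Tb.deb (GT p) (bA x0 x1 x2)) (Tb.dbb (GT p) (bA x0 x1 x2))))) x3 (((p.ax).val * (bA x0 x1 x2).ep) + (p.ay).val) (p.xa).val (p.C2).val F2).shc * ((ptL (GT p).nf 0 (bA x0 x1 x2) (cU (bA x0 x1 x2) (1 : ℂ) (oX (bA x0 x1 x2) (p.nn).val (P2 (sl p) (Tb.deb (GT p) (bA x0 x1 x2)) (Tb.dbb (GT p) (bA x0 x1 x2))))) x3 (((p.ax).val * (bA x0 x1 x2).ep) + (p.ay).val) (p.xa).val (p.C2).val F2).xa + (1 : ℂ))) ≠ 0 ∧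
    ‖(ptL (GT p).nf 0 (bA x0 x1 x2) (cU (bA x0 x1 x2) (1 : ℂ) (oX (bA x0 x1 x2) (p.nn).val (P2 (sl p) (Tb.deb (GT p) (bA x0 x1 x2)) (Tb.dbb (GT p) (bA x0 x1 x2))))) x3 (((p.ax).val * (bA x0 x1 x2).ep) + (p.ay).val) (p.xa).val (p.C2).val F2).sz‖ < (1 / 4) ∧
    (ptM (GT p).nf 0 (bA x0 x1 x2) (cU (bA x0 x1 x2) (1 : ℂ) (oX (bA x0 x1 x2) (p.nn).val (P2 (sl p) (Tb.deb (GT p) (bA x0 x1 x2)) (Tb.dbb (GT p) (bA x0 x1 x2))))) x3).c.R ≠ 0 ∧
    ‖((bA x0 x1 x2).s * (ptM (GT p).nf 0 (bA x0 x1 x2) (cU (bA x0 x1 x2) (1 : ℂ) (oX (bA x0 x1 x2) (p.nn).val (P2 (sl p) (Tb.deb (GT p) (bA x0 x1 x2)) (Tb.dbb (GT p) (bA x0 x1 x2))))) x3).Un)‖ < (1 / 2) ∧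
    (mG (ptM (GT p).nf 0 (bA x0 x1 x2) (cU (bA x0 x1 x2) (1 : ℂ) (oX (bA x0 x1 x2) (p.nn).val (P2 (sl p) (Tb.deb (GT p) (bA x0 x1 x2)) (Tb.dbb (GT p) (bA x0 x1 x2))))) x3) (Tb.tkb (GT p) (tl p) (p.tj).val (bA x0 x1 x2))).KK ≠ 0 ∧
    ‖(mG (ptM (GT p).nf 0 (bA x0 x1 x2) (cU (bA x0 x1 x2) (1 : ℂ) (oX (bA x0 x1 x2) (p.nn).val (P2 (sl p) (Tb.deb (GT p) (bA x0 x1 x2)) (Tb.dbb (GT p) (bA x0 x1 x2))))) x3) (Tb.tkb (GT p) (tl p) (p.tj).val (bA x0 x1 x2))).dq‖ < 1 ∧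
    ‖w‖ < (4095 / 4096) :=
  prog0_spec h (v0 := (bA x0 x1 x2).B)
    (v2 := (bA x0 x1 x2).b)
    (v3 := (bA x0 x1 x2).z)
    (v4 := (bA x0 x1 x2).se)
    (v15 := (E1F (bA x0 x1 x2).z))
    (v23 := (E1F (-(bA x0 x1 x2).z)))
    (v25 := (bA x0 x1 x2).sg)
    (v29 := (bA x0 x1 x2).ch)
    (v30 := (bA x0 x1 x2).kh)
    (v33 := (bA x0 x1 x2).Z4)
    (v35 := (bA x0 x1 x2).K)
    (v37 := (bA x0 x1 x2).gs)
    (v55 := (E1F (-((2 : ℂ) * (bA x0 x1 x2).b))))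
    (v57 := (bA x0 x1 x2).wb)
    (v77 := (LmF ((bA x0 x1 x2).s * (bA x0 x1 x2).wb)))
    (v78 := (bA x0 x1 x2).lb)
    (v79 := (GT p).ec)
    (v80 := (GT p).bc)
    (v81 := (Tb.deb (GT p) (bA x0 x1 x2)))
    (v82 := (Tb.dbb (GT p) (bA x0 x1 x2)))
    (v100 := (P2 (sl p) (Tb.deb (GT p) (bA x0 x1 x2)) (Tb.dbb (GT p) (bA x0 x1 x2))))
    (v101 := (oH (bA x0 x1 x2) (p.nn).val))
    (v115 := (E1F (-(oH (bA x0 x1 x2) (p.nn).val))))
    (v116 := (oP (bA x0 x1 x2) (p.nn).val))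
    (v125 := (oX (bA x0 x1 x2) (p.nn).val (P2 (sl p) (Tb.deb (GT p) (bA x0 x1 x2)) (Tb.dbb (GT p) (bA x0 x1 x2)))))
    (v135 := (cN (bA x0 x1 x2) (1 : ℂ) (oX (bA x0 x1 x2) (p.nn).val (P2 (sl p) (Tb.deb (GT p) (bA x0 x1 x2)) (Tb.dbb (GT p) (bA x0 x1 x2))))))
    (v140 := (cDn (bA x0 x1 x2) (1 : ℂ) (oX (bA x0 x1 x2) (p.nn).val (P2 (sl p) (Tb.deb (GT p) (bA x0 x1 x2)) (Tb.dbb (GT p) (bA x0 x1 x2))))))
    (v143 := (ptM (GT p).nf 0 (bA x0 x1 x2) (cU (bA x0 x1 x2) (1 : ℂ) (oX (bA x0 x1 x2) (p.nn).val (P2 (sl p) (Tb.deb (GT p) (bA x0 x1 x2)) (Tb.dbb (GT p) (bA x0 x1 x2))))) x3).U)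
    (v144 := (ptM (GT p).nf 0 (bA x0 x1 x2) (cU (bA x0 x1 x2) (1 : ℂ) (oX (bA x0 x1 x2) (p.nn).val (P2 (sl p) (Tb.deb (GT p) (bA x0 x1 x2)) (Tb.dbb (GT p) (bA x0 x1 x2))))) x3).q1)
    (v147 := (Tb.un (bA x0 x1 x2) (ptM (GT p).nf 0 (bA x0 x1 x2) (cU (bA x0 x1 x2) (1 : ℂ) (oX (bA x0 x1 x2) (p.nn).val (P2 (sl p) (Tb.deb (GT p) (bA x0 x1 x2)) (Tb.dbb (GT p) (bA x0 x1 x2))))) x3).U))
    (v148 := (ptM (GT p).nf 0 (bA x0 x1 x2) (cU (bA x0 x1 x2) (1 : ℂ) (oX (bA x0 x1 x2) (p.nn).val (P2 (sl p) (Tb.deb (GT p) (bA x0 x1 x2)) (Tb.dbb (GT p) (bA x0 x1 x2))))) x3).um)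
    (v150 := (ptM (GT p).nf 0 (bA x0 x1 x2) (cU (bA x0 x1 x2) (1 : ℂ) (oX (bA x0 x1 x2) (p.nn).val (P2 (sl p) (Tb.deb (GT p) (bA x0 x1 x2)) (Tb.dbb (GT p) (bA x0 x1 x2))))) x3).Y)
    (v151 := (Tb.yn (bA x0 x1 x2) (ptM (GT p).nf 0 (bA x0 x1 x2) (cU (bA x0 x1 x2) (1 : ℂ) (oX (bA x0 x1 x2) (p.nn).val (P2 (sl p) (Tb.deb (GT p) (bA x0 x1 x2)) (Tb.dbb (GT p) (bA x0 x1 x2))))) x3).U))
    (v153 := (Tb.ek (bA x0 x1 x2)))
    (v214 := (HP (GT p).pol (GT p).H (Tb.yn (bA x0 x1 x2) (ptM (GT p).nf 0 (bA x0 x1 x2) (cU (bA x0 x1 x2) (1 : ℂ) (oX (bA x0 x1 x2) (p.nn).val (P2 (sl p) (Tb.deb (GT p) (bA x0 x1 x2)) (Tb.dbb (GT p) (bA x0 x1 x2))))) x3).U) (Tb.deb (GT p) (bA x0 x1 x2)) (Tb.dbb (GT p) (bA x0 x1 x2))))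
    (v223 := (ptM (GT p).nf 0 (bA x0 x1 x2) (cU (bA x0 x1 x2) (1 : ℂ) (oX (bA x0 x1 x2) (p.nn).val (P2 (sl p) (Tb.deb (GT p) (bA x0 x1 x2)) (Tb.dbb (GT p) (bA x0 x1 x2))))) x3).c.L)
    (v240 := (Tb.anb (GT p) 0 (bA x0 x1 x2)))
    (v241 := ((GT p).c 0))
    (v248 := (ptM (GT p).nf 0 (bA x0 x1 x2) (cU (bA x0 x1 x2) (1 : ℂ) (oX (bA x0 x1 x2) (p.nn).val (P2 (sl p) (Tb.deb (GT p) (bA x0 x1 x2)) (Tb.dbb (GT p) (bA x0 x1 x2))))) x3).c.R)
    (v263 := (E1F (-((bA x0 x1 x2).s * (ptM (GT p).nf 0 (bA x0 x1 x2) (cU (bA x0 x1 x2) (1 : ℂ) (oX (bA x0 x1 x2) (p.nn).val (P2 (sl p) (Tb.deb (GT p) (bA x0 x1 x2)) (Tb.dbb (GT p) (bA x0 x1 x2))))) x3).c.L))))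
    (v265 := (ptM (GT p).nf 0 (bA x0 x1 x2) (cU (bA x0 x1 x2) (1 : ℂ) (oX (bA x0 x1 x2) (p.nn).val (P2 (sl p) (Tb.deb (GT p) (bA x0 x1 x2)) (Tb.dbb (GT p) (bA x0 x1 x2))))) x3).c.wl)
    (v268 := (ptM (GT p).nf 0 (bA x0 x1 x2) (cU (bA x0 x1 x2) (1 : ℂ) (oX (bA x0 x1 x2) (p.nn).val (P2 (sl p) (Tb.deb (GT p) (bA x0 x1 x2)) (Tb.dbb (GT p) (bA x0 x1 x2))))) x3).c.E)
    (v287 := (LmF ((bA x0 x1 x2).s * (ptM (GT p).nf 0 (bA x0 x1 x2) (cU (bA x0 x1 x2) (1 : ℂ) (oX (bA x0 x1 x2) (p.nn).val (P2 (sl p) (Tb.deb (GT p) (bA x0 x1 x2)) (Tb.dbb (GT p) (bA x0 x1 x2))))) x3).c.wl)))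
    (v288 := (ptM (GT p).nf 0 (bA x0 x1 x2) (cU (bA x0 x1 x2) (1 : ℂ) (oX (bA x0 x1 x2) (p.nn).val (P2 (sl p) (Tb.deb (GT p) (bA x0 x1 x2)) (Tb.dbb (GT p) (bA x0 x1 x2))))) x3).c.lam)
    (v289 := (ptM (GT p).nf 0 (bA x0 x1 x2) (cU (bA x0 x1 x2) (1 : ℂ) (oX (bA x0 x1 x2) (p.nn).val (P2 (sl p) (Tb.deb (GT p) (bA x0 x1 x2)) (Tb.dbb (GT p) (bA x0 x1 x2))))) x3).c.Rx)
    (v290 := (ptM (GT p).nf 0 (bA x0 x1 x2) (cU (bA x0 x1 x2) (1 : ℂ) (oX (bA x0 x1 x2) (p.nn).val (P2 (sl p) (Tb.deb (GT p) (bA x0 x1 x2)) (Tb.dbb (GT p) (bA x0 x1 x2))))) x3).c.ER)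
    (v308 := (LmF ((bA x0 x1 x2).s * (ptM (GT p).nf 0 (bA x0 x1 x2) (cU (bA x0 x1 x2) (1 : ℂ) (oX (bA x0 x1 x2) (p.nn).val (P2 (sl p) (Tb.deb (GT p) (bA x0 x1 x2)) (Tb.dbb (GT p) (bA x0 x1 x2))))) x3).c.ER)))
    (v309 := (ptM (GT p).nf 0 (bA x0 x1 x2) (cU (bA x0 x1 x2) (1 : ℂ) (oX (bA x0 x1 x2) (p.nn).val (P2 (sl p) (Tb.deb (GT p) (bA x0 x1 x2)) (Tb.dbb (GT p) (bA x0 x1 x2))))) x3).c.l1)
    (v328 := (LmF (-((bA x0 x1 x2).s * (ptM (GT p).nf 0 (bA x0 x1 x2) (cU (bA x0 x1 x2) (1 : ℂ) (oX (bA x0 x1 x2) (p.nn).val (P2 (sl p) (Tb.deb (GT p) (bA x0 x1 x2)) (Tb.dbb (GT p) (bA x0 x1 x2))))) x3).c.Rx))))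
    (v330 := (ptM (GT p).nf 0 (bA x0 x1 x2) (cU (bA x0 x1 x2) (1 : ℂ) (oX (bA x0 x1 x2) (p.nn).val (P2 (sl p) (Tb.deb (GT p) (bA x0 x1 x2)) (Tb.dbb (GT p) (bA x0 x1 x2))))) x3).c.l2)
    (v332 := (ptM (GT p).nf 0 (bA x0 x1 x2) (cU (bA x0 x1 x2) (1 : ℂ) (oX (bA x0 x1 x2) (p.nn).val (P2 (sl p) (Tb.deb (GT p) (bA x0 x1 x2)) (Tb.dbb (GT p) (bA x0 x1 x2))))) x3).c.Lam)
    (v336 := (ptM (GT p).nf 0 (bA x0 x1 x2) (cU (bA x0 x1 x2) (1 : ℂ) (oX (bA x0 x1 x2) (p.nn).val (P2 (sl p) (Tb.deb (GT p) (bA x0 x1 x2)) (Tb.dbb (GT p) (bA x0 x1 x2))))) x3).c.g1)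
    (v337 := (ptM (GT p).nf 0 (bA x0 x1 x2) (cU (bA x0 x1 x2) (1 : ℂ) (oX (bA x0 x1 x2) (p.nn).val (P2 (sl p) (Tb.deb (GT p) (bA x0 x1 x2)) (Tb.dbb (GT p) (bA x0 x1 x2))))) x3).c.x3)
    (v344 := (E1F (ptM (GT p).nf 0 (bA x0 x1 x2) (cU (bA x0 x1 x2) (1 : ℂ) (oX (bA x0 x1 x2) (p.nn).val (P2 (sl p) (Tb.deb (GT p) (bA x0 x1 x2)) (Tb.dbb (GT p) (bA x0 x1 x2))))) x3).c.x3))
    (v345 := (ptM (GT p).nf 0 (bA x0 x1 x2) (cU (bA x0 x1 x2) (1 : ℂ) (oX (bA x0 x1 x2) (p.nn).val (P2 (sl p) (Tb.deb (GT p) (bA x0 x1 x2)) (Tb.dbb (GT p) (bA x0 x1 x2))))) x3).wm)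
    (v347 := (ptM (GT p).nf 0 (bA x0 x1 x2) (cU (bA x0 x1 x2) (1 : ℂ) (oX (bA x0 x1 x2) (p.nn).val (P2 (sl p) (Tb.deb (GT p) (bA x0 x1 x2)) (Tb.dbb (GT p) (bA x0 x1 x2))))) x3).w)
    (v349 := (ptM (GT p).nf 0 (bA x0 x1 x2) (cU (bA x0 x1 x2) (1 : ℂ) (oX (bA x0 x1 x2) (p.nn).val (P2 (sl p) (Tb.deb (GT p) (bA x0 x1 x2)) (Tb.dbb (GT p) (bA x0 x1 x2))))) x3).g2)
    (v351 := (ptM (GT p).nf 0 (bA x0 x1 x2) (cU (bA x0 x1 x2) (1 : ℂ) (oX (bA x0 x1 x2) (p.nn).val (P2 (sl p) (Tb.deb (GT p) (bA x0 x1 x2)) (Tb.dbb (GT p) (bA x0 x1 x2))))) x3).a2)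
    (v358 := (E1F (ptM (GT p).nf 0 (bA x0 x1 x2) (cU (bA x0 x1 x2) (1 : ℂ) (oX (bA x0 x1 x2) (p.nn).val (P2 (sl p) (Tb.deb (GT p) (bA x0 x1 x2)) (Tb.dbb (GT p) (bA x0 x1 x2))))) x3).a2))
    (v360 := (ptM (GT p).nf 0 (bA x0 x1 x2) (cU (bA x0 x1 x2) (1 : ℂ) (oX (bA x0 x1 x2) (p.nn).val (P2 (sl p) (Tb.deb (GT p) (bA x0 x1 x2)) (Tb.dbb (GT p) (bA x0 x1 x2))))) x3).A2)
    (v366 := (ptM (GT p).nf 0 (bA x0 x1 x2) (cU (bA x0 x1 x2) (1 : ℂ) (oX (bA x0 x1 x2) (p.nn).val (P2 (sl p) (Tb.deb (GT p) (bA x0 x1 x2)) (Tb.dbb (GT p) (bA x0 x1 x2))))) x3).Dl)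
    (v367 := (ptM (GT p).nf 0 (bA x0 x1 x2) (cU (bA x0 x1 x2) (1 : ℂ) (oX (bA x0 x1 x2) (p.nn).val (P2 (sl p) (Tb.deb (GT p) (bA x0 x1 x2)) (Tb.dbb (GT p) (bA x0 x1 x2))))) x3).Sm)
    (v384 := (LmF (ptM (GT p).nf 0 (bA x0 x1 x2) (cU (bA x0 x1 x2) (1 : ℂ) (oX (bA x0 x1 x2) (p.nn).val (P2 (sl p) (Tb.deb (GT p) (bA x0 x1 x2)) (Tb.dbb (GT p) (bA x0 x1 x2))))) x3).Sm))
    (v385 := (ptM (GT p).nf 0 (bA x0 x1 x2) (cU (bA x0 x1 x2) (1 : ℂ) (oX (bA x0 x1 x2) (p.nn).val (P2 (sl p) (Tb.deb (GT p) (bA x0 x1 x2)) (Tb.dbb (GT p) (bA x0 x1 x2))))) x3).ls)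
    (v387 := (ptM (GT p).nf 0 (bA x0 x1 x2) (cU (bA x0 x1 x2) (1 : ℂ) (oX (bA x0 x1 x2) (p.nn).val (P2 (sl p) (Tb.deb (GT p) (bA x0 x1 x2)) (Tb.dbb (GT p) (bA x0 x1 x2))))) x3).hs)
    (v394 := (E1F (ptM (GT p).nf 0 (bA x0 x1 x2) (cU (bA x0 x1 x2) (1 : ℂ) (oX (bA x0 x1 x2) (p.nn).val (P2 (sl p) (Tb.deb (GT p) (bA x0 x1 x2)) (Tb.dbb (GT p) (bA x0 x1 x2))))) x3).hs))
    (v395 := (ptM (GT p).nf 0 (bA x0 x1 x2) (cU (bA x0 x1 x2) (1 : ℂ) (oX (bA x0 x1 x2) (p.nn).val (P2 (sl p) (Tb.deb (GT p) (bA x0 x1 x2)) (Tb.dbb (GT p) (bA x0 x1 x2))))) x3).Qp)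
    (v396 := (ptM (GT p).nf 0 (bA x0 x1 x2) (cU (bA x0 x1 x2) (1 : ℂ) (oX (bA x0 x1 x2) (p.nn).val (P2 (sl p) (Tb.deb (GT p) (bA x0 x1 x2)) (Tb.dbb (GT p) (bA x0 x1 x2))))) x3).Ts)
    (v399 := (ptM (GT p).nf 0 (bA x0 x1 x2) (cU (bA x0 x1 x2) (1 : ℂ) (oX (bA x0 x1 x2) (p.nn).val (P2 (sl p) (Tb.deb (GT p) (bA x0 x1 x2)) (Tb.dbb (GT p) (bA x0 x1 x2))))) x3).X1)
    (v407 := (ptM (GT p).nf 0 (bA x0 x1 x2) (cU (bA x0 x1 x2) (1 : ℂ) (oX (bA x0 x1 x2) (p.nn).val (P2 (sl p) (Tb.deb (GT p) (bA x0 x1 x2)) (Tb.dbb (GT p) (bA x0 x1 x2))))) x3).Bk)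
    (v410 := (ptM (GT p).nf 0 (bA x0 x1 x2) (cU (bA x0 x1 x2) (1 : ℂ) (oX (bA x0 x1 x2) (p.nn).val (P2 (sl p) (Tb.deb (GT p) (bA x0 x1 x2)) (Tb.dbb (GT p) (bA x0 x1 x2))))) x3).D)
    (v415 := (ptM (GT p).nf 0 (bA x0 x1 x2) (cU (bA x0 x1 x2) (1 : ℂ) (oX (bA x0 x1 x2) (p.nn).val (P2 (sl p) (Tb.deb (GT p) (bA x0 x1 x2)) (Tb.dbb (GT p) (bA x0 x1 x2))))) x3).iq)
    (v416 := (ptM (GT p).nf 0 (bA x0 x1 x2) (cU (bA x0 x1 x2) (1 : ℂ) (oX (bA x0 x1 x2) (p.nn).val (P2 (sl p) (Tb.deb (GT p) (bA x0 x1 x2)) (Tb.dbb (GT p) (bA x0 x1 x2))))) x3).Di)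
    (v418 := (ptM (GT p).nf 0 (bA x0 x1 x2) (cU (bA x0 x1 x2) (1 : ℂ) (oX (bA x0 x1 x2) (p.nn).val (P2 (sl p) (Tb.deb (GT p) (bA x0 x1 x2)) (Tb.dbb (GT p) (bA x0 x1 x2))))) x3).Un)
    (v434 := (P2 (tl p) (Tb.deb (GT p) (bA x0 x1 x2)) (Tb.dbb (GT p) (bA x0 x1 x2))))
    (v439 := (Tb.tkb (GT p) (tl p) (p.tj).val (bA x0 x1 x2)))
    (v465 := (ptL (GT p).nf 0 (bA x0 x1 x2) (cU (bA x0 x1 x2) (1 : ℂ) (oX (bA x0 x1 x2) (p.nn).val (P2 (sl p) (Tb.deb (GT p) (bA x0 x1 x2)) (Tb.dbb (GT p) (bA x0 x1 x2))))) x3 (((p.ax).val * (bA x0 x1 x2).ep) + (p.ay).val) (p.xa).val (p.C2).val F2).M)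
    (v469 := (ptL (GT p).nf 0 (bA x0 x1 x2) (cU (bA x0 x1 x2) (1 : ℂ) (oX (bA x0 x1 x2) (p.nn).val (P2 (sl p) (Tb.deb (GT p) (bA x0 x1 x2)) (Tb.dbb (GT p) (bA x0 x1 x2))))) x3 (((p.ax).val * (bA x0 x1 x2).ep) + (p.ay).val) (p.xa).val (p.C2).val F2).Ae)
    (v470 := (ptL (GT p).nf 0 (bA x0 x1 x2) (cU (bA x0 x1 x2) (1 : ℂ) (oX (bA x0 x1 x2) (p.nn).val (P2 (sl p) (Tb.deb (GT p) (bA x0 x1 x2)) (Tb.dbb (GT p) (bA x0 x1 x2))))) x3 (((p.ax).val * (bA x0 x1 x2).ep) + (p.ay).val) (p.xa).val (p.C2).val F2).xa)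
    (v471 := (ptL (GT p).nf 0 (bA x0 x1 x2) (cU (bA x0 x1 x2) (1 : ℂ) (oX (bA x0 x1 x2) (p.nn).val (P2 (sl p) (Tb.deb (GT p) (bA x0 x1 x2)) (Tb.dbb (GT p) (bA x0 x1 x2))))) x3 (((p.ax).val * (bA x0 x1 x2).ep) + (p.ay).val) (p.xa).val (p.C2).val F2).C2)
    (v473 := (ptL (GT p).nf 0 (bA x0 x1 x2) (cU (bA x0 x1 x2) (1 : ℂ) (oX (bA x0 x1 x2) (p.nn).val (P2 (sl p) (Tb.deb (GT p) (bA x0 x1 x2)) (Tb.dbb (GT p) (bA x0 x1 x2))))) x3 (((p.ax).val * (bA x0 x1 x2).ep) + (p.ay).val) (p.xa).val (p.C2).val F2).iQ)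
    (v476 := (ptL (GT p).nf 0 (bA x0 x1 x2) (cU (bA x0 x1 x2) (1 : ℂ) (oX (bA x0 x1 x2) (p.nn).val (P2 (sl p) (Tb.deb (GT p) (bA x0 x1 x2)) (Tb.dbb (GT p) (bA x0 x1 x2))))) x3 (((p.ax).val * (bA x0 x1 x2).ep) + (p.ay).val) (p.xa).val (p.C2).val F2).r1)
    (v490 := (LmF ((bA x0 x1 x2).se * (ptL (GT p).nf 0 (bA x0 x1 x2) (cU (bA x0 x1 x2) (1 : ℂ) (oX (bA x0 x1 x2) (p.nn).val (P2 (sl p) (Tb.deb (GT p) (bA x0 x1 x2)) (Tb.dbb (GT p) (bA x0 x1 x2))))) x3 (((p.ax).val * (bA x0 x1 x2).ep) + (p.ay).val) (p.xa).val (p.C2).val F2).r1)))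
    (v491 := (ptL (GT p).nf 0 (bA x0 x1 x2) (cU (bA x0 x1 x2) (1 : ℂ) (oX (bA x0 x1 x2) (p.nn).val (P2 (sl p) (Tb.deb (GT p) (bA x0 x1 x2)) (Tb.dbb (GT p) (bA x0 x1 x2))))) x3 (((p.ax).val * (bA x0 x1 x2).ep) + (p.ay).val) (p.xa).val (p.C2).val F2).p2)
    (v493 := (ptL (GT p).nf 0 (bA x0 x1 x2) (cU (bA x0 x1 x2) (1 : ℂ) (oX (bA x0 x1 x2) (p.nn).val (P2 (sl p) (Tb.deb (GT p) (bA x0 x1 x2)) (Tb.dbb (GT p) (bA x0 x1 x2))))) x3 (((p.ax).val * (bA x0 x1 x2).ep) + (p.ay).val) (p.xa).val (p.C2).val F2).iQ1)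
    (v495 := (ptL (GT p).nf 0 (bA x0 x1 x2) (cU (bA x0 x1 x2) (1 : ℂ) (oX (bA x0 x1 x2) (p.nn).val (P2 (sl p) (Tb.deb (GT p) (bA x0 x1 x2)) (Tb.dbb (GT p) (bA x0 x1 x2))))) x3 (((p.ax).val * (bA x0 x1 x2).ep) + (p.ay).val) (p.xa).val (p.C2).val F2).r2)
    (v509 := (LmF ((bA x0 x1 x2).se * (ptL (GT p).nf 0 (bA x0 x1 x2) (cU (bA x0 x1 x2) (1 : ℂ) (oX (bA x0 x1 x2) (p.nn).val (P2 (sl p) (Tb.deb (GT p) (bA x0 x1 x2)) (Tb.dbb (GT p) (bA x0 x1 x2))))) x3 (((p.ax).val * (bA x0 x1 x2).ep) + (p.ay).val) (p.xa).val (p.C2).val F2).r2)))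
    (v510 := (ptL (GT p).nf 0 (bA x0 x1 x2) (cU (bA x0 x1 x2) (1 : ℂ) (oX (bA x0 x1 x2) (p.nn).val (P2 (sl p) (Tb.deb (GT p) (bA x0 x1 x2)) (Tb.dbb (GT p) (bA x0 x1 x2))))) x3 (((p.ax).val * (bA x0 x1 x2).ep) + (p.ay).val) (p.xa).val (p.C2).val F2).p3)
    (v527 := (E1F (-((bA x0 x1 x2).s * (ptL (GT p).nf 0 (bA x0 x1 x2) (cU (bA x0 x1 x2) (1 : ℂ) (oX (bA x0 x1 x2) (p.nn).val (P2 (sl p) (Tb.deb (GT p) (bA x0 x1 x2)) (Tb.dbb (GT p) (bA x0 x1 x2))))) x3 (((p.ax).val * (bA x0 x1 x2).ep) + (p.ay).val) (p.xa).val (p.C2).val F2).p2))))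
    (v528 := (ptL (GT p).nf 0 (bA x0 x1 x2) (cU (bA x0 x1 x2) (1 : ℂ) (oX (bA x0 x1 x2) (p.nn).val (P2 (sl p) (Tb.deb (GT p) (bA x0 x1 x2)) (Tb.dbb (GT p) (bA x0 x1 x2))))) x3 (((p.ax).val * (bA x0 x1 x2).ep) + (p.ay).val) (p.xa).val (p.C2).val F2).P2)
    (v541 := (E1F (-((bA x0 x1 x2).s * (ptL (GT p).nf 0 (bA x0 x1 x2) (cU (bA x0 x1 x2) (1 : ℂ) (oX (bA x0 x1 x2) (p.nn).val (P2 (sl p) (Tb.deb (GT p) (bA x0 x1 x2)) (Tb.dbb (GT p) (bA x0 x1 x2))))) x3 (((p.ax).val * (bA x0 x1 x2).ep) + (p.ay).val) (p.xa).val (p.C2).val F2).p3))))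
    (v542 := (ptL (GT p).nf 0 (bA x0 x1 x2) (cU (bA x0 x1 x2) (1 : ℂ) (oX (bA x0 x1 x2) (p.nn).val (P2 (sl p) (Tb.deb (GT p) (bA x0 x1 x2)) (Tb.dbb (GT p) (bA x0 x1 x2))))) x3 (((p.ax).val * (bA x0 x1 x2).ep) + (p.ay).val) (p.xa).val (p.C2).val F2).P3)
    (v544 := (ptL (GT p).nf 0 (bA x0 x1 x2) (cU (bA x0 x1 x2) (1 : ℂ) (oX (bA x0 x1 x2) (p.nn).val (P2 (sl p) (Tb.deb (GT p) (bA x0 x1 x2)) (Tb.dbb (GT p) (bA x0 x1 x2))))) x3 (((p.ax).val * (bA x0 x1 x2).ep) + (p.ay).val) (p.xa).val (p.C2).val F2).q3)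
    (v546 := (ptL (GT p).nf 0 (bA x0 x1 x2) (cU (bA x0 x1 x2) (1 : ℂ) (oX (bA x0 x1 x2) (p.nn).val (P2 (sl p) (Tb.deb (GT p) (bA x0 x1 x2)) (Tb.dbb (GT p) (bA x0 x1 x2))))) x3 (((p.ax).val * (bA x0 x1 x2).ep) + (p.ay).val) (p.xa).val (p.C2).val F2).i3)
    (v549 := (ptL (GT p).nf 0 (bA x0 x1 x2) (cU (bA x0 x1 x2) (1 : ℂ) (oX (bA x0 x1 x2) (p.nn).val (P2 (sl p) (Tb.deb (GT p) (bA x0 x1 x2)) (Tb.dbb (GT p) (bA x0 x1 x2))))) x3 (((p.ax).val * (bA x0 x1 x2).ep) + (p.ay).val) (p.xa).val (p.C2).val F2).F2c)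
    (v559 := (ptL (GT p).nf 0 (bA x0 x1 x2) (cU (bA x0 x1 x2) (1 : ℂ) (oX (bA x0 x1 x2) (p.nn).val (P2 (sl p) (Tb.deb (GT p) (bA x0 x1 x2)) (Tb.dbb (GT p) (bA x0 x1 x2))))) x3 (((p.ax).val * (bA x0 x1 x2).ep) + (p.ay).val) (p.xa).val (p.C2).val F2).er)
    (v560 := F2)
    (v566 := (ptL (GT p).nf 0 (bA x0 x1 x2) (cU (bA x0 x1 x2) (1 : ℂ) (oX (bA x0 x1 x2) (p.nn).val (P2 (sl p) (Tb.deb (GT p) (bA x0 x1 x2)) (Tb.dbb (GT p) (bA x0 x1 x2))))) x3 (((p.ax).val * (bA x0 x1 x2).ep) + (p.ay).val) (p.xa).val (p.C2).val F2).Pt)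
    (v568 := (ptL (GT p).nf 0 (bA x0 x1 x2) (cU (bA x0 x1 x2) (1 : ℂ) (oX (bA x0 x1 x2) (p.nn).val (P2 (sl p) (Tb.deb (GT p) (bA x0 x1 x2)) (Tb.dbb (GT p) (bA x0 x1 x2))))) x3 (((p.ax).val * (bA x0 x1 x2).ep) + (p.ay).val) (p.xa).val (p.C2).val F2).y)
    (v581 := (E1F (ptL (GT p).nf 0 (bA x0 x1 x2) (cU (bA x0 x1 x2) (1 : ℂ) (oX (bA x0 x1 x2) (p.nn).val (P2 (sl p) (Tb.deb (GT p) (bA x0 x1 x2)) (Tb.dbb (GT p) (bA x0 x1 x2))))) x3 (((p.ax).val * (bA x0 x1 x2).ep) + (p.ay).val) (p.xa).val (p.C2).val F2).y))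
    (v595 := (E1F (-(ptL (GT p).nf 0 (bA x0 x1 x2) (cU (bA x0 x1 x2) (1 : ℂ) (oX (bA x0 x1 x2) (p.nn).val (P2 (sl p) (Tb.deb (GT p) (bA x0 x1 x2)) (Tb.dbb (GT p) (bA x0 x1 x2))))) x3 (((p.ax).val * (bA x0 x1 x2).ep) + (p.ay).val) (p.xa).val (p.C2).val F2).y)))
    (v597 := (ptL (GT p).nf 0 (bA x0 x1 x2) (cU (bA x0 x1 x2) (1 : ℂ) (oX (bA x0 x1 x2) (p.nn).val (P2 (sl p) (Tb.deb (GT p) (bA x0 x1 x2)) (Tb.dbb (GT p) (bA x0 x1 x2))))) x3 (((p.ax).val * (bA x0 x1 x2).ep) + (p.ay).val) (p.xa).val (p.C2).val F2).shc)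
    (v600 := (ptL (GT p).nf 0 (bA x0 x1 x2) (cU (bA x0 x1 x2) (1 : ℂ) (oX (bA x0 x1 x2) (p.nn).val (P2 (sl p) (Tb.deb (GT p) (bA x0 x1 x2)) (Tb.dbb (GT p) (bA x0 x1 x2))))) x3 (((p.ax).val * (bA x0 x1 x2).ep) + (p.ay).val) (p.xa).val (p.C2).val F2).ex)
    (v608 := (ptL (GT p).nf 0 (bA x0 x1 x2) (cU (bA x0 x1 x2) (1 : ℂ) (oX (bA x0 x1 x2) (p.nn).val (P2 (sl p) (Tb.deb (GT p) (bA x0 x1 x2)) (Tb.dbb (GT p) (bA x0 x1 x2))))) x3 (((p.ax).val * (bA x0 x1 x2).ep) + (p.ay).val) (p.xa).val (p.C2).val F2).X)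
    (v611 := (ptL (GT p).nf 0 (bA x0 x1 x2) (cU (bA x0 x1 x2) (1 : ℂ) (oX (bA x0 x1 x2) (p.nn).val (P2 (sl p) (Tb.deb (GT p) (bA x0 x1 x2)) (Tb.dbb (GT p) (bA x0 x1 x2))))) x3 (((p.ax).val * (bA x0 x1 x2).ep) + (p.ay).val) (p.xa).val (p.C2).val F2).ze)
    (v613 := (ptL (GT p).nf 0 (bA x0 x1 x2) (cU (bA x0 x1 x2) (1 : ℂ) (oX (bA x0 x1 x2) (p.nn).val (P2 (sl p) (Tb.deb (GT p) (bA x0 x1 x2)) (Tb.dbb (GT p) (bA x0 x1 x2))))) x3 (((p.ax).val * (bA x0 x1 x2).ep) + (p.ay).val) (p.xa).val (p.C2).val F2).sz)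
    (v620 := (E1F (ptL (GT p).nf 0 (bA x0 x1 x2) (cU (bA x0 x1 x2) (1 : ℂ) (oX (bA x0 x1 x2) (p.nn).val (P2 (sl p) (Tb.deb (GT p) (bA x0 x1 x2)) (Tb.dbb (GT p) (bA x0 x1 x2))))) x3 (((p.ax).val * (bA x0 x1 x2).ep) + (p.ay).val) (p.xa).val (p.C2).val F2).sz))
    (v622 := (ptL (GT p).nf 0 (bA x0 x1 x2) (cU (bA x0 x1 x2) (1 : ℂ) (oX (bA x0 x1 x2) (p.nn).val (P2 (sl p) (Tb.deb (GT p) (bA x0 x1 x2)) (Tb.dbb (GT p) (bA x0 x1 x2))))) x3 (((p.ax).val * (bA x0 x1 x2).ep) + (p.ay).val) (p.xa).val (p.C2).val F2).Ez)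
    (v623 := (ptL (GT p).nf 0 (bA x0 x1 x2) (cU (bA x0 x1 x2) (1 : ℂ) (oX (bA x0 x1 x2) (p.nn).val (P2 (sl p) (Tb.deb (GT p) (bA x0 x1 x2)) (Tb.dbb (GT p) (bA x0 x1 x2))))) x3 (((p.ax).val * (bA x0 x1 x2).ep) + (p.ay).val) (p.xa).val (p.C2).val F2).iR)
    (v627 := (ptL (GT p).nf 0 (bA x0 x1 x2) (cU (bA x0 x1 x2) (1 : ℂ) (oX (bA x0 x1 x2) (p.nn).val (P2 (sl p) (Tb.deb (GT p) (bA x0 x1 x2)) (Tb.dbb (GT p) (bA x0 x1 x2))))) x3 (((p.ax).val * (bA x0 x1 x2).ep) + (p.ay).val) (p.xa).val (p.C2).val F2).law)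
    (v630 := (ptL (GT p).nf 0 (bA x0 x1 x2) (cU (bA x0 x1 x2) (1 : ℂ) (oX (bA x0 x1 x2) (p.nn).val (P2 (sl p) (Tb.deb (GT p) (bA x0 x1 x2)) (Tb.dbb (GT p) (bA x0 x1 x2))))) x3 (((p.ax).val * (bA x0 x1 x2).ep) + (p.ay).val) (p.xa).val (p.C2).val F2).A)
    (v636 := (ptL (GT p).nf 0 (bA x0 x1 x2) (cU (bA x0 x1 x2) (1 : ℂ) (oX (bA x0 x1 x2) (p.nn).val (P2 (sl p) (Tb.deb (GT p) (bA x0 x1 x2)) (Tb.dbb (GT p) (bA x0 x1 x2))))) x3 (((p.ax).val * (bA x0 x1 x2).ep) + (p.ay).val) (p.xa).val (p.C2).val F2).G)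
    (v640 := (mG (ptM (GT p).nf 0 (bA x0 x1 x2) (cU (bA x0 x1 x2) (1 : ℂ) (oX (bA x0 x1 x2) (p.nn).val (P2 (sl p) (Tb.deb (GT p) (bA x0 x1 x2)) (Tb.dbb (GT p) (bA x0 x1 x2))))) x3) (Tb.tkb (GT p) (tl p) (p.tj).val (bA x0 x1 x2))).KK)
    (v644 := (mG (ptM (GT p).nf 0 (bA x0 x1 x2) (cU (bA x0 x1 x2) (1 : ℂ) (oX (bA x0 x1 x2) (p.nn).val (P2 (sl p) (Tb.deb (GT p) (bA x0 x1 x2)) (Tb.dbb (GT p) (bA x0 x1 x2))))) x3) (Tb.tkb (GT p) (tl p) (p.tj).val (bA x0 x1 x2))).dq)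
    (v645 := w)
    rfl
    rfl
    rfl
    rfl
    rfl
    rfl
    rfl
    rfl
    rfl
    rfl
    rfl
    rfl
    rfl
    rfl
    rfl
    (fun  h => Ex12_b (h.trans_le (by norm_num)))
    rfl
    rfl
    rfl
    rfl
    rfl
    rfl
    rfl
    (fun _ h => Ex12_b (h.trans_le (by norm_num)))
    rfl
    rfl
    rfl
    rfl
    rfl
    rfl
    rfl
    rfl
    rfl
    rfl
    rfl
    rfl
    rfl
    rfl
    rfl
    rfl
    rfl
    rfl
    rfl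
    rfl
    rfl
    rfl
    rfl
    rfl
    rfl
    rfl
    rfl
    rfl
    rfl
    rfl
    rfl
    (fun _ _ h => Ex1_b h)
    rfl
    rfl
    rfl
    rfl
    rfl
    rfl
    rfl
    rfl
    rfl
    rfl
    rfl
    rfl
    rfl
    rfl
    rfl
    rfl
    rfl
    rfl
    rfl
    rfl
    rfl
    (fun _ _ _ h => Lm4_b h)
    rfl
    rfl
    rfl
    rfl
    rfl
    rfl
    rfl
    rfl
    rfl
    rfl
    rfl
    rfl
    rfl
    rfl
    rfl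
    rfl
    rfl
    rfl
    rfl
    rfl
    rfl
    rfl
    rfl
    rfl
    rfl
    rfl
    rfl
    rfl
    rfl
    rfl
    rfl
    rfl
    rfl
    rfl
    rfl
    rfl
    rfl
    (fun _ _ _ _ h => Ex1_b h)
    rfl
    rfl
    rfl
    rfl
    rfl
    rfl
    rfl
    rfl
    rfl
    rfl
    rfl
    rfl
    rfl
    rfl
    rfl
    rfl
    rfl
    rfl
    rfl
    rfl
    rfl
    rfl
    rfl
    rfl
    rfl
    rfl
    rfl
    rfl
    rfl
    rfl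
    rfl
    rfl
    rfl
    rfl
    rfl
    rfl
    rfl
    rfl
    rfl
    rfl
    rfl
    rfl
    rfl
    rfl
    rfl
    rfl
    rfl
    rfl
    rfl
    rfl
    rfl
    rfl
    rfl
    rfl
    rfl
    rfl
    rfl
    rfl
    rfl
    rfl
    rfl
    rfl
    rfl
    rfl
    rfl
    rfl
    rfl
    rfl
    rfl
    rfl
    rfl
    rfl
    rfl
    rfl
    rfl
    rfl
    rfl
    rfl
    rfl
    rfl
    rfl
    rfl
    rfl
    rfl
    rfl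
    rfl
    rfl
    rfl
    rfl
    rfl
    rfl
    rfl
    rfl
    rfl
    rfl
    rfl
    rfl
    rfl
    rfl
    rfl
    rfl
    rfl
    rfl
    rfl
    rfl
    rfl
    rfl
    rfl
    rfl
    rfl
    rfl
    rfl
    rfl
    rfl
    rfl
    rfl
    rfl
    rfl
    rfl
    rfl
    rfl
    rfl
    rfl
    rfl
    (Tb.anb0 rfl)
    rfl
    rfl
    rfl
    rfl
    rfl
    rfl
    rfl
    rfl
    rfl
    rfl
    rfl
    rfl
    rfl
    rfl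
    rfl
    rfl
    rfl
    rfl
    rfl
    rfl
    rfl
    rfl
    (fun _ _ _ _ _ _ _ _ h => Ex1_b h)
    rfl
    rfl
    rfl
    rfl
    rfl
    rfl
    rfl
    rfl
    rfl
    rfl
    rfl
    rfl
    rfl
    rfl
    rfl
    rfl
    rfl
    rfl
    rfl
    rfl
    rfl
    rfl
    rfl
    (fun _ _ _ _ _ _ _ _ _ h => Lm3_b h)
    rfl
    rfl
    rfl
    rfl
    rfl
    rfl
    rfl
    rfl
    rfl
    rfl
    rfl
    rfl
    rfl
    rfl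
    rfl
    rfl
    rfl
    rfl
    rfl
    rfl
    (fun _ _ _ _ _ _ _ _ _ _ h => Lm3_b h)
    rfl
    rfl
    rfl
    rfl
    rfl
    rfl
    rfl
    rfl
    rfl
    rfl
    rfl
    rfl
    rfl
    rfl
    rfl
    rfl
    rfl
    rfl
    rfl
    (fun _ _ _ _ _ _ _ _ _ _ _ h => Lm3_b h)
    rfl
    rfl
    rfl
    rfl
    rfl
    rfl
    rfl
    rfl
    rfl
    rfl
    rfl
    rfl
    rfl
    rfl
    rfl
    (fun _ _ _ _ _ _ _ _ _ _ _ _ h => Ex4_b h)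
    rfl
    rfl
    rfl
    rfl
    rfl
    rfl
    rfl
    rfl
    rfl
    rfl
    rfl
    rfl
    rfl
    (fun _ _ _ _ _ _ _ _ _ _ _ _ _ h => Ex4_b h)
    rfl
    rfl
    rfl
    rfl
    rfl
    rfl
    rfl
    rfl
    rfl
    rfl
    rfl
    rfl
    rfl
    rfl
    rfl
    rfl
    rfl
    rfl
    rfl
    rfl
    rfl
    rfl
    rfl
    rfl
    rfl
    (fun _ _ _ _ _ _ _ _ _ _ _ _ _ _ h => Lm3_b h)
    rfl
    rfl
    rfl
    rfl
    rfl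
    rfl
    rfl
    rfl
    rfl
    (fun _ _ _ _ _ _ _ _ _ _ _ _ _ _ _ h => Ex4_b h)
    rfl
    rfl
    rfl
    rfl
    rfl
    rfl
    rfl
    rfl
    rfl
    rfl
    rfl
    rfl
    rfl
    rfl
    rfl
    rfl
    rfl
    rfl
    rfl
    rfl
    rfl
    rfl
    rfl
    rfl
    rfl
    rfl
    rfl
    rfl
    rfl
    rfl
    rfl
    rfl
    rfl
    rfl
    rfl
    rfl
    rfl
    rfl
    rfl
    rfl
    rfl
    rfl
    rfl
    rfl
    rfl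
    rfl
    rfl
    rfl
    rfl
    rfl
    rfl
    rfl
    rfl
    rfl
    rfl
    rfl
    rfl
    rfl
    rfl
    rfl
    rfl
    rfl
    rfl
    rfl
    rfl
    rfl
    rfl
    rfl
    rfl
    rfl
    rfl
    rfl
    rfl
    rfl
    rfl
    rfl
    rfl
    rfl
    rfl
    rfl
    rfl
    rfl
    rfl
    rfl
    rfl
    rfl
    rfl
    rfl
    rfl
    rfl
    rfl
    rfl
    rfl
    rfl
    rfl
    (fun _ _ _ _ _ _ _ _ _ _ _ _ _ _ _ _ _ _ _ _ h => Lm4_b h)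
    rfl
    rfl
    rfl
    rfl
    rfl
    rfl
    rfl
    rfl
    rfl
    rfl
    rfl
    rfl
    rfl
    rfl
    rfl
    rfl
    rfl
    rfl
    (fun _ _ _ _ _ _ _ _ _ _ _ _ _ _ _ _ _ _ _ _ _ _ h => Lm4_b h)
    rfl
    rfl
    rfl
    rfl
    rfl
    rfl
    rfl
    rfl
    rfl
    rfl
    rfl
    rfl
    rfl
    rfl
    rfl
    rfl
    rfl
    (fun _ _ _ _ _ _ _ _ _ _ _ _ _ _ _ _ _ _ _ _ _ _ _ h => Ex1_b h)
    rfl
    rfl
    rfl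
    rfl
    rfl
    rfl
    rfl
    rfl
    rfl
    rfl
    rfl
    rfl
    rfl
    (fun _ _ _ _ _ _ _ _ _ _ _ _ _ _ _ _ _ _ _ _ _ _ _ _ h => Ex1_b h)
    rfl
    rfl
    rfl
    rfl
    rfl
    rfl
    rfl
    rfl
    rfl
    rfl
    rfl
    rfl
    rfl
    rfl
    rfl
    rfl
    rfl
    rfl
    (fun _ _ _ _ _ _ _ _ _ _ _ _ _ _ _ _ _ _ _ _ _ _ _ _ _ _ _ => hr560)
    rfl
    rfl
    rfl
    rfl
    rfl
    rfl
    rfl
    rfl
    rfl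
    rfl
    rfl
    rfl
    rfl
    rfl
    rfl
    rfl
    rfl
    rfl
    rfl
    rfl
    (fun _ _ _ _ _ _ _ _ _ _ _ _ _ _ _ _ _ _ _ _ _ _ _ _ _ _ _ h => Ex1_b h)
    rfl
    rfl
    rfl
    rfl
    rfl
    rfl
    rfl
    rfl
    rfl
    rfl
    rfl
    rfl
    rfl
    (fun _ _ _ _ _ _ _ _ _ _ _ _ _ _ _ _ _ _ _ _ _ _ _ _ _ _ _ _ h => Ex1_b h)
    rfl
    rfl
    rfl
    rfl
    rfl
    rfl
    rfl
    rfl
    rfl
    rfl
    rfl
    rfl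
    rfl
    rfl
    rfl
    rfl
    rfl
    rfl
    rfl
    rfl
    rfl
    rfl
    rfl
    rfl
    (fun _ _ _ _ _ _ _ _ _ _ _ _ _ _ _ _ _ _ _ _ _ _ _ _ _ _ _ _ _ _ h => Ex4_b h)
    rfl
    rfl
    rfl
    rfl
    rfl
    rfl
    rfl
    rfl
    rfl
    rfl
    rfl
    rfl
    rfl
    rfl
    rfl
    rfl
    rfl
    rfl
    rfl
    rfl
    rfl
    rfl
    rfl
    rfl
    (fun _ _ _ _ _ _ _ _ _ _ _ _ _ _ _ _ _ _ _ _ _ _ _ _ _ _ _ _ _ _ _ _ _ _ _ => hr645)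

theorem mn0 {p : Pm} {ep s m : ℝ} {x : ℂ} (h : Pool.Agent.helper31.IX.Asserts (prog0 p) [(ep : ℂ), (s : ℂ), (m : ℂ), x]) :
    StW (ptM (GT p).nf 0 (bA (ep : ℂ) (s : ℂ) (m : ℂ)) (cU (bA (ep : ℂ) (s : ℂ) (m : ℂ)) (1 : ℂ) (oX (bA (ep : ℂ) (s : ℂ) (m : ℂ)) (p.nn).val (P2 (sl p) (Tb.deb (GT p) (bA (ep : ℂ) (s : ℂ) (m : ℂ))) (Tb.dbb (GT p) (bA (ep : ℂ) (s : ℂ) (m : ℂ)))))) x)
      (mG (ptM (GT p).nf 0 (bA (ep : ℂ) (s : ℂ) (m : ℂ)) (cU (bA (ep : ℂ) (s : ℂ) (m : ℂ)) (1 : ℂ) (oX (bA (ep : ℂ) (s : ℂ) (m : ℂ)) (p.nn).val (P2 (sl p) (Tb.deb (GT p) (bA (ep : ℂ) (s : ℂ) (m : ℂ))) (Tb.dbb (GT p) (bA (ep : ℂ) (s : ℂ) (m : ℂ)))))) x) (Tb.tkb (GT p) (tl p) (p.tj).val (bA (ep : ℂ) (s : ℂ) (m : ℂ)))) ∧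
    ClL (ptM (GT p).nf 0 (bA (ep : ℂ) (s : ℂ) (m : ℂ)) (cU (bA (ep : ℂ) (s : ℂ) (m : ℂ)) (1 : ℂ) (oX (bA (ep : ℂ) (s : ℂ) (m : ℂ)) (p.nn).val (P2 (sl p) (Tb.deb (GT p) (bA (ep : ℂ) (s : ℂ) (m : ℂ))) (Tb.dbb (GT p) (bA (ep : ℂ) (s : ℂ) (m : ℂ)))))) x)
      (fun F2 => (ptL (GT p).nf 0 (bA (ep : ℂ) (s : ℂ) (m : ℂ)) (cU (bA (ep : ℂ) (s : ℂ) (m : ℂ)) (1 : ℂ) (oX (bA (ep : ℂ) (s : ℂ) (m : ℂ)) (p.nn).val (P2 (sl p) (Tb.deb (GT p) (bA (ep : ℂ) (s : ℂ) (m : ℂ))) (Tb.dbb (GT p) (bA (ep : ℂ) (s : ℂ) (m : ℂ)))))) x (((p.ax).val * (bA (ep : ℂ) (s : ℂ) (m : ℂ)).ep) + (p.ay).val) (p.xa).val (p.C2).val F2)) (((p.B1 : ℕ) : ℝ) / 2 ^ 40) (4095 / 4096) := by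
  have hF : ‖(ptL (GT p).nf 0 (bA (ep : ℂ) (s : ℂ) (m : ℂ)) (cU (bA (ep : ℂ) (s : ℂ) (m : ℂ)) (1 : ℂ) (oX (bA (ep : ℂ) (s : ℂ) (m : ℂ)) (p.nn).val (P2 (sl p) (Tb.deb (GT p) (bA (ep : ℂ) (s : ℂ) (m : ℂ))) (Tb.dbb (GT p) (bA (ep : ℂ) (s : ℂ) (m : ℂ)))))) x (((p.ax).val * (bA (ep : ℂ) (s : ℂ) (m : ℂ)).ep) + (p.ay).val) (p.xa).val (p.C2).val 0).F2c - (ptL (GT p).nf 0 (bA (ep : ℂ) (s : ℂ) (m : ℂ)) (cU (bA (ep : ℂ) (s : ℂ) (m : ℂ)) (1 : ℂ) (oX (bA (ep : ℂ) (s : ℂ) (m : ℂ)) (p.nn).val (P2 (sl p) (Tb.deb (GT p) (bA (ep : ℂ) (s : ℂ) (m : ℂ))) (Tb.dbb (GT p) (bA (ep : ℂ) (s : ℂ) (m : ℂ)))))) x (((p.ax).val * (bA (ep : ℂ) (s : ℂ) (m : ℂ)).ep) + (p.ay).val) (p.xa).val (p.C2).val (ptL (GT p).nf 0 (bA (ep : ℂ) (s : ℂ) (m : ℂ)) (cU (bA (ep : ℂ) (s : ℂ) (m : ℂ)) (1 : ℂ) (oX (bA (ep : ℂ) (s : ℂ) (m : ℂ)) (p.nn).val (P2 (sl p) (Tb.deb (GT p) (bA (ep : ℂ) (s : ℂ) (m : ℂ))) (Tb.dbb (GT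 p) (bA (ep : ℂ) (s : ℂ) (m : ℂ)))))) x (((p.ax).val * (bA (ep : ℂ) (s : ℂ) (m : ℂ)).ep) + (p.ay).val) (p.xa).val (p.C2).val 0).F2c).F2c‖ ≤ ‖(ptL (GT p).nf 0 (bA (ep : ℂ) (s : ℂ) (m : ℂ)) (cU (bA (ep : ℂ) (s : ℂ) (m : ℂ)) (1 : ℂ) (oX (bA (ep : ℂ) (s : ℂ) (m : ℂ)) (p.nn).val (P2 (sl p) (Tb.deb (GT p) (bA (ep : ℂ) (s : ℂ) (m : ℂ))) (Tb.dbb (GT p) (bA (ep : ℂ) (s : ℂ) (m : ℂ)))))) x (((p.ax).val * (bA (ep : ℂ) (s : ℂ) (m : ℂ)).ep) + (p.ay).val) (p.xa).val (p.C2).val (ptL (GT p).nf 0 (bA (ep : ℂ) (s : ℂ) (m : ℂ)) (cU (bA (ep : ℂ) (s : ℂ) (m : ℂ)) (1 : ℂ) (oX (bA (ep : ℂ) (s : ℂ) (m : ℂ)) (p.nn).val (P2 (sl p) (Tb.deb (GT p) (bA (ep : ℂ) (s : ℂ) (m : ℂ))) (Tb.dbb (GT p) (bA (ep : ℂ) (s : ℂ) (m : ℂ)))))) x (((p.ax).val * (bA (ep : ℂ) (s : ℂ) (m : ℂ)).ep) + (p.ay).val) (p.xa).val (p.C2).val 0).F2c).er‖ := by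
    show ‖(ptL (GT p).nf 0 (bA (ep : ℂ) (s : ℂ) (m : ℂ)) (cU (bA (ep : ℂ) (s : ℂ) (m : ℂ)) (1 : ℂ) (oX (bA (ep : ℂ) (s : ℂ) (m : ℂ)) (p.nn).val (P2 (sl p) (Tb.deb (GT p) (bA (ep : ℂ) (s : ℂ) (m : ℂ))) (Tb.dbb (GT p) (bA (ep : ℂ) (s : ℂ) (m : ℂ)))))) x (((p.ax).val * (bA (ep : ℂ) (s : ℂ) (m : ℂ)).ep) + (p.ay).val) (p.xa).val (p.C2).val 0).F2c - (ptL (GT p).nf 0 (bA (ep : ℂ) (s : ℂ) (m : ℂ)) (cU (bA (ep : ℂ) (s : ℂ) (m : ℂ)) (1 : ℂ) (oX (bA (ep : ℂ) (s : ℂ) (m : ℂ)) (p.nn).val (P2 (sl p) (Tb.deb (GT p) (bA (ep : ℂ) (s : ℂ) (m : ℂ))) (Tb.dbb (GT p) (bA (ep : ℂ) (s : ℂ) (m : ℂ)))))) x (((p.ax).val * (bA (ep : ℂ) (s : ℂ) (m : ℂ)).ep) + (p.ay).val) (p.xa).val (p.C2).val 0).F2c‖ ≤ _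
    rw [sub_self, norm_zero]
    exact norm_nonneg _
  obtain ⟨a0, a1, a2, a3, a4, a5, a6, a7, a8, a9, a10, a11, a12, a13, a14, a15, a16, a17, a18, a19, a20, a21, a22, a23, a24, a25, a26, a27, a28, a29, a30, a31, a32, a33, a34, a35⟩ := mac0 (F2 := (ptL (GT p).nf 0 (bA (ep : ℂ) (s : ℂ) (m : ℂ)) (cU (bA (ep : ℂ) (s : ℂ) (m : ℂ)) (1 : ℂ) (oX (bA (ep : ℂ) (s : ℂ) (m : ℂ)) (p.nn).val (P2 (sl p) (Tb.deb (GT p) (bA (ep : ℂ) (s : ℂ) (m : ℂ))) (Tb.dbb (GT p) (bA (ep : ℂ) (s : ℂ) (m : ℂ)))))) x (((p.ax).val * (bA (ep : ℂ) (s : ℂ) (m : ℂ)).ep) + (p.ay).val) (p.xa).val (p.C2).val 0).F2c) (w := (ptL (GT p).nf 0 (bA (ep : ℂ) (s : ℂ) (m : ℂ)) (cU (bA (ep : ℂ) (s : ℂ) (m : ℂ)) (1 : ℂ) (oX (bA (ep : ℂ) (s : ℂ) (m : ℂ)) (p.nn).val (P2 (sl p) (Tb.deb (GT p) (bA (ep : ℂ) (s : ℂ) (m : ℂ))) (Tb.dbb (GT p) (bA (ep : ℂ) (s : ℂ) (m : ℂ)))))) x (((p.ax).val * (bA (ep : ℂ) (s : ℂ) (m : ℂ)).ep)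 + (p.ay).val) (p.xa).val (p.C2).val (ptL (GT p).nf 0 (bA (ep : ℂ) (s : ℂ) (m : ℂ)) (cU (bA (ep : ℂ) (s : ℂ) (m : ℂ)) (1 : ℂ) (oX (bA (ep : ℂ) (s : ℂ) (m : ℂ)) (p.nn).val (P2 (sl p) (Tb.deb (GT p) (bA (ep : ℂ) (s : ℂ) (m : ℂ))) (Tb.dbb (GT p) (bA (ep : ℂ) (s : ℂ) (m : ℂ)))))) x (((p.ax).val * (bA (ep : ℂ) (s : ℂ) (m : ℂ)).ep) + (p.ay).val) (p.xa).val (p.C2).val 0).F2c).A) h hF (by rw [sub_self, norm_zero]; exact norm_nonneg _)
  refine ⟨⟨(a3.trans (by norm_num)), (a9.trans (by norm_num)), (a10.trans (by norm_num)), (a11.trans (by norm_num)), (a14.trans (by norm_num)), a16, a33, a34, a32⟩, ?_, a31, a19, (a20.trans (by norm_num)), a21, (a22.trans (by norm_num)), a25, a26, a29, ?_⟩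
  · intro h0
    have h1 : 0 < ((ptL (GT p).nf 0 (bA (ep : ℂ) (s : ℂ) (m : ℂ)) (cU (bA (ep : ℂ) (s : ℂ) (m : ℂ)) (1 : ℂ) (oX (bA (ep : ℂ) (s : ℂ) (m : ℂ)) (p.nn).val (P2 (sl p) (Tb.deb (GT p) (bA (ep : ℂ) (s : ℂ) (m : ℂ))) (Tb.dbb (GT p) (bA (ep : ℂ) (s : ℂ) (m : ℂ)))))) x (((p.ax).val * (bA (ep : ℂ) (s : ℂ) (m : ℂ)).ep) + (p.ay).val) (p.xa).val (p.C2).val 0).M).re := a18
    rw [h0, Complex.zero_re] at h1
    exact lt_irrefl _ h1
  · intro F2 hF2 w hw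
    exact (mac0 (F2 := F2) (w := w) h hF2 hw).2.2.2.2.2.2.2.2.2.2.2.2.2.2.2.2.2.2.2.2.2.2.2.2.2.2.2.2.2.2.2.2.2.2.2

theorem tt0 {p : Pm} {ep s m : ℝ} {x : ℂ} (h : Pool.Agent.helper31.IX.Asserts (prog0 p) [(ep : ℂ), (s : ℂ), (m : ℂ), x]) :
    ‖(P2 (tl p) (Tb.deb (GT p) (bA (ep : ℂ) (s : ℂ) (m : ℂ))) (Tb.dbb (GT p) (bA (ep : ℂ) (s : ℂ) (m : ℂ))))‖ < 2 := by
  have hF : ‖(ptL (GT p).nf 0 (bA (ep : ℂ) (s : ℂ) (m : ℂ)) (cU (bA (ep : ℂ) (s : ℂ) (m : ℂ)) (1 : ℂ) (oX (bA (ep : ℂ) (s : ℂ) (m : ℂ)) (p.nn).val (P2 (sl p) (Tb.deb (GT p) (bA (ep : ℂ) (s : ℂ) (m : ℂ))) (Tb.dbb (GT p) (bA (ep : ℂ) (s : ℂ) (m : ℂ)))))) x (((p.ax).val * (bA (ep : ℂ) (s : ℂ) (m : ℂ)).ep) + (p.ay).val) (p.xa).val (p.C2).val 0).F2c - (ptL (GT p).nf 0 (bA (ep : ℂ) (s : ℂ) (m : ℂ)) (cU (bA (ep : ℂ) (s : ℂ) (m : ℂ)) (1 : ℂ) (oX (bA (ep : ℂ) (s : ℂ) (m : ℂ)) (p.nn).val (P2 (sl p) (Tb.deb (GT p) (bA (ep :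 ℂ) (s : ℂ) (m : ℂ))) (Tb.dbb (GT p) (bA (ep : ℂ) (s : ℂ) (m : ℂ)))))) x (((p.ax).val * (bA (ep : ℂ) (s : ℂ) (m : ℂ)).ep) + (p.ay).val) (p.xa).val (p.C2).val (ptL (GT p).nf 0 (bA (ep : ℂ) (s : ℂ) (m : ℂ)) (cU (bA (ep : ℂ) (s : ℂ) (m : ℂ)) (1 : ℂ) (oX (bA (ep : ℂ) (s : ℂ) (m : ℂ)) (p.nn).val (P2 (sl p) (Tb.deb (GT p) (bA (ep : ℂ) (s : ℂ) (m : ℂ))) (Tb.dbb (GT p) (bA (ep : ℂ) (s : ℂ) (m : ℂ)))))) x (((p.ax).val * (bA (ep : ℂ) (s : ℂ) (m : ℂ)).ep) + (p.ay).val) (p.xa).val (p.C2).val 0).F2c).F2c‖ ≤ ‖(ptL (GT p).nf 0 (bA (ep : ℂ) (s : ℂ) (m : ℂ)) (cU (bA (ep : ℂ) (s : ℂ) (m : ℂ)) (1 : ℂ) (oX (bA (ep : ℂ) (s : ℂ) (m : ℂ)) (p.nn).val (P2 (sl p) (Tb.deb (GT p) (bA (ep : ℂ) (s : ℂ) (m : ℂ))) (Tb.dbb (GT p) (bA (ep : ℂ) (s : ℂ) (m : ℂ)))))) x (((p.ax).val * (bA (ep : ℂ) (s : ℂ) (m : ℂ)).ep) + (p.ay).val) (p.xa).val (p.C2).val (ptL (GT p).nf 0 (bA (ep : ℂ) (s : ℂ) (m : ℂ)) (cU (bA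 (ep : ℂ) (s : ℂ) (m : ℂ)) (1 : ℂ) (oX (bA (ep : ℂ) (s : ℂ) (m : ℂ)) (p.nn).val (P2 (sl p) (Tb.deb (GT p) (bA (ep : ℂ) (s : ℂ) (m : ℂ))) (Tb.dbb (GT p) (bA (ep : ℂ) (s : ℂ) (m : ℂ)))))) x (((p.ax).val * (bA (ep : ℂ) (s : ℂ) (m : ℂ)).ep) + (p.ay).val) (p.xa).val (p.C2).val 0).F2c).er‖ := by
    show ‖(ptL (GT p).nf 0 (bA (ep : ℂ) (s : ℂ) (m : ℂ)) (cU (bA (ep : ℂ) (s : ℂ) (m : ℂ)) (1 : ℂ) (oX (bA (ep : ℂ) (s : ℂ) (m : ℂ)) (p.nn).val (P2 (sl p) (Tb.deb (GT p) (bA (ep : ℂ) (s : ℂ) (m : ℂ))) (Tb.dbb (GT p) (bA (ep : ℂ) (s : ℂ) (m : ℂ)))))) x (((p.ax).val * (bA (ep : ℂ) (s : ℂ) (m : ℂ)).ep) + (p.ay).val) (p.xa).val (p.C2).val 0).F2c - (ptL (GT p).nf 0 (bA (ep : ℂ) (s : ℂ) (m : ℂ)) (cU (bA (ep : ℂ) (s : ℂ) (m : ℂ)) (1 : ℂ) (oX (bA (ep : ℂ) (s : ℂ) (m : ℂ)) (p.nn).val (P2 (sl p) (Tb.deb (GT p) (bA (ep : ℂ) (s : ℂ) (m : ℂ))) (Tb.dbb (GT p) (bA (ep : ℂ) (s : ℂ) (m : ℂ)))))) x (((p.ax).val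 * (bA (ep : ℂ) (s : ℂ) (m : ℂ)).ep) + (p.ay).val) (p.xa).val (p.C2).val 0).F2c‖ ≤ _
    rw [sub_self, norm_zero]
    exact norm_nonneg _
  obtain ⟨a0, a1, a2, a3, a4, a5, a6, a7, a8, a9, a10, a11, a12, a13, a14, a15, a16, a17, a18, a19, a20, a21, a22, a23, a24, a25, a26, a27, a28, a29, a30, a31, a32, a33, a34, a35⟩ := mac0 (F2 := (ptL (GT p).nf 0 (bA (ep : ℂ) (s : ℂ) (m : ℂ)) (cU (bA (ep : ℂ) (s : ℂ) (m : ℂ)) (1 : ℂ) (oX (bA (ep : ℂ) (s : ℂ) (m : ℂ)) (p.nn).val (P2 (sl p) (Tb.deb (GT p) (bA (ep : ℂ) (s : ℂ) (m : ℂ))) (Tb.dbb (GT p) (bA (ep : ℂ) (s : ℂ) (m : ℂ)))))) x (((p.ax).val * (bA (ep : ℂ) (s : ℂ) (m : ℂ)).ep) + (p.ay).val) (p.xa).val (p.C2).val 0).F2c) (w := (ptL (GT p).nf 0 (bA (ep : ℂ) (s : ℂ) (m : ℂ)) (cU (bA (ep : ℂ) (s : ℂ) (m : ℂ)) (1 : ℂ) (oX (bA (ep : ℂ) (s : ℂ) (m : ℂ)) (p.nn).val (P2 (sl p) (Tb.deb (GT p) (bA (ep : ℂ) (s : ℂ) (m : ℂ))) (Tb.dbb (GT p)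 (bA (ep : ℂ) (s : ℂ) (m : ℂ)))))) x (((p.ax).val * (bA (ep : ℂ) (s : ℂ) (m : ℂ)).ep) + (p.ay).val) (p.xa).val (p.C2).val (ptL (GT p).nf 0 (bA (ep : ℂ) (s : ℂ) (m : ℂ)) (cU (bA (ep : ℂ) (s : ℂ) (m : ℂ)) (1 : ℂ) (oX (bA (ep : ℂ) (s : ℂ) (m : ℂ)) (p.nn).val (P2 (sl p) (Tb.deb (GT p) (bA (ep : ℂ) (s : ℂ) (m : ℂ))) (Tb.dbb (GT p) (bA (ep : ℂ) (s : ℂ) (m : ℂ)))))) x (((p.ax).val * (bA (ep : ℂ) (s : ℂ) (m : ℂ)).ep) + (p.ay).val) (p.xa).val (p.C2).val 0).F2c).A) h hF (by rw [sub_self, norm_zero]; exact norm_nonneg _)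
  exact a17

end Pool.Agent.helper12.GP.LA
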