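import Pool.Agent.helper12.GP.CorZ
import Pool.Agent.helper12.GP.MAM
import Pool.Agent.helper12.GP.MBM
import Pool.Agent.helper12.GP.LAM
import Pool.Agent.helper12.GP.LBM
import Pool.Agent.helper12.GP.FAM
import Pool.Agent.helper12.GP.FBM
import Pool.Agent.helper12.GP.MAQM
import Pool.Agent.helper12.GP.MBQM
import Pool.Agent.helper12.GP.LAQM
import Pool.Agent.helper12.GP.LBQM
import Pool.Agent.helper12.GP.FAQM
import Pool.Agent.helper12.GP.FBQM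

/-!
# The corner of a strip table from the certificates
-/

namespace Pool.Agent.helper12.GP

open Complex ComplexConjugate
open Pool.Agent.helper31.IA (Z)
open Pool.Agent.helper31.IX (Op Cov Asserts)
open Pool.Agent.helper12.RS Pool.Agent.helper12.FF Pool.Agent.helper63.RG
open Pool.Agent.helper63.NF Pool.Agent.helper20.EQR

/-- the certificates of a program on the circle; `(c, h)` the box of `ε` -/
structure CC (opsA opsB : List Op) (c h : ℕ) (b1 : ℝ) : Prop where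
  A : ∀ ep : ℝ, |ep - (c : ℝ) / 2 ^ 40| ≤ (h : ℝ) / 2 ^ 40 → ∀ s u : ℝ, 0 ≤ s → s ≤ 9 / 64 →
    0 ≤ u → u ≤ 1 → ∀ x : ℂ, ‖x‖ ≤ 1 → Asserts opsA [(ep : ℂ), (s : ℂ), (u : ℂ), x]
  B : ∀ ep : ℝ, |ep - (c : ℝ) / 2 ^ 40| ≤ (h : ℝ) / 2 ^ 40 → ∀ s u : ℝ, 0 ≤ s → s ≤ b1 →
    0 ≤ u → u ≤ 1 → 2 * s * u ≤ 9 / 64 → ∀ x : ℂ, ‖x‖ ≤ 1 →
    Asserts opsB [(ep : ℂ), (s : ℂ), (u : ℂ), x]

/-- the certificates of the first node -/
structure CF (opsA opsB : List Op) (c h : ℕ) (b1 : ℝ) : Prop where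
  A : ∀ ep : ℝ, |ep - (c : ℝ) / 2 ^ 40| ≤ (h : ℝ) / 2 ^ 40 → ∀ s u : ℝ, 0 ≤ s → s ≤ 1 / 20 →
    0 ≤ u → u ≤ 1 → ∀ x : ℂ, ‖x‖ ≤ 1 → Asserts opsA [(ep : ℂ), (s : ℂ), (u : ℂ), x]
  B : ∀ ep : ℝ, |ep - (c : ℝ) / 2 ^ 40| ≤ (h : ℝ) / 2 ^ 40 → ∀ s u : ℝ, 0 ≤ s → s ≤ b1 →
    0 ≤ u → u ≤ 1 → ∀ x : ℂ, ‖x‖ ≤ 1 → Asserts opsB [(ep : ℂ), (s : ℂ), (u : ℂ), x]

theorem cc15 {opsA opsB : List Op} {c h : ℕ}
    (hA : Cov 1 opsA [(c, h), (77309411328, 77309411328), (549755813888, 549755813888)])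
    (h0 : Cov 1 opsB [(c, h), (54975791104, 54975791104), (549755813888, 549755813888)])
    (h1 : Cov 1 opsB [(c, h), (137438953472, 27488419840), (386547056640, 386547056640)]) :
    CC opsA opsB c h (3 / 20) := by
  refine ⟨?_, ?_⟩
  · intro ep he s u hs hs1 hu hu1 x hx
    exact cov3 hA he (in1 (lo := 0) (hi := 9 / 64) hs hs1 (by norm_num) (by norm_num))
      (in1 (lo := 0) (hi := 1) hu hu1 (by norm_num) (by norm_num)) hx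
  · intro ep he s u hs hs1 hu hu1 hsu x hx
    rcases le_total s (1 / 10) with hc | hc
    · exact cov3 h0 he (in1 (lo := 0) (hi := 1 / 10) hs hc (by norm_num) (by norm_num))
        (in1 (lo := 0) (hi := 1) hu hu1 (by norm_num) (by norm_num)) hx
    · exact cov3 h1 he (in1 (lo := 1 / 10) (hi := 3 / 20) hc hs1 (by norm_num) (by norm_num))
        (in1 (lo := 0) (hi := 45 / 64) hu (by nlinarith) (by norm_num) (by norm_num)) hx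

theorem cc25 {opsA opsB : List Op} {c h : ℕ}
    (hA : Cov 1 opsA [(c, h), (77309411328, 77309411328), (549755813888, 549755813888)])
    (h0 : Cov 1 opsB [(c, h), (54975791104, 54975791104), (549755813888, 549755813888)])
    (h1 : Cov 1 opsB [(c, h), (142936637440, 32986103808), (386547056640, 386547056640)])
    (h2 : Cov 1 opsB [(c, h), (225399799808, 49478107136), (241591910400, 241591910400)]) :
    CC opsA opsB c h (1 / 4) := by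
  refine ⟨?_, ?_⟩
  · intro ep he s u hs hs1 hu hu1 x hx
    exact cov3 hA he (in1 (lo := 0) (hi := 9 / 64) hs hs1 (by norm_num) (by norm_num))
      (in1 (lo := 0) (hi := 1) hu hu1 (by norm_num) (by norm_num)) hx
  · intro ep he s u hs hs1 hu hu1 hsu x hx
    rcases le_total s (1 / 10) with hc | hc
    · exact cov3 h0 he (in1 (lo := 0) (hi := 1 / 10) hs hc (by norm_num) (by norm_num))
        (in1 (lo := 0) (hi := 1) hu hu1 (by norm_num) (by norm_num)) hx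
    · rcases le_total s (4 / 25) with hc2 | hc2
      · exact cov3 h1 he (in1 (lo := 1 / 10) (hi := 4 / 25) hc hc2 (by norm_num) (by norm_num))
          (in1 (lo := 0) (hi := 45 / 64) hu (by nlinarith) (by norm_num) (by norm_num)) hx
      · exact cov3 h2 he (in1 (lo := 4 / 25) (hi := 1 / 4) hc2 hs1 (by norm_num) (by norm_num))
          (in1 (lo := 0) (hi := 225 / 512) hu (by nlinarith) (by norm_num) (by norm_num)) hx

theorem cf15 {opsA opsB : List Op} {c h : ℕ}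
    (hA : Cov 1 opsA [(c, h), (27487895552, 27487895552), (549755813888, 549755813888)])
    (hB : Cov 1 opsB [(c, h), (82463686656, 82463686656), (549755813888, 549755813888)]) :
    CF opsA opsB c h (3 / 20) := by
  refine ⟨?_, ?_⟩
  · intro ep he s u hs hs1 hu hu1 x hx
    exact cov3 hA he (in1 (lo := 0) (hi := 1 / 20) hs hs1 (by norm_num) (by norm_num))
      (in1 (lo := 0) (hi := 1) hu hu1 (by norm_num) (by norm_num)) hx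
  · intro ep he s u hs hs1 hu hu1 x hx
    exact cov3 hB he (in1 (lo := 0) (hi := 3 / 20) hs hs1 (by norm_num) (by norm_num))
      (in1 (lo := 0) (hi := 1) hu hu1 (by norm_num) (by norm_num)) hx

theorem cf25 {opsA opsB : List Op} {c h : ℕ}
    (hA : Cov 1 opsA [(c, h), (27487895552, 27487895552), (549755813888, 549755813888)])
    (hB : Cov 1 opsB [(c, h), (137438953472, 137438953472), (549755813888, 549755813888)]) :
    CF opsA opsB c h (1 / 4) := by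
  refine ⟨?_, ?_⟩
  · intro ep he s u hs hs1 hu hu1 x hx
    exact cov3 hA he (in1 (lo := 0) (hi := 1 / 20) hs hs1 (by norm_num) (by norm_num))
      (in1 (lo := 0) (hi := 1) hu hu1 (by norm_num) (by norm_num)) hx
  · intro ep he s u hs hs1 hu hu1 x hx
    exact cov3 hB he (in1 (lo := 0) (hi := 1 / 4) hs hs1 (by norm_num) (by norm_num))
      (in1 (lo := 0) (hi := 1) hu hu1 (by norm_num) (by norm_num)) hx

theorem wi_ne {t : TD} {p : Pm} {q : PD} (hc : corOk t = true) (h : AgP t p q) :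
    (p.wi).val ≠ 0 := by
  unfold corOk at hc
  rw [h.pol] at hc
  simp only [Bool.and_eq_true, decide_eq_true_eq] at hc
  have h4 : (2199023255552 : ℝ) < (q.wi : ℤ) := by exact_mod_cast hc.2
  rw [h.wi, zi_val, cv_rv, Ne, ofReal_eq_zero]
  unfold rv
  have : (0 : ℝ) < (q.wi : ℤ) := by linarith
  positivity

variable {t : TD} {N0 m : ℕ} {e κ x0 : ℝ}

/-- **A middle node.** -/
theorem pc_midT {p : Pm} {c h : ℕ} {b1 : ℝ} (C : CC (MA.prog0 p) (MB.prog0 p) c h b1)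
    (hc : corOk t = true) (hpn : t.pol = none) (ag : AgZ1 t m p)
    (he : 4 ≤ e) (hκ : 0 < κ) (hb : e * κ ≤ 1 / 2) (hb1 : e * κ / 2 ≤ b1)
    (hep : |1 / e - (c : ℝ) / 2 ^ 40| ≤ (h : ℝ) / 2 ^ 40)
    (hS : SF t N0 e κ x0) (hm : m + 2 < N0) (hN : ((m + 1 : ℕ) : ℝ) ≤ 9 / 5 * e)
    (arc : ∀ T : ℂ, T + (Real.sinh κ : ℂ) ≠ 0 → ‖T‖ = 1 / 8 / e → ‖omT κ T‖ ≤ t.RR (m + 1) e κ →
      MidQ t.tb e κ θ0 (t.δ (m + 1) e κ) (t.Y (m + 1) e) m T) :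
    ∀ T : ℂ, T + (Real.sinh κ : ℂ) ≠ 0 → ‖T‖ ≤ 1 / 8 / e → ‖omT κ T‖ ≤ t.RR (m + 1) e κ →
      MidQ t.tb e κ θ0 (t.δ (m + 1) e κ) (t.Y (m + 1) e) m T :=
  have h0 : 0 < e * κ / 2 := by positivity
  td_mid hc he hκ hb hS hm hN ag (GT_ok p) (pol_none hpn p)
    (by
      have h1 := MB.tt0  (C.B (1 / e) hep (e * κ / 2) 0 h0.le hb1 le_rfl zero_le_one (by linarith) 0 (by simp))
      exact h1)
    (fun s u hs hs1 hu hu1 _ x hx => MA.mn0  (C.A (1 / e) hep s u hs.le hs1 hu.le hu1 x hx))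
    (fun s u hs hk hu hu1 hsu x hx => MB.mn0  (C.B (1 / e) hep s u hs.le (by rw [hk]; exact hb1) hu hu1 hsu x hx))
    arc

/-- **A middle node, with poles.** -/
theorem pc_midQ {p : Pm} {c h : ℕ} {b1 : ℝ} (C : CC (MAQ.prog0 p) (MBQ.prog0 p) c h b1)
    (hc : corOk t = true) {q : PD} (aq : AgP t p q) (ag : AgZ1 t m p)
    (he : 4 ≤ e) (hκ : 0 < κ) (hb : e * κ ≤ 1 / 2) (hb1 : e * κ / 2 ≤ b1)
    (hep : |1 / e - (c : ℝ) / 2 ^ 40| ≤ (h : ℝ) / 2 ^ 40)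
    (hS : SF t N0 e κ x0) (hm : m + 2 < N0) (hN : ((m + 1 : ℕ) : ℝ) ≤ 9 / 5 * e)
    (arc : ∀ T : ℂ, T + (Real.sinh κ : ℂ) ≠ 0 → ‖T‖ = 1 / 8 / e → ‖omT κ T‖ ≤ t.RR (m + 1) e κ →
      MidQ t.tb e κ θ0 (t.δ (m + 1) e κ) (t.Y (m + 1) e) m T) :
    ∀ T : ℂ, T + (Real.sinh κ : ℂ) ≠ 0 → ‖T‖ ≤ 1 / 8 / e → ‖omT κ T‖ ≤ t.RR (m + 1) e κ →
      MidQ t.tb e κ θ0 (t.δ (m + 1) e κ) (t.Y (m + 1) e) m T :=
  have h0 : 0 < e * κ / 2 := by positivity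
  td_mid hc he hκ hb hS hm hN ag (GQ_ok p) (pol_some aq)
    (by
      have h1 := MBQ.tt0 (wi_ne hc aq) (C.B (1 / e) hep (e * κ / 2) 0 h0.le hb1 le_rfl zero_le_one (by linarith) 0 (by simp))
      exact h1)
    (fun s u hs hs1 hu hu1 _ x hx => MAQ.mn0 (wi_ne hc aq) (C.A (1 / e) hep s u hs.le hs1 hu.le hu1 x hx))
    (fun s u hs hk hu hu1 hsu x hx => MBQ.mn0 (wi_ne hc aq) (C.B (1 / e) hep s u hs.le (by rw [hk]; exact hb1) hu hu1 hsu x hx))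
    arc

/-- **The last node.** -/
theorem pc_lastT {p : Pm} {c h : ℕ} {b1 : ℝ} (C : CC (LA.prog0 p) (LB.prog0 p) c h b1)
    (hc : corOk t = true) (hl : t.Okl) (hpn : t.pol = none) (ag : AgZ t m p) (al : AgL t p)
    (he : 4 ≤ e) (hκ : 0 < κ) (hb : e * κ ≤ 1 / 2) (hb1 : e * κ / 2 ≤ b1)
    (hep : |1 / e - (c : ℝ) / 2 ^ 40| ≤ (h : ℝ) / 2 ^ 40)
    (hS : SF t N0 e κ x0) (hm : m + 2 = N0) (hN : ((m + 1 : ℕ) : ℝ) ≤ 9 / 5 * e)
    (arc : ∀ T : ℂ, T + (Real.sinh κ : ℂ) ≠ 0 → ‖T‖ = 1 / 8 / e → ‖omT κ T‖ ≤ t.RR (m + 1) e κ →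
      LastP t.tb e κ θ0 (t.δ (m + 1) e κ) (t.Y (m + 1) e) (t.A e κ) t.x0 ((t.B1 : ℝ) / 2 ^ 40) m T) :
    ∀ T : ℂ, T + (Real.sinh κ : ℂ) ≠ 0 → ‖T‖ ≤ 1 / 8 / e → ‖omT κ T‖ ≤ t.RR (m + 1) e κ →
      LastP t.tb e κ θ0 (t.δ (m + 1) e κ) (t.Y (m + 1) e) (t.A e κ) t.x0 ((t.B1 : ℝ) / 2 ^ 40)
        m T :=
  have h0 : 0 < e * κ / 2 := by positivity
  td_last hc hl he hκ hb hS hm hN ag al (GT_ok p) (pol_none hpn p)
    (by
      have h1 := LB.tt0  (C.B (1 / e) hep (e * κ / 2) 0 h0.le hb1 le_rfl zero_le_one (by linarith) 0 (by simp))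
      exact h1)
    (fun s u hs hs1 hu hu1 _ x hx => LA.mn0  (C.A (1 / e) hep s u hs.le hs1 hu.le hu1 x hx))
    (fun s u hs hk hu hu1 hsu x hx => LB.mn0  (C.B (1 / e) hep s u hs.le (by rw [hk]; exact hb1) hu hu1 hsu x hx))
    arc

/-- **The last node, with poles.** -/
theorem pc_lastQ {p : Pm} {c h : ℕ} {b1 : ℝ} (C : CC (LAQ.prog0 p) (LBQ.prog0 p) c h b1)
    (hc : corOk t = true) (hl : t.Okl) {q : PD} (aq : AgP t p q) (ag : AgZ t m p) (al : AgL t p)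
    (he : 4 ≤ e) (hκ : 0 < κ) (hb : e * κ ≤ 1 / 2) (hb1 : e * κ / 2 ≤ b1)
    (hep : |1 / e - (c : ℝ) / 2 ^ 40| ≤ (h : ℝ) / 2 ^ 40)
    (hS : SF t N0 e κ x0) (hm : m + 2 = N0) (hN : ((m + 1 : ℕ) : ℝ) ≤ 9 / 5 * e)
    (arc : ∀ T : ℂ, T + (Real.sinh κ : ℂ) ≠ 0 → ‖T‖ = 1 / 8 / e → ‖omT κ T‖ ≤ t.RR (m + 1) e κ →
      LastP t.tb e κ θ0 (t.δ (m + 1) e κ) (t.Y (m + 1) e) (t.A e κ) t.x0 ((t.B1 : ℝ) / 2 ^ 40) m T) :
    ∀ T : ℂ, T + (Real.sinh κ : ℂ) ≠ 0 → ‖T‖ ≤ 1 / 8 / e → ‖omT κ T‖ ≤ t.RR (m + 1) e κ →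
      LastP t.tb e κ θ0 (t.δ (m + 1) e κ) (t.Y (m + 1) e) (t.A e κ) t.x0 ((t.B1 : ℝ) / 2 ^ 40)
        m T :=
  have h0 : 0 < e * κ / 2 := by positivity
  td_last hc hl he hκ hb hS hm hN ag al (GQ_ok p) (pol_some aq)
    (by
      have h1 := LBQ.tt0 (wi_ne hc aq) (C.B (1 / e) hep (e * κ / 2) 0 h0.le hb1 le_rfl zero_le_one (by linarith) 0 (by simp))
      exact h1)
    (fun s u hs hs1 hu hu1 _ x hx => LAQ.mn0 (wi_ne hc aq) (C.A (1 / e) hep s u hs.le hs1 hu.le hu1 x hx))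
    (fun s u hs hk hu hu1 hsu x hx => LBQ.mn0 (wi_ne hc aq) (C.B (1 / e) hep s u hs.le (by rw [hk]; exact hb1) hu hu1 hsu x hx))
    arc

/-- **The first node.** -/
theorem pc_zeroT {p : Pm} {c h : ℕ} {b1 : ℝ} (C : CF (FA.prog0 p) (FB.prog0 p) c h b1)
    (hc : corOk t = true) (hpn : t.pol = none) (ag : AgF t p)
    (he : 4 ≤ e) (hκ : 0 < κ) (hb1 : e * κ / 2 ≤ b1)
    (hep : |1 / e - (c : ℝ) / 2 ^ 40| ≤ (h : ℝ) / 2 ^ 40)
    (hS : SF t N0 e κ x0) (hN : 0 < N0) :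
    ∀ η : ℝ, 0 ≤ η → |κ * η| < Real.pi / 2 → Tab.vv e κ (Tb.gR e) η ≤ 1 / 20 →
    ZeroP t.tb e κ θ0 (t.δ 0 e κ) (t.Y 0 e) ((η : ℂ) * I) (t.L0 e κ ((η : ℂ) * I))
      (t.R0 e κ ((η : ℂ) * I)) (t.M0 e κ ((η : ℂ) * I)) :=
  td_zero hc he hκ hS hN ag (GT_ok p) (GT_ok0 p) (pol_none hpn p)
    (fun s u hs hs1 hu hu1 _ x hx => FA.mn0  (C.A (1 / e) hep s u hs.le hs1 hu.le hu1 x hx))
    (fun s u hs hk hu hu1 x hx => FB.mn0  (C.B (1 / e) hep s u hs.le (by rw [hk]; exact hb1) hu hu1 x hx))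

/-- **The first node, with poles.** -/
theorem pc_zeroQ {p : Pm} {c h : ℕ} {b1 : ℝ} (C : CF (FAQ.prog0 p) (FBQ.prog0 p) c h b1)
    (hc : corOk t = true) {q : PD} (aq : AgP t p q) (ag : AgF t p)
    (he : 4 ≤ e) (hκ : 0 < κ) (hb1 : e * κ / 2 ≤ b1)
    (hep : |1 / e - (c : ℝ) / 2 ^ 40| ≤ (h : ℝ) / 2 ^ 40)
    (hS : SF t N0 e κ x0) (hN : 0 < N0) :
    ∀ η : ℝ, 0 ≤ η → |κ * η| < Real.pi / 2 → Tab.vv e κ (Tb.gR e) η ≤ 1 / 20 →
    ZeroP t.tb e κ θ0 (t.δ 0 e κ) (t.Y 0 e) ((η : ℂ) * I) (t.L0 e κ ((η : ℂ) * I))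
      (t.R0 e κ ((η : ℂ) * I)) (t.M0 e κ ((η : ℂ) * I)) :=
  td_zero hc he hκ hS hN ag (GQ_ok p) (GQ_ok0 p) (pol_some aq)
    (fun s u hs hs1 hu hu1 _ x hx => FAQ.mn0 (wi_ne hc aq) (C.A (1 / e) hep s u hs.le hs1 hu.le hu1 x hx))
    (fun s u hs hk hu hu1 x hx => FBQ.mn0 (wi_ne hc aq) (C.B (1 / e) hep s u hs.le (by rw [hk]; exact hb1) hu hu1 x hx))

end Pool.Agent.helper12.GP
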